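import Pool.Agent.Helper58.KB.Chk
set_option autoImplicit false
set_option maxRecDepth 100000
namespace Pool.Agent.Helper58.KB

/-- the matrix of class `D1` -/
def MD1 : Mt := ⟨[1, 0, 0, 0, 0, 0, 0, 0, 0, 2], [0, 0, 0, -1], [0, 0, 0, 0, 0, 0, 0, -1], [0, 0, 0, 0, -1], [0, 1, 0, 0, 0, 0, 0, 0, 0, 2], [0, 0, 0, 0, 0, -1], [0, 0, 0, 0, 0, 0, 0, 0, 1], [0, 0, 0, 0, 0, 0, 1], [0, 0, 1, 0, 0, 0, 0, 0, 0, 2]⟩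

/-- the cubic polynomial of class `D1` -/
def GD1 : List (List (List ℤ)) := [[[], [0, 400, 0, 0, 0, 0, 0, 0, 800], [0, 0, 0, 0, 0, 0, 0, 800], [], [], [0, 400], [], [], [], [1600]], [[], [0, 0, 0, 0, 0, 0, 0, 800], [], [], [], [], [0, 400], [], [1600]], [[], [0, -400], [], [], [], [], [], [1600]], [[], [0, 0, 0, 0, 0, -800], [0, 0, 0, 400]], [[], [], [0, 400]], [[], [0, 0, 0, 800]], [], [[], [0, 800]], [], [[201]]]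

/-- the linear constraints of class `D1` -/
def stD1 : List Fm := [[0, 0, 0, 0, 0, 0, 0, 0, 0, -2, -1, -1, -1], [0, 0, 0, 0, 0, 0, 0, 0, 0, 2, 0, 0, -1], [0, 0, 0, 0, 0, 0, 0, 0, 0, 2, 0, 0, 1], [0, 0, 0, 0, 0, 0, 0, 0, 0, 2, 0, -1], [0, 0, 0, 0, 0, 0, 0, 0, 0, 2, 0, 1], [0, 0, 0, 0, 0, 0, 0, 0, 0, 2, -1], [0, 0, 0, 0, 0, 0, 0, 0, 0, 2, 1], [0, 0, 0, 0, 0, 0, 0, 0, 0, 134, -66, -66, 67], [0, 0, 0, 0, 0, 0, 0, 0, 0, 134, -66, -67, 66], [0, 0, 0, 0, 0, 0, 0, 0, 0, 134, -67, -66, 66], [0, 0, 0, 0, 0, 0, 0, 0, 0, 134, -66, 66, -67], [0, 0, 0, 0, 0, 0, 0, 0, 0, 134, -66, 67, -66], [0, 0, 0, 0, 0, 0, 0, 0, 0, 134, -67, 66, -66], [0, 0, 0, 0, 0, 0, 0, 0, 0, 134, 66, -66, -67], [0, 0, 0, 0, 0, 0, 0, 0, 0, 134, 66, -67, -66], [0, 0, 0, 0, 0, 0, 0, 0, 0, 134, 67, -66, -66], [0,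 0, 0, 0, 0, 0, 0, 0, 0, 134, 66, 66, 67], [0, 0, 0, 0, 0, 0, 0, 0, 0, 134, 66, 67, 66], [0, 0, 0, 0, 0, 0, 0, 0, 0, 134, 67, 66, 66], [0, 0, -1, 0, 0, 0, -1, 0, -1, 2], [0, -1, 0, 0, -1, -1, 0, 0, 0, 2], [-1, 0, 0, -1, 0, 0, 0, -1, 0, 2], [0, 0, -20, 0, 0, 0, 0, 0, 0, 13], [0, -20, 0, 0, 0, 0, 0, 0, 0, 13], [-20, 0, 0, 0, 0, 0, 0, 0, 0, 13]]

end Pool.Agent.Helper58.KB
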