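import Pool.Agent.Helper99.SPC.Check

/-!
# Kernel-evaluated trees for volume inequalities with twelve variables

Linear forms in `a, b, c, x, u, y, v, z, w, 1, p, q, r` are lists of (at most) thirteen integers; the
first nine variables are nonnegative. A tree of case distinctions proves that a cubic polynomial in
the first nine variables is nonnegative: its leaves are Farkas certificates (the case is impossible)
or sum-of-products certificates (checked by Kronecker substitution, see `Helper99.SPC.Check`).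
-/

set_option autoImplicit false

namespace Pool.Agent.Helper58.KB

open Pool.Agent.Helper99.SPC (lin cub quad check U sound10)

/-- linear forms -/
abbrev Fm := List ℤ

/-- sum -/
def fadd : Fm → Fm → Fm
  | a :: A, b :: B => (a + b) :: fadd A B
  | [], B => B
  | A, [] => A

/-- integer multiple -/
def fsm (c : ℤ) : Fm → Fm
  | a :: A => (c * a) :: fsm c A
  | [] => []

/-- nonnegative combination of forms of the stack -/
def fcomb : List (ℕ × ℕ) → List Fm → Fm
  | p :: l, st => fadd (fsm (Int.ofNat p.2) (st.getD p.1 [])) (fcomb l st)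
  | [], _ => []

theorem lin_nil (X : List ℝ) : lin [] X = 0 := by simp [lin]

theorem lin_fadd : ∀ (A B : Fm) (X : List ℝ), lin (fadd A B) X = lin A X + lin B X
  | a :: A, b :: B, x :: xs => by
      simp only [fadd, lin, lin_fadd A B xs]; push_cast; ring
  | a :: A, b :: B, [] => by simp [fadd, lin]
  | [], B, xs => by simp [fadd, lin_nil]
  | a :: A, [], xs => by simp [fadd, lin_nil]

theorem lin_fsm (c : ℤ) : ∀ (A : Fm) (X : List ℝ), lin (fsm c A) X = c * lin A X
  | a :: A, x :: xs => by simp only [fsm, lin, lin_fsm c A xs]; push_cast; ring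
  | a :: A, [] => by simp [fsm, lin]
  | [], xs => by simp [fsm, lin_nil]

theorem lin_getD {st : List Fm} {X : List ℝ} (h : ∀ f ∈ st, 0 ≤ lin f X) (n : ℕ) :
    0 ≤ lin (st.getD n []) X := by
  by_cases hn : n < st.length
  · rw [List.getD_eq_getElem _ _ hn]
    exact h _ (List.getElem_mem hn)
  · rw [List.getD_eq_default _ _ (not_lt.1 hn), lin_nil]

theorem lin_fcomb {st : List Fm} {X : List ℝ} (h : ∀ f ∈ st, 0 ≤ lin f X) :
    ∀ l : List (ℕ × ℕ), 0 ≤ lin (fcomb l st) X
  | p :: l => by
      rw [fcomb, lin_fadd, lin_fsm]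
      have h1 := lin_getD h p.1
      have h2 := lin_fcomb h l
      have h3 : (0 : ℝ) ≤ ((Int.ofNat p.2 : ℤ) : ℝ) := by simp
      positivity
  | [] => by rw [fcomb, lin_nil]

/-- `g ≤ f` -/
def ile (g f : ℤ) : Bool := match f - g with
  | Int.ofNat _ => true
  | Int.negSucc _ => false

theorem ile_sound {g f : ℤ} (h : ile g f = true) : g ≤ f := by
  unfold ile at h
  rcases hs : f - g with n | n
  · have : f - g = (n : ℤ) := hs
    omega
  · rw [hs] at h
    simp at h

/-- `f = 0` -/
def isz (f : ℤ) : Bool := match f with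
  | Int.ofNat n => Nat.beq n 0
  | Int.negSucc _ => false

theorem isz_sound {f : ℤ} (h : isz f = true) : f = 0 := by
  unfold isz at h
  rcases f with n | n
  · have := Nat.eq_of_beq_eq_true h
    subst this
    rfl
  · simp at h

/-- all coefficients vanish -/
def allz : Fm → Bool
  | g :: G => isz g && allz G
  | [] => true

/-- all coefficients agree -/
def domz : Fm → Fm → Bool
  | f :: F, g :: G => isz (f - g) && domz F G
  | f :: F, [] => isz f && domz F []
  | [], G => allz G

/-- the first `n` coefficients of `f` are at least those of `g`, the others are equal -/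
def dom : ℕ → Fm → Fm → Bool
  | n + 1, f :: F, g :: G => ile g f && dom n F G
  | n + 1, f :: F, [] => ile 0 f && dom n F []
  | n + 1, [], g :: G => ile g 0 && dom n [] G
  | _ + 1, [], [] => true
  | 0, F, G => domz F G

theorem allz_sound : ∀ (G : Fm) (X : List ℝ), allz G = true → lin G X = 0
  | g :: G, x :: xs, h => by
      simp only [allz, Bool.and_eq_true] at h
      simp only [lin, isz_sound h.1, allz_sound G xs h.2]
      simp
  | [], X, h => lin_nil X
  | g :: G, [], h => by simp [lin]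

theorem domz_sound : ∀ (F G : Fm) (X : List ℝ), domz F G = true → lin G X = lin F X
  | f :: F, g :: G, x :: xs, h => by
      simp only [domz, Bool.and_eq_true] at h
      have h1 := domz_sound F G xs h.2
      have h2 : f = g := by have := isz_sound h.1; omega
      subst h2
      simp only [lin]; linarith
  | f :: F, [], x :: xs, h => by
      simp only [domz, Bool.and_eq_true] at h
      have h1 := domz_sound F [] xs h.2
      rw [isz_sound h.1]
      rw [lin_nil] at h1
      rw [lin_nil]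
      simp only [lin]; push_cast; linarith
  | [], G, X, h => by
      simp only [domz] at h
      rw [allz_sound G X h, lin_nil]
  | f :: F, g :: G, [], h => by simp [lin]
  | f :: F, [], [], h => by simp [lin]

theorem dom_sound : ∀ (n : ℕ) (F G : Fm) (X : List ℝ), (∀ x ∈ X.take n, 0 ≤ x) →
    dom n F G = true → lin G X ≤ lin F X
  | n + 1, f :: F, g :: G, x :: xs, hx, h => by
      simp only [dom, Bool.and_eq_true] at h
      rw [List.take_succ_cons] at hx
      have h1 := dom_sound n F G xs (fun y hy => hx y (List.mem_cons_of_mem _ hy)) h.2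
      have h2 : (g : ℝ) ≤ f := by exact_mod_cast ile_sound h.1
      have h3 := mul_le_mul_of_nonneg_right h2 (hx x List.mem_cons_self)
      simp only [lin]; linarith
  | n + 1, f :: F, [], x :: xs, hx, h => by
      simp only [dom, Bool.and_eq_true] at h
      rw [List.take_succ_cons] at hx
      have h1 := dom_sound n F [] xs (fun y hy => hx y (List.mem_cons_of_mem _ hy)) h.2
      have h2 : (0 : ℝ) ≤ f := by exact_mod_cast ile_sound h.1
      have h3 := mul_nonneg h2 (hx x List.mem_cons_self)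
      rw [lin_nil] at h1
      rw [lin_nil]
      simp only [lin]; linarith
  | n + 1, [], g :: G, x :: xs, hx, h => by
      simp only [dom, Bool.and_eq_true] at h
      rw [List.take_succ_cons] at hx
      have h1 := dom_sound n [] G xs (fun y hy => hx y (List.mem_cons_of_mem _ hy)) h.2
      have h2 : (g : ℝ) ≤ 0 := by exact_mod_cast ile_sound h.1
      have h3 := mul_nonpos_of_nonpos_of_nonneg h2 (hx x List.mem_cons_self)
      rw [lin_nil] at h1
      rw [lin_nil]
      simp only [lin]; linarith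
  | 0, F, G, X, hx, h => by
      simp only [dom] at h
      exact (domz_sound F G X h).le
  | n + 1, [], [], X, hx, h => by simp [lin_nil]
  | n + 1, f :: F, g :: G, [], hx, h => by simp [lin]
  | n + 1, f :: F, [], [], hx, h => by simp [lin]
  | n + 1, [], g :: G, [], hx, h => by simp [lin]

/-! ### case distinctions -/

/-- integer coefficients of a linear combination `c0 x + c1 y + c2 z + d` -/
abbrev Cf := ℤ × ℤ × ℤ × ℤ

/-- the combination of forms -/
def cform (c : Cf) (f0 f1 f2 : Fm) : Fm :=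
  fadd (fsm c.1 f0) (fadd (fsm c.2.1 f1) (fadd (fsm c.2.2.1 f2) [0, 0, 0, 0, 0, 0, 0, 0, 0, c.2.2.2]))

/-- the value of the combination -/
def cval (c : Cf) (x y z : ℝ) : ℝ := c.1 * x + c.2.1 * y + c.2.2.1 * z + c.2.2.2

/-- the alternatives for the vector `(x,y,z)` of the difference body and of `2K`; `Q` is the
denominator of the slope -/
def cfs (Q : ℤ) : ℕ → List Cf
  | 0 => [(1, 0, 0, -2), (-1, 0, 0, -2), (0, 1, 0, -2), (0, -1, 0, -2), (0, 0, 1, -2), (0, 0, -1, -2),
      (1, 1, 1, -4), (-1, 1, 1, -4), (1, -1, 1, -4), (-1, -1, 1, -4),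
      (1, 1, -1, -4), (-1, 1, -1, -4), (1, -1, -1, -4), (-1, -1, -1, -4)]
  | 1 => [(-1, -1, -1, -2), (-1, 1, 1, -2), (1, -1, 1, -2), (1, 1, -1, -2)]
  | 2 => [(1, 0, 0, -2), (-1, 0, 0, -2), (0, 1, 0, -2), (0, -1, 0, -2), (0, 0, 1, -2), (0, 0, -1, -2),
      (Q + 1, Q, Q, -(4 * Q + 2)), (Q, Q + 1, Q, -(4 * Q + 2)), (Q, Q, Q + 1, -(4 * Q + 2)),
      (-(Q + 1), Q, Q, -(4 * Q + 2)), (-Q, Q + 1, Q, -(4 * Q + 2)), (-Q, Q, Q + 1, -(4 * Q + 2)),
      (Q + 1, -Q, Q, -(4 * Q + 2)), (Q, -(Q + 1), Q, -(4 * Q + 2)), (Q, -Q, Q + 1, -(4 * Q + 2)),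
      (-(Q + 1), -Q, Q, -(4 * Q + 2)), (-Q, -(Q + 1), Q, -(4 * Q + 2)), (-Q, -Q, Q + 1, -(4 * Q + 2)),
      (Q + 1, Q, -Q, -(4 * Q + 2)), (Q, Q + 1, -Q, -(4 * Q + 2)), (Q, Q, -(Q + 1), -(4 * Q + 2)),
      (-(Q + 1), Q, -Q, -(4 * Q + 2)), (-Q, Q + 1, -Q, -(4 * Q + 2)), (-Q, Q, -(Q + 1), -(4 * Q + 2)),
      (Q + 1, -Q, -Q, -(4 * Q + 2)), (Q, -(Q + 1), -Q, -(4 * Q + 2)), (Q, -Q, -(Q + 1), -(4 * Q + 2)),
      (-(Q + 1), -Q, -Q, -(4 * Q + 2)), (-Q, -(Q + 1), -Q, -(4 * Q + 2)),
      (-Q, -Q, -(Q + 1), -(4 * Q + 2))]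
  | _ => [(-(Q + 1), -Q, -Q, -(2 * Q + 2)), (-Q, -(Q + 1), -Q, -(2 * Q + 2)),
      (-Q, -Q, -(Q + 1), -(2 * Q + 2)),
      (-(Q + 1), Q, Q, -(2 * Q + 2)), (-Q, Q + 1, Q, -(2 * Q + 2)), (-Q, Q, Q + 1, -(2 * Q + 2)),
      (Q + 1, -Q, Q, -(2 * Q + 2)), (Q, -(Q + 1), Q, -(2 * Q + 2)), (Q, -Q, Q + 1, -(2 * Q + 2)),
      (Q + 1, Q, -Q, -(2 * Q + 2)), (Q, Q + 1, -Q, -(2 * Q + 2)), (Q, Q, -(Q + 1), -(2 * Q + 2))]

theorem lin_cform (c : Cf) (f0 f1 f2 : Fm) (a b c' x u y v z w p q r : ℝ) :
    lin (cform c f0 f1 f2) [a, b, c', x, u, y, v, z, w, 1, p, q, r] =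
      cval c (lin f0 [a, b, c', x, u, y, v, z, w, 1, p, q, r])
        (lin f1 [a, b, c', x, u, y, v, z, w, 1, p, q, r])
        (lin f2 [a, b, c', x, u, y, v, z, w, 1, p, q, r]) := by
  unfold cform cval
  rw [lin_fadd, lin_fadd, lin_fadd, lin_fsm, lin_fsm, lin_fsm]
  simp only [lin]
  push_cast
  ring

/-- the matrix of the lattice basis, as nine forms -/
structure Mt where
  (m00 m01 m02 m10 m11 m12 m20 m21 m22 : Fm)

/-- the coordinates of `i m0 + j m1 + k m2` plus the forms `f` -/
def comb3f (i j k : ℤ) (f0 f1 f2 f : Fm) : Fm :=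
  fadd (fsm i f0) (fadd (fsm j f1) (fadd (fsm k f2) f))

/-- the forms `p`, `q`, `r` or zero -/
def wf : ℕ → ℕ → Fm
  | 1, 0 => [0, 0, 0, 0, 0, 0, 0, 0, 0, 0, 1]
  | 1, 1 => [0, 0, 0, 0, 0, 0, 0, 0, 0, 0, 0, 1]
  | 1, _ => [0, 0, 0, 0, 0, 0, 0, 0, 0, 0, 0, 0, 1]
  | 3, 0 => [0, 0, 0, 0, 0, 0, 0, 0, 0, 0, 1]
  | 3, 1 => [0, 0, 0, 0, 0, 0, 0, 0, 0, 0, 0, 1]
  | 3, _ => [0, 0, 0, 0, 0, 0, 0, 0, 0, 0, 0, 0, 1]
  | _, _ => []

/-- the alternatives of a node -/
def altsOf (Q : ℤ) (M : Mt) (kind : ℕ) (i j k : ℤ) : List Fm :=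
  (cfs Q kind).map fun c => cform c (comb3f i j k M.m00 M.m10 M.m20 (wf kind 0))
    (comb3f i j k M.m01 M.m11 M.m21 (wf kind 1)) (comb3f i j k M.m02 M.m12 M.m22 (wf kind 2))

/-- proofs for the alternatives of a node -/
inductive Pf : Type where
  | dead (cs : List (ℕ × ℕ)) : Pf
  | red (s m : ℕ) (cs : List (ℕ × ℕ)) : Pf
  | kid : Pf

/-- the constant `-1` -/
def negone : Fm := [0, 0, 0, 0, 0, 0, 0, 0, 0, -1]

/-- the alternatives with subtrees -/
def kidAlts : List Pf → List Fm → List Fm
  | Pf.kid :: ps, f :: fs => f :: kidAlts ps fs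
  | Pf.dead _ :: ps, _ :: fs => kidAlts ps fs
  | Pf.red _ _ _ :: ps, _ :: fs => kidAlts ps fs
  | _, _ => []

/-- the check of the proofs of the alternatives -/
def okPr (KA st : List Fm) : List Pf → List Fm → Bool
  | Pf.kid :: ps, _ :: fs => okPr KA st ps fs
  | Pf.dead cs :: ps, f :: fs => dom 10 negone (fcomb cs (f :: st)) && okPr KA st ps fs
  | Pf.red s m cs :: ps, f :: fs =>
      (Nat.blt s KA.length && dom 10 (fsm (Int.ofNat (m + 1)) (KA.getD s [])) (fcomb cs (f :: st))) &&
        okPr KA st ps fs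
  | [], [] => true
  | _, _ => false

/-- the real point -/
abbrev Pt := List ℝ

/-- the point is admissible: thirteen entries, the first nine nonnegative, then `1` -/
structure Adm (X : List ℝ) : Prop where
  nn : ∀ x ∈ X.take 10, 0 ≤ x
  neg : lin negone X = -1

theorem not_dead {X : List ℝ} (hX : Adm X) {st : List Fm} (hst : ∀ f ∈ st, 0 ≤ lin f X)
    {cs : List (ℕ × ℕ)} (h : dom 10 negone (fcomb cs st) = true) : False := by
  have h1 := dom_sound 10 _ _ X hX.nn h
  have h2 := lin_fcomb hst cs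
  rw [hX.neg] at h1
  linarith

theorem okPr_sound {X : List ℝ} (hX : Adm X) {KA st : List Fm} (hst : ∀ f ∈ st, 0 ≤ lin f X) :
    ∀ (ps : List Pf) (fs : List Fm), okPr KA st ps fs = true →
      (∀ g ∈ kidAlts ps fs, g ∈ KA) → (∃ f ∈ fs, 0 ≤ lin f X) → ∃ g ∈ KA, 0 ≤ lin g X
  | Pf.kid :: ps, f :: fs, h, hk, ⟨g, hg, hg2⟩ => by
      rcases List.mem_cons.1 hg with rfl | hg
      · exact ⟨g, hk g (by simp [kidAlts]), hg2⟩
      · exact okPr_sound hX hst ps fs h (fun g' hg' => hk g' (by simp [kidAlts, hg'])) ⟨g, hg, hg2⟩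
  | Pf.dead cs :: ps, f :: fs, h, hk, ⟨g, hg, hg2⟩ => by
      simp only [okPr, Bool.and_eq_true] at h
      rcases List.mem_cons.1 hg with rfl | hg
      · refine (not_dead hX (st := g :: st) ?_ h.1).elim
        intro f' hf'
        rcases List.mem_cons.1 hf' with rfl | hf'
        · exact hg2
        · exact hst f' hf'
      · exact okPr_sound hX hst ps fs h.2 (fun g' hg' => hk g' (by simpa [kidAlts] using hg'))
          ⟨g, hg, hg2⟩
  | Pf.red s m cs :: ps, f :: fs, h, hk, ⟨g, hg, hg2⟩ => by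
      simp only [okPr, Bool.and_eq_true] at h
      rcases List.mem_cons.1 hg with rfl | hg
      · have h1 := dom_sound 10 _ _ X hX.nn h.1.2
        have h2 : 0 ≤ lin (fcomb cs (g :: st)) X := by
          refine lin_fcomb ?_ cs
          intro f' hf'
          rcases List.mem_cons.1 hf' with rfl | hf'
          · exact hg2
          · exact hst f' hf'
        have hs : s < KA.length := by
          have := h.1.1
          rwa [Nat.blt_eq] at this
        refine ⟨KA.getD s [], ?_, ?_⟩
        · rw [List.getD_eq_getElem _ _ hs]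
          exact List.getElem_mem hs
        · rw [lin_fsm] at h1
          have h3 : (0 : ℝ) < ((Int.ofNat (m + 1) : ℤ) : ℝ) := by
            have : ((Int.ofNat (m + 1) : ℤ) : ℝ) = (m : ℝ) + 1 := by push_cast; simp
            rw [this]; positivity
          by_contra hneg
          have := mul_neg_of_pos_of_neg h3 (not_le.1 hneg)
          linarith
      · exact okPr_sound hX hst ps fs h.2 (fun g' hg' => hk g' (by simpa [kidAlts] using hg'))
          ⟨g, hg, hg2⟩
  | [], fs, h, hk, ⟨g, hg, hg2⟩ => by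
      cases fs with
      | nil => simp at hg
      | cons f fs => simp [okPr] at h
  | Pf.kid :: ps, [], h, hk, ⟨g, hg, hg2⟩ => by simp at hg
  | Pf.dead cs :: ps, [], h, hk, ⟨g, hg, hg2⟩ => by simp at hg
  | Pf.red s m cs :: ps, [], h, hk, ⟨g, hg, hg2⟩ => by simp at hg

/-- certificates of a cubic inequality, see `SPC.Check` -/
abbrev Cert := List (List (List ℕ) × List (ℕ × List ℤ))

/-- trees -/
inductive T : Type where
  | far (cs : List (ℕ × ℕ)) : T
  | ref (n : ℕ) (cs : List (ℕ × List (ℕ × ℕ))) : T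
  | node (kind : ℕ) (i j k : ℤ) (ps : List Pf) (kids : T) : T
  | split (f : Fm) (t1 t2 : T) : T
  | cons (t ts : T) : T
  | nil : T

/-- a list of forms whose nonnegativity implies the cubic inequality -/
def Valid (G : List (List (List ℤ))) (F : List (List ℤ)) : Prop :=
  ∀ a b c x u y v z w : ℝ, 0 ≤ a → 0 ≤ b → 0 ≤ c → 0 ≤ x → 0 ≤ u → 0 ≤ y → 0 ≤ v → 0 ≤ z → 0 ≤ w →
    (∀ f ∈ F, 0 ≤ lin f [a, b, c, x, u, y, v, z, w, 1]) →
      0 ≤ cub G [a, b, c, x, u, y, v, z, w, 1]

theorem valid_of {G : List (List (List ℤ))} {F : List (List ℤ)} (K c0 : ℕ) (C : Cert)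
    (h : check K c0 G C (U F) = true) : Valid G F :=
  fun _ _ _ _ _ _ _ _ _ ha hb hc hx hu hy hv hz hw hL =>
    sound10 K c0 G C F ha hb hc hx hu hy hv hz hw hL h

/-- the forms follow from the stack -/
def okF (st : List Fm) : List (List ℤ) → List (ℕ × List (ℕ × ℕ)) → Bool
  | f :: F, p :: P => (Nat.ble f.length 10 && dom 10 (fsm (Int.ofNat (p.1 + 1)) f) (fcomb p.2 st)) &&
      okF st F P
  | [], _ => true
  | _ :: _, [] => false

/-- negative of a form -/
def fneg (f : Fm) : Fm := fsm (-1) f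

/-- the node is allowed: for the kinds `0` and `2` the vector is not zero -/
def okIJK (kind : ℕ) (i j k : ℤ) : Bool :=
  match kind with
  | 0 => !(isz i && isz j && isz k)
  | 2 => !(isz i && isz j && isz k)
  | _ => true

/-- the tree is not a list of trees -/
def T.isTree : T → Bool
  | .far _ => true
  | .ref _ _ => true
  | .node _ _ _ _ _ _ => true
  | .split _ _ _ => true
  | .cons _ _ => false
  | .nil => false

/-- the check of a tree; the lists of alternatives belong to `cons` and `nil` -/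
def T.chk (Q : ℤ) (M : Mt) (Fs : List (List (List ℤ))) : T → List Fm → List Fm → Bool
  | .far cs, _, st => dom 10 negone (fcomb cs st)
  | .ref n cs, _, st => Nat.blt n Fs.length && okF st (Fs.getD n []) cs
  | .node kind i j k ps kids, _, st =>
      (Nat.ble kind 3 && okIJK kind i j k) &&
        (okPr (kidAlts ps (altsOf Q M kind i j k)) st ps (altsOf Q M kind i j k) &&
          kids.chk Q M Fs (kidAlts ps (altsOf Q M kind i j k)) st)
  | .split f t1 t2, _, st =>
      (t1.isTree && t1.chk Q M Fs [] (f :: st)) && (t2.isTree && t2.chk Q M Fs [] (fneg f :: st))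
  | .cons t ts, a :: alts, st => (t.isTree && t.chk Q M Fs [] (a :: st)) && ts.chk Q M Fs alts st
  | .cons _ _, [], _ => true
  | .nil, [], _ => true
  | .nil, _ :: _, _ => false

theorem lin_append : ∀ (L : List ℤ) (A B : List ℝ), L.length ≤ A.length → lin L (A ++ B) = lin L A
  | l :: L, x :: xs, B, h => by
      simp only [List.cons_append, lin]
      rw [lin_append L xs B (by simpa using h)]
  | [], A, B, h => by rw [lin_nil, lin_nil]
  | l :: L, [], B, h => by simp at h

theorem okF_sound {X A B : List ℝ} (hX : Adm X) (hAB : X = A ++ B) (hA : A.length = 10) {st : List Fm}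
    (hst : ∀ f ∈ st, 0 ≤ lin f X) : ∀ (F : List (List ℤ)) (P : List (ℕ × List (ℕ × ℕ))),
      okF st F P = true → ∀ f ∈ F, 0 ≤ lin f A
  | f0 :: F, p :: P, h, f, hf => by
      simp only [okF, Bool.and_eq_true] at h
      simp only [List.mem_cons] at hf
      rcases hf with rfl | hf
      · have h0 := h.1.1
        rw [Nat.ble_eq] at h0
        have h1 := dom_sound 10 _ _ X hX.nn h.1.2
        have h2 := lin_fcomb hst p.2
        rw [lin_fsm] at h1
        rw [← lin_append f A B (by rw [hA]; exact h0), ← hAB]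
        have h3 : (0 : ℝ) < ((Int.ofNat (p.1 + 1) : ℤ) : ℝ) := by
          have : ((Int.ofNat (p.1 + 1) : ℤ) : ℝ) = (p.1 : ℝ) + 1 := by push_cast; simp
          rw [this]; positivity
        by_contra hneg
        have := mul_neg_of_pos_of_neg h3 (not_le.1 hneg)
        linarith
      · exact okF_sound hX hAB hA hst F P h.2 f hf
  | [], P, h, f, hf => by simp at hf
  | f0 :: F, [], h, f, hf => by simp [okF] at h

theorem T.chk_sound (Q : ℤ) (M : Mt) (G : List (List (List ℤ))) (Fs : List (List (List ℤ)))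
    (hFs : ∀ F ∈ Fs, Valid G F) {a b c x u y v z w p q r : ℝ}
    (ha : 0 ≤ a) (hb : 0 ≤ b) (hc : 0 ≤ c) (hx : 0 ≤ x) (hu : 0 ≤ u) (hy : 0 ≤ y) (hv : 0 ≤ v)
    (hz : 0 ≤ z) (hw : 0 ≤ w)
    (hD : ∀ (kind : ℕ) (i j k : ℤ), kind ≤ 3 → okIJK kind i j k = true →
      ∃ f ∈ altsOf Q M kind i j k, 0 ≤ lin f [a, b, c, x, u, y, v, z, w, 1, p, q, r]) :
    ∀ (t : T) (alts st : List Fm), (∀ f ∈ st, 0 ≤ lin f [a, b, c, x, u, y, v, z, w, 1, p, q, r]) →
      t.chk Q M Fs alts st = true →
        (t.isTree = true → 0 ≤ cub G [a, b, c, x, u, y, v, z, w, 1]) ∧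
        (t.isTree = false → ∀ f ∈ alts, 0 ≤ lin f [a, b, c, x, u, y, v, z, w, 1, p, q, r] →
          0 ≤ cub G [a, b, c, x, u, y, v, z, w, 1]) := by
  have hX : Adm [a, b, c, x, u, y, v, z, w, 1, p, q, r] := by
    constructor
    · intro t ht
      simp only [List.take_succ_cons, List.take_zero, List.mem_cons, List.not_mem_nil, or_false] at ht
      rcases ht with rfl | rfl | rfl | rfl | rfl | rfl | rfl | rfl | rfl | rfl <;>
        first | assumption | norm_num
    · simp [negone, lin]
  intro t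
  induction t with
  | far cs =>
    intro alts st hst h
    simp only [T.chk] at h
    exact (not_dead hX hst h).elim
  | ref n cs =>
    intro alts st hst h
    simp only [T.chk, Bool.and_eq_true] at h
    refine ⟨fun _ => ?_, fun hf => absurd hf (by simp [T.isTree])⟩
    have hn : n < Fs.length := by
      have := h.1
      rwa [Nat.blt_eq] at this
    refine hFs (Fs.getD n []) ?_ a b c x u y v z w ha hb hc hx hu hy hv hz hw ?_
    · rw [List.getD_eq_getElem _ _ hn]
      exact List.getElem_mem hn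
    · exact okF_sound (A := [a, b, c, x, u, y, v, z, w, 1]) (B := [p, q, r]) hX rfl rfl hst _ _ h.2
  | node kind i j k ps kids ih =>
    intro alts st hst h
    simp only [T.chk, Bool.and_eq_true] at h
    refine ⟨fun _ => ?_, fun hf => absurd hf (by simp [T.isTree])⟩
    obtain ⟨⟨h1, h2⟩, h3, h4⟩ := h
    rw [Nat.ble_eq] at h1
    obtain ⟨g, hg, hg2⟩ := okPr_sound hX hst ps _ h3 (fun g hg => hg) (hD kind i j k h1 h2)
    have h5 := ih _ st hst h4
    by_cases hk : kids.isTree = true
    · exact h5.1 hk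
    · exact h5.2 (by simpa using hk) g hg hg2
  | split f t1 t2 ih1 ih2 =>
    intro alts st hst h
    simp only [T.chk, Bool.and_eq_true] at h
    refine ⟨fun _ => ?_, fun hf => absurd hf (by simp [T.isTree])⟩
    rcases le_total 0 (lin f [a, b, c, x, u, y, v, z, w, 1, p, q, r]) with h0 | h0
    · refine (ih1 [] (f :: st) ?_ h.1.2).1 h.1.1
      intro g hg
      rcases List.mem_cons.1 hg with rfl | hg
      · exact h0
      · exact hst g hg
    · refine (ih2 [] (fneg f :: st) ?_ h.2.2).1 h.2.1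
      intro g hg
      rcases List.mem_cons.1 hg with rfl | hg
      · unfold fneg
        rw [lin_fsm]
        push_cast
        linarith
      · exact hst g hg
  | cons t ts ih1 ih2 =>
    intro alts st hst h
    refine ⟨fun hf => absurd hf (by simp [T.isTree]), fun _ f hf hf2 => ?_⟩
    cases alts with
    | nil => simp at hf
    | cons g alts =>
      simp only [T.chk, Bool.and_eq_true] at h
      rcases List.mem_cons.1 hf with rfl | hf
      · refine (ih1 [] (f :: st) ?_ h.1.2).1 h.1.1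
        intro g hg
        rcases List.mem_cons.1 hg with rfl | hg
        · exact hf2
        · exact hst g hg
      · by_cases hts : ts.isTree = true
        · exact (ih2 alts st hst h.2).1 hts
        · exact (ih2 alts st hst h.2).2 (by simpa using hts) f hf hf2
  | nil =>
    intro alts st hst h
    refine ⟨fun hf => absurd hf (by simp [T.isTree]), fun _ f hf hf2 => ?_⟩
    cases alts with
    | nil => simp at hf
    | cons g alts => simp [T.chk] at h

/-- soundness of a tree -/
theorem T.sound (Q : ℤ) (M : Mt) (G : List (List (List ℤ))) (Fs : List (List (List ℤ)))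
    (hFs : ∀ F ∈ Fs, Valid G F) {a b c x u y v z w p q r : ℝ}
    (ha : 0 ≤ a) (hb : 0 ≤ b) (hc : 0 ≤ c) (hx : 0 ≤ x) (hu : 0 ≤ u) (hy : 0 ≤ y) (hv : 0 ≤ v)
    (hz : 0 ≤ z) (hw : 0 ≤ w)
    (hD : ∀ (kind : ℕ) (i j k : ℤ), kind ≤ 3 → okIJK kind i j k = true →
      ∃ f ∈ altsOf Q M kind i j k, 0 ≤ lin f [a, b, c, x, u, y, v, z, w, 1, p, q, r])
    (t : T) (st : List Fm) (hst : ∀ f ∈ st, 0 ≤ lin f [a, b, c, x, u, y, v, z, w, 1, p, q, r])
    (h : (t.isTree && t.chk Q M Fs [] st) = true) : 0 ≤ cub G [a, b, c, x, u, y, v, z, w, 1] := by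
  rw [Bool.and_eq_true] at h
  exact (T.chk_sound Q M G Fs hFs ha hb hc hx hu hy hv hz hw hD t [] st hst h.2).1 h.1

end Pool.Agent.Helper58.KB
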