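import Pool.Agent.Helper84.Dbl.Defs
import Pool.Agent.Helper84.Tet.Defs
/-!
# The triakis tetrahedra `K_Q`

`K_Q` is the set of all `x` with `Q (n · x) + max_k n_k x_k ≤ Q + 1` for the four vectors
`n = (-1,-1,-1), (-1,1,1), (1,-1,1), (1,1,-1)`: the tetrahedron with low pyramids over its facets.
-/
set_option autoImplicit false
namespace Pool.Agent.Helper58.KB
open Pool.Agent.Helper84.Tet (E3)

/-- All the twelve facet forms of `K_Q` are at most `s` at the point `(x,y,z)`. -/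
def InK (Q s x y z : ℝ) : Prop :=
  (Q * (-x - y - z) - x ≤ s ∧ Q * (-x - y - z) - y ≤ s ∧ Q * (-x - y - z) - z ≤ s) ∧
  (Q * (-x + y + z) - x ≤ s ∧ Q * (-x + y + z) + y ≤ s ∧ Q * (-x + y + z) + z ≤ s) ∧
  (Q * (x - y + z) + x ≤ s ∧ Q * (x - y + z) - y ≤ s ∧ Q * (x - y + z) + z ≤ s) ∧
  (Q * (x + y - z) + x ≤ s ∧ Q * (x + y - z) + y ≤ s ∧ Q * (x + y - z) - z ≤ s)

/-- The triakis tetrahedron `K_Q`. -/
def triakis (Q : ℝ) : Set E3 := {v : E3 | InK Q (Q + 1) (v 0) (v 1) (v 2)}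

/-- `(x,y,z)` lies outside the interior of `2 K_Q`. -/
def OutTK (Q x y z : ℝ) : Prop :=
  (2 * Q + 2 ≤ Q * (-x - y - z) - x ∨ 2 * Q + 2 ≤ Q * (-x - y - z) - y ∨
    2 * Q + 2 ≤ Q * (-x - y - z) - z) ∨
  (2 * Q + 2 ≤ Q * (-x + y + z) - x ∨ 2 * Q + 2 ≤ Q * (-x + y + z) + y ∨
    2 * Q + 2 ≤ Q * (-x + y + z) + z) ∨
  (2 * Q + 2 ≤ Q * (x - y + z) + x ∨ 2 * Q + 2 ≤ Q * (x - y + z) - y ∨
    2 * Q + 2 ≤ Q * (x - y + z) + z) ∨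
  (2 * Q + 2 ≤ Q * (x + y - z) + x ∨ 2 * Q + 2 ≤ Q * (x + y - z) + y ∨
    2 * Q + 2 ≤ Q * (x + y - z) - z)

/-- `(x,y,z)` lies outside the interior of `K_Q - K_Q`. -/
def OutDK (Q x y z : ℝ) : Prop :=
  2 ≤ |x| ∨ 2 ≤ |y| ∨ 2 ≤ |z| ∨ 4 * Q + 2 ≤ Q * (|x| + |y| + |z|) + |x| ∨
    4 * Q + 2 ≤ Q * (|x| + |y| + |z|) + |y| ∨ 4 * Q + 2 ≤ Q * (|x| + |y| + |z|) + |z|

/-- The coset points `(p,q,r) + i m1 + j m2 + k m3` lie outside the interior of `2 K_Q`. -/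
def OutAll (Q p q r m11 m12 m13 m21 m22 m23 m31 m32 m33 : ℝ) : Prop :=
  ∀ i j k : ℤ, OutTK Q (p + i * m11 + j * m21 + k * m31) (q + i * m12 + j * m22 + k * m32)
    (r + i * m13 + j * m23 + k * m33)

/-- The hypotheses of the volume estimate: three lattice vectors `m1, m2, m3`, and for each of the
four facet types a point `(p,q,r)` of the boundary of `2 K_Q` on this facet, such that the coset of
`(p,q,r)` does not meet the interior of `2 K_Q`. -/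
structure Hyp (Q κ m11 m12 m13 m21 m22 m23 m31 m32 m33 : ℝ) : Prop where
  d1 : 2 ≤ m11
  d2 : 2 ≤ m22
  d3 : 2 ≤ m33
  k1 : m11 ≤ κ
  k2 : m22 ≤ κ
  k3 : m33 ≤ κ
  r1 : m11 + |m12| + |m13| ≤ 4
  r2 : m22 + |m21| + |m23| ≤ 4
  r3 : m33 + |m31| + |m32| ≤ 4
  adm : ∀ i j k : ℤ, ¬ (i = 0 ∧ j = 0 ∧ k = 0) →
    OutDK Q (i * m11 + j * m21 + k * m31) (i * m12 + j * m22 + k * m32)
      (i * m13 + j * m23 + k * m33)
  h0 : ∃ p q r : ℝ, InK Q (2 * Q + 2) p q r ∧ 2 ≤ -p - q - r ∧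
    OutAll Q p q r m11 m12 m13 m21 m22 m23 m31 m32 m33
  h1 : ∃ p q r : ℝ, InK Q (2 * Q + 2) p q r ∧ 2 ≤ -p + q + r ∧
    OutAll Q p q r m11 m12 m13 m21 m22 m23 m31 m32 m33
  h2 : ∃ p q r : ℝ, InK Q (2 * Q + 2) p q r ∧ 2 ≤ p - q + r ∧
    OutAll Q p q r m11 m12 m13 m21 m22 m23 m31 m32 m33
  h3 : ∃ p q r : ℝ, InK Q (2 * Q + 2) p q r ∧ 2 ≤ p + q - r ∧
    OutAll Q p q r m11 m12 m13 m21 m22 m23 m31 m32 m33

end Pool.Agent.Helper58.KB
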