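import Pool.Agent.Helper58.KB.Chk
import Pool.Agent.Helper58.KB.Defs
/-!
# From the geometric conditions to the alternatives of the checker
-/
set_option autoImplicit false
namespace Pool.Agent.Helper58.KB
open Pool.Agent.Helper99.SPC (lin)

theorem alts2 {Q : ℤ} {x y z : ℝ} (h : OutDK Q x y z) : ∃ c ∈ cfs Q 2, 0 ≤ cval c x y z := by
  rcases h with h | h | h | h | h | h
  · rcases abs_cases x with ⟨h1, h2⟩ | ⟨h1, h2⟩
    · exact ⟨(1, 0, 0, -2), by simp [cfs], by simp only [cval]; push_cast; linarith⟩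
    · exact ⟨(-1, 0, 0, -2), by simp [cfs], by simp only [cval]; push_cast; linarith⟩
  · rcases abs_cases y with ⟨h1, h2⟩ | ⟨h1, h2⟩
    · exact ⟨(0, 1, 0, -2), by simp [cfs], by simp only [cval]; push_cast; linarith⟩
    · exact ⟨(0, -1, 0, -2), by simp [cfs], by simp only [cval]; push_cast; linarith⟩
  · rcases abs_cases z with ⟨h1, h2⟩ | ⟨h1, h2⟩
    · exact ⟨(0, 0, 1, -2), by simp [cfs], by simp only [cval]; push_cast; linarith⟩
    · exact ⟨(0, 0, -1, -2), by simp [cfs], by simp only [cval]; push_cast; linarith⟩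
  · rcases abs_cases x with ⟨h1, h2⟩ | ⟨h1, h2⟩ <;> rcases abs_cases y with ⟨h3, h4⟩ | ⟨h3, h4⟩ <;>
      rcases abs_cases z with ⟨h5, h6⟩ | ⟨h5, h6⟩ <;> rw [h1, h3, h5] at h
    · exact ⟨(Q + 1, Q, Q, -(4 * Q + 2)), by simp [cfs],
        by simp only [cval]; push_cast; linarith⟩
    · exact ⟨(Q + 1, Q, -Q, -(4 * Q + 2)), by simp [cfs],
        by simp only [cval]; push_cast; linarith⟩
    · exact ⟨(Q + 1, -Q, Q, -(4 * Q + 2)), by simp [cfs],
        by simp only [cval]; push_cast; linarith⟩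
    · exact ⟨(Q + 1, -Q, -Q, -(4 * Q + 2)), by simp [cfs],
        by simp only [cval]; push_cast; linarith⟩
    · exact ⟨(-(Q + 1), Q, Q, -(4 * Q + 2)), by simp [cfs],
        by simp only [cval]; push_cast; linarith⟩
    · exact ⟨(-(Q + 1), Q, -Q, -(4 * Q + 2)), by simp [cfs],
        by simp only [cval]; push_cast; linarith⟩
    · exact ⟨(-(Q + 1), -Q, Q, -(4 * Q + 2)), by simp [cfs],
        by simp only [cval]; push_cast; linarith⟩
    · exact ⟨(-(Q + 1), -Q, -Q, -(4 * Q + 2)), by simp [cfs],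
        by simp only [cval]; push_cast; linarith⟩
  · rcases abs_cases x with ⟨h1, h2⟩ | ⟨h1, h2⟩ <;> rcases abs_cases y with ⟨h3, h4⟩ | ⟨h3, h4⟩ <;>
      rcases abs_cases z with ⟨h5, h6⟩ | ⟨h5, h6⟩ <;> rw [h1, h3, h5] at h
    · exact ⟨(Q, Q + 1, Q, -(4 * Q + 2)), by simp [cfs],
        by simp only [cval]; push_cast; linarith⟩
    · exact ⟨(Q, Q + 1, -Q, -(4 * Q + 2)), by simp [cfs],
        by simp only [cval]; push_cast; linarith⟩
    · exact ⟨(Q, -(Q + 1), Q, -(4 * Q + 2)), by simp [cfs],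
        by simp only [cval]; push_cast; linarith⟩
    · exact ⟨(Q, -(Q + 1), -Q, -(4 * Q + 2)), by simp [cfs],
        by simp only [cval]; push_cast; linarith⟩
    · exact ⟨(-Q, Q + 1, Q, -(4 * Q + 2)), by simp [cfs],
        by simp only [cval]; push_cast; linarith⟩
    · exact ⟨(-Q, Q + 1, -Q, -(4 * Q + 2)), by simp [cfs],
        by simp only [cval]; push_cast; linarith⟩
    · exact ⟨(-Q, -(Q + 1), Q, -(4 * Q + 2)), by simp [cfs],
        by simp only [cval]; push_cast; linarith⟩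
    · exact ⟨(-Q, -(Q + 1), -Q, -(4 * Q + 2)), by simp [cfs],
        by simp only [cval]; push_cast; linarith⟩
  · rcases abs_cases x with ⟨h1, h2⟩ | ⟨h1, h2⟩ <;> rcases abs_cases y with ⟨h3, h4⟩ | ⟨h3, h4⟩ <;>
      rcases abs_cases z with ⟨h5, h6⟩ | ⟨h5, h6⟩ <;> rw [h1, h3, h5] at h
    · exact ⟨(Q, Q, Q + 1, -(4 * Q + 2)), by simp [cfs],
        by simp only [cval]; push_cast; linarith⟩
    · exact ⟨(Q, Q, -(Q + 1), -(4 * Q + 2)), by simp [cfs],
        by simp only [cval]; push_cast; linarith⟩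
    · exact ⟨(Q, -Q, Q + 1, -(4 * Q + 2)), by simp [cfs],
        by simp only [cval]; push_cast; linarith⟩
    · exact ⟨(Q, -Q, -(Q + 1), -(4 * Q + 2)), by simp [cfs],
        by simp only [cval]; push_cast; linarith⟩
    · exact ⟨(-Q, Q, Q + 1, -(4 * Q + 2)), by simp [cfs],
        by simp only [cval]; push_cast; linarith⟩
    · exact ⟨(-Q, Q, -(Q + 1), -(4 * Q + 2)), by simp [cfs],
        by simp only [cval]; push_cast; linarith⟩
    · exact ⟨(-Q, -Q, Q + 1, -(4 * Q + 2)), by simp [cfs],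
        by simp only [cval]; push_cast; linarith⟩
    · exact ⟨(-Q, -Q, -(Q + 1), -(4 * Q + 2)), by simp [cfs],
        by simp only [cval]; push_cast; linarith⟩

theorem outD_of_K {Q x y z : ℝ} (hQ : 0 < Q) (h : OutDK Q x y z) :
    2 ≤ |x| ∨ 2 ≤ |y| ∨ 2 ≤ |z| ∨ 4 ≤ |x| + |y| + |z| := by
  by_contra hc
  push Not at hc
  obtain ⟨h1, h2, h3, h4⟩ := hc
  have h5 := mul_lt_mul_of_pos_left h4 hQ
  rcases h with h | h | h | h | h | h <;> linarith

theorem alts0 {Q : ℤ} {x y z : ℝ} (hQ : (0 : ℝ) < Q) (h : OutDK Q x y z) :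
    ∃ c ∈ cfs Q 0, 0 ≤ cval c x y z := by
  rcases outD_of_K hQ h with h | h | h | h
  · rcases abs_cases x with ⟨h1, h2⟩ | ⟨h1, h2⟩
    · exact ⟨(1, 0, 0, -2), by simp [cfs], by simp only [cval]; push_cast; linarith⟩
    · exact ⟨(-1, 0, 0, -2), by simp [cfs], by simp only [cval]; push_cast; linarith⟩
  · rcases abs_cases y with ⟨h1, h2⟩ | ⟨h1, h2⟩
    · exact ⟨(0, 1, 0, -2), by simp [cfs], by simp only [cval]; push_cast; linarith⟩
    · exact ⟨(0, -1, 0, -2), by simp [cfs], by simp only [cval]; push_cast; linarith⟩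
  · rcases abs_cases z with ⟨h1, h2⟩ | ⟨h1, h2⟩
    · exact ⟨(0, 0, 1, -2), by simp [cfs], by simp only [cval]; push_cast; linarith⟩
    · exact ⟨(0, 0, -1, -2), by simp [cfs], by simp only [cval]; push_cast; linarith⟩
  · rcases abs_cases x with ⟨h1, h2⟩ | ⟨h1, h2⟩ <;> rcases abs_cases y with ⟨h3, h4⟩ | ⟨h3, h4⟩ <;>
      rcases abs_cases z with ⟨h5, h6⟩ | ⟨h5, h6⟩ <;> rw [h1, h3, h5] at h
    · exact ⟨(1, 1, 1, -4), by simp [cfs], by simp only [cval]; push_cast; linarith⟩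
    · exact ⟨(1, 1, -1, -4), by simp [cfs], by simp only [cval]; push_cast; linarith⟩
    · exact ⟨(1, -1, 1, -4), by simp [cfs], by simp only [cval]; push_cast; linarith⟩
    · exact ⟨(1, -1, -1, -4), by simp [cfs], by simp only [cval]; push_cast; linarith⟩
    · exact ⟨(-1, 1, 1, -4), by simp [cfs], by simp only [cval]; push_cast; linarith⟩
    · exact ⟨(-1, 1, -1, -4), by simp [cfs], by simp only [cval]; push_cast; linarith⟩
    · exact ⟨(-1, -1, 1, -4), by simp [cfs], by simp only [cval]; push_cast; linarith⟩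
    · exact ⟨(-1, -1, -1, -4), by simp [cfs], by simp only [cval]; push_cast; linarith⟩

theorem alts3 {Q : ℤ} {x y z : ℝ} (h : OutTK Q x y z) : ∃ c ∈ cfs Q 3, 0 ≤ cval c x y z := by
  rcases h with (h | h | h) | (h | h | h) | (h | h | h) | (h | h | h)
  · exact ⟨(-(Q + 1), -Q, -Q, -(2 * Q + 2)), by simp [cfs], by simp only [cval]; push_cast; linarith⟩
  · exact ⟨(-Q, -(Q + 1), -Q, -(2 * Q + 2)), by simp [cfs], by simp only [cval]; push_cast; linarith⟩
  · exact ⟨(-Q, -Q, -(Q + 1), -(2 * Q + 2)), by simp [cfs], by simp only [cval]; push_cast; linarith⟩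
  · exact ⟨(-(Q + 1), Q, Q, -(2 * Q + 2)), by simp [cfs], by simp only [cval]; push_cast; linarith⟩
  · exact ⟨(-Q, Q + 1, Q, -(2 * Q + 2)), by simp [cfs], by simp only [cval]; push_cast; linarith⟩
  · exact ⟨(-Q, Q, Q + 1, -(2 * Q + 2)), by simp [cfs], by simp only [cval]; push_cast; linarith⟩
  · exact ⟨(Q + 1, -Q, Q, -(2 * Q + 2)), by simp [cfs], by simp only [cval]; push_cast; linarith⟩
  · exact ⟨(Q, -(Q + 1), Q, -(2 * Q + 2)), by simp [cfs], by simp only [cval]; push_cast; linarith⟩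
  · exact ⟨(Q, -Q, Q + 1, -(2 * Q + 2)), by simp [cfs], by simp only [cval]; push_cast; linarith⟩
  · exact ⟨(Q + 1, Q, -Q, -(2 * Q + 2)), by simp [cfs], by simp only [cval]; push_cast; linarith⟩
  · exact ⟨(Q, Q + 1, -Q, -(2 * Q + 2)), by simp [cfs], by simp only [cval]; push_cast; linarith⟩
  · exact ⟨(Q, Q, -(Q + 1), -(2 * Q + 2)), by simp [cfs], by simp only [cval]; push_cast; linarith⟩

theorem outT_of_K {Q x y z : ℝ} (hQ : 0 < Q) (h : OutTK Q x y z) :
    2 ≤ -x - y - z ∨ 2 ≤ -x + y + z ∨ 2 ≤ x - y + z ∨ 2 ≤ x + y - z := by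
  by_contra hc
  push Not at hc
  obtain ⟨h1, h2, h3, h4⟩ := hc
  have g1 := mul_lt_mul_of_pos_left h1 hQ
  have g2 := mul_lt_mul_of_pos_left h2 hQ
  have g3 := mul_lt_mul_of_pos_left h3 hQ
  have g4 := mul_lt_mul_of_pos_left h4 hQ
  rcases h with (h | h | h) | (h | h | h) | (h | h | h) | (h | h | h) <;> linarith

theorem alts1 {Q : ℤ} {x y z : ℝ} (hQ : (0 : ℝ) < Q) (h : OutTK Q x y z) :
    ∃ c ∈ cfs Q 1, 0 ≤ cval c x y z := by
  rcases outT_of_K hQ h with h | h | h | h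
  · exact ⟨(-1, -1, -1, -2), by simp [cfs], by simp only [cval]; push_cast; linarith⟩
  · exact ⟨(-1, 1, 1, -2), by simp [cfs], by simp only [cval]; push_cast; linarith⟩
  · exact ⟨(1, -1, 1, -2), by simp [cfs], by simp only [cval]; push_cast; linarith⟩
  · exact ⟨(1, 1, -1, -2), by simp [cfs], by simp only [cval]; push_cast; linarith⟩

/-- The values of the nine forms of the matrix. -/
structure Vals (M : Mt) (X : List ℝ) (m11 m12 m13 m21 m22 m23 m31 m32 m33 : ℝ) : Prop where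
  e11 : lin M.m00 X = m11
  e12 : lin M.m01 X = m12
  e13 : lin M.m02 X = m13
  e21 : lin M.m10 X = m21
  e22 : lin M.m11 X = m22
  e23 : lin M.m12 X = m23
  e31 : lin M.m20 X = m31
  e32 : lin M.m21 X = m32
  e33 : lin M.m22 X = m33

theorem lin_comb3f (i j k : ℤ) (f0 f1 f2 f : Fm) (X : List ℝ) :
    lin (comb3f i j k f0 f1 f2 f) X = i * lin f0 X + (j * lin f1 X + (k * lin f2 X + lin f X)) := by
  unfold comb3f
  rw [lin_fadd, lin_fadd, lin_fadd, lin_fsm, lin_fsm, lin_fsm]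

/-- The alternatives of all nodes hold. -/
theorem alts_hold {Q : ℤ} (hQ : (0 : ℝ) < Q) {M : Mt} {a b c x u y v z w p q r : ℝ}
    {m11 m12 m13 m21 m22 m23 m31 m32 m33 : ℝ}
    (hM : Vals M [a, b, c, x, u, y, v, z, w, 1, p, q, r] m11 m12 m13 m21 m22 m23 m31 m32 m33)
    (hadm : ∀ i j k : ℤ, ¬ (i = 0 ∧ j = 0 ∧ k = 0) →
      OutDK Q (i * m11 + j * m21 + k * m31) (i * m12 + j * m22 + k * m32)
        (i * m13 + j * m23 + k * m33))
    (hout : OutAll Q p q r m11 m12 m13 m21 m22 m23 m31 m32 m33)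
    (kind : ℕ) (i j k : ℤ) (hk : kind ≤ 3) (hok : okIJK kind i j k = true) :
    ∃ f ∈ altsOf Q M kind i j k, 0 ≤ lin f [a, b, c, x, u, y, v, z, w, 1, p, q, r] := by
  obtain ⟨e11, e12, e13, e21, e22, e23, e31, e32, e33⟩ := hM
  have key : ∀ X Y Z : ℝ,
      lin (wf kind 0) [a, b, c, x, u, y, v, z, w, 1, p, q, r] = X →
      lin (wf kind 1) [a, b, c, x, u, y, v, z, w, 1, p, q, r] = Y →
      lin (wf kind 2) [a, b, c, x, u, y, v, z, w, 1, p, q, r] = Z →
      (∃ t ∈ cfs Q kind, 0 ≤ cval t (X + i * m11 + j * m21 + k * m31)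
        (Y + i * m12 + j * m22 + k * m32) (Z + i * m13 + j * m23 + k * m33)) →
      ∃ f ∈ altsOf Q M kind i j k, 0 ≤ lin f [a, b, c, x, u, y, v, z, w, 1, p, q, r] := by
    rintro X Y Z hX hY hZ ⟨t, ht, ht2⟩
    refine ⟨_, List.mem_map.2 ⟨t, ht, rfl⟩, ?_⟩
    rw [lin_cform, lin_comb3f, lin_comb3f, lin_comb3f, e11, e12, e13, e21, e22, e23, e31, e32, e33,
      hX, hY, hZ]
    convert ht2 using 2 <;> ring
  have nz : kind = 0 ∨ kind = 2 → ¬ (i = 0 ∧ j = 0 ∧ k = 0) := by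
    rintro hkk ⟨h1, h2, h3⟩
    subst h1 h2 h3
    rcases hkk with h | h <;> subst h <;> simp [okIJK, isz] at hok
  have a0 := fun h => hadm i j k (nz h)
  have b0 := hout i j k
  interval_cases kind
  · apply key 0 0 0 (by simp [wf, lin]) (by simp [wf, lin]) (by simp [wf, lin])
    simp only [zero_add]
    exact alts0 hQ (a0 (Or.inl rfl))
  · apply key p q r (by simp [wf, lin]) (by simp [wf, lin]) (by simp [wf, lin])
    exact alts1 hQ b0
  · apply key 0 0 0 (by simp [wf, lin]) (by simp [wf, lin]) (by simp [wf, lin])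
    simp only [zero_add]
    exact alts2 (a0 (Or.inr rfl))
  · apply key p q r (by simp [wf, lin]) (by simp [wf, lin]) (by simp [wf, lin])
    exact alts3 b0

end Pool.Agent.Helper58.KB
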