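import Pool.Agent.Helper58.KB.BaseB
import Pool.Agent.Helper58.KB.Link
set_option autoImplicit false
namespace Pool.Agent.Helper58.KB
open Pool.Agent.Helper99.SPC (lin cub quad)

theorem valB (m11 m12 m13 m21 m22 m23 m31 m32 m33 p q r : ℝ) :
    Vals MB [m11 - 2, m22 - 2, m33 - 2, m12, m21, m23, m32, m13, m31, 1, p, q, r] m11 m12 m13 m21 m22 m23 m31 m32 m33 := by
  constructor <;> simp only [MB, lin] <;> push_cast <;> ring

theorem cubB (m11 m12 m13 m21 m22 m23 m31 m32 m33 : ℝ) :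
    cub GB [m11 - 2, m22 - 2, m33 - 2, m12, m21, m23, m32, m13, m31, 1] =
      400 * (m11 * m22 * m33 + m12 * m23 * m31 + m13 * m21 * m32 - m11 * m23 * m32 -
        m22 * m13 * m31 - m33 * m12 * m21) - 2999 := by
  simp only [GB, cub, quad, lin]
  push_cast
  ring

/-- The volume estimate for class `B`, given a checked tree. -/
theorem clsB {Fs : List (List (List ℤ))} (hFs : ∀ F ∈ Fs, Valid GB F) {t : T}
    (ht : (t.isTree && t.chk 66 MB Fs [] stB) = true)
    {m11 m12 m13 m21 m22 m23 m31 m32 m33 : ℝ}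
    (h : Hyp 66 (53 / 20) m11 m12 m13 m21 m22 m23 m31 m32 m33)
    (s12 : 0 ≤ m12) (s13 : 0 ≤ m13) (s21 : 0 ≤ m21) (s23 : 0 ≤ m23) (s31 : 0 ≤ m31) (s32 : 0 ≤ m32)
    (g21 : m21 ≤ m12) (g23 : m23 ≤ m12) (g32 : m32 ≤ m12) (g13 : m13 ≤ m12) (g31 : m31 ≤ m12)
    : 2999 / 400 ≤ m11 * m22 * m33 + m12 * m23 * m31 + m13 * m21 * m32 - m11 * m23 * m32 -
      m22 * m13 * m31 - m33 * m12 * m21 := by
  obtain ⟨p, q, r, ⟨⟨a1, a2, a3⟩, ⟨b1, b2, b3⟩, ⟨c1, c2, c3⟩, ⟨d1, d2, d3⟩⟩, hf, ho⟩ := h.h0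
  have r1 := h.r1
  have r2 := h.r2
  have r3 := h.r3
  have e1 := h.d1
  have e2 := h.d2
  have e3 := h.d3
  have k1 := h.k1
  have k2 := h.k2
  have k3 := h.k3
  rw [abs_of_nonneg s12, abs_of_nonneg s13] at r1
  rw [abs_of_nonneg s21, abs_of_nonneg s23] at r2
  rw [abs_of_nonneg s31, abs_of_nonneg s32] at r3
  have key := T.sound 66 MB GB Fs hFs (a := m11 - 2) (b := m22 - 2) (c := m33 - 2) (x := m12) (u := m21)
    (y := m23) (v := m32) (z := m13) (w := m31) (p := p) (q := q) (r := r)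
    (by linarith) (by linarith) (by linarith) (by linarith) (by linarith) (by linarith)
    (by linarith) (by linarith) (by linarith)
    (fun kind i j k => alts_hold (Q := 66) (by norm_num) (valB m11 m12 m13 m21 m22 m23 m31 m32 m33 p q r)
      (fun i j k hh => by have := h.adm i j k hh; push_cast; exact this)
      (by push_cast; exact ho) kind i j k) t stB ?_ ht
  · rw [cubB] at key
    linarith only [key]
  · simp only [stB, List.forall_mem_cons]
    refine ⟨?_, ?_, ?_, ?_, ?_, ?_, ?_, ?_, ?_, ?_, ?_, ?_, ?_, ?_, ?_, ?_, ?_, ?_, ?_, ?_, ?_, ?_, ?_, ?_, ?_, ?_, ?_, ?_, ?_, ?_, ?_⟩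
    on_goal 31 => exact fun f hf => absurd hf List.not_mem_nil
    all_goals simp only [lin]; push_cast
    all_goals clear ho
    all_goals linarith

end Pool.Agent.Helper58.KB
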