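import Pool.Agent.Helper58.KB.BaseD1
import Pool.Agent.Helper58.KB.Link
set_option autoImplicit false
namespace Pool.Agent.Helper58.KB
open Pool.Agent.Helper99.SPC (lin cub quad)

theorem valD1 (m11 m12 m13 m21 m22 m23 m31 m32 m33 p q r : ℝ) :
    Vals MD1 [m11 - 2, m22 - 2, m33 - 2, (-m12), (-m21), (-m23), m32, (-m13), m31, 1, p, q, r] m11 m12 m13 m21 m22 m23 m31 m32 m33 := by
  constructor <;> simp only [MD1, lin] <;> push_cast <;> ring

theorem cubD1 (m11 m12 m13 m21 m22 m23 m31 m32 m33 : ℝ) :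
    cub GD1 [m11 - 2, m22 - 2, m33 - 2, (-m12), (-m21), (-m23), m32, (-m13), m31, 1] =
      400 * (m11 * m22 * m33 + m12 * m23 * m31 + m13 * m21 * m32 - m11 * m23 * m32 -
        m22 * m13 * m31 - m33 * m12 * m21) - 2999 := by
  simp only [GD1, cub, quad, lin]
  push_cast
  ring

/-- The volume estimate for class `D1`, given a checked tree. -/
theorem clsD1 {Fs : List (List (List ℤ))} (hFs : ∀ F ∈ Fs, Valid GD1 F) {t : T}
    (ht : (t.isTree && t.chk 66 MD1 Fs [] stD1) = true)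
    {m11 m12 m13 m21 m22 m23 m31 m32 m33 : ℝ}
    (h : Hyp 66 (53 / 20) m11 m12 m13 m21 m22 m23 m31 m32 m33)
    (s12 : m12 ≤ 0) (s13 : m13 ≤ 0) (s21 : m21 ≤ 0) (s23 : m23 ≤ 0) (s31 : 0 ≤ m31) (s32 : 0 ≤ m32)
    : 2999 / 400 ≤ m11 * m22 * m33 + m12 * m23 * m31 + m13 * m21 * m32 - m11 * m23 * m32 -
      m22 * m13 * m31 - m33 * m12 * m21 := by
  obtain ⟨p, q, r, ⟨⟨a1, a2, a3⟩, ⟨b1, b2, b3⟩, ⟨c1, c2, c3⟩, ⟨d1, d2, d3⟩⟩, hf, ho⟩ := h.h0
  have r1 := h.r1
  have r2 := h.r2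
  have r3 := h.r3
  have e1 := h.d1
  have e2 := h.d2
  have e3 := h.d3
  have k1 := h.k1
  have k2 := h.k2
  have k3 := h.k3
  rw [abs_of_nonpos s12, abs_of_nonpos s13] at r1
  rw [abs_of_nonpos s21, abs_of_nonpos s23] at r2
  rw [abs_of_nonneg s31, abs_of_nonneg s32] at r3
  have key := T.sound 66 MD1 GD1 Fs hFs (a := m11 - 2) (b := m22 - 2) (c := m33 - 2) (x := (-m12)) (u := (-m21))
    (y := (-m23)) (v := m32) (z := (-m13)) (w := m31) (p := p) (q := q) (r := r)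
    (by linarith) (by linarith) (by linarith) (by linarith) (by linarith) (by linarith)
    (by linarith) (by linarith) (by linarith)
    (fun kind i j k => alts_hold (Q := 66) (by norm_num) (valD1 m11 m12 m13 m21 m22 m23 m31 m32 m33 p q r)
      (fun i j k hh => by have := h.adm i j k hh; push_cast; exact this)
      (by push_cast; exact ho) kind i j k) t stD1 ?_ ht
  · rw [cubD1] at key
    linarith only [key]
  · simp only [stD1, List.forall_mem_cons]
    refine ⟨?_, ?_, ?_, ?_, ?_, ?_, ?_, ?_, ?_, ?_, ?_, ?_, ?_, ?_, ?_, ?_, ?_, ?_, ?_, ?_, ?_, ?_, ?_, ?_, ?_, ?_⟩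
    on_goal 26 => exact fun f hf => absurd hf List.not_mem_nil
    all_goals simp only [lin]; push_cast
    all_goals clear ho
    all_goals linarith

end Pool.Agent.Helper58.KB
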