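import Pool.Agent.Helper58.KB.Defs
/-!
# The reduction of the volume estimate to six sign classes
-/
set_option autoImplicit false
namespace Pool.Agent.Helper58.KB

/-- The determinant. -/
def det3 (m11 m12 m13 m21 m22 m23 m31 m32 m33 : ℝ) : ℝ :=
  m11 * m22 * m33 + m12 * m23 * m31 + m13 * m21 * m32 - m11 * m23 * m32 - m22 * m13 * m31 -
    m33 * m12 * m21

theorem OutDK.neg {Q x y z : ℝ} (h : OutDK Q x y z) : OutDK Q (-x) (-y) (-z) := by
  unfold OutDK at *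
  simpa only [abs_neg] using h

theorem OutDK.flip1 {Q x y z : ℝ} (h : OutDK Q x y z) : OutDK Q x (-y) (-z) := by
  unfold OutDK at *
  simpa only [abs_neg] using h

theorem OutDK.flip2 {Q x y z : ℝ} (h : OutDK Q x y z) : OutDK Q (-x) y (-z) := by
  unfold OutDK at *
  simpa only [abs_neg] using h

theorem OutDK.flip3 {Q x y z : ℝ} (h : OutDK Q x y z) : OutDK Q (-x) (-y) z := by
  unfold OutDK at *
  simpa only [abs_neg] using h

theorem OutDK.swap12 {Q x y z : ℝ} (h : OutDK Q x y z) : OutDK Q y x z := by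
  unfold OutDK at *
  rw [add_comm |y| |x|]
  tauto

theorem OutDK.swap23 {Q x y z : ℝ} (h : OutDK Q x y z) : OutDK Q x z y := by
  unfold OutDK at *
  rw [add_right_comm |x| |z| |y|]
  tauto

theorem OutTK.swap12 {Q x y z : ℝ} (h : OutTK Q x y z) : OutTK Q y x z := by
  rcases h with (h | h | h) | (h | h | h) | (h | h | h) | (h | h | h)
  · exact Or.inl (Or.inr (Or.inl (by linarith)))
  · exact Or.inl (Or.inl (by linarith))
  · exact Or.inl (Or.inr (Or.inr (by linarith)))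
  · exact Or.inr (Or.inr (Or.inl (Or.inr (Or.inl (by linarith)))))
  · exact Or.inr (Or.inr (Or.inl (Or.inl (by linarith))))
  · exact Or.inr (Or.inr (Or.inl (Or.inr (Or.inr (by linarith)))))
  · exact Or.inr (Or.inl (Or.inr (Or.inl (by linarith))))
  · exact Or.inr (Or.inl (Or.inl (by linarith)))
  · exact Or.inr (Or.inl (Or.inr (Or.inr (by linarith))))
  · exact Or.inr (Or.inr (Or.inr (Or.inr (Or.inl (by linarith)))))
  · exact Or.inr (Or.inr (Or.inr (Or.inl (by linarith))))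
  · exact Or.inr (Or.inr (Or.inr (Or.inr (Or.inr (by linarith)))))

theorem InK.swap12 {Q s x y z : ℝ} (h : InK Q s x y z) : InK Q s y x z := by
  obtain ⟨⟨a0, a1, a2⟩, ⟨b0, b1, b2⟩, ⟨c0, c1, c2⟩, ⟨d0, d1, d2⟩⟩ := h
  exact ⟨⟨by linarith, by linarith, by linarith⟩, ⟨by linarith, by linarith, by linarith⟩,
    ⟨by linarith, by linarith, by linarith⟩, ⟨by linarith, by linarith, by linarith⟩⟩

theorem OutTK.swap23 {Q x y z : ℝ} (h : OutTK Q x y z) : OutTK Q x z y := by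
  rcases h with (h | h | h) | (h | h | h) | (h | h | h) | (h | h | h)
  · exact Or.inl (Or.inl (by linarith))
  · exact Or.inl (Or.inr (Or.inr (by linarith)))
  · exact Or.inl (Or.inr (Or.inl (by linarith)))
  · exact Or.inr (Or.inl (Or.inl (by linarith)))
  · exact Or.inr (Or.inl (Or.inr (Or.inr (by linarith))))
  · exact Or.inr (Or.inl (Or.inr (Or.inl (by linarith))))
  · exact Or.inr (Or.inr (Or.inr (Or.inl (by linarith))))
  · exact Or.inr (Or.inr (Or.inr (Or.inr (Or.inr (by linarith)))))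
  · exact Or.inr (Or.inr (Or.inr (Or.inr (Or.inl (by linarith)))))
  · exact Or.inr (Or.inr (Or.inl (Or.inl (by linarith))))
  · exact Or.inr (Or.inr (Or.inl (Or.inr (Or.inr (by linarith)))))
  · exact Or.inr (Or.inr (Or.inl (Or.inr (Or.inl (by linarith)))))

theorem InK.swap23 {Q s x y z : ℝ} (h : InK Q s x y z) : InK Q s x z y := by
  obtain ⟨⟨a0, a1, a2⟩, ⟨b0, b1, b2⟩, ⟨c0, c1, c2⟩, ⟨d0, d1, d2⟩⟩ := h
  exact ⟨⟨by linarith, by linarith, by linarith⟩, ⟨by linarith, by linarith, by linarith⟩,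
    ⟨by linarith, by linarith, by linarith⟩, ⟨by linarith, by linarith, by linarith⟩⟩

theorem OutTK.flip1 {Q x y z : ℝ} (h : OutTK Q x y z) : OutTK Q x (-y) (-z) := by
  rcases h with (h | h | h) | (h | h | h) | (h | h | h) | (h | h | h)
  · exact Or.inr (Or.inl (Or.inl (by linarith)))
  · exact Or.inr (Or.inl (Or.inr (Or.inl (by linarith))))
  · exact Or.inr (Or.inl (Or.inr (Or.inr (by linarith))))
  · exact Or.inl (Or.inl (by linarith))
  · exact Or.inl (Or.inr (Or.inl (by linarith)))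
  · exact Or.inl (Or.inr (Or.inr (by linarith)))
  · exact Or.inr (Or.inr (Or.inr (Or.inl (by linarith))))
  · exact Or.inr (Or.inr (Or.inr (Or.inr (Or.inl (by linarith)))))
  · exact Or.inr (Or.inr (Or.inr (Or.inr (Or.inr (by linarith)))))
  · exact Or.inr (Or.inr (Or.inl (Or.inl (by linarith))))
  · exact Or.inr (Or.inr (Or.inl (Or.inr (Or.inl (by linarith)))))
  · exact Or.inr (Or.inr (Or.inl (Or.inr (Or.inr (by linarith)))))

theorem InK.flip1 {Q s x y z : ℝ} (h : InK Q s x y z) : InK Q s x (-y) (-z) := by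
  obtain ⟨⟨a0, a1, a2⟩, ⟨b0, b1, b2⟩, ⟨c0, c1, c2⟩, ⟨d0, d1, d2⟩⟩ := h
  exact ⟨⟨by linarith, by linarith, by linarith⟩, ⟨by linarith, by linarith, by linarith⟩,
    ⟨by linarith, by linarith, by linarith⟩, ⟨by linarith, by linarith, by linarith⟩⟩

theorem OutTK.flip2 {Q x y z : ℝ} (h : OutTK Q x y z) : OutTK Q (-x) y (-z) := by
  rcases h with (h | h | h) | (h | h | h) | (h | h | h) | (h | h | h)
  · exact Or.inr (Or.inr (Or.inl (Or.inl (by linarith))))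
  · exact Or.inr (Or.inr (Or.inl (Or.inr (Or.inl (by linarith)))))
  · exact Or.inr (Or.inr (Or.inl (Or.inr (Or.inr (by linarith)))))
  · exact Or.inr (Or.inr (Or.inr (Or.inl (by linarith))))
  · exact Or.inr (Or.inr (Or.inr (Or.inr (Or.inl (by linarith)))))
  · exact Or.inr (Or.inr (Or.inr (Or.inr (Or.inr (by linarith)))))
  · exact Or.inl (Or.inl (by linarith))
  · exact Or.inl (Or.inr (Or.inl (by linarith)))
  · exact Or.inl (Or.inr (Or.inr (by linarith)))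
  · exact Or.inr (Or.inl (Or.inl (by linarith)))
  · exact Or.inr (Or.inl (Or.inr (Or.inl (by linarith))))
  · exact Or.inr (Or.inl (Or.inr (Or.inr (by linarith))))

theorem InK.flip2 {Q s x y z : ℝ} (h : InK Q s x y z) : InK Q s (-x) y (-z) := by
  obtain ⟨⟨a0, a1, a2⟩, ⟨b0, b1, b2⟩, ⟨c0, c1, c2⟩, ⟨d0, d1, d2⟩⟩ := h
  exact ⟨⟨by linarith, by linarith, by linarith⟩, ⟨by linarith, by linarith, by linarith⟩,
    ⟨by linarith, by linarith, by linarith⟩, ⟨by linarith, by linarith, by linarith⟩⟩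

theorem OutTK.flip3 {Q x y z : ℝ} (h : OutTK Q x y z) : OutTK Q (-x) (-y) z := by
  rcases h with (h | h | h) | (h | h | h) | (h | h | h) | (h | h | h)
  · exact Or.inr (Or.inr (Or.inr (Or.inl (by linarith))))
  · exact Or.inr (Or.inr (Or.inr (Or.inr (Or.inl (by linarith)))))
  · exact Or.inr (Or.inr (Or.inr (Or.inr (Or.inr (by linarith)))))
  · exact Or.inr (Or.inr (Or.inl (Or.inl (by linarith))))
  · exact Or.inr (Or.inr (Or.inl (Or.inr (Or.inl (by linarith)))))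
  · exact Or.inr (Or.inr (Or.inl (Or.inr (Or.inr (by linarith)))))
  · exact Or.inr (Or.inl (Or.inl (by linarith)))
  · exact Or.inr (Or.inl (Or.inr (Or.inl (by linarith))))
  · exact Or.inr (Or.inl (Or.inr (Or.inr (by linarith))))
  · exact Or.inl (Or.inl (by linarith))
  · exact Or.inl (Or.inr (Or.inl (by linarith)))
  · exact Or.inl (Or.inr (Or.inr (by linarith)))

theorem InK.flip3 {Q s x y z : ℝ} (h : InK Q s x y z) : InK Q s (-x) (-y) z := by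
  obtain ⟨⟨a0, a1, a2⟩, ⟨b0, b1, b2⟩, ⟨c0, c1, c2⟩, ⟨d0, d1, d2⟩⟩ := h
  exact ⟨⟨by linarith, by linarith, by linarith⟩, ⟨by linarith, by linarith, by linarith⟩,
    ⟨by linarith, by linarith, by linarith⟩, ⟨by linarith, by linarith, by linarith⟩⟩

theorem OutAll.swap12 {Q p q r m11 m12 m13 m21 m22 m23 m31 m32 m33 : ℝ}
    (h : OutAll Q p q r m11 m12 m13 m21 m22 m23 m31 m32 m33) :
    OutAll Q q p r m22 m21 m23 m12 m11 m13 m32 m31 m33 := by
  intro i j k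
  have t := (h j i k).swap12
  convert t using 1 <;> ring

theorem Hyp.swap12 {Q κ m11 m12 m13 m21 m22 m23 m31 m32 m33 : ℝ}
    (h : Hyp Q κ m11 m12 m13 m21 m22 m23 m31 m32 m33) :
    Hyp Q κ m22 m21 m23 m12 m11 m13 m32 m31 m33 := by
  obtain ⟨d1, d2, d3, k1, k2, k3, r1, r2, r3, adm, h0, h1, h2, h3⟩ := h
  refine ⟨d2, d1, d3, k2, k1, k3, ?_, ?_, ?_, ?_, ?_, ?_, ?_, ?_⟩
  · linarith
  · linarith
  · linarith
  · intro i j k hijk
    have t := (adm j i k (fun hh => hijk ⟨hh.2.1, hh.1, hh.2.2⟩)).swap12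
    push_cast at t
    convert t using 1 <;> ring
  · obtain ⟨p, q, r, e1, e2, e3⟩ := h0
    exact ⟨q, p, r, e1.swap12, by linarith, e3.swap12⟩
  · obtain ⟨p, q, r, e1, e2, e3⟩ := h2
    exact ⟨q, p, r, e1.swap12, by linarith, e3.swap12⟩
  · obtain ⟨p, q, r, e1, e2, e3⟩ := h1
    exact ⟨q, p, r, e1.swap12, by linarith, e3.swap12⟩
  · obtain ⟨p, q, r, e1, e2, e3⟩ := h3
    exact ⟨q, p, r, e1.swap12, by linarith, e3.swap12⟩

theorem OutAll.swap23 {Q p q r m11 m12 m13 m21 m22 m23 m31 m32 m33 : ℝ}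
    (h : OutAll Q p q r m11 m12 m13 m21 m22 m23 m31 m32 m33) :
    OutAll Q p r q m11 m13 m12 m31 m33 m32 m21 m23 m22 := by
  intro i j k
  have t := (h i k j).swap23
  convert t using 1 <;> ring

theorem Hyp.swap23 {Q κ m11 m12 m13 m21 m22 m23 m31 m32 m33 : ℝ}
    (h : Hyp Q κ m11 m12 m13 m21 m22 m23 m31 m32 m33) :
    Hyp Q κ m11 m13 m12 m31 m33 m32 m21 m23 m22 := by
  obtain ⟨d1, d2, d3, k1, k2, k3, r1, r2, r3, adm, h0, h1, h2, h3⟩ := h
  refine ⟨d1, d3, d2, k1, k3, k2, ?_, ?_, ?_, ?_, ?_, ?_, ?_, ?_⟩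
  · linarith
  · linarith
  · linarith
  · intro i j k hijk
    have t := (adm i k j (fun hh => hijk ⟨hh.1, hh.2.2, hh.2.1⟩)).swap23
    push_cast at t
    convert t using 1 <;> ring
  · obtain ⟨p, q, r, e1, e2, e3⟩ := h0
    exact ⟨p, r, q, e1.swap23, by linarith, e3.swap23⟩
  · obtain ⟨p, q, r, e1, e2, e3⟩ := h1
    exact ⟨p, r, q, e1.swap23, by linarith, e3.swap23⟩
  · obtain ⟨p, q, r, e1, e2, e3⟩ := h3
    exact ⟨p, r, q, e1.swap23, by linarith, e3.swap23⟩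
  · obtain ⟨p, q, r, e1, e2, e3⟩ := h2
    exact ⟨p, r, q, e1.swap23, by linarith, e3.swap23⟩

theorem OutAll.flip1 {Q p q r m11 m12 m13 m21 m22 m23 m31 m32 m33 : ℝ}
    (h : OutAll Q p q r m11 m12 m13 m21 m22 m23 m31 m32 m33) :
    OutAll Q p (-q) (-r) m11 (-m12) (-m13) (-m21) m22 m23 (-m31) m32 m33 := by
  intro i j k
  have t := (h i (-j) (-k)).flip1
  push_cast at t
  convert t using 1 <;> ring

theorem Hyp.flip1 {Q κ m11 m12 m13 m21 m22 m23 m31 m32 m33 : ℝ}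
    (h : Hyp Q κ m11 m12 m13 m21 m22 m23 m31 m32 m33) :
    Hyp Q κ m11 (-m12) (-m13) (-m21) m22 m23 (-m31) m32 m33 := by
  obtain ⟨d1, d2, d3, k1, k2, k3, r1, r2, r3, adm, h0, h1, h2, h3⟩ := h
  refine ⟨d1, d2, d3, k1, k2, k3, ?_, ?_, ?_, ?_, ?_, ?_, ?_, ?_⟩
  · simp only [abs_neg]; linarith
  · simp only [abs_neg]; linarith
  · simp only [abs_neg]; linarith
  · intro i j k hijk
    have t := (adm i (-j) (-k) (fun hh => hijk ⟨by omega, by omega, by omega⟩)).flip1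
    push_cast at t
    convert t using 1 <;> ring
  · obtain ⟨p, q, r, e1, e2, e3⟩ := h1
    exact ⟨p, -q, -r, e1.flip1, by linarith, e3.flip1⟩
  · obtain ⟨p, q, r, e1, e2, e3⟩ := h0
    exact ⟨p, -q, -r, e1.flip1, by linarith, e3.flip1⟩
  · obtain ⟨p, q, r, e1, e2, e3⟩ := h3
    exact ⟨p, -q, -r, e1.flip1, by linarith, e3.flip1⟩
  · obtain ⟨p, q, r, e1, e2, e3⟩ := h2
    exact ⟨p, -q, -r, e1.flip1, by linarith, e3.flip1⟩

theorem OutAll.flip2 {Q p q r m11 m12 m13 m21 m22 m23 m31 m32 m33 : ℝ}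
    (h : OutAll Q p q r m11 m12 m13 m21 m22 m23 m31 m32 m33) :
    OutAll Q (-p) q (-r) m11 (-m12) m13 (-m21) m22 (-m23) m31 (-m32) m33 := by
  intro i j k
  have t := (h (-i) j (-k)).flip2
  push_cast at t
  convert t using 1 <;> ring

theorem Hyp.flip2 {Q κ m11 m12 m13 m21 m22 m23 m31 m32 m33 : ℝ}
    (h : Hyp Q κ m11 m12 m13 m21 m22 m23 m31 m32 m33) :
    Hyp Q κ m11 (-m12) m13 (-m21) m22 (-m23) m31 (-m32) m33 := by
  obtain ⟨d1, d2, d3, k1, k2, k3, r1, r2, r3, adm, h0, h1, h2, h3⟩ := h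
  refine ⟨d1, d2, d3, k1, k2, k3, ?_, ?_, ?_, ?_, ?_, ?_, ?_, ?_⟩
  · simp only [abs_neg]; linarith
  · simp only [abs_neg]; linarith
  · simp only [abs_neg]; linarith
  · intro i j k hijk
    have t := (adm (-i) j (-k) (fun hh => hijk ⟨by omega, by omega, by omega⟩)).flip2
    push_cast at t
    convert t using 1 <;> ring
  · obtain ⟨p, q, r, e1, e2, e3⟩ := h2
    exact ⟨-p, q, -r, e1.flip2, by linarith, e3.flip2⟩
  · obtain ⟨p, q, r, e1, e2, e3⟩ := h3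
    exact ⟨-p, q, -r, e1.flip2, by linarith, e3.flip2⟩
  · obtain ⟨p, q, r, e1, e2, e3⟩ := h0
    exact ⟨-p, q, -r, e1.flip2, by linarith, e3.flip2⟩
  · obtain ⟨p, q, r, e1, e2, e3⟩ := h1
    exact ⟨-p, q, -r, e1.flip2, by linarith, e3.flip2⟩

theorem OutAll.flip3 {Q p q r m11 m12 m13 m21 m22 m23 m31 m32 m33 : ℝ}
    (h : OutAll Q p q r m11 m12 m13 m21 m22 m23 m31 m32 m33) :
    OutAll Q (-p) (-q) r m11 m12 (-m13) m21 m22 (-m23) (-m31) (-m32) m33 := by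
  intro i j k
  have t := (h (-i) (-j) k).flip3
  push_cast at t
  convert t using 1 <;> ring

theorem Hyp.flip3 {Q κ m11 m12 m13 m21 m22 m23 m31 m32 m33 : ℝ}
    (h : Hyp Q κ m11 m12 m13 m21 m22 m23 m31 m32 m33) :
    Hyp Q κ m11 m12 (-m13) m21 m22 (-m23) (-m31) (-m32) m33 := by
  obtain ⟨d1, d2, d3, k1, k2, k3, r1, r2, r3, adm, h0, h1, h2, h3⟩ := h
  refine ⟨d1, d2, d3, k1, k2, k3, ?_, ?_, ?_, ?_, ?_, ?_, ?_, ?_⟩
  · simp only [abs_neg]; linarith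
  · simp only [abs_neg]; linarith
  · simp only [abs_neg]; linarith
  · intro i j k hijk
    have t := (adm (-i) (-j) k (fun hh => hijk ⟨by omega, by omega, by omega⟩)).flip3
    push_cast at t
    convert t using 1 <;> ring
  · obtain ⟨p, q, r, e1, e2, e3⟩ := h3
    exact ⟨-p, -q, r, e1.flip3, by linarith, e3.flip3⟩
  · obtain ⟨p, q, r, e1, e2, e3⟩ := h2
    exact ⟨-p, -q, r, e1.flip3, by linarith, e3.flip3⟩
  · obtain ⟨p, q, r, e1, e2, e3⟩ := h1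
    exact ⟨-p, -q, r, e1.flip3, by linarith, e3.flip3⟩
  · obtain ⟨p, q, r, e1, e2, e3⟩ := h0
    exact ⟨-p, -q, r, e1.flip3, by linarith, e3.flip3⟩

/-- The volume estimate for class `A`. -/
def StA (Q κ D : ℝ) : Prop := ∀ m11 m12 m13 m21 m22 m23 m31 m32 m33 : ℝ, Hyp Q κ m11 m12 m13 m21 m22 m23 m31 m32 m33 →
    m12 ≤ 0 → m13 ≤ 0 → m21 ≤ 0 → m23 ≤ 0 → m31 ≤ 0 → m32 ≤ 0 →
    -m21 ≤ -m12 → -m23 ≤ -m12 → -m32 ≤ -m12 → -m13 ≤ -m12 → -m31 ≤ -m12 →
    D ≤ det3 m11 m12 m13 m21 m22 m23 m31 m32 m33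

/-- The volume estimate for class `B`. -/
def StB (Q κ D : ℝ) : Prop := ∀ m11 m12 m13 m21 m22 m23 m31 m32 m33 : ℝ, Hyp Q κ m11 m12 m13 m21 m22 m23 m31 m32 m33 →
    0 ≤ m12 → 0 ≤ m13 → 0 ≤ m21 → 0 ≤ m23 → 0 ≤ m31 → 0 ≤ m32 →
    m21 ≤ m12 → m23 ≤ m12 → m32 ≤ m12 → m13 ≤ m12 → m31 ≤ m12 →
    D ≤ det3 m11 m12 m13 m21 m22 m23 m31 m32 m33

/-- The volume estimate for class `C`. -/
def StC (Q κ D : ℝ) : Prop := ∀ m11 m12 m13 m21 m22 m23 m31 m32 m33 : ℝ, Hyp Q κ m11 m12 m13 m21 m22 m23 m31 m32 m33 →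
    m12 ≤ 0 → m13 ≤ 0 → m21 ≤ 0 → 0 ≤ m23 → m31 ≤ 0 → m32 ≤ 0 →
    D ≤ det3 m11 m12 m13 m21 m22 m23 m31 m32 m33

/-- The volume estimate for class `D1`. -/
def StD1 (Q κ D : ℝ) : Prop := ∀ m11 m12 m13 m21 m22 m23 m31 m32 m33 : ℝ, Hyp Q κ m11 m12 m13 m21 m22 m23 m31 m32 m33 →
    m12 ≤ 0 → m13 ≤ 0 → m21 ≤ 0 → m23 ≤ 0 → 0 ≤ m31 → 0 ≤ m32 →
    D ≤ det3 m11 m12 m13 m21 m22 m23 m31 m32 m33

/-- The volume estimate for class `D2`. -/
def StD2 (Q κ D : ℝ) : Prop := ∀ m11 m12 m13 m21 m22 m23 m31 m32 m33 : ℝ, Hyp Q κ m11 m12 m13 m21 m22 m23 m31 m32 m33 →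
    m12 ≤ 0 → m13 ≤ 0 → m21 ≤ 0 → 0 ≤ m23 → 0 ≤ m31 → m32 ≤ 0 →
    D ≤ det3 m11 m12 m13 m21 m22 m23 m31 m32 m33

/-- The volume estimate for class `E`. -/
def StE (Q κ D : ℝ) : Prop := ∀ m11 m12 m13 m21 m22 m23 m31 m32 m33 : ℝ, Hyp Q κ m11 m12 m13 m21 m22 m23 m31 m32 m33 →
    m12 ≤ 0 → 0 ≤ m13 → 0 ≤ m21 → m23 ≤ 0 → m31 ≤ 0 → 0 ≤ m32 →
    D ≤ det3 m11 m12 m13 m21 m22 m23 m31 m32 m33

theorem det_swap12 (m11 m12 m13 m21 m22 m23 m31 m32 m33 : ℝ) : det3 m22 m21 m23 m12 m11 m13 m32 m31 m33 = det3 m11 m12 m13 m21 m22 m23 m31 m32 m33 := by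
  unfold det3
  ring

theorem det_swap23 (m11 m12 m13 m21 m22 m23 m31 m32 m33 : ℝ) : det3 m11 m13 m12 m31 m33 m32 m21 m23 m22 = det3 m11 m12 m13 m21 m22 m23 m31 m32 m33 := by
  unfold det3
  ring

theorem det_flip1 (m11 m12 m13 m21 m22 m23 m31 m32 m33 : ℝ) : det3 m11 (-m12) (-m13) (-m21) m22 m23 (-m31) m32 m33 = det3 m11 m12 m13 m21 m22 m23 m31 m32 m33 := by
  unfold det3
  ring

theorem det_flip2 (m11 m12 m13 m21 m22 m23 m31 m32 m33 : ℝ) : det3 m11 (-m12) m13 (-m21) m22 (-m23) m31 (-m32) m33 = det3 m11 m12 m13 m21 m22 m23 m31 m32 m33 := by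
  unfold det3
  ring

theorem det_flip3 (m11 m12 m13 m21 m22 m23 m31 m32 m33 : ℝ) : det3 m11 m12 (-m13) m21 m22 (-m23) (-m31) (-m32) m33 = det3 m11 m12 m13 m21 m22 m23 m31 m32 m33 := by
  unfold det3
  ring

theorem exists_max6 (a b c d e f : ℝ) : ∃ t ∈ [a, b, c, d, e, f], ∀ s ∈ [a, b, c, d, e, f], s ≤ t := by
  have key : ∀ l : List ℝ, l ≠ [] → ∃ t ∈ l, ∀ s ∈ l, s ≤ t := by
    intro l
    induction l with
    | nil => intro h; exact absurd rfl h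
    | cons x l ih =>
      intro _
      by_cases hl : l = []
      · subst hl; exact ⟨x, by simp, by simp⟩
      · obtain ⟨t, ht, hm⟩ := ih hl
        rcases le_total x t with h | h
        · refine ⟨t, List.mem_cons_of_mem _ ht, ?_⟩
          intro s hs
          rcases List.mem_cons.1 hs with rfl | hs
          · exact h
          · exact hm s hs
        · refine ⟨x, List.mem_cons_self, ?_⟩
          intro s hs
          rcases List.mem_cons.1 hs with rfl | hs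
          · exact le_rfl
          · exact (hm s hs).trans h
  exact key _ (by simp)

theorem conclA {Q κ D : ℝ} (st : StA Q κ D) {m11 m12 m13 m21 m22 m23 m31 m32 m33 : ℝ}
    (h : Hyp Q κ m11 m12 m13 m21 m22 m23 m31 m32 m33) (s12 : m12 ≤ 0) (s13 : m13 ≤ 0) (s21 : m21 ≤ 0) (s23 : m23 ≤ 0) (s31 : m31 ≤ 0) (s32 : m32 ≤ 0) :
    D ≤ det3 m11 m12 m13 m21 m22 m23 m31 m32 m33 := by
  have hmax : ∀ t : ℝ, (t = -m12 ∨ t = -m13 ∨ t = -m21 ∨ t = -m23 ∨ t = -m31 ∨ t = -m32) →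
      -m12 ≤ t → -m13 ≤ t → -m21 ≤ t → -m23 ≤ t → -m31 ≤ t → -m32 ≤ t → D ≤ det3 m11 m12 m13 m21 m22 m23 m31 m32 m33 := by
    intro t ht g12 g13 g21 g23 g31 g32
    rcases ht with ht | ht | ht | ht | ht | ht <;> subst ht
    · exact st _ _ _ _ _ _ _ _ _ h s12 s13 s21 s23 s31 s32 g21 g23 g32 g13 g31
    · have h3 := st _ _ _ _ _ _ _ _ _ (h.swap23) s13 s12 s31 s32 s21 s23 g31 g32 g23 g12 g21
      rw [det_swap23] at h3
      exact h3
    · have h3 := st _ _ _ _ _ _ _ _ _ (h.swap12) s21 s23 s12 s13 s32 s31 g12 g13 g31 g23 g32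
      rw [det_swap12] at h3
      exact h3
    · have h3 := st _ _ _ _ _ _ _ _ _ (h.swap12.swap23) s23 s21 s32 s31 s12 s13 g32 g31 g13 g21 g12
      rw [det_swap23, det_swap12] at h3
      exact h3
    · have h3 := st _ _ _ _ _ _ _ _ _ (h.swap23.swap12) s31 s32 s13 s12 s23 s21 g13 g12 g21 g32 g23
      rw [det_swap12, det_swap23] at h3
      exact h3
    · have h3 := st _ _ _ _ _ _ _ _ _ (h.swap12.swap23.swap12) s32 s31 s23 s21 s13 s12 g23 g21 g12 g31 g13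
      rw [det_swap12, det_swap23, det_swap12] at h3
      exact h3
  obtain ⟨t, ht, hm⟩ : ∃ t ∈ [-m12, -m13, -m21, -m23, -m31, -m32], ∀ s ∈ [-m12, -m13, -m21, -m23, -m31, -m32], s ≤ t := by
    exact exists_max6 _ _ _ _ _ _
  simp only [List.mem_cons, List.not_mem_nil, or_false, forall_eq_or_imp, forall_eq] at ht hm
  exact hmax t ht hm.1 hm.2.1 hm.2.2.1 hm.2.2.2.1 hm.2.2.2.2.1 hm.2.2.2.2.2

theorem conclB {Q κ D : ℝ} (st : StB Q κ D) {m11 m12 m13 m21 m22 m23 m31 m32 m33 : ℝ}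
    (h : Hyp Q κ m11 m12 m13 m21 m22 m23 m31 m32 m33) (s12 : 0 ≤ m12) (s13 : 0 ≤ m13) (s21 : 0 ≤ m21) (s23 : 0 ≤ m23) (s31 : 0 ≤ m31) (s32 : 0 ≤ m32) :
    D ≤ det3 m11 m12 m13 m21 m22 m23 m31 m32 m33 := by
  have hmax : ∀ t : ℝ, (t = m12 ∨ t = m13 ∨ t = m21 ∨ t = m23 ∨ t = m31 ∨ t = m32) →
      m12 ≤ t → m13 ≤ t → m21 ≤ t → m23 ≤ t → m31 ≤ t → m32 ≤ t → D ≤ det3 m11 m12 m13 m21 m22 m23 m31 m32 m33 := by
    intro t ht g12 g13 g21 g23 g31 g32
    rcases ht with ht | ht | ht | ht | ht | ht <;> subst ht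
    · exact st _ _ _ _ _ _ _ _ _ h s12 s13 s21 s23 s31 s32 g21 g23 g32 g13 g31
    · have h3 := st _ _ _ _ _ _ _ _ _ (h.swap23) s13 s12 s31 s32 s21 s23 g31 g32 g23 g12 g21
      rw [det_swap23] at h3
      exact h3
    · have h3 := st _ _ _ _ _ _ _ _ _ (h.swap12) s21 s23 s12 s13 s32 s31 g12 g13 g31 g23 g32
      rw [det_swap12] at h3
      exact h3
    · have h3 := st _ _ _ _ _ _ _ _ _ (h.swap12.swap23) s23 s21 s32 s31 s12 s13 g32 g31 g13 g21 g12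
      rw [det_swap23, det_swap12] at h3
      exact h3
    · have h3 := st _ _ _ _ _ _ _ _ _ (h.swap23.swap12) s31 s32 s13 s12 s23 s21 g13 g12 g21 g32 g23
      rw [det_swap12, det_swap23] at h3
      exact h3
    · have h3 := st _ _ _ _ _ _ _ _ _ (h.swap12.swap23.swap12) s32 s31 s23 s21 s13 s12 g23 g21 g12 g31 g13
      rw [det_swap12, det_swap23, det_swap12] at h3
      exact h3
  obtain ⟨t, ht, hm⟩ : ∃ t ∈ [m12, m13, m21, m23, m31, m32], ∀ s ∈ [m12, m13, m21, m23, m31, m32], s ≤ t := by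
    exact exists_max6 _ _ _ _ _ _
  simp only [List.mem_cons, List.not_mem_nil, or_false, forall_eq_or_imp, forall_eq] at ht hm
  exact hmax t ht hm.1 hm.2.1 hm.2.2.1 hm.2.2.2.1 hm.2.2.2.2.1 hm.2.2.2.2.2

theorem core_of {Q κ D : ℝ} (hA : StA Q κ D) (hB : StB Q κ D) (hC : StC Q κ D) (hD1 : StD1 Q κ D)
    (hD2 : StD2 Q κ D) (hE : StE Q κ D) {m11 m12 m13 m21 m22 m23 m31 m32 m33 : ℝ}
    (h : Hyp Q κ m11 m12 m13 m21 m22 m23 m31 m32 m33) : D ≤ det3 m11 m12 m13 m21 m22 m23 m31 m32 m33 := by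
  rcases le_total 0 m12 with s12 | s12 <;> rcases le_total 0 m13 with s13 | s13 <;>
  rcases le_total 0 m21 with s21 | s21 <;> rcases le_total 0 m23 with s23 | s23 <;>
  rcases le_total 0 m31 with s31 | s31 <;> rcases le_total 0 m32 with s32 | s32
  · exact conclB hB h s12 s13 s21 s23 s31 s32
  · have h3 := hC _ _ _ _ _ _ _ _ _ (h.flip1) (neg_nonpos.mpr s12) (neg_nonpos.mpr s13) (neg_nonpos.mpr s21) s23 (neg_nonpos.mpr s31) s32
    rw [det_flip1] at h3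
    exact h3
  · have h3 := hC _ _ _ _ _ _ _ _ _ (h.swap12.flip1) (neg_nonpos.mpr s21) (neg_nonpos.mpr s23) (neg_nonpos.mpr s12) s13 (neg_nonpos.mpr s32) s31
    rw [det_flip1, det_swap12] at h3
    exact h3
  · have h3 := hD2 _ _ _ _ _ _ _ _ _ (h.flip1) (neg_nonpos.mpr s12) (neg_nonpos.mpr s13) (neg_nonpos.mpr s21) s23 (neg_nonneg.mpr s31) s32
    rw [det_flip1] at h3
    exact h3
  · have h3 := hC _ _ _ _ _ _ _ _ _ (h.swap23.flip1) (neg_nonpos.mpr s13) (neg_nonpos.mpr s12) (neg_nonpos.mpr s31) s32 (neg_nonpos.mpr s21) s23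
    rw [det_flip1, det_swap23] at h3
    exact h3
  · have h3 := conclA hA (h.flip1) (neg_nonpos.mpr s12) (neg_nonpos.mpr s13) (neg_nonpos.mpr s21) s23 (neg_nonpos.mpr s31) s32
    rw [det_flip1] at h3
    exact h3
  · have h3 := hD1 _ _ _ _ _ _ _ _ _ (h.flip1) (neg_nonpos.mpr s12) (neg_nonpos.mpr s13) (neg_nonpos.mpr s21) s23 (neg_nonneg.mpr s31) s32
    rw [det_flip1] at h3
    exact h3
  · have h3 := hC _ _ _ _ _ _ _ _ _ (h.swap12.swap23.flip3) s23 (neg_nonpos.mpr s21) s32 (neg_nonneg.mpr s31) (neg_nonpos.mpr s12) (neg_nonpos.mpr s13)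
    rw [det_flip3, det_swap23, det_swap12] at h3
    exact h3
  · have h3 := hC _ _ _ _ _ _ _ _ _ (h.swap23.swap12.flip1) (neg_nonpos.mpr s31) (neg_nonpos.mpr s32) (neg_nonpos.mpr s13) s12 (neg_nonpos.mpr s23) s21
    rw [det_flip1, det_swap12, det_swap23] at h3
    exact h3
  · have h3 := hD1 _ _ _ _ _ _ _ _ _ (h.swap23.flip1) (neg_nonpos.mpr s13) (neg_nonpos.mpr s12) (neg_nonpos.mpr s31) s32 (neg_nonneg.mpr s21) s23
    rw [det_flip1, det_swap23] at h3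
    exact h3
  · have h3 := hD2 _ _ _ _ _ _ _ _ _ (h.swap12.swap23.flip2) (neg_nonpos.mpr s23) s21 (neg_nonpos.mpr s32) (neg_nonneg.mpr s31) s12 (neg_nonpos.mpr s13)
    rw [det_flip2, det_swap23, det_swap12] at h3
    exact h3
  · have h3 := hE _ _ _ _ _ _ _ _ _ (h.flip2) (neg_nonpos.mpr s12) s13 (neg_nonneg.mpr s21) (neg_nonpos.mpr s23) s31 (neg_nonneg.mpr s32)
    rw [det_flip2] at h3
    exact h3
  · have h3 := hD2 _ _ _ _ _ _ _ _ _ (h.swap23.flip1) (neg_nonpos.mpr s13) (neg_nonpos.mpr s12) (neg_nonpos.mpr s31) s32 (neg_nonneg.mpr s21) s23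
    rw [det_flip1, det_swap23] at h3
    exact h3
  · have h3 := hC _ _ _ _ _ _ _ _ _ (h.swap12.swap23.swap12.flip3) s32 (neg_nonpos.mpr s31) s23 (neg_nonneg.mpr s21) (neg_nonpos.mpr s13) (neg_nonpos.mpr s12)
    rw [det_flip3, det_swap12, det_swap23, det_swap12] at h3
    exact h3
  · have h3 := hE _ _ _ _ _ _ _ _ _ (h.swap12.flip3) s21 (neg_nonneg.mpr s23) s12 (neg_nonpos.mpr s13) (neg_nonpos.mpr s32) (neg_nonneg.mpr s31)
    rw [det_flip3, det_swap12] at h3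
    exact h3
  · have h3 := hD1 _ _ _ _ _ _ _ _ _ (h.swap12.swap23) s23 s21 s32 s31 s12 s13
    rw [det_swap23, det_swap12] at h3
    exact h3
  · have h3 := hC _ _ _ _ _ _ _ _ _ (h.swap12.swap23.flip1) (neg_nonpos.mpr s23) (neg_nonpos.mpr s21) (neg_nonpos.mpr s32) s31 (neg_nonpos.mpr s12) s13
    rw [det_flip1, det_swap23, det_swap12] at h3
    exact h3
  · have h3 := hD1 _ _ _ _ _ _ _ _ _ (h.flip2) (neg_nonpos.mpr s12) s13 (neg_nonpos.mpr s21) (neg_nonpos.mpr s23) s31 (neg_nonneg.mpr s32)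
    rw [det_flip2] at h3
    exact h3
  · have h3 := conclA hA (h.flip2) (neg_nonpos.mpr s12) s13 (neg_nonpos.mpr s21) (neg_nonpos.mpr s23) s31 (neg_nonpos.mpr s32)
    rw [det_flip2] at h3
    exact h3
  · have h3 := hC _ _ _ _ _ _ _ _ _ (h.swap23.flip3) s13 (neg_nonpos.mpr s12) s31 (neg_nonneg.mpr s32) (neg_nonpos.mpr s21) (neg_nonpos.mpr s23)
    rw [det_flip3, det_swap23] at h3
    exact h3
  · have h3 := hD2 _ _ _ _ _ _ _ _ _ (h.flip2) (neg_nonpos.mpr s12) s13 (neg_nonpos.mpr s21) (neg_nonneg.mpr s23) s31 (neg_nonpos.mpr s32)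
    rw [det_flip2] at h3
    exact h3
  · have h3 := hC _ _ _ _ _ _ _ _ _ (h.swap12.flip2) (neg_nonpos.mpr s21) s23 (neg_nonpos.mpr s12) (neg_nonneg.mpr s13) s32 (neg_nonpos.mpr s31)
    rw [det_flip2, det_swap12] at h3
    exact h3
  · have h3 := hC _ _ _ _ _ _ _ _ _ (h.flip2) (neg_nonpos.mpr s12) s13 (neg_nonpos.mpr s21) (neg_nonneg.mpr s23) s31 (neg_nonpos.mpr s32)
    rw [det_flip2] at h3
    exact h3
  · have h3 := conclB hB (h.flip3) s12 (neg_nonneg.mpr s13) s21 (neg_nonneg.mpr s23) (neg_nonneg.mpr s31) (neg_nonneg.mpr s32)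
    rw [det_flip3] at h3
    exact h3
  · have h3 := hD1 _ _ _ _ _ _ _ _ _ (h.swap12.swap23.flip2) (neg_nonpos.mpr s23) s21 (neg_nonpos.mpr s32) (neg_nonpos.mpr s31) s12 (neg_nonneg.mpr s13)
    rw [det_flip2, det_swap23, det_swap12] at h3
    exact h3
  · have h3 := hE _ _ _ _ _ _ _ _ _ (h.swap12) s21 s23 s12 s13 s32 s31
    rw [det_swap12] at h3
    exact h3
  · have h3 := hC _ _ _ _ _ _ _ _ _ (h.swap12.swap23.swap12.flip2) (neg_nonpos.mpr s32) s31 (neg_nonpos.mpr s23) (neg_nonneg.mpr s21) s13 (neg_nonpos.mpr s12)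
    rw [det_flip2, det_swap12, det_swap23, det_swap12] at h3
    exact h3
  · have h3 := hD2 _ _ _ _ _ _ _ _ _ (h.swap23.swap12) s31 s32 s13 s12 s23 s21
    rw [det_swap12, det_swap23] at h3
    exact h3
  · have h3 := hE _ _ _ _ _ _ _ _ _ (h.flip1) (neg_nonpos.mpr s12) (neg_nonneg.mpr s13) (neg_nonneg.mpr s21) s23 (neg_nonpos.mpr s31) s32
    rw [det_flip1] at h3
    exact h3
  · have h3 := hD2 _ _ _ _ _ _ _ _ _ (h.swap12.swap23) s23 s21 s32 s31 s12 s13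
    rw [det_swap23, det_swap12] at h3
    exact h3
  · have h3 := hD1 _ _ _ _ _ _ _ _ _ (h.swap23.flip3) s13 (neg_nonpos.mpr s12) s31 (neg_nonpos.mpr s32) (neg_nonneg.mpr s21) (neg_nonneg.mpr s23)
    rw [det_flip3, det_swap23] at h3
    exact h3
  · have h3 := hC _ _ _ _ _ _ _ _ _ (h.swap23.swap12) s31 s32 s13 s12 s23 s21
    rw [det_swap12, det_swap23] at h3
    exact h3
  · have h3 := hC _ _ _ _ _ _ _ _ _ (h.swap12.swap23.swap12.flip1) (neg_nonpos.mpr s32) (neg_nonpos.mpr s31) (neg_nonpos.mpr s23) s21 (neg_nonpos.mpr s13) s12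
    rw [det_flip1, det_swap12, det_swap23, det_swap12] at h3
    exact h3
  · have h3 := hD2 _ _ _ _ _ _ _ _ _ (h.swap23.flip2) (neg_nonpos.mpr s13) s12 (neg_nonpos.mpr s31) (neg_nonneg.mpr s32) s21 (neg_nonpos.mpr s23)
    rw [det_flip2, det_swap23] at h3
    exact h3
  · have h3 := hD1 _ _ _ _ _ _ _ _ _ (h.swap12.swap23.flip1) (neg_nonpos.mpr s23) (neg_nonpos.mpr s21) (neg_nonpos.mpr s32) s31 (neg_nonneg.mpr s12) s13
    rw [det_flip1, det_swap23, det_swap12] at h3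
    exact h3
  · have h3 := hE _ _ _ _ _ _ _ _ _ (h.swap12.flip2) (neg_nonpos.mpr s21) s23 (neg_nonneg.mpr s12) (neg_nonpos.mpr s13) s32 (neg_nonneg.mpr s31)
    rw [det_flip2, det_swap12] at h3
    exact h3
  · have h3 := hD1 _ _ _ _ _ _ _ _ _ (h.swap23.flip2) (neg_nonpos.mpr s13) s12 (neg_nonpos.mpr s31) (neg_nonpos.mpr s32) s21 (neg_nonneg.mpr s23)
    rw [det_flip2, det_swap23] at h3
    exact h3
  · have h3 := hC _ _ _ _ _ _ _ _ _ (h.swap23.swap12.flip2) (neg_nonpos.mpr s31) s32 (neg_nonpos.mpr s13) (neg_nonneg.mpr s12) s23 (neg_nonpos.mpr s21)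
    rw [det_flip2, det_swap12, det_swap23] at h3
    exact h3
  · exact hE _ _ _ _ _ _ _ _ _ h s12 s13 s21 s23 s31 s32
  · have h3 := hD2 _ _ _ _ _ _ _ _ _ (h.swap12.swap23.swap12) s32 s31 s23 s21 s13 s12
    rw [det_swap12, det_swap23, det_swap12] at h3
    exact h3
  · have h3 := conclA hA (h.flip3) s12 (neg_nonpos.mpr s13) s21 (neg_nonpos.mpr s23) (neg_nonpos.mpr s31) (neg_nonpos.mpr s32)
    rw [det_flip3] at h3
    exact h3
  · have h3 := hC _ _ _ _ _ _ _ _ _ (h.swap23.flip2) (neg_nonpos.mpr s13) s12 (neg_nonpos.mpr s31) (neg_nonneg.mpr s32) s21 (neg_nonpos.mpr s23)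
    rw [det_flip2, det_swap23] at h3
    exact h3
  · have h3 := hC _ _ _ _ _ _ _ _ _ (h.swap12.swap23.flip2) (neg_nonpos.mpr s23) s21 (neg_nonpos.mpr s32) (neg_nonneg.mpr s31) s12 (neg_nonpos.mpr s13)
    rw [det_flip2, det_swap23, det_swap12] at h3
    exact h3
  · have h3 := hD1 _ _ _ _ _ _ _ _ _ (h.flip3) s12 (neg_nonpos.mpr s13) s21 (neg_nonpos.mpr s23) (neg_nonneg.mpr s31) (neg_nonneg.mpr s32)
    rw [det_flip3] at h3
    exact h3
  · have h3 := hC _ _ _ _ _ _ _ _ _ (h.flip3) s12 (neg_nonpos.mpr s13) s21 (neg_nonneg.mpr s23) (neg_nonpos.mpr s31) (neg_nonpos.mpr s32)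
    rw [det_flip3] at h3
    exact h3
  · have h3 := conclB hB (h.flip2) (neg_nonneg.mpr s12) s13 (neg_nonneg.mpr s21) (neg_nonneg.mpr s23) s31 (neg_nonneg.mpr s32)
    rw [det_flip2] at h3
    exact h3
  · have h3 := hD2 _ _ _ _ _ _ _ _ _ (h.swap12) s21 s23 s12 s13 s32 s31
    rw [det_swap12] at h3
    exact h3
  · have h3 := hC _ _ _ _ _ _ _ _ _ (h.swap12) s21 s23 s12 s13 s32 s31
    rw [det_swap12] at h3
    exact h3
  · have h3 := hD2 _ _ _ _ _ _ _ _ _ (h.swap12.swap23.flip1) (neg_nonpos.mpr s23) (neg_nonpos.mpr s21) (neg_nonpos.mpr s32) s31 (neg_nonneg.mpr s12) s13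
    rw [det_flip1, det_swap23, det_swap12] at h3
    exact h3
  · have h3 := hE _ _ _ _ _ _ _ _ _ (h.flip3) s12 (neg_nonneg.mpr s13) s21 (neg_nonpos.mpr s23) (neg_nonpos.mpr s31) (neg_nonneg.mpr s32)
    rw [det_flip3] at h3
    exact h3
  · have h3 := hC _ _ _ _ _ _ _ _ _ (h.swap23.swap12.flip3) s31 (neg_nonpos.mpr s32) s13 (neg_nonneg.mpr s12) (neg_nonpos.mpr s23) (neg_nonpos.mpr s21)
    rw [det_flip3, det_swap12, det_swap23] at h3
    exact h3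
  · have h3 := hD1 _ _ _ _ _ _ _ _ _ (h.swap23) s13 s12 s31 s32 s21 s23
    rw [det_swap23] at h3
    exact h3
  · have h3 := hE _ _ _ _ _ _ _ _ _ (h.swap12.flip1) (neg_nonpos.mpr s21) (neg_nonneg.mpr s23) (neg_nonneg.mpr s12) s13 (neg_nonpos.mpr s32) s31
    rw [det_flip1, det_swap12] at h3
    exact h3
  · have h3 := hD1 _ _ _ _ _ _ _ _ _ (h.swap12.swap23.flip3) s23 (neg_nonpos.mpr s21) s32 (neg_nonpos.mpr s31) (neg_nonneg.mpr s12) (neg_nonneg.mpr s13)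
    rw [det_flip3, det_swap23, det_swap12] at h3
    exact h3
  · have h3 := hD2 _ _ _ _ _ _ _ _ _ (h.swap23) s13 s12 s31 s32 s21 s23
    rw [det_swap23] at h3
    exact h3
  · have h3 := hC _ _ _ _ _ _ _ _ _ (h.swap12.swap23.swap12) s32 s31 s23 s21 s13 s12
    rw [det_swap12, det_swap23, det_swap12] at h3
    exact h3
  · have h3 := hC _ _ _ _ _ _ _ _ _ (h.swap12.flip3) s21 (neg_nonpos.mpr s23) s12 (neg_nonneg.mpr s13) (neg_nonpos.mpr s32) (neg_nonpos.mpr s31)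
    rw [det_flip3, det_swap12] at h3
    exact h3
  · exact hD2 _ _ _ _ _ _ _ _ _ h s12 s13 s21 s23 s31 s32
  · have h3 := conclB hB (h.flip1) (neg_nonneg.mpr s12) (neg_nonneg.mpr s13) (neg_nonneg.mpr s21) s23 (neg_nonneg.mpr s31) s32
    rw [det_flip1] at h3
    exact h3
  · exact hC _ _ _ _ _ _ _ _ _ h s12 s13 s21 s23 s31 s32
  · exact hD1 _ _ _ _ _ _ _ _ _ h s12 s13 s21 s23 s31 s32
  · have h3 := hC _ _ _ _ _ _ _ _ _ (h.swap12.swap23) s23 s21 s32 s31 s12 s13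
    rw [det_swap23, det_swap12] at h3
    exact h3
  · have h3 := hC _ _ _ _ _ _ _ _ _ (h.swap23) s13 s12 s31 s32 s21 s23
    rw [det_swap23] at h3
    exact h3
  · exact conclA hA h s12 s13 s21 s23 s31 s32

end Pool.Agent.Helper58.KB
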