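import Pool.Agent.Helper58.KB.TopC
set_option autoImplicit false
set_option maxRecDepth 100000
namespace Pool.Agent.Helper58.KB

theorem okC : (nC_0.isTree && nC_0.chk 66 MC FsC [] stC) = true := by
  decide +kernel

end Pool.Agent.Helper58.KB
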