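import Pool.Agent.Helper58.KB.TopD1
set_option autoImplicit false
set_option maxRecDepth 100000
namespace Pool.Agent.Helper58.KB

theorem okD1 : (nD1_0.isTree && nD1_0.chk 66 MD1 FsD1 [] stD1) = true := by
  decide +kernel

end Pool.Agent.Helper58.KB
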