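import Pool.Agent.Helper58.KB.Core
import Pool.Agent.Helper58.KB.ClsA
import Pool.Agent.Helper58.KB.ClsB
import Pool.Agent.Helper58.KB.ClsC
import Pool.Agent.Helper58.KB.ClsD1
import Pool.Agent.Helper58.KB.ClsD2
import Pool.Agent.Helper58.KB.ClsE
import Pool.Agent.Helper58.KB.OkA
import Pool.Agent.Helper58.KB.OkB
import Pool.Agent.Helper58.KB.OkC
import Pool.Agent.Helper58.KB.OkD1
import Pool.Agent.Helper58.KB.OkD2
import Pool.Agent.Helper58.KB.OkE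
set_option autoImplicit false
namespace Pool.Agent.Helper58.KB

/-- The volume estimate. -/
theorem core {m11 m12 m13 m21 m22 m23 m31 m32 m33 : ℝ}
    (h : Hyp 66 (53 / 20) m11 m12 m13 m21 m22 m23 m31 m32 m33) :
    2999 / 400 ≤ det3 m11 m12 m13 m21 m22 m23 m31 m32 m33 :=
  core_of
    (fun _ _ _ _ _ _ _ _ _ h s12 s13 s21 s23 s31 s32 g21 g23 g32 g13 g31 =>
      clsA hFsA okA h s12 s13 s21 s23 s31 s32 g21 g23 g32 g13 g31)
    (fun _ _ _ _ _ _ _ _ _ h s12 s13 s21 s23 s31 s32 g21 g23 g32 g13 g31 =>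
      clsB hFsB okB h s12 s13 s21 s23 s31 s32 g21 g23 g32 g13 g31)
    (fun _ _ _ _ _ _ _ _ _ h s12 s13 s21 s23 s31 s32 => clsC hFsC okC h s12 s13 s21 s23 s31 s32)
    (fun _ _ _ _ _ _ _ _ _ h s12 s13 s21 s23 s31 s32 => clsD1 hFsD1 okD1 h s12 s13 s21 s23 s31 s32)
    (fun _ _ _ _ _ _ _ _ _ h s12 s13 s21 s23 s31 s32 => clsD2 hFsD2 okD2 h s12 s13 s21 s23 s31 s32)
    (fun _ _ _ _ _ _ _ _ _ h s12 s13 s21 s23 s31 s32 => clsE hFsE okE h s12 s13 s21 s23 s31 s32)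
    h

end Pool.Agent.Helper58.KB
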