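import Pool.Agent.Helper84.Dbl.Fam
/-!
# From the covolume to the density of double lattice packings
-/
set_option autoImplicit false
namespace Pool.Agent.Helper58.KB
open MeasureTheory Filter Topology
open scoped Pointwise ENNReal
open Pool.Agent.Helper84.Tet (E3)
open Pool.Agent.Helper84.Dbl (IsPackingFam dlFamily famDensity deltaLstar fam_density_le)

theorem fam_sub {K : Set E3} {R : ℝ} (hK : K ⊆ Metric.closedBall (0 : E3) R)
    (Λ : Submodule ℤ E3) (v : E3) (u : Λ) (b : Bool) :
    dlFamily K v Λ (u, b) ⊆ Metric.closedBall (u : E3) (‖v‖ + R) := by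
  have hv := norm_nonneg v
  unfold dlFamily
  cases b
  · simp only [Bool.false_eq_true, if_false]
    rintro x ⟨y, ⟨w, hw, rfl⟩, rfl⟩
    have hw2 := hK hw
    rw [mem_closedBall_zero_iff, norm_neg] at hw2
    rw [mem_closedBall_iff_norm]
    show ‖(u : E3) + (v + w) - u‖ ≤ _
    rw [add_sub_cancel_left]
    exact (norm_add_le _ _).trans (by linarith)
  · simp only [if_true]
    rintro x ⟨w, hw, rfl⟩
    have hw2 := hK hw
    rw [mem_closedBall_zero_iff] at hw2
    rw [mem_closedBall_iff_norm]
    show ‖(u : E3) + w - u‖ ≤ _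
    rw [add_sub_cancel_left]
    linarith

theorem fam_vol (Λ : Submodule ℤ E3) (v : E3) (K : Set E3) (u : Λ) (b : Bool) :
    volume (dlFamily K v Λ (u, b)) = volume K := by
  unfold dlFamily
  cases b
  · simp only [Bool.false_eq_true, if_false]
    rw [measure_vadd, measure_vadd, Measure.measure_neg]
  · simp only [if_true]
    rw [measure_vadd]

/-- A lower bound of the covolume gives an upper bound of the double lattice packing density. -/
theorem deltaLstar_le {K : Set E3} {R V D : ℝ} (hK : K ⊆ Metric.closedBall (0 : E3) R)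
    (hV : volume K ≤ ENNReal.ofReal V) (hD : 0 < D)
    (h : ∀ (Λ : Submodule ℤ E3) [DiscreteTopology Λ] [IsZLattice ℝ Λ] (v : E3),
      IsPackingFam (dlFamily K v Λ) → D ≤ ZLattice.covolume Λ) :
    deltaLstar K ≤ ENNReal.ofReal (2 * V / D) := by
  unfold deltaLstar
  refine iSup_le fun Λ => iSup_le fun h1 => iSup_le fun h2 => iSup_le fun v => iSup_le fun h3 => ?_
  refine (fam_density_le Λ _ (fam_sub hK Λ v)
    (fun u b => (fam_vol Λ v K u b).le.trans hV)).trans ?_
  rw [ENNReal.ofReal_div_of_pos hD, ENNReal.ofReal_mul (by norm_num), ENNReal.ofReal_ofNat]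
  exact ENNReal.div_le_div_left (ENNReal.ofReal_le_ofReal (h Λ v h3)) _

end Pool.Agent.Helper58.KB
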