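import Pool.Agent.Helper58.KB.CoreK
import Pool.Agent.Helper58.KB.Dens
import Pool.Agent.Helper63.KB.Pack
import Pool.Agent.Helper30.KB.Holes
import Pool.Agent.Helper49.KB.Body
import Pool.Agent.Helper49.KB.Vol
import Pool.Agent.Helper84.KBL.Lattice
import Pool.Agent.Helper84.Dbl.Opt
/-!
# The tetrahedron is not a minimiser of the double lattice packing density
-/
set_option autoImplicit false
namespace Pool.Agent.Helper58.KB
open MeasureTheory
open scoped Pointwise ENNReal
open Pool.Agent.Helper84.Tet (E3 IsConvexBody tetrahedron)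
open Pool.Agent.Helper84.Dbl (IsPackingFam dlFamily deltaLstar mLstar deltaLstar_tetrahedron)

theorem covolume_ge_E3 (Λ : Submodule ℤ E3) [DiscreteTopology Λ] [IsZLattice ℝ Λ] (v : E3)
    (hp : IsPackingFam (dlFamily (triakis 66) v Λ)) : 2999 / 400 ≤ ZLattice.covolume Λ := by
  let f := (EuclideanSpace.equiv (Fin 3) ℝ).symm
  have hf : MeasurePreserving f := PiLp.volume_preserving_toLp (Fin 3)
  rw [← ZLattice.covolume_comap Λ volume volume hf]
  obtain ⟨f0, f1, f2, f3⟩ := exists_holes (Q := 66) (by norm_num)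
    (ZLattice.comap ℝ Λ f.toLinearMap) (fun i => v i)
    (fun u hu => pack_outTK (by norm_num) Λ v hp (f u) hu)
  refine Pool.Agent.Helper84.KBL.covolume_ge (Q := 66) (by norm_num) ?_ _ ?_ f0 f1 f2 f3
  · intro m11 m12 m13 m21 m22 m23 m31 m32 m33 h
    have h2 := core h
    unfold det3 at h2
    exact h2
  · intro u hu hu0
    have hu2 : f u ∈ Λ := hu
    exact pack_outDK (by norm_num) Λ v hp (f u) hu2 (by
      intro h
      apply hu0
      exact f.injective (by rw [h, map_zero]))

theorem deltaLstar_triakis_le : deltaLstar (triakis 66) ≤ ENNReal.ofReal (1437 / 2000) := by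
  refine (deltaLstar_le (triakis_subset_closedBall (by norm_num)) (vol_triakis_le (by norm_num))
    (by norm_num : (0 : ℝ) < 2999 / 400) (fun Λ _ _ v hp => covolume_ge_E3 Λ v hp)).trans ?_
  apply ENNReal.ofReal_le_ofReal
  norm_num

theorem lt_value : (1437 / 2000 : ℝ) < (139 + 40 * Real.sqrt 10) / 369 := by
  have h : (316 / 100 : ℝ) ≤ Real.sqrt 10 := by
    apply Real.le_sqrt_of_sq_le
    norm_num
  linarith

end Pool.Agent.Helper58.KB
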