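import Pool.Agent.Helper58.KB.Dens
import Pool.Agent.Helper63.KB.Pack
import Pool.Agent.Helper30.KB.Holes
import Pool.Agent.Helper49.KB.Body
import Pool.Agent.Helper49.KB.Vol
import Pool.Agent.Helper84.KBM.Lattice
import Pool.Agent.Helper84.Dbl.Opt
/-!
# The tetrahedron is not a local minimiser of the double lattice packing density
-/
set_option autoImplicit false
namespace Pool.Agent.Helper58.KB
open MeasureTheory
open scoped Pointwise ENNReal
open Pool.Agent.Helper84.Tet (E3 IsConvexBody tetrahedron)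
open Pool.Agent.Helper84.Dbl (IsPackingFam dlFamily deltaLstar mLstar deltaLstar_tetrahedron d2 d2_le
  d2_pos ratio_eq tetrahedron_convexBody interior_of_TS)

theorem covolume_local_E3 {Q : ℝ} (hQ : 10 ^ 10 ≤ Q) (Λ : Submodule ℤ E3) [DiscreteTopology Λ]
    [IsZLattice ℝ Λ] (v : E3) (hp : IsPackingFam (dlFamily (triakis Q) v Λ)) :
    d2 + 53 / 10 / Q ≤ ZLattice.covolume Λ := by
  have hQ1 : 1 < Q := by linarith [show (1 : ℝ) < 10 ^ 10 by norm_num]
  let f := (EuclideanSpace.equiv (Fin 3) ℝ).symm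
  have hf : MeasurePreserving f := PiLp.volume_preserving_toLp (Fin 3)
  rw [← ZLattice.covolume_comap Λ volume volume hf]
  obtain ⟨f0, f1, f2, f3⟩ := exists_holes hQ1
    (ZLattice.comap ℝ Λ f.toLinearMap) (fun i => v i)
    (fun u hu => pack_outTK hQ1 Λ v hp (f u) hu)
  refine Pool.Agent.Helper84.KBM.covolume_ge_local hQ _ ?_ f0 f1 f2 f3
  intro u hu hu0
  have hu2 : f u ∈ Λ := hu
  exact pack_outDK hQ1 Λ v hp (f u) hu2 (by
    intro h
    apply hu0
    exact f.injective (by rw [h, map_zero]))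

theorem deltaLstar_triakis_lt {Q : ℝ} (hQ : 10 ^ 10 ≤ Q) :
    deltaLstar (triakis Q) < deltaLstar tetrahedron := by
  have hQ1 : 1 < Q := by linarith [show (1 : ℝ) < 10 ^ 10 by norm_num]
  have hQ0 : 0 < Q := by linarith
  have hd := d2_pos
  have hD : 0 < d2 + 53 / 10 / Q := by positivity
  rw [deltaLstar_tetrahedron, ← ratio_eq]
  refine lt_of_le_of_lt (deltaLstar_le (triakis_subset_closedBall hQ1) (vol_triakis_le hQ1) hD
    (fun Λ _ _ v hp => covolume_local_E3 hQ Λ v hp)) ?_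
  rw [ENNReal.ofReal_lt_ofReal_iff (by positivity), div_lt_div_iff₀ hD hd]
  have h1 : (3 * Q + 3) / (3 * Q + 1) = 1 + 2 / (3 * Q + 1) := by
    field_simp
    ring
  have h2 : d2 * (2 / (3 * Q + 1)) < 53 / 10 / Q := by
    rw [mul_div_assoc', div_lt_div_iff₀ (by positivity) hQ0]
    have := d2_le
    nlinarith
  rw [h1]
  nlinarith

theorem smul_sub_smul {s t : ℝ} (hs : 0 < s) (hst : s ≤ t) : s • tetrahedron ⊆ t • tetrahedron := by
  rintro x ⟨y, hy, rfl⟩
  have ht : 0 < t := lt_of_lt_of_le hs hst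
  refine ⟨(s / t) • y, ?_, ?_⟩
  · refine tetrahedron_convexBody.convex.smul_mem_of_zero_mem ?_ hy ⟨by positivity, ?_⟩
    · exact interior_subset (interior_of_TS (by simp [Pool.Agent.Helper84.Dbl.TS]))
    · rw [div_le_one ht]; exact hst
  · show t • (s / t) • y = s • y
    rw [smul_smul]
    congr 1
    field_simp

/-- The tetrahedron is not a local minimiser. -/
theorem not_local_min {ε : ℝ} (hε : 0 < ε) :
    ∃ K : Set E3, IsConvexBody K ∧ tetrahedron ⊆ K ∧ K ⊆ (1 + ε) • tetrahedron ∧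
      deltaLstar K < deltaLstar tetrahedron := by
  set Q : ℝ := max (10 ^ 10) (1 / ε) with hQdef
  have hQ : 10 ^ 10 ≤ Q := le_max_left _ _
  have hQ2 : 1 / ε ≤ Q := le_max_right _ _
  have hQ1 : 1 < Q := by linarith [show (1 : ℝ) < 10 ^ 10 by norm_num]
  refine ⟨triakis Q, triakis_convexBody hQ1, tetrahedron_subset_triakis hQ1,
    (triakis_subset_smul hQ1).trans (smul_sub_smul (by positivity) ?_), deltaLstar_triakis_lt hQ⟩
  rw [div_le_iff₀ hε] at hQ2
  rw [div_le_iff₀ (by linarith)]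
  nlinarith

end Pool.Agent.Helper58.KB
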