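import Pool.Agent.Helper58.KB.TrA_0
import Pool.Agent.Helper58.KB.TrA_1
import Pool.Agent.Helper58.KB.TrA_2
import Pool.Agent.Helper58.KB.TrA_3
import Pool.Agent.Helper58.KB.TrA_4
import Pool.Agent.Helper58.KB.TrA_5
import Pool.Agent.Helper58.KB.TrA_6
set_option autoImplicit false
set_option maxRecDepth 100000
namespace Pool.Agent.Helper58.KB

/-- all lists of forms -/
def FsA : List (List (List ℤ)) := FA_0 ++ (FA_1 ++ (FA_2 ++ (FA_3 ++ (FA_4 ++ (FA_5 ++ (FA_6))))))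

theorem hFsA : ∀ F ∈ FsA, Valid GA F :=
  List.forall_mem_append.2 ⟨hFA_0, List.forall_mem_append.2 ⟨hFA_1, List.forall_mem_append.2 ⟨hFA_2, List.forall_mem_append.2 ⟨hFA_3, List.forall_mem_append.2 ⟨hFA_4, List.forall_mem_append.2 ⟨hFA_5, hFA_6⟩⟩⟩⟩⟩⟩

/-- a subtree -/
def nA_1 : T := .node 3 (1) (1) (1) [.dead [(37, 133), (36, 265), (35, 264), (34, 264), (11, 264), (9, 34980), (5, 265), (4, 133), (0, 530)], .dead [(38, 1), (36, 1), (34, 2), (9, 133), (0, 2)], .dead [(38, 1), (37, 1), (33, 3), (15, 1), (13, 1), (9, 199), (0, 3)], .red 0 22558779 [(40, 5837503), (39, 5841925), (35, 22737000), (15, 966260), (12, 46173600), (11, 23703260), (5, 47139860), (3, 23436600), (1, 1054700), (0, 23614820)], .kid, .kid, .kid, .red 2 93755699 [(40, 2317458), (39, 2352571), (36, 23352140), (35, 355120), (34, 355120), (11, 355120), (9, 70227980), (5, 23352140), (1, 702260), (0, 93404540)], .kid, .kid, .kid, .red 4 7959 [(40, 199), (38,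 1990), (35, 20), (34, 20), (33, 20), (15, 3980), (13, 1990), (11, 3980), (9, 3980), (5, 3980), (0, 7960)]] (.cons (.ref 36 [(0, [(40, 1)]), (0, [(39, 1)]), (0, [(16, 1)]), (0, [(15, 1)]), (0, [(14, 1)]), (0, [(13, 1)]), (0, [(12, 1)]), (0, [(11, 1)]), (14382852412, [(35, 313409132298240), (3, 315765727166464), (1, 2338609692672), (0, 4730638041088)]), (2445120644, [(5, 39176141537280), (3, 589115162624), (1, 589081608192), (0, 593544347648)]), (217366022, [(33, 4748623216640), (3, 4784056696832), (1, 71403831296), (0, 35970351104)])]) (.cons (.ref 37 [(0, [(40, 1)]), (0, [(39, 1)]), (0, [(16, 1)]), (0, [(15, 1)]), (0, [(14, 1)]), (0, [(13, 1)]), (0, [(12, 1)]), (0, [(11, 1)]), (7173073874, [(35, 155517544562688), (3, 156704566149120), (1, 1196014174208), (0, 2365319020544)]), (36770084, [(5, 584652423168), (3, 8858370048), (1, 8925478912), (0, 8925478912)]), (27033896, [(33, 589081608192), (3, 593510793216), (1, 8925478912),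 (0, 4496293888)])]) (.cons (.node 3 (0) (0) (1) [.red 0 18431135 [(42, 3551), (41, 7049), (37, 53072), (35, 1348), (15, 36184), (13, 34836), (10, 71020), (6, 1225741708), (2, 1060), (0, 140980)], .red 0 132 [(6, 8844), (0, 1)], .dead [(37, 66), (34, 1), (0, 1)], .red 1 3717376607 [(42, 472283), (41, 461736), (37, 9322632), (36, 35904), (35, 35904), (10, 4687320), (6, 247210179744), (2, 139920), (1, 71020), (0, 28090924)], .red 1 174899 [(40, 33), (36, 660), (6, 11631180), (4, 670), (0, 1330)], .red 1 132 [(6, 8844), (0, 1)], .red 0 132 [(34, 132), (4, 133), (0, 132)], .kid, .kid, .dead [(27, 1), (0, 1)], .dead [(25, 17556), (6, 8712), (4, 265), (0, 17689)], .dead [(25, 1), (0, 1)]] (.cons (.ref 38 [(0, [(42, 1)]), (0, [(41, 1)]), (0, [(40, 1)]), (0, [(39, 1)]), (0, [(38, 1)]), (0, [(37, 1)]), (0, [(16, 1)]), (0, [(15, 1)]), (0, [(14, 1)]), (0, [(13, 1)]), (0, [(12, 1)]), (0, [(11, 1)]), (0, [(10, 1)]), (0, [(7, 1)]), (7154846852,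 [(34, 156713558736896), (4, 157873870995456), (3, 1187021586432), (2, 2365319020544)]), (72962, [(4, 17704960), (3, 18112512), (2, 18112512), (0, 17979392)]), (39603131772, [(4, 9719846535168), (3, 9867678973952), (2, 9794035384320), (1, 9794597421056)])]) (.cons (.ref 39 [(0, [(42, 1)]), (0, [(41, 1)]), (0, [(40, 1)]), (0, [(39, 1)]), (0, [(38, 1)]), (0, [(37, 1)]), (0, [(17, 1)]), (0, [(16, 1)]), (0, [(15, 1)]), (0, [(14, 1)]), (0, [(13, 1)]), (0, [(12, 1)]), (0, [(11, 1)]), (0, [(10, 1)]), (0, [(7, 1)]), (2485562046, [(4, 607490408448), (3, 612127211520), (2, 616729935872), (0, 612162338816)]), (7154846852, [(34, 156713558736896), (4, 157873870995456), (3, 1187021586432), (2, 2365319020544)]), (39603131772, [(4, 9719846535168), (3, 9867678973952), (2, 9794035384320), (1, 9794597421056)])]) (.nil)))) (.cons (.split [0, 0, 0, 1024, 0, 0, 0, 0, 0, -1024] (.ref 40 [(0, [(42, 1)]), (0, [(41, 1)]), (0, [(40, 1)]), (0, [(39,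 1)]), (0, [(38, 1)]), (0, [(37, 1)]), (0, [(16, 1)]), (0, [(15, 1)]), (0, [(13, 1)]), (0, [(12, 1)]), (0, [(11, 1)]), (0, [(10, 1)]), (0, [(7, 1)]), (1023, [(0, 1)]), (8778, [(6, 143835136), (4, 2146304), (3, 2179072), (2, 2179072)]), (7154846852, [(34, 156713558736896), (4, 157873870995456), (3, 1187021586432), (2, 2365319020544)]), (39753700604, [(4, 9719846535168), (3, 9794035384320), (2, 9867678973952), (1, 9794597421056)])]) (.split [0, 0, 0, 1024, 0, 0, 0, 0, 0, -512] (.split [0, 0, 0, 0, 0, 0, 0, 0, 1024, -512] (.split [0, 0, 0, 0, 0, 1024, 0, 0, 0, -512] (.ref 41 [(0, [(45, 1)]), (0, [(44, 1)]), (0, [(43, 1)]), (0, [(42, 1)]), (0, [(41, 1)]), (0, [(40, 1)]), (0, [(20, 1)]), (0, [(19, 1)]), (0, [(18, 1)]), (0, [(17, 1)]), (0, [(16, 1)]), (0, [(15, 1)]), (0, [(14, 1)]), (0, [(13, 1)]), (0, [(10, 1)]), (1023, [(3, 1)]), (511, [(1, 1)]), (511, [(0, 1)]), (8778, [(9, 143835136), (7, 2146304), (6, 2179072), (5, 2179072)]),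 (7154846852, [(37, 156713558736896), (7, 157873870995456), (6, 1187021586432), (5, 2365319020544)]), (39753700604, [(7, 9719846535168), (6, 9794035384320), (5, 9867678973952), (4, 9794597421056)])]) (.node 3 (0) (0) (1) [.red 0 18431135 [(46, 3551), (45, 7049), (41, 53072), (39, 1348), (19, 36184), (17, 34836), (14, 71020), (10, 1225741708), (6, 1060), (0, 140980)], .red 0 132 [(10, 8844), (0, 1)], .dead [(41, 66), (38, 1), (0, 1)], .red 1 4764131327 [(45, 895488), (41, 18045952), (40, 1024), (39, 1024), (10, 316832779264), (6, 271360), (1, 17755), (0, 36091904)], .red 1 44943359 [(44, 8448), (10, 2988902400), (8, 2560), (2, 165), (0, 340480)], .red 1 132 [(10, 8844), (0, 1)], .red 0 68095 [(38, 67584), (8, 68096), (2, 33), (0, 67584)], .kid, .kid, .dead [(31, 1), (0, 1)], .dead [(29, 17556), (10, 8712), (8, 265), (0, 17689)], .dead [(29, 1), (0, 1)]] (.cons (.ref 42 [(0, [(46, 1)]), (0, [(45, 1)]), (0, [(44, 1)]), (0,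 [(43, 1)]), (0, [(41, 1)]), (0, [(21, 1)]), (0, [(19, 1)]), (0, [(18, 1)]), (0, [(17, 1)]), (0, [(16, 1)]), (0, [(15, 1)]), (0, [(14, 1)]), (0, [(11, 1)]), (1023, [(4, 1)]), (511, [(2, 1)]), (511, [(1, 1)]), (7154846852, [(38, 156713558736896), (8, 157873870995456), (7, 1187021586432), (6, 2365319020544)]), (72962, [(8, 17704960), (7, 18112512), (6, 18112512), (0, 17979392)]), (39753700604, [(8, 9719846535168), (7, 9794035384320), (6, 9867678973952), (5, 9794597421056)])]) (.cons (.ref 43 [(0, [(46, 1)]), (0, [(45, 1)]), (0, [(44, 1)]), (0, [(43, 1)]), (0, [(41, 1)]), (0, [(21, 1)]), (0, [(19, 1)]), (0, [(18, 1)]), (0, [(17, 1)]), (0, [(16, 1)]), (0, [(15, 1)]), (0, [(14, 1)]), (0, [(11, 1)]), (1023, [(4, 1)]), (511, [(2, 1)]), (511, [(1, 1)]), (2485562046, [(8, 607490408448), (7, 612127211520), (6, 616729935872), (0, 612162338816)]), (7154846852, [(38, 156713558736896), (8, 157873870995456), (7, 1187021586432), (6, 2365319020544)]),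 (39753700604, [(8, 9719846535168), (7, 9794035384320), (6, 9867678973952), (5, 9794597421056)])]) (.nil))))) (.ref 44 [(0, [(44, 1)]), (0, [(43, 1)]), (0, [(42, 1)]), (0, [(41, 1)]), (0, [(40, 1)]), (0, [(39, 1)]), (0, [(19, 1)]), (0, [(18, 1)]), (0, [(17, 1)]), (0, [(16, 1)]), (0, [(14, 1)]), (0, [(13, 1)]), (0, [(12, 1)]), (0, [(9, 1)]), (1023, [(2, 1)]), (511, [(1, 1)]), (511, [(0, 1)]), (8778, [(8, 143835136), (6, 2146304), (5, 2179072), (4, 2179072)]), (7154846852, [(36, 156713558736896), (6, 157873870995456), (5, 1187021586432), (4, 2365319020544)]), (39753700604, [(6, 9719846535168), (5, 9794035384320), (4, 9867678973952), (3, 9794597421056)])])) (.ref 45 [(0, [(43, 1)]), (0, [(42, 1)]), (0, [(41, 1)]), (0, [(18, 1)]), (0, [(17, 1)]), (0, [(16, 1)]), (0, [(15, 1)]), (0, [(14, 1)]), (0, [(13, 1)]), (0, [(12, 1)]), (0, [(11, 1)]), (0, [(8, 1)]), (511, [(0, 1)]), (8778, [(7, 143835136), (5, 2146304), (4, 2179072),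 (3, 2179072)]), (7154846852, [(35, 156713558736896), (5, 157873870995456), (4, 1187021586432), (3, 2365319020544)]), (39753700604, [(5, 9719846535168), (4, 9794035384320), (3, 9867678973952), (2, 9794597421056)])]))) (.cons (.ref 46 [(0, [(41, 1)]), (0, [(40, 1)]), (0, [(39, 1)]), (0, [(38, 1)]), (0, [(37, 1)]), (0, [(36, 1)]), (0, [(16, 1)]), (0, [(15, 1)]), (0, [(14, 1)]), (0, [(13, 1)]), (0, [(12, 1)]), (0, [(11, 1)]), (0, [(10, 1)]), (0, [(9, 1)]), (0, [(6, 1)]), (8778, [(5, 143835136), (3, 2146304), (2, 2179072), (1, 2179072)]), (7154846852, [(33, 156713558736896), (3, 157873870995456), (2, 1187021586432), (1, 2365319020544)]), (4494302, [(5, 73081552896), (3, 1107296256), (2, 1115684864), (0, 1115684864)]), (7173073874, [(33, 155517544562688), (3, 156704566149120), (2, 1196014174208), (0, 2365319020544)])]) (.cons (.ref 47 [(0, [(41, 1)]), (0, [(40, 1)]), (0, [(39, 1)]), (0, [(38, 1)]), (0, [(37, 1)]), (0, [(36,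 1)]), (0, [(16, 1)]), (0, [(15, 1)]), (0, [(14, 1)]), (0, [(13, 1)]), (0, [(12, 1)]), (0, [(11, 1)]), (0, [(10, 1)]), (0, [(9, 1)]), (0, [(6, 1)]), (8778, [(5, 143835136), (3, 2146304), (2, 2179072), (1, 2179072)]), (7154846852, [(33, 156713558736896), (3, 157873870995456), (2, 1187021586432), (1, 2365319020544)]), (76803408164, [(5, 1253636529192960), (3, 18851685203968), (2, 18850611462144), (0, 18993419124736)]), (14382852412, [(33, 313409132298240), (3, 315765727166464), (2, 2338609692672), (0, 4730638041088)])]) (.nil)))))))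

/-- a subtree -/
def nA_2 : T := .node 3 (0) (1) (0) [.dead [(40, 11881), (38, 6073), (33, 2640), (14, 58080), (10, 179540), (9, 60730), (8, 58080), (4, 2650), (3, 1330), (0, 2660)], .dead [(40, 66), (38, 33), (33, 20), (14, 660), (10, 660), (8, 660), (0, 20)], .dead [(40, 265), (38, 134), (32, 60), (14, 1340), (10, 3960), (9, 1340), (8, 1340), (0, 60)], .dead [(40, 199), (39, 26268), (34, 176900), (32, 172920), (10, 3980), (3, 262680), (2, 352440), (0, 3980)], .dead [(39, 26467), (34, 175560), (32, 175560), (3, 262680), (2, 353780), (0, 3980)], .dead [(39, 6567), (34, 43890), (32, 42895), (3, 65670), (2, 87450), (0, 995)], .dead [(28, 1), (0, 1)], .dead [(27, 1), (0, 1)], .dead [(27, 17557), (3, 8844), (2, 265), (0, 17688)], .red 1 65 [(20, 67), (2, 1), (0, 66)], .kid, .kid] (.cons (.node 1 (1) (1) (1) [.dead [(35, 1), (34, 1), (33, 1), (9, 199), (0, 199)], .kid, .kid, .kid] (.cons (.ref 54 [(0, [(40, 1)]), (0, [(39,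 1)]), (0, [(16, 1)]), (0, [(15, 1)]), (0, [(14, 1)]), (0, [(13, 1)]), (0, [(12, 1)]), (0, [(11, 1)]), (0, [(35, 132), (3, 133), (1, 1), (0, 132)]), (0, [(5, 66), (3, 1), (1, 1), (0, 66)]), (216814072, [(33, 4712652865536), (3, 4748354781184), (1, 71135395840), (0, 2338609692672)])]) (.cons (.node 3 (0) (0) (1) [.red 0 18293351 [(42, 3498), (41, 7049), (37, 53064), (35, 1316), (15, 36168), (13, 33792), (10, 69960), (6, 1216579056), (2, 1060), (0, 139920)], .red 0 132 [(6, 8844), (0, 1)], .dead [(37, 66), (34, 1), (0, 1)], .red 1 27878663 [(42, 1749), (41, 5300), (37, 70356), (36, 792), (16, 34980), (10, 34980), (6, 1854001512), (4, 268), (2, 1060), (0, 210672)], .red 1 174899 [(40, 33), (36, 660), (6, 11631180), (4, 670), (0, 1330)], .red 1 132 [(6, 8844), (0, 1)], .red 0 132 [(34, 132), (4, 133), (0, 132)], .kid, .kid, .dead [(27, 1), (0, 1)], .dead [(25, 17556), (6, 8712), (4, 265), (0, 17689)], .dead [(25, 1), (0, 1)]]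 (.cons (.ref 55 [(0, [(42, 1)]), (0, [(41, 1)]), (0, [(40, 1)]), (0, [(39, 1)]), (0, [(38, 1)]), (0, [(37, 1)]), (0, [(17, 1)]), (0, [(16, 1)]), (0, [(15, 1)]), (0, [(14, 1)]), (0, [(13, 1)]), (0, [(12, 1)]), (0, [(11, 1)]), (0, [(10, 1)]), (0, [(7, 1)]), (26534, [(34, 575275008), (4, 579665920), (3, 4325376), (2, 8716288)]), (18900230, [(4, 4637327360), (3, 4636803072), (2, 4671930368), (0, 4602200064)]), (4494302, [(4, 1115684864), (3, 1107296256), (2, 1115684864), (1, 73081552896)])]) (.cons (.ref 56 [(0, [(42, 1)]), (0, [(41, 1)]), (0, [(40, 1)]), (0, [(39, 1)]), (0, [(38, 1)]), (0, [(37, 1)]), (0, [(17, 1)]), (0, [(16, 1)]), (0, [(15, 1)]), (0, [(14, 1)]), (0, [(13, 1)]), (0, [(12, 1)]), (0, [(11, 1)]), (0, [(10, 1)]), (0, [(7, 1)]), (26534, [(34, 575275008), (4, 579665920), (3, 4325376), (2, 8716288)]), (141570, [(4, 35127296), (3, 34603008), (2, 35127296), (0, 34603008)]), (4494302, [(4, 1115684864), (3, 1107296256),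 (2, 1115684864), (1, 73081552896)])]) (.nil)))) (.cons (.ref 57 [(0, [(41, 1)]), (0, [(40, 1)]), (0, [(39, 1)]), (0, [(38, 1)]), (0, [(37, 1)]), (0, [(36, 1)]), (0, [(16, 1)]), (0, [(15, 1)]), (0, [(14, 1)]), (0, [(13, 1)]), (0, [(12, 1)]), (0, [(11, 1)]), (0, [(10, 1)]), (0, [(9, 1)]), (0, [(6, 1)]), (18045818, [(5, 292326211584), (3, 4462739456), (2, 4429185024), (1, 4462739456)]), (0, [(5, 131), (3, 2), (2, 2), (0, 133)]), (0, [(33, 131), (3, 132), (2, 1), (0, 132)])]) (.nil))))) (.cons (.node 1 (1) (1) (1) [.dead [(35, 1), (34, 1), (33, 1), (9, 199), (0, 199)], .kid, .kid, .kid] (.cons (.ref 58 [(0, [(40, 1)]), (0, [(39, 1)]), (0, [(16, 1)]), (0, [(15, 1)]), (0, [(14, 1)]), (0, [(13, 1)]), (0, [(12, 1)]), (0, [(11, 1)]), (432549116, [(35, 9425842601984), (3, 9496709562368), (1, 71403831296), (0, 9461276082176)]), (588318450, [(5, 9425842601984), (3, 141733920768), (1, 142807662592), (0, 9496709562368)]), (107863634,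 [(33, 2356460650496), (3, 2374043172864), (1, 35567697920), (0, 1187021586432)])]) (.cons (.node 3 (0) (0) (1) [.red 0 18431135 [(42, 3551), (41, 7049), (37, 53072), (35, 1348), (15, 36184), (13, 34836), (10, 71020), (6, 1225741708), (2, 1060), (0, 140980)], .red 0 132 [(6, 8844), (0, 1)], .dead [(37, 66), (34, 1), (0, 1)], .red 1 28090923 [(42, 3551), (41, 3498), (37, 70626), (36, 272), (35, 272), (10, 35510), (6, 1868081562), (2, 1060), (1, 35510), (0, 212272)], .red 1 174899 [(40, 33), (36, 660), (6, 11631180), (4, 670), (0, 1330)], .red 1 132 [(6, 8844), (0, 1)], .red 0 132 [(34, 132), (4, 133), (0, 132)], .kid, .kid, .dead [(27, 1), (0, 1)], .dead [(25, 17556), (6, 8712), (4, 265), (0, 17689)], .dead [(25, 1), (0, 1)]] (.cons (.node 3 (1) (1) (1) [.dead [(42, 291852), (38, 14616030), (37, 17469540), (36, 11675735), (13, 17469540), (11, 1932278700), (3, 88440), (2, 2962740), (1, 131675), (0, 29232060)], .dead [(40,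 1), (38, 1), (36, 2), (11, 133), (0, 2)], .dead [(40, 529), (36, 528), (35, 528), (15, 2), (12, 263), (11, 69961), (4, 4), (2, 528), (0, 1060)], .dead [(42, 592481), (41, 1167408), (38, 2660), (14, 174220), (5, 174220), (3, 176900), (2, 11501180), (1, 2640), (0, 176900)], .dead [(42, 118523), (41, 235257), (5, 35378), (3, 35376), (2, 2352504), (1, 2), (0, 35644)], .dead [(42, 8844), (41, 17623), (14, 1320), (5, 2640), (3, 2660), (2, 174240), (0, 2660)], .kid, .red 0 46877179 [(42, 1158696), (41, 1167473), (38, 11763860), (37, 178220), (36, 178220), (13, 178220), (11, 35113320), (3, 351120), (1, 175580), (0, 46701600)], .kid, .red 0 132 [(2, 8844), (0, 1)], .red 0 17621 [(42, 10), (35, 66), (17, 66), (15, 66), (5, 67), (2, 1171830), (1, 1), (0, 134)], .red 0 35111 [(40, 133), (15, 1), (4, 2), (2, 2335080), (0, 266)]] (.cons (.node 2 (1) (1) (1) [.red 0 0 [(12, 66), (0, 1)], .dead [(43, 1), (39, 20), (15, 20), (14, 40),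 (12, 20), (0, 60)], .red 0 3105746179 [(44, 37949472), (43, 30979523983), (18, 103263163080), (16, 104033652360), (15, 208090831100), (14, 106368909260), (6, 1541152800), (5, 1552741080), (4, 1541241240), (1, 1529478720), (0, 721312489940)], .dead [(41, 1), (39, 1), (12, 1), (0, 2)], .red 2 0 [(12, 66), (0, 1)], .dead [(41, 1), (40, 1), (18, 1), (16, 1), (12, 1), (0, 3)], .kid, .kid, .kid, .dead [(43, 66), (42, 65), (39, 20), (15, 1320), (14, 1340), (0, 20)], .dead [(43, 67), (42, 66), (19, 20), (15, 1320), (14, 1300), (0, 20)], .dead [(43, 66), (42, 67), (15, 1320), (14, 1320), (0, 20)], .red 2 263 [(41, 133), (13, 133), (12, 17423), (0, 2)], .red 2 265 [(41, 133), (13, 133), (12, 17557), (0, 2)], .red 2 132 [(41, 66), (13, 66), (12, 8778), (0, 1)], .dead [(42, 131), (39, 20), (14, 20), (12, 1320), (0, 20)], .dead [(42, 66), (41, 5), (39, 5), (12, 665), (0, 10)], .dead [(42, 133), (12, 1320), (0, 20)], .dead [(44, 67),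 (43, 132), (16, 1320), (13, 1320), (0, 20)], .dead [(44, 33), (43, 66), (18, 10), (16, 660), (13, 650), (0, 10)], .dead [(44, 65), (43, 132), (41, 20), (18, 20), (16, 1320), (13, 1320), (0, 20)], .dead [(32, 1), (1, 1), (0, 1)], .dead [(43, 67), (31, 1330), (6, 10), (3, 88440), (0, 1340)], .dead [(40, 17688), (31, 17423), (16, 17688), (12, 8844), (6, 131), (3, 1158564), (0, 17688)], .dead [(44, 1), (41, 1320), (13, 1320), (0, 20)], .dead [(41, 133), (39, 1), (13, 132), (12, 1), (0, 2)], .dead [(41, 133), (18, 2), (13, 131), (12, 1), (0, 2)], .dead [(40, 1), (39, 1), (15, 1), (14, 1), (12, 199), (0, 3)], .dead [(41, 1), (39, 1), (12, 133), (0, 2)], .dead [(41, 1), (40, 1), (18, 1), (16, 1), (12, 199), (0, 3)]] (.cons (.ref 59 [(0, [(44, 1)]), (0, [(43, 1)]), (0, [(42, 1)]), (0, [(41, 1)]), (0, [(40, 1)]), (0, [(39, 1)]), (0, [(19, 1)]), (0, [(18, 1)]), (0, [(17, 1)]), (0, [(16, 1)]), (0, [(15, 1)]), (0, [(14, 1)]), (0,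 [(13, 1)]), (0, [(9, 1)]), (0, [(0, 1)]), (141570, [(6, 34603008), (5, 35127296), (4, 35127296), (2, 34603008)]), (27033896, [(36, 589081608192), (6, 593510793216), (5, 4496293888), (4, 8925478912)]), (36092726, [(6, 8858370048), (5, 8925478912), (4, 8925478912), (3, 584652423168)]), (39753700604, [(6, 9794035384320), (5, 9867678973952), (4, 9794597421056), (1, 9719846535168)])]) (.cons (.ref 60 [(0, [(44, 1)]), (0, [(43, 1)]), (0, [(42, 1)]), (0, [(41, 1)]), (0, [(40, 1)]), (0, [(39, 1)]), (0, [(19, 1)]), (0, [(18, 1)]), (0, [(17, 1)]), (0, [(16, 1)]), (0, [(15, 1)]), (0, [(14, 1)]), (0, [(13, 1)]), (0, [(9, 1)]), (0, [(0, 1)]), (141570, [(6, 34603008), (5, 35127296), (4, 35127296), (2, 34603008)]), (27033896, [(36, 589081608192), (6, 593510793216), (5, 4496293888), (4, 8925478912)]), (36092726, [(6, 8858370048), (5, 8925478912), (4, 8925478912), (3, 584652423168)]), (39753700604, [(6, 9794035384320), (5, 9867678973952),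 (4, 9794597421056), (1, 9719846535168)])]) (.cons (.ref 61 [(0, [(44, 1)]), (0, [(43, 1)]), (0, [(42, 1)]), (0, [(41, 1)]), (0, [(40, 1)]), (0, [(39, 1)]), (0, [(19, 1)]), (0, [(18, 1)]), (0, [(17, 1)]), (0, [(16, 1)]), (0, [(15, 1)]), (0, [(14, 1)]), (0, [(13, 1)]), (0, [(12, 1)]), (0, [(9, 1)]), (0, [(0, 1)]), (141570, [(6, 34603008), (5, 35127296), (4, 35127296), (2, 34603008)]), (27033896, [(36, 589081608192), (6, 593510793216), (5, 4496293888), (4, 8925478912)]), (36092726, [(6, 8858370048), (5, 8925478912), (4, 8925478912), (3, 584652423168)]), (39753700604, [(6, 9794035384320), (5, 9867678973952), (4, 9794597421056), (1, 9719846535168)])]) (.nil))))) (.cons (.ref 62 [(0, [(43, 1)]), (0, [(42, 1)]), (0, [(41, 1)]), (0, [(40, 1)]), (0, [(39, 1)]), (0, [(38, 1)]), (0, [(18, 1)]), (0, [(17, 1)]), (0, [(16, 1)]), (0, [(15, 1)]), (0, [(14, 1)]), (0, [(13, 1)]), (0, [(12, 1)]), (0, [(11, 1)]), (0, [(8, 1)]), (141570, [(5,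 34603008), (4, 35127296), (3, 35127296), (1, 34603008)]), (27033896, [(35, 589081608192), (5, 593510793216), (4, 4496293888), (3, 8925478912)]), (2361414, [(5, 579600384), (4, 579665920), (3, 583991296), (0, 575275008)])]) (.nil)))) (.cons (.ref 63 [(0, [(42, 1)]), (0, [(41, 1)]), (0, [(40, 1)]), (0, [(39, 1)]), (0, [(38, 1)]), (0, [(37, 1)]), (0, [(17, 1)]), (0, [(16, 1)]), (0, [(15, 1)]), (0, [(14, 1)]), (0, [(13, 1)]), (0, [(12, 1)]), (0, [(11, 1)]), (0, [(10, 1)]), (0, [(7, 1)]), (18900230, [(4, 4636803072), (3, 4637327360), (2, 4671930368), (0, 4602200064)]), (27033896, [(34, 589081608192), (4, 593510793216), (3, 4496293888), (2, 8925478912)]), (36092726, [(4, 8858370048), (3, 8925478912), (2, 8925478912), (1, 584652423168)])]) (.nil)))) (.cons (.ref 64 [(0, [(41, 1)]), (0, [(40, 1)]), (0, [(39, 1)]), (0, [(38, 1)]), (0, [(37, 1)]), (0, [(36, 1)]), (0, [(16, 1)]), (0, [(15, 1)]), (0, [(14, 1)]), (0, [(13, 1)]), (0,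 [(12, 1)]), (0, [(11, 1)]), (0, [(10, 1)]), (0, [(9, 1)]), (0, [(6, 1)]), (18045818, [(5, 292326211584), (3, 4429185024), (2, 4462739456), (1, 4462739456)]), (27033896, [(33, 589081608192), (3, 593510793216), (2, 4496293888), (1, 8925478912)]), (0, [(5, 131), (3, 2), (2, 2), (0, 133)]), (0, [(33, 131), (3, 132), (2, 1), (0, 132)])]) (.nil))))) (.nil)))

/-- a subtree -/
def nA_3 : T := .node 3 (0) (1) (1) [.dead [(39, 17689), (32, 6600), (14, 88445), (13, 88445), (12, 91745), (10, 85145), (7, 353780), (3, 6625), (2, 3325), (0, 6650)], .dead [(39, 53), (32, 20), (14, 260), (13, 260), (12, 280), (10, 260), (7, 1060), (0, 20)], .dead [(39, 53), (31, 20), (14, 260), (13, 280), (12, 260), (10, 260), (7, 1060), (0, 20)], .kid, .kid, .kid, .dead [(38, 289641), (37, 583704), (26, 1325), (5, 5837040), (2, 5792820), (1, 87785), (0, 88440)], .dead [(38, 2211), (37, 4422), (34, 335), (26, 5), (5, 44555), (2, 44555), (1, 665), (0,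 670)], .dead [(38, 294063), (37, 588126), (26, 665), (5, 5837040), (2, 5881260), (1, 88445), (0, 88440)], .dead [(38, 265), (37, 132), (5, 2660), (3, 2620), (1, 40), (0, 40)], .dead [(38, 133), (37, 66), (5, 1320), (3, 1320), (1, 20), (0, 20)], .dead [(38, 8778), (37, 4356), (35, 665), (5, 88445), (3, 87785), (1, 1320), (0, 1330)]] (.cons (.node 3 (0) (1) (0) [.dead [(40, 11881), (38, 6073), (33, 2640), (14, 58080), (10, 179540), (9, 60730), (8, 58080), (4, 2650), (3, 1330), (0, 2660)], .dead [(40, 66), (38, 33), (33, 20), (14, 660), (10, 660), (8, 660), (0, 20)], .dead [(40, 265), (38, 134), (32, 60), (14, 1340), (10, 3960), (9, 1340), (8, 1340), (0, 60)], .dead [(40, 199), (39, 26268), (34, 176900), (32, 172920), (10, 3980), (3, 262680), (2, 352440), (0, 3980)], .dead [(39, 26467), (34, 175560), (32, 175560), (3, 262680), (2, 353780), (0, 3980)], .dead [(39, 6567), (34, 43890), (32, 42895), (3, 65670), (2, 87450), (0,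 995)], .dead [(28, 1), (0, 1)], .dead [(27, 1), (0, 1)], .dead [(27, 17557), (3, 8844), (2, 265), (0, 17688)], .red 1 131 [(27, 1), (2, 1), (0, 132)], .kid, .kid] (.cons (.node 1 (1) (1) (1) [.dead [(35, 1), (34, 1), (33, 1), (9, 199), (0, 199)], .kid, .kid, .kid] (.cons (.ref 32 [(0, [(40, 1)]), (0, [(39, 1)]), (0, [(16, 1)]), (0, [(15, 1)]), (0, [(14, 1)]), (0, [(13, 1)]), (0, [(12, 1)]), (0, [(11, 1)]), (0, [(35, 132), (3, 133), (1, 1), (0, 132)]), (0, [(5, 66), (3, 1), (1, 1), (0, 66)]), (216814072, [(33, 4712652865536), (3, 4748354781184), (1, 71135395840), (0, 2338609692672)])]) (.cons (.node 3 (1) (1) (1) [.dead [(41, 133), (37, 6630), (36, 7940), (35, 5280), (12, 7940), (10, 876490), (6, 3970), (5, 2660), (1, 1330), (0, 13260)], .dead [(39, 1), (37, 1), (35, 2), (10, 133), (0, 2)], .dead [(42, 133), (39, 351130), (35, 351140), (34, 351140), (11, 175570), (10, 46526050), (3, 2660), (1, 352460), (0, 704920)], .dead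 [(41, 135), (40, 264), (37, 20), (6, 20), (5, 20), (4, 40), (2, 40), (1, 2640), (0, 40)], .dead [(42, 33), (41, 4489), (40, 8811), (4, 1340), (2, 1330), (1, 88440), (0, 1330)], .dead [(41, 8911), (40, 17556), (4, 2660), (2, 2660), (1, 174240), (0, 2640)], .kid, .red 0 93399239 [(41, 2352571), (40, 2317458), (37, 23525040), (36, 700920), (12, 700920), (10, 69697320), (6, 23525040), (4, 1340), (2, 702260), (0, 93045480)], .kid, .red 0 132 [(1, 8844), (0, 1)], .red 0 348479 [(41, 199), (34, 2640), (16, 1320), (4, 2660), (2, 20), (1, 23173920), (0, 2640)], .red 0 348459 [(42, 1), (39, 1320), (3, 20), (1, 23173920), (0, 2640)]] (.cons (.ref 33 [(0, [(42, 1)]), (0, [(41, 1)]), (0, [(40, 1)]), (0, [(39, 1)]), (0, [(38, 1)]), (0, [(37, 1)]), (0, [(17, 1)]), (0, [(16, 1)]), (0, [(15, 1)]), (0, [(14, 1)]), (0, [(13, 1)]), (0, [(12, 1)]), (0, [(11, 1)]), (0, [(10, 1)]), (0, [(7, 1)]), (57532585970, [(34, 1253636529192960), (4, 1263062908665856),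 (3, 9354438770688), (2, 18922552164352)]), (75014444, [(6, 1224254423040), (4, 18409848832), (3, 18408800256), (2, 18548260864)]), (2382073484, [(4, 589115162624), (3, 589081608192), (2, 593544347648), (1, 39176141537280)]), (0, [(4, 1), (3, 1), (2, 1), (0, 1)])]) (.cons (.ref 34 [(0, [(42, 1)]), (0, [(41, 1)]), (0, [(40, 1)]), (0, [(39, 1)]), (0, [(38, 1)]), (0, [(37, 1)]), (0, [(17, 1)]), (0, [(16, 1)]), (0, [(15, 1)]), (0, [(14, 1)]), (0, [(13, 1)]), (0, [(12, 1)]), (0, [(11, 1)]), (0, [(10, 1)]), (0, [(7, 1)]), (57532585970, [(34, 1253636529192960), (4, 1263062908665856), (3, 9354438770688), (2, 18922552164352)]), (75014444, [(6, 1224254423040), (4, 18409848832), (3, 18408800256), (2, 18548260864)]), (19800977726, [(4, 4897298710528), (3, 4859923267584), (2, 4933839486976), (0, 4897017692160)])]) (.nil)))) (.cons (.ref 35 [(0, [(41, 1)]), (0, [(40, 1)]), (0, [(39, 1)]), (0, [(38, 1)]), (0, [(37, 1)]), (0, [(36, 1)]),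 (0, [(16, 1)]), (0, [(15, 1)]), (0, [(14, 1)]), (0, [(13, 1)]), (0, [(12, 1)]), (0, [(11, 1)]), (0, [(10, 1)]), (0, [(9, 1)]), (0, [(6, 1)]), (57532585970, [(33, 1253636529192960), (3, 1263062908665856), (2, 9354438770688), (1, 18922552164352)]), (75014444, [(5, 1224254423040), (3, 18409848832), (2, 18408800256), (1, 18548260864)]), (577457404, [(5, 9425842601984), (3, 141733920768), (2, 142807662592), (0, 9496709562368)]), (432549116, [(33, 9425842601984), (3, 9496709562368), (2, 71403831296), (0, 9461276082176)])]) (.nil))))) (.cons (nA_1) (.nil)))) (.cons (.node 1 (1) (1) (1) [.dead [(34, 1), (33, 1), (32, 1), (8, 199), (0, 199)], .kid, .kid, .kid] (.cons (.ref 48 [(0, [(39, 1)]), (0, [(38, 1)]), (0, [(15, 1)]), (0, [(14, 1)]), (0, [(13, 1)]), (0, [(12, 1)]), (0, [(11, 1)]), (0, [(10, 1)]), (0, [(34, 264), (3, 133), (2, 266), (0, 265)]), (0, [(4, 132), (3, 133), (2, 2), (0, 133)]), (0, [(32, 264), (3, 265), (2, 266),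 (0, 133)])]) (.cons (.node 3 (0) (1) (0) [.dead [(41, 11881), (39, 6073), (34, 2640), (15, 55430), (11, 176890), (10, 60730), (9, 58080), (4, 1330), (1, 2650), (0, 2660)], .dead [(41, 66), (39, 33), (34, 20), (15, 660), (11, 660), (9, 660), (0, 20)], .dead [(41, 265), (39, 134), (33, 60), (15, 1340), (11, 3960), (10, 1340), (9, 1340), (0, 60)], .dead [(41, 199), (40, 26268), (35, 176900), (33, 172920), (11, 3980), (4, 262680), (3, 352440), (0, 3980)], .dead [(40, 26467), (35, 175560), (33, 175560), (4, 262680), (3, 353780), (0, 3980)], .dead [(40, 6567), (35, 43890), (33, 42895), (4, 65670), (3, 87450), (0, 995)], .dead [(29, 1), (0, 1)], .dead [(28, 1), (0, 1)], .dead [(28, 17557), (4, 8844), (3, 265), (0, 17688)], .red 1 131 [(28, 1), (3, 1), (0, 132)], .kid, .kid] (.cons (.node 3 (1) (1) (1) [.dead [(41, 133), (37, 6630), (36, 7940), (35, 5280), (12, 7940), (10, 876490), (6, 3970), (5, 2660), (2, 1330), (0, 13260)],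 .dead [(39, 1), (37, 1), (35, 2), (10, 133), (0, 2)], .dead [(39, 264), (38, 1), (35, 262), (34, 264), (11, 131), (10, 34848), (3, 2), (2, 264), (0, 528)], .dead [(41, 135), (40, 264), (37, 20), (6, 20), (5, 20), (4, 40), (2, 2640), (1, 40), (0, 40)], .dead [(42, 33), (41, 4489), (40, 8811), (4, 1340), (2, 88440), (1, 1330), (0, 1330)], .dead [(41, 8911), (40, 17556), (4, 2660), (2, 174240), (1, 2660), (0, 2640)], .kid, .red 0 93399239 [(41, 2352571), (40, 2317458), (37, 23525040), (36, 700920), (12, 47050080), (10, 69697320), (6, 23525040), (4, 1340), (1, 702260), (0, 93045480)], .kid, .red 0 132 [(2, 8844), (0, 1)], .red 0 348479 [(41, 199), (34, 2640), (16, 1320), (4, 2660), (2, 23173920), (1, 20), (0, 2640)], .red 0 18539135 [(41, 53), (39, 70224), (34, 528), (11, 264), (4, 532), (3, 1060), (2, 1232922768), (0, 140448)]] (.cons (.ref 49 [(0, [(42, 1)]), (0, [(41, 1)]), (0, [(40, 1)]), (0, [(39, 1)]), (0, [(38, 1)]),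 (0, [(37, 1)]), (0, [(17, 1)]), (0, [(16, 1)]), (0, [(15, 1)]), (0, [(14, 1)]), (0, [(13, 1)]), (0, [(12, 1)]), (0, [(11, 1)]), (0, [(10, 1)]), (0, [(7, 1)]), (54615518, [(34, 1187021586432), (4, 1196014174208), (3, 8858370048), (1, 17850957824)]), (285218, [(6, 4636803072), (4, 70254592), (3, 69730304), (1, 69730304)]), (298866028, [(4, 74750885888), (3, 74197237760), (1, 73635201024), (0, 74188849152)])]) (.cons (.ref 50 [(0, [(42, 1)]), (0, [(41, 1)]), (0, [(40, 1)]), (0, [(39, 1)]), (0, [(38, 1)]), (0, [(37, 1)]), (0, [(17, 1)]), (0, [(16, 1)]), (0, [(15, 1)]), (0, [(14, 1)]), (0, [(13, 1)]), (0, [(12, 1)]), (0, [(11, 1)]), (0, [(10, 1)]), (0, [(7, 1)]), (54615518, [(34, 1187021586432), (4, 1196014174208), (3, 8858370048), (1, 17850957824)]), (285218, [(6, 4636803072), (4, 70254592), (3, 69730304), (1, 69730304)]), (149998862, [(4, 37375442944), (3, 36817600512), (1, 37098618880), (0, 37094424576)])]) (.nil)))) (.cons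 (.node 3 (0) (0) (1) [.red 0 18431135 [(42, 3551), (41, 7049), (37, 53072), (35, 1348), (15, 36184), (13, 34836), (10, 71020), (6, 1225741708), (1, 1060), (0, 140980)], .red 0 132 [(6, 8844), (0, 1)], .dead [(37, 66), (34, 1), (0, 1)], .red 1 28090923 [(42, 3551), (41, 3498), (37, 70626), (36, 272), (35, 272), (10, 35510), (6, 1868081562), (2, 35510), (1, 1060), (0, 212272)], .red 1 174899 [(40, 33), (36, 660), (6, 11631180), (4, 670), (0, 1330)], .red 1 132 [(6, 8844), (0, 1)], .red 0 132 [(34, 132), (4, 133), (0, 132)], .kid, .kid, .dead [(27, 1), (0, 1)], .dead [(25, 17556), (6, 8712), (4, 265), (0, 17689)], .dead [(25, 1), (0, 1)]] (.cons (.ref 51 [(0, [(42, 1)]), (0, [(41, 1)]), (0, [(40, 1)]), (0, [(39, 1)]), (0, [(38, 1)]), (0, [(37, 1)]), (0, [(17, 1)]), (0, [(16, 1)]), (0, [(15, 1)]), (0, [(14, 1)]), (0, [(13, 1)]), (0, [(12, 1)]), (0, [(11, 1)]), (0, [(10, 1)]), (0, [(7, 1)]), (217366022, [(34, 4748623216640),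 (4, 4784056696832), (3, 35970351104), (1, 71403831296)]), (18900230, [(4, 4602200064), (3, 4671930368), (1, 4636803072), (0, 4637327360)]), (9564195794, [(4, 2356460650496), (3, 2374177390592), (2, 156704566149120), (1, 2356326432768)])]) (.cons (.ref 52 [(0, [(42, 1)]), (0, [(41, 1)]), (0, [(40, 1)]), (0, [(39, 1)]), (0, [(37, 1)]), (0, [(17, 1)]), (0, [(16, 1)]), (0, [(15, 1)]), (0, [(14, 1)]), (0, [(13, 1)]), (0, [(12, 1)]), (0, [(11, 1)]), (0, [(10, 1)]), (0, [(7, 1)]), (217366022, [(34, 4748623216640), (4, 4784056696832), (3, 35970351104), (1, 71403831296)]), (0, [(4, 1), (3, 1), (1, 1), (0, 1)]), (9564195794, [(4, 2356460650496), (3, 2374177390592), (2, 156704566149120), (1, 2356326432768)])]) (.nil)))) (.nil)))) (.cons (.ref 53 [(0, [(40, 1)]), (0, [(39, 1)]), (0, [(38, 1)]), (0, [(37, 1)]), (0, [(36, 1)]), (0, [(35, 1)]), (0, [(15, 1)]), (0, [(14, 1)]), (0, [(13, 1)]), (0, [(12, 1)]), (0, [(11, 1)]), (0, [(10,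 1)]), (0, [(9, 1)]), (0, [(8, 1)]), (0, [(5, 1)]), (0, [(32, 132), (3, 132), (2, 133), (1, 1)]), (0, [(4, 66), (3, 66), (2, 1), (1, 1)]), (0, [(4, 66), (2, 1), (1, 1), (0, 66)]), (0, [(32, 132), (2, 133), (1, 1), (0, 132)])]) (.nil))))) (.cons (nA_2) (.nil))))

/-- a subtree -/
def nA_4 : T := .node 1 (0) (0) (1) [.kid, .kid, .kid, .dead [(19, 2), (12, 1), (0, 133)]] (.cons (.ref 9 [(0, [(36, 1)]), (0, [(35, 1)]), (0, [(31, 1)]), (0, [(9, 1)]), (0, [(7, 1)]), (0, [(5, 1)]), (0, [(4, 1)]), (0, [(30, 1), (29, 1), (28, 1), (0, 199)])]) (.cons (.node 1 (1) (0) (1) [.dead [(36, 199), (31, 20), (30, 20), (29, 20), (5, 3980), (0, 3980)], .kid, .kid, .kid] (.cons (.ref 10 [(0, [(36, 1)]), (0, [(35, 1)]), (0, [(33, 1)]), (0, [(32, 1)]), (0, [(12, 1)]), (0, [(11, 1)]), (0, [(10, 1)]), (0, [(9, 1)]), (0, [(8, 1)]), (0, [(7, 1)]), (0, [(5, 1)]), (0, [(31, 2), (13, 133), (0, 1)])]) (.cons (.node 1 (1) (1) (1) [.dead [(32, 1), (31,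 1), (30, 1), (6, 199), (0, 199)], .kid, .kid, .kid] (.cons (.node 1 (1) (0) (0) [.kid, .dead [(30, 2), (15, 1), (0, 133)], .kid, .kid] (.cons (.ref 11 [(0, [(38, 1)]), (0, [(37, 1)]), (0, [(36, 1)]), (0, [(13, 1)]), (0, [(12, 1)]), (0, [(11, 1)]), (0, [(9, 1)]), (0, [(7, 1)]), (0, [(4, 1)]), (0, [(33, 2), (1, 1), (0, 133)])]) (.cons (.node 1 (1) (1) (0) [.dead [(38, 133), (34, 40), (10, 40), (8, 2640), (2, 20), (0, 2660)], .kid, .kid, .kid] (.cons (.ref 12 [(0, [(39, 1)]), (0, [(38, 1)]), (0, [(15, 1)]), (0, [(14, 1)]), (0, [(13, 1)]), (0, [(12, 1)]), (0, [(11, 1)]), (0, [(10, 1)]), (0, [(5, 1)]), (0, [(34, 2), (16, 133), (0, 1)])]) (.cons (.node 1 (0) (1) (-1) [.kid, .kid, .dead [(38, 133), (28, 6), (17, 3), (12, 266), (9, 133), (0, 399)], .kid] (.cons (.ref 13 [(0, [(41, 1)]), (0, [(40, 1)]), (0, [(39, 1)]), (0, [(38, 1)]), (0, [(36, 1)]), (0, [(16, 1)]), (0, [(15, 1)]), (0, [(14, 1)]), (0, [(13, 1)]), (0, [(12, 1)]),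 (0, [(11, 1)]), (0, [(10, 1)]), (0, [(9, 1)]), (0, [(35, 2), (3, 1), (0, 133)]), (0, [(34, 2), (1, 1), (0, 133)]), (0, [(34, 2), (17, 133), (1, 1)])]) (.cons (.ref 14 [(0, [(41, 1)]), (0, [(40, 1)]), (0, [(39, 1)]), (0, [(38, 1)]), (0, [(36, 1)]), (0, [(16, 1)]), (0, [(15, 1)]), (0, [(14, 1)]), (0, [(13, 1)]), (0, [(12, 1)]), (0, [(11, 1)]), (0, [(10, 1)]), (0, [(9, 1)]), (0, [(35, 2), (17, 133), (0, 1)]), (0, [(34, 2), (17, 133), (1, 1)])]) (.cons (.ref 15 [(0, [(41, 1)]), (0, [(40, 1)]), (0, [(39, 1)]), (0, [(38, 1)]), (0, [(36, 1)]), (0, [(16, 1)]), (0, [(15, 1)]), (0, [(14, 1)]), (0, [(12, 1)]), (0, [(11, 1)]), (0, [(9, 1)]), (0, [(6, 1)]), (0, [(34, 2), (17, 133), (1, 1)]), (0, [(17, 1), (3, 1), (1, 1), (0, 1)])]) (.nil))))) (.cons (.ref 16 [(0, [(40, 1)]), (0, [(39, 1)]), (0, [(38, 1)]), (0, [(37, 1)]), (0, [(36, 1)]), (0, [(35, 1)]), (0, [(15, 1)]), (0, [(14, 1)]), (0, [(13, 1)]), (0, [(12, 1)]), (0, [(11, 1)]),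 (0, [(10, 1)]), (0, [(9, 1)]), (0, [(8, 1)]), (0, [(5, 1)]), (0, [(16, 1), (2, 1), (1, 1), (0, 1)])]) (.nil))))) (.cons (.ref 17 [(0, [(39, 1)]), (0, [(38, 1)]), (0, [(37, 1)]), (0, [(36, 1)]), (0, [(35, 1)]), (0, [(34, 1)]), (0, [(14, 1)]), (0, [(13, 1)]), (0, [(12, 1)]), (0, [(11, 1)]), (0, [(10, 1)]), (0, [(9, 1)]), (0, [(8, 1)]), (0, [(7, 1)]), (0, [(4, 1)]), (0, [(15, 1), (2, 1), (1, 1), (0, 1)])]) (.nil))))) (.cons (.node 1 (0) (1) (0) [.dead [(39, 89), (37, 45), (32, 20), (13, 430), (9, 1330), (8, 450), (7, 440), (1, 10), (0, 1330)], .kid, .dead [(26, 2), (15, 1), (0, 133)], .kid] (.cons (.node 1 (1) (1) (0) [.dead [(38, 33), (37, 5), (34, 10), (10, 10), (8, 660), (1, 5), (0, 665)], .kid, .kid, .kid] (.cons (.ref 18 [(0, [(39, 1)]), (0, [(38, 1)]), (0, [(15, 1)]), (0, [(14, 1)]), (0, [(13, 1)]), (0, [(12, 1)]), (0, [(11, 1)]), (0, [(10, 1)]), (0, [(5, 1)]), (0, [(34, 2), (16, 133), (0, 1)])]) (.cons (.node 1 (0)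 (1) (-1) [.kid, .kid, .dead [(38, 133), (28, 6), (17, 3), (12, 266), (9, 133), (0, 399)], .kid] (.cons (.ref 19 [(0, [(41, 1)]), (0, [(40, 1)]), (0, [(39, 1)]), (0, [(38, 1)]), (0, [(36, 1)]), (0, [(16, 1)]), (0, [(15, 1)]), (0, [(14, 1)]), (0, [(13, 1)]), (0, [(12, 1)]), (0, [(11, 1)]), (0, [(10, 1)]), (0, [(9, 1)]), (0, [(34, 2), (1, 1), (0, 133)]), (0, [(34, 2), (17, 133), (1, 1)])]) (.cons (.ref 20 [(0, [(41, 1)]), (0, [(40, 1)]), (0, [(39, 1)]), (0, [(38, 1)]), (0, [(36, 1)]), (0, [(16, 1)]), (0, [(15, 1)]), (0, [(14, 1)]), (0, [(13, 1)]), (0, [(12, 1)]), (0, [(11, 1)]), (0, [(10, 1)]), (0, [(9, 1)]), (0, [(35, 2), (17, 133), (0, 1)]), (0, [(34, 2), (17, 133), (1, 1)])]) (.cons (.ref 21 [(0, [(41, 1)]), (0, [(40, 1)]), (0, [(39, 1)]), (0, [(38, 1)]), (0, [(36, 1)]), (0, [(16, 1)]), (0, [(15, 1)]), (0, [(14, 1)]), (0, [(13, 1)]), (0, [(12, 1)]), (0, [(11, 1)]), (0, [(10, 1)]), (0, [(9, 1)]), (0, [(6, 1)]), (0, [(34,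 2), (17, 133), (1, 1)]), (0, [(17, 1), (5, 1), (1, 1), (0, 1)]), (0, [(17, 1), (2, 1), (1, 1), (0, 1)])]) (.nil))))) (.cons (.ref 22 [(0, [(40, 1)]), (0, [(39, 1)]), (0, [(38, 1)]), (0, [(37, 1)]), (0, [(36, 1)]), (0, [(35, 1)]), (0, [(15, 1)]), (0, [(14, 1)]), (0, [(13, 1)]), (0, [(12, 1)]), (0, [(11, 1)]), (0, [(10, 1)]), (0, [(9, 1)]), (0, [(8, 1)]), (0, [(5, 1)]), (0, [(16, 1), (2, 1), (1, 1), (0, 1)])]) (.nil))))) (.cons (.ref 23 [(0, [(39, 1)]), (0, [(38, 1)]), (0, [(37, 1)]), (0, [(36, 1)]), (0, [(35, 1)]), (0, [(34, 1)]), (0, [(13, 1)]), (0, [(12, 1)]), (0, [(10, 1)]), (0, [(9, 1)]), (0, [(8, 1)]), (0, [(7, 1)]), (0, [(15, 1), (3, 1), (1, 1), (0, 1)])]) (.nil)))) (.cons (.ref 24 [(0, [(38, 1)]), (0, [(37, 1)]), (0, [(36, 1)]), (0, [(35, 1)]), (0, [(34, 1)]), (0, [(33, 1)]), (0, [(13, 1)]), (0, [(12, 1)]), (0, [(11, 1)]), (0, [(10, 1)]), (0, [(9, 1)]), (0, [(8, 1)]), (0, [(7, 1)]), (0, [(6, 1)]), (0, [(3, 1)]),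 (0, [(30, 2), (14, 133), (0, 1)]), (0, [(14, 1), (2, 1), (1, 1), (0, 1)])]) (.nil))))) (.cons (.ref 25 [(0, [(37, 1)]), (0, [(36, 1)]), (0, [(34, 1)]), (0, [(33, 1)]), (0, [(12, 1)]), (0, [(11, 1)]), (0, [(10, 1)]), (0, [(9, 1)]), (0, [(8, 1)]), (0, [(7, 1)]), (0, [(6, 1)]), (0, [(5, 1)]), (0, [(29, 2), (13, 133), (0, 1)])]) (.nil))))) (.cons (.node 1 (0) (1) (0) [.dead [(37, 89), (35, 45), (30, 20), (11, 440), (7, 1340), (6, 450), (5, 440), (1, 10), (0, 1330)], .kid, .dead [(24, 2), (13, 1), (0, 133)], .kid] (.cons (.node 1 (1) (1) (0) [.dead [(36, 33), (35, 5), (32, 10), (8, 10), (6, 660), (1, 5), (0, 665)], .kid, .kid, .kid] (.cons (.ref 26 [(0, [(37, 1)]), (0, [(36, 1)]), (0, [(13, 1)]), (0, [(12, 1)]), (0, [(11, 1)]), (0, [(10, 1)]), (0, [(9, 1)]), (0, [(8, 1)]), (0, [(3, 1)]), (0, [(32, 2), (14, 133), (0, 1)])]) (.cons (.node 1 (0) (1) (-1) [.kid, .kid, .dead [(36, 133), (26, 6), (15, 3), (10, 266), (7, 133), (0,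 399)], .kid] (.cons (.ref 27 [(0, [(39, 1)]), (0, [(38, 1)]), (0, [(37, 1)]), (0, [(36, 1)]), (0, [(34, 1)]), (0, [(14, 1)]), (0, [(13, 1)]), (0, [(12, 1)]), (0, [(11, 1)]), (0, [(10, 1)]), (0, [(9, 1)]), (0, [(8, 1)]), (0, [(7, 1)]), (0, [(32, 2), (1, 1), (0, 133)]), (0, [(32, 2), (15, 133), (1, 1)])]) (.cons (.ref 28 [(0, [(39, 1)]), (0, [(38, 1)]), (0, [(37, 1)]), (0, [(36, 1)]), (0, [(34, 1)]), (0, [(14, 1)]), (0, [(13, 1)]), (0, [(12, 1)]), (0, [(11, 1)]), (0, [(10, 1)]), (0, [(9, 1)]), (0, [(8, 1)]), (0, [(7, 1)]), (0, [(33, 2), (15, 133), (0, 1)]), (0, [(32, 2), (15, 133), (1, 1)])]) (.cons (.ref 29 [(0, [(39, 1)]), (0, [(38, 1)]), (0, [(37, 1)]), (0, [(36, 1)]), (0, [(34, 1)]), (0, [(14, 1)]), (0, [(13, 1)]), (0, [(12, 1)]), (0, [(11, 1)]), (0, [(10, 1)]), (0, [(9, 1)]), (0, [(8, 1)]), (0, [(7, 1)]), (0, [(4, 1)]), (0, [(32, 2), (15, 133), (1, 1)]), (0, [(15, 1), (2, 1), (1, 1), (0, 1)])]) (.nil))))) (.cons (.ref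 30 [(0, [(38, 1)]), (0, [(37, 1)]), (0, [(36, 1)]), (0, [(35, 1)]), (0, [(34, 1)]), (0, [(33, 1)]), (0, [(13, 1)]), (0, [(12, 1)]), (0, [(11, 1)]), (0, [(10, 1)]), (0, [(9, 1)]), (0, [(8, 1)]), (0, [(7, 1)]), (0, [(6, 1)]), (0, [(3, 1)]), (0, [(14, 1), (2, 1), (1, 1), (0, 1)])]) (.nil))))) (.cons (.node 3 (0) (0) (0) [.kid, .kid, .kid, .dead [(37, 133), (36, 133), (14, 1320), (7, 1330), (2, 1330), (1, 1330), (0, 20)], .dead [(37, 66), (36, 66), (33, 5), (14, 665), (7, 660), (2, 665), (1, 660), (0, 10)], .dead [(37, 66), (36, 66), (34, 5), (14, 665), (7, 660), (2, 660), (1, 665), (0, 10)], .dead [(38, 133), (37, 133), (33, 2660), (25, 5280), (14, 5300), (8, 2660), (4, 2660), (0, 5320)], .red 1 132 [(14, 8844), (0, 1)], .dead [(34, 133), (25, 264), (14, 265), (1, 133), (0, 266)], .dead [(38, 133), (37, 133), (33, 2660), (21, 5280), (14, 5300), (8, 2660), (4, 2660), (0, 5320)], .dead [(33, 133), (21, 264), (14, 265), (2,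 133), (0, 266)], .red 2 132 [(14, 8844), (0, 1)]] (.cons (.ref 31 [(0, [(38, 1)]), (0, [(37, 1)]), (0, [(36, 1)]), (0, [(35, 1)]), (0, [(34, 1)]), (0, [(33, 1)]), (0, [(13, 1)]), (0, [(12, 1)]), (0, [(11, 1)]), (0, [(10, 1)]), (0, [(9, 1)]), (0, [(8, 1)]), (0, [(7, 1)]), (0, [(6, 1)]), (0, [(31, 264), (2, 265), (1, 133), (0, 266)]), (0, [(30, 264), (2, 133), (1, 265), (0, 266)])]) (.cons (nA_3) (.cons (.ref 65 [(0, [(38, 1)]), (0, [(37, 1)]), (0, [(36, 1)]), (0, [(35, 1)]), (0, [(34, 1)]), (0, [(33, 1)]), (0, [(13, 1)]), (0, [(12, 1)]), (0, [(11, 1)]), (0, [(10, 1)]), (0, [(9, 1)]), (0, [(8, 1)]), (0, [(7, 1)]), (0, [(6, 1)]), (0, [(3, 1)]), (0, [(31, 264), (4, 133), (2, 265), (0, 266)]), (0, [(4, 133), (2, 133), (1, 132), (0, 2)])]) (.nil))))) (.nil)))) (.nil))))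

/-- a subtree -/
def nA_5 : T := .node 3 (1) (0) (1) [.dead [(41, 7049), (36, 1056), (34, 1056), (11, 139920), (7, 532), (5, 1060), (3, 528), (0, 2120)], .dead [(41, 4740917), (39, 1066640), (36, 691640), (34, 723480), (14, 15920), (11, 93743740), (5, 1074600), (3, 345820), (1, 15920), (0, 1425720)], .dead [(41, 33), (39, 5), (34, 10), (14, 5), (11, 660), (0, 10)], .dead [(42, 17424), (41, 133), (40, 35112), (16, 2660), (7, 353780), (6, 348480), (5, 2660), (2, 5280), (0, 5320)], .dead [(42, 132), (40, 265), (7, 2660), (6, 2620), (2, 40), (0, 40)], .dead [(42, 66), (40, 133), (7, 1320), (6, 1320), (2, 20), (0, 20)], .kid, .kid, .kid, .dead [(42, 8911), (40, 4422), (25, 10), (7, 88440), (2, 1330), (1, 1340), (0, 1340)], .dead [(42, 133), (40, 67), (7, 1340), (2, 20), (1, 20), (0, 20)], .dead [(42, 583704), (40, 289641), (39, 44220), (25, 655), (7, 5881260), (2, 87115), (1, 88440), (0, 88440)]] (.cons (.node 3 (1) (0) (0)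 [.dead [(40, 66), (37, 1), (0, 1)], .red 1 18538067 [(42, 3551), (41, 3498), (40, 70626), (35, 544), (15, 272), (12, 35510), (7, 1232816774), (6, 35510), (2, 1060), (0, 140980)], .red 1 132 [(7, 8844), (0, 1)], .dead [(34, 1), (0, 1)], .dead [(33, 1), (0, 1)], .dead [(34, 17556), (7, 8712), (3, 265), (0, 17689)], .red 0 132 [(7, 8844), (0, 1)], .red 0 35375339 [(42, 4455), (41, 4422), (40, 89450), (35, 680), (14, 680), (12, 44550), (7, 2352505010), (6, 44550), (2, 1340), (0, 267320)], .red 0 5880929 [(43, 3300), (42, 1089), (17, 21780), (14, 330), (7, 391104120), (6, 21780), (3, 665), (2, 330), (0, 44885)], .kid, .red 0 1329 [(42, 33), (41, 33), (37, 1320), (5, 660), (3, 1320), (1, 10), (0, 1320)], .kid] (.cons (.ref 101 [(0, [(43, 1)]), (0, [(42, 1)]), (0, [(41, 1)]), (0, [(40, 1)]), (0, [(39, 1)]), (0, [(38, 1)]), (0, [(18, 1)]), (0, [(17, 1)]), (0, [(16, 1)]), (0, [(15, 1)]), (0, [(14, 1)]), (0, [(13, 1)]), (0, [(12,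 1)]), (0, [(5, 1)]), (0, [(4, 1)]), (27033896, [(37, 589081608192), (3, 593510793216), (2, 8925478912), (1, 4496293888)]), (18900230, [(3, 4636803072), (2, 4671930368), (1, 4637327360), (0, 4602200064)]), (36092726, [(6, 584652423168), (3, 8858370048), (2, 8925478912), (1, 8925478912)])]) (.cons (.node 3 (1) (1) (1) [.dead [(40, 529), (38, 528), (36, 528), (19, 2), (13, 69961), (7, 528), (5, 263), (2, 4), (0, 1060)], .dead [(41, 199), (38, 132), (37, 132), (36, 132), (13, 26268), (11, 199), (7, 199), (0, 398)], .dead [(41, 1), (40, 1), (36, 3), (18, 1), (16, 1), (13, 199), (0, 3)], .red 1 70223 [(41, 1), (40, 265), (19, 2), (14, 1), (7, 4670160), (2, 4), (0, 532)], .red 1 132 [(7, 8844), (0, 1)], .red 1 353099 [(44, 33), (42, 167), (38, 660), (19, 660), (15, 660), (7, 23480820), (4, 680), (1, 20), (0, 2680)], .dead [(44, 17689), (42, 8844), (14, 1320), (7, 174240), (4, 2640), (3, 2660), (0, 2660)], .dead [(44, 466963),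 (42, 235237), (41, 35644), (14, 34844), (7, 4635052), (4, 69688), (3, 70756), (1, 532), (0, 70756)], .dead [(44, 235257), (42, 118523), (7, 2352504), (4, 35378), (3, 35376), (1, 2), (0, 35644)], .kid, .kid, .red 0 355119 [(43, 67), (41, 330), (40, 175890), (38, 1340), (36, 1340), (19, 2000), (14, 330), (13, 178220), (2, 2660), (0, 355100)]] (.cons (.ref 102 [(0, [(44, 1)]), (0, [(43, 1)]), (0, [(42, 1)]), (0, [(41, 1)]), (0, [(40, 1)]), (0, [(39, 1)]), (0, [(19, 1)]), (0, [(18, 1)]), (0, [(17, 1)]), (0, [(16, 1)]), (0, [(15, 1)]), (0, [(14, 1)]), (0, [(13, 1)]), (0, [(6, 1)]), (0, [(5, 1)]), (18045818, [(8, 292326211584), (4, 4429185024), (3, 4462739456), (2, 4462739456)]), (141570, [(4, 34603008), (3, 35127296), (2, 35127296), (1, 34603008)]), (2361414, [(4, 579600384), (3, 583991296), (2, 579665920), (0, 575275008)])]) (.cons (.node 2 (1) (1) (1) [.red 0 0 [(14, 66), (0, 1)], .dead [(41, 17688), (28, 133), (16, 17688),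 (14, 8844), (8, 8844), (5, 1), (0, 35376)], .red 0 0 [(44, 10), (20, 67), (19, 66), (16, 1), (6, 66), (0, 266)], .dead [(42, 132), (29, 1), (14, 66), (7, 132), (1, 1), (0, 265)], .red 2 176899 [(45, 33), (44, 33), (43, 33), (41, 87120), (23, 23352140), (20, 660), (15, 660), (5, 176900), (3, 1320), (1, 175560), (0, 23352800)], .dead [(42, 1), (41, 1), (19, 1), (17, 1), (14, 1), (0, 3)], .kid, .kid, .kid, .dead [(44, 50), (43, 33), (20, 330), (16, 670), (15, 340), (0, 10)], .dead [(44, 199), (43, 132), (20, 1340), (16, 2640), (15, 1300), (0, 40)], .dead [(44, 99), (43, 67), (20, 660), (16, 1320), (15, 660), (0, 20)], .red 0 664 [(44, 2178), (43, 2178), (42, 87780), (15, 43560), (7, 131340), (0, 1325)], .red 0 654 [(44, 2211), (43, 2211), (42, 87785), (15, 44220), (7, 132005), (0, 1325)], .red 0 2679 [(44, 8911), (43, 8911), (42, 348460), (15, 178220), (7, 526680), (0, 5300)], .dead [(41, 17688), (28, 35245), (16, 17688),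 (14, 8844), (8, 2343660), (5, 265), (0, 35376)], .dead [(29, 1), (1, 1), (0, 1)], .dead [(43, 67), (28, 1330), (8, 88440), (5, 10), (0, 1340)], .dead [(45, 17), (44, 33), (42, 330), (19, 660), (17, 330), (0, 10)], .dead [(45, 67), (44, 134), (42, 1300), (19, 2640), (17, 1340), (0, 40)], .dead [(45, 16), (44, 33), (42, 340), (19, 670), (17, 330), (0, 10)], .dead [(41, 133), (16, 2), (14, 1), (6, 131), (0, 2)], .dead [(44, 1), (41, 1320), (6, 1320), (0, 20)], .dead [(41, 133), (17, 2), (14, 1), (6, 131), (0, 2)], .dead [(45, 133), (14, 1320), (0, 20)], .dead [(45, 131), (42, 20), (14, 1320), (7, 20), (0, 20)], .dead [(45, 131), (42, 20), (19, 20), (14, 1320), (0, 20)], .dead [(41, 2), (40, 2), (20, 1), (16, 1), (14, 332), (0, 5)], .dead [(42, 132), (29, 1), (14, 17556), (7, 132), (1, 1), (0, 265)], .dead [(42, 1), (41, 1), (19, 1), (17, 1), (14, 199), (0, 3)]] (.cons (.ref 103 [(0, [(45, 1)]), (0, [(44, 1)]), (0, [(43, 1)]),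 (0, [(42, 1)]), (0, [(40, 1)]), (0, [(20, 1)]), (0, [(19, 1)]), (0, [(18, 1)]), (0, [(17, 1)]), (0, [(16, 1)]), (0, [(15, 1)]), (0, [(14, 1)]), (0, [(7, 1)]), (0, [(6, 1)]), (0, [(0, 1)]), (27033896, [(39, 589081608192), (5, 593510793216), (4, 8925478912), (3, 4496293888)]), (73635135454, [(37, 2413015706107904), (21, 160474684146581504), (3, 137438953472), (1, 18279380811776)]), (18045818, [(9, 292326211584), (5, 4429185024), (4, 4462739456), (3, 4462739456)]), (141570, [(5, 34603008), (4, 35127296), (3, 35127296), (2, 34603008)]), (39753700604, [(5, 9794035384320), (4, 9794597421056), (3, 9867678973952), (1, 9719846535168)])]) (.cons (.ref 104 [(0, [(45, 1)]), (0, [(44, 1)]), (0, [(43, 1)]), (0, [(42, 1)]), (0, [(41, 1)]), (0, [(40, 1)]), (0, [(20, 1)]), (0, [(19, 1)]), (0, [(18, 1)]), (0, [(17, 1)]), (0, [(16, 1)]), (0, [(15, 1)]), (0, [(7, 1)]), (0, [(6, 1)]), (0, [(0, 1)]), (141570, [(5, 34603008), (4, 35127296),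 (3, 35127296), (2, 34603008)]), (39753700604, [(5, 9794035384320), (4, 9794597421056), (3, 9867678973952), (1, 9719846535168)])]) (.cons (.ref 105 [(0, [(45, 1)]), (0, [(44, 1)]), (0, [(43, 1)]), (0, [(42, 1)]), (0, [(41, 1)]), (0, [(40, 1)]), (0, [(20, 1)]), (0, [(19, 1)]), (0, [(18, 1)]), (0, [(17, 1)]), (0, [(16, 1)]), (0, [(15, 1)]), (0, [(7, 1)]), (0, [(6, 1)]), (0, [(0, 1)]), (27033896, [(39, 589081608192), (5, 593510793216), (4, 8925478912), (3, 4496293888)]), (73635135454, [(37, 2413015706107904), (21, 160474684146581504), (3, 137438953472), (1, 18279380811776)]), (18045818, [(9, 292326211584), (5, 4429185024), (4, 4462739456), (3, 4462739456)]), (141570, [(5, 34603008), (4, 35127296), (3, 35127296), (2, 34603008)]), (39753700604, [(5, 9794035384320), (4, 9794597421056), (3, 9867678973952), (1, 9719846535168)])]) (.nil))))) (.nil)))) (.nil)))) (.cons (.node 3 (1) (0) (0) [.dead [(40, 66), (37, 1), (0, 1)], .red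 1 18538067 [(42, 3551), (41, 3498), (40, 70626), (35, 544), (15, 272), (12, 35510), (7, 1232816774), (6, 35510), (2, 1060), (0, 140980)], .red 1 132 [(7, 8844), (0, 1)], .dead [(34, 1), (0, 1)], .dead [(33, 1), (0, 1)], .dead [(34, 17556), (7, 8712), (3, 265), (0, 17689)], .red 0 132 [(7, 8844), (0, 1)], .red 0 35375339 [(42, 4455), (41, 4422), (40, 89450), (35, 680), (14, 680), (12, 44550), (7, 2352505010), (6, 44550), (2, 1340), (0, 267320)], .red 0 5880929 [(43, 3300), (42, 1089), (17, 21780), (14, 330), (7, 391104120), (6, 21780), (3, 665), (2, 330), (0, 44885)], .kid, .red 0 176879 [(42, 4489), (41, 4422), (37, 174240), (5, 89780), (3, 174240), (1, 1340), (0, 175580)], .kid] (.cons (.ref 106 [(0, [(43, 1)]), (0, [(42, 1)]), (0, [(41, 1)]), (0, [(40, 1)]), (0, [(39, 1)]), (0, [(38, 1)]), (0, [(18, 1)]), (0, [(17, 1)]), (0, [(16, 1)]), (0, [(15, 1)]), (0, [(14, 1)]), (0, [(13, 1)]), (0, [(12, 1)]), (0, [(5, 1)]), (0,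 [(4, 1)]), (7154846852, [(37, 156713558736896), (3, 157873870995456), (2, 2365319020544), (1, 1187021586432)]), (2485562046, [(3, 607490408448), (2, 616729935872), (1, 612127211520), (0, 612162338816)]), (287661492, [(6, 4713189736448), (3, 70330089472), (2, 71403831296), (1, 71403831296)])]) (.cons (.ref 107 [(0, [(43, 1)]), (0, [(42, 1)]), (0, [(41, 1)]), (0, [(40, 1)]), (0, [(39, 1)]), (0, [(38, 1)]), (0, [(18, 1)]), (0, [(17, 1)]), (0, [(16, 1)]), (0, [(15, 1)]), (0, [(14, 1)]), (0, [(13, 1)]), (0, [(12, 1)]), (0, [(5, 1)]), (0, [(4, 1)]), (7154846852, [(37, 156713558736896), (3, 157873870995456), (2, 2365319020544), (1, 1187021586432)]), (72962, [(3, 17704960), (2, 18112512), (1, 18112512), (0, 17979392)]), (8778, [(7, 143835136), (3, 2146304), (2, 2179072), (1, 2179072)]), (287661492, [(6, 4713189736448), (3, 70330089472), (2, 71403831296), (1, 71403831296)])]) (.nil)))) (.cons (.node 3 (1) (0) (0) [.dead [(40, 66),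 (37, 1), (0, 1)], .red 1 92690339 [(42, 17687), (41, 17558), (40, 353810), (35, 2720), (12, 176870), (7, 6164084550), (6, 176870), (4, 1360), (2, 5300), (0, 704900)], .red 1 132 [(7, 8844), (0, 1)], .dead [(34, 1), (0, 1)], .dead [(33, 1), (0, 1)], .dead [(34, 17556), (7, 8712), (3, 265), (0, 17689)], .red 0 132 [(7, 8844), (0, 1)], .red 0 35375339 [(42, 4455), (41, 4422), (40, 89450), (35, 680), (14, 680), (12, 44550), (7, 2352505010), (6, 44550), (2, 1340), (0, 267320)], .red 0 5880929 [(43, 3300), (42, 1089), (17, 21780), (14, 330), (7, 391104120), (6, 21780), (3, 665), (2, 330), (0, 44885)], .kid, .red 0 2659 [(42, 66), (41, 67), (37, 2660), (5, 1320), (3, 2660), (1, 20), (0, 2640)], .kid] (.cons (.ref 108 [(0, [(43, 1)]), (0, [(42, 1)]), (0, [(41, 1)]), (0, [(40, 1)]), (0, [(39, 1)]), (0, [(38, 1)]), (0, [(18, 1)]), (0, [(17, 1)]), (0, [(15, 1)]), (0, [(14, 1)]), (0, [(13, 1)]), (0, [(12, 1)]), (0, [(5, 1)]), (0,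 [(4, 1)]), (217366022, [(37, 4748623216640), (3, 4784056696832), (2, 71403831296), (1, 35970351104)]), (0, [(3, 1), (2, 1), (1, 1), (0, 1)]), (9564195794, [(6, 156704566149120), (3, 2356460650496), (2, 2356326432768), (1, 2374177390592)])]) (.cons (.ref 109 [(0, [(43, 1)]), (0, [(42, 1)]), (0, [(41, 1)]), (0, [(40, 1)]), (0, [(39, 1)]), (0, [(38, 1)]), (0, [(18, 1)]), (0, [(17, 1)]), (0, [(16, 1)]), (0, [(15, 1)]), (0, [(14, 1)]), (0, [(13, 1)]), (0, [(12, 1)]), (0, [(5, 1)]), (0, [(4, 1)]), (217366022, [(37, 4748623216640), (3, 4784056696832), (2, 71403831296), (1, 35970351104)]), (18900230, [(3, 4602200064), (2, 4636803072), (1, 4671930368), (0, 4637327360)]), (75014444, [(7, 1224254423040), (3, 18409848832), (2, 18408800256), (1, 18548260864)]), (9564195794, [(6, 156704566149120), (3, 2356460650496), (2, 2356326432768), (1, 2374177390592)])]) (.nil)))) (.nil))))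

/-- a subtree -/
def nA_6 : T := .node 3 (0) (0) (0) [.kid, .kid, .kid, .red 0 132 [(16, 8844), (0, 1)], .dead [(39, 133), (38, 133), (37, 2660), (31, 5280), (16, 5300), (5, 2660), (2, 2660), (0, 5320)], .dead [(40, 133), (31, 5280), (16, 5300), (12, 2660), (4, 2660), (0, 5320)], .dead [(40, 131), (39, 264), (38, 2), (37, 2660), (16, 5320), (14, 5280), (12, 2620), (11, 40), (6, 5320), (3, 5280), (0, 80)], .dead [(40, 133), (39, 266), (37, 2660), (16, 5280), (14, 5320), (12, 2660), (6, 5320), (3, 5320), (0, 80)], .dead [(40, 67), (39, 132), (37, 1320), (16, 2660), (14, 2640), (12, 1340), (6, 2640), (4, 20), (3, 2640), (0, 40)], .dead [(35, 133), (23, 264), (16, 265), (6, 133), (0, 266)], .dead [(39, 133), (38, 133), (37, 2660), (23, 5280), (16, 5300), (5, 2660), (2, 2660), (0, 5320)], .red 2 132 [(16, 8844), (0, 1)]] (.cons (.ref 99 [(0, [(40, 1)]), (0, [(39, 1)]), (0, [(38, 1)]), (0, [(37, 1)]), (0, [(36, 1)]), (0, [(35,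 1)]), (0, [(15, 1)]), (0, [(14, 1)]), (0, [(13, 1)]), (0, [(12, 1)]), (0, [(11, 1)]), (0, [(10, 1)]), (0, [(9, 1)]), (0, [(2, 1)]), (0, [(1, 1)]), (0, [(32, 264), (5, 133), (4, 265), (0, 266)]), (0, [(6, 132), (5, 133), (4, 133), (0, 2)]), (0, [(6, 132), (5, 133), (3, 133), (0, 2)]), (0, [(32, 264), (5, 133), (3, 265), (0, 266)])]) (.cons (.ref 100 [(0, [(40, 1)]), (0, [(39, 1)]), (0, [(38, 1)]), (0, [(37, 1)]), (0, [(14, 1)]), (0, [(12, 1)]), (0, [(11, 1)]), (0, [(32, 264), (6, 133), (3, 265), (0, 266)]), (0, [(32, 264), (6, 133), (4, 265), (0, 266)])]) (.cons (.node 3 (0) (0) (1) [.dead [(41, 52003), (40, 52535), (33, 10640), (12, 353780), (10, 348460), (7, 335240), (6, 343140), (4, 348460), (3, 353780), (0, 15800)], .dead [(41, 51211), (40, 52535), (33, 10680), (12, 359060), (10, 345820), (7, 340480), (6, 332580), (4, 345820), (3, 359060), (0, 15800)], .dead [(41, 13101), (40, 13035), (33, 2630), (12, 86460), (10, 87120),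 (7, 87780), (6, 87780), (4, 87120), (3, 86460), (0, 3950)], .kid, .red 0 131 [(24, 1), (1, 1), (0, 132)], .kid, .dead [(41, 131), (39, 265), (13, 2620), (7, 2660), (5, 2620), (1, 40), (0, 40)], .dead [(41, 34981), (40, 266), (39, 70224), (38, 2660), (15, 5320), (13, 699620), (7, 707560), (5, 696960), (4, 5320), (1, 10560), (0, 10640)], .dead [(41, 66), (39, 133), (13, 1320), (7, 1320), (5, 1320), (1, 20), (0, 20)], .dead [(24, 17557), (7, 8844), (1, 265), (0, 17688)], .dead [(25, 1), (0, 1)], .dead [(24, 1), (0, 1)]] (.cons (nA_5) (.cons (.node 3 (1) (0) (1) [.dead [(41, 7049), (36, 1056), (34, 1056), (11, 139920), (7, 532), (5, 1060), (3, 528), (0, 2120)], .dead [(41, 4670029), (39, 1058680), (36, 696920), (34, 696920), (14, 7960), (11, 92341900), (5, 1058680), (3, 348460), (1, 15920), (0, 1404520)], .dead [(41, 33), (39, 5), (34, 10), (14, 5), (11, 660), (0, 10)], .dead [(42, 17424), (41, 133), (40, 35112), (16, 2660),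 (7, 353780), (6, 348480), (5, 2660), (2, 5280), (0, 5320)], .dead [(42, 132), (40, 265), (7, 2660), (6, 2620), (2, 40), (0, 40)], .dead [(42, 66), (40, 133), (7, 1320), (6, 1320), (2, 20), (0, 20)], .kid, .kid, .kid, .dead [(42, 17556), (40, 8911), (7, 174240), (2, 2660), (1, 2660), (0, 2640)], .dead [(42, 2326236), (40, 1185163), (7, 23350800), (2, 353780), (1, 351140), (0, 351120)], .dead [(42, 35111), (40, 17822), (39, 2660), (14, 20), (7, 353760), (2, 5320), (1, 5360), (0, 5320)]] (.cons (.node 3 (1) (0) (0) [.dead [(40, 66), (37, 1), (0, 1)], .red 1 18398687 [(42, 3498), (41, 3551), (40, 70356), (35, 524), (15, 792), (12, 34980), (7, 1223548524), (6, 34980), (2, 1060), (0, 139920)], .red 1 132 [(7, 8844), (0, 1)], .dead [(34, 1), (0, 1)], .dead [(33, 1), (0, 1)], .dead [(34, 17556), (7, 8712), (3, 265), (0, 17689)], .red 0 132 [(7, 8844), (0, 1)], .red 0 17423669 [(42, 2211), (41, 2195), (40, 44715), (35, 320), (17,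 990), (12, 21615), (7, 1158696165), (6, 22605), (2, 670), (0, 131670)], .red 0 348479 [(43, 198), (41, 67), (14, 1320), (7, 23176560), (3, 40), (2, 20), (0, 2660)], .kid, .red 0 1329 [(42, 33), (41, 33), (37, 1320), (5, 660), (3, 1320), (1, 10), (0, 1320)], .kid] (.cons (.ref 110 [(0, [(43, 1)]), (0, [(42, 1)]), (0, [(41, 1)]), (0, [(40, 1)]), (0, [(39, 1)]), (0, [(38, 1)]), (0, [(18, 1)]), (0, [(17, 1)]), (0, [(16, 1)]), (0, [(15, 1)]), (0, [(14, 1)]), (0, [(13, 1)]), (0, [(12, 1)]), (0, [(5, 1)]), (0, [(4, 1)]), (26534, [(37, 575275008), (3, 579665920), (2, 8716288), (1, 4325376)]), (141570, [(3, 35127296), (2, 35127296), (1, 34603008), (0, 34603008)]), (4494302, [(6, 73081552896), (3, 1115684864), (2, 1115684864), (1, 1107296256)])]) (.cons (.ref 111 [(0, [(43, 1)]), (0, [(42, 1)]), (0, [(41, 1)]), (0, [(40, 1)]), (0, [(39, 1)]), (0, [(38, 1)]), (0, [(18, 1)]), (0, [(17, 1)]), (0, [(16, 1)]), (0, [(15, 1)]), (0, [(14,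 1)]), (0, [(13, 1)]), (0, [(12, 1)]), (0, [(5, 1)]), (0, [(4, 1)]), (26534, [(37, 575275008), (3, 579665920), (2, 8716288), (1, 4325376)]), (18900230, [(3, 4637327360), (2, 4671930368), (1, 4636803072), (0, 4602200064)]), (18045818, [(7, 292326211584), (3, 4462739456), (2, 4462739456), (1, 4429185024)]), (4494302, [(6, 73081552896), (3, 1115684864), (2, 1115684864), (1, 1107296256)])]) (.nil)))) (.cons (.node 3 (1) (1) (1) [.dead [(42, 133), (39, 351130), (37, 351140), (35, 351140), (12, 46526050), (6, 352460), (4, 175570), (1, 2660), (0, 704920)], .dead [(40, 199), (37, 132), (36, 132), (35, 132), (12, 26268), (10, 199), (6, 199), (0, 398)], .dead [(40, 1), (39, 1), (35, 3), (17, 1), (15, 1), (12, 199), (0, 3)], .red 1 348459 [(42, 1), (39, 1320), (6, 23173920), (1, 20), (0, 2640)], .red 1 132 [(6, 8844), (0, 1)], .red 1 349139 [(42, 33), (41, 166), (37, 1980), (14, 660), (6, 23218140), (3, 2000), (2, 10), (0, 2650)],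 .dead [(43, 17556), (41, 8911), (6, 174240), (3, 2660), (2, 2660), (0, 2640)], .dead [(43, 264), (41, 135), (40, 20), (9, 20), (7, 20), (6, 2640), (3, 40), (2, 40), (0, 40)], .dead [(43, 8811), (42, 33), (41, 4489), (6, 88440), (3, 1340), (2, 1330), (0, 1330)], .kid, .kid, .red 0 140983 [(42, 93), (39, 69428), (37, 536), (35, 536), (18, 268), (17, 268), (12, 71288), (1, 1056), (0, 140984)]] (.cons (.ref 112 [(0, [(43, 1)]), (0, [(42, 1)]), (0, [(41, 1)]), (0, [(40, 1)]), (0, [(39, 1)]), (0, [(38, 1)]), (0, [(18, 1)]), (0, [(17, 1)]), (0, [(16, 1)]), (0, [(15, 1)]), (0, [(14, 1)]), (0, [(13, 1)]), (0, [(12, 1)]), (0, [(5, 1)]), (0, [(4, 1)]), (75014444, [(7, 1224254423040), (3, 18409848832), (2, 18548260864), (1, 18408800256)]), (19800977726, [(3, 4897298710528), (2, 4933839486976), (1, 4859923267584), (0, 4897017692160)]), (36259798112, [(35, 1197299443171328), (19, 79624982816096256), (2, 68719476736), (0, 9070970929152)])])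 (.cons (.ref 113 [(0, [(43, 1)]), (0, [(42, 1)]), (0, [(41, 1)]), (0, [(40, 1)]), (0, [(39, 1)]), (0, [(38, 1)]), (0, [(18, 1)]), (0, [(17, 1)]), (0, [(16, 1)]), (0, [(15, 1)]), (0, [(14, 1)]), (0, [(13, 1)]), (0, [(12, 1)]), (0, [(5, 1)]), (0, [(4, 1)]), (57532585970, [(37, 1253636529192960), (3, 1263062908665856), (2, 18922552164352), (1, 9354438770688)]), (75014444, [(7, 1224254423040), (3, 18409848832), (2, 18548260864), (1, 18408800256)]), (18406559984, [(35, 603219566788608), (19, 40116368934174720), (1, 34359738368), (0, 4569845202944)]), (2382073484, [(6, 39176141537280), (3, 589115162624), (2, 593544347648), (1, 589081608192)]), (0, [(3, 1), (2, 1), (1, 1), (0, 1)])]) (.nil)))) (.cons (.node 3 (1) (1) (1) [.dead [(39, 132), (37, 132), (35, 131), (14, 1), (12, 17424), (6, 132), (4, 65), (1, 1), (0, 264)], .dead [(40, 199), (37, 132), (36, 132), (35, 132), (12, 26268), (10, 199), (6, 199), (0, 398)], .dead [(40,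 1), (39, 1), (35, 3), (17, 1), (15, 1), (12, 199), (0, 3)], .red 1 69521759 [(42, 66), (41, 133), (39, 262680), (37, 1320), (17, 1320), (6, 4623461040), (3, 1340), (1, 3980), (0, 526680)], .red 1 132 [(6, 8844), (0, 1)], .red 1 349139 [(42, 33), (41, 166), (37, 1980), (14, 660), (6, 23218140), (3, 2000), (2, 10), (0, 2650)], .dead [(43, 17556), (41, 8911), (6, 174240), (3, 2660), (2, 2660), (0, 2640)], .dead [(43, 264), (41, 135), (40, 20), (9, 20), (7, 20), (6, 2640), (3, 40), (2, 40), (0, 40)], .dead [(43, 8811), (42, 33), (41, 4489), (6, 88440), (3, 1340), (2, 1330), (0, 1330)], .kid, .kid, .red 0 69516459 [(43, 8844), (42, 8579), (41, 8844), (39, 34672440), (37, 171580), (35, 348460), (17, 348460), (12, 34671100), (7, 176880), (1, 525340), (0, 69519080)]] (.cons (.ref 114 [(0, [(43, 1)]), (0, [(42, 1)]), (0, [(41, 1)]), (0, [(40, 1)]), (0, [(39, 1)]), (0, [(18, 1)]), (0, [(17, 1)]), (0, [(16, 1)]), (0, [(15, 1)]),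 (0, [(14, 1)]), (0, [(13, 1)]), (0, [(12, 1)]), (0, [(5, 1)]), (0, [(4, 1)]), (54615518, [(37, 1187021586432), (3, 1196014174208), (2, 17850957824), (1, 8858370048)]), (285218, [(7, 4636803072), (3, 70254592), (2, 69730304), (1, 69730304)]), (149998862, [(3, 37375442944), (2, 37098618880), (1, 36817600512), (0, 37094424576)]), (36259798112, [(35, 1197299443171328), (19, 79624982816096256), (2, 68719476736), (0, 9070970929152)])]) (.cons (.ref 115 [(0, [(43, 1)]), (0, [(42, 1)]), (0, [(41, 1)]), (0, [(40, 1)]), (0, [(39, 1)]), (0, [(38, 1)]), (0, [(18, 1)]), (0, [(17, 1)]), (0, [(16, 1)]), (0, [(15, 1)]), (0, [(14, 1)]), (0, [(13, 1)]), (0, [(12, 1)]), (0, [(5, 1)]), (0, [(4, 1)]), (54615518, [(37, 1187021586432), (3, 1196014174208), (2, 17850957824), (1, 8858370048)]), (285218, [(7, 4636803072), (3, 70254592), (2, 69730304), (1, 69730304)]), (9134145404, [(35, 299324860792832), (19, 19906245704024064), (1, 17179869184),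 (0, 2267742732288)]), (298866028, [(3, 74750885888), (2, 73635201024), (1, 74197237760), (0, 74188849152)])]) (.nil)))) (.nil))))) (.nil)))) (.nil))))

/-- a subtree -/
def nA_7 : T := .split [0, 0, 0, 1024, 0, 0, 0, 0, 0, -1015] (.ref 124 [(0, [(44, 1)]), (0, [(43, 1)]), (0, [(42, 1)]), (0, [(41, 1)]), (0, [(40, 1)]), (0, [(39, 1)]), (0, [(19, 1)]), (0, [(18, 1)]), (0, [(17, 1)]), (0, [(16, 1)]), (0, [(15, 1)]), (0, [(14, 1)]), (0, [(6, 1)]), (0, [(1, 1)]), (0, [(0, 1)]), (27033896, [(38, 589081608192), (5, 593510793216), (4, 8925478912), (3, 4496293888)]), (73635135454, [(36, 2413015706107904), (20, 160474684146581504), (3, 137438953472), (2, 18279380811776)]), (18045818, [(8, 292326211584), (5, 4429185024), (4, 4462739456), (3, 4462739456)]), (39753700604, [(5, 9794035384320), (4, 9794597421056), (3, 9867678973952), (2, 9719846535168)])]) (.split [0, 0, 0, 0, 0, 0, 0, 1024, 0, -508] (.node 0 (1) (0) (1) [.red 0 0 [(18,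 1), (0, 1)], .dead [(45, 1), (41, 20), (17, 20), (15, 20), (0, 60)], .dead [(0, 1)], .dead [(19, 512), (2, 1), (0, 512)], .red 0 0 [(17, 1), (0, 1)], .dead [(43, 1), (18, 1), (0, 2)], .red 0 511 [(18, 1024), (1, 1), (0, 512)], .dead [(44, 1), (17, 20), (0, 20)], .kid, .dead [(41, 1024), (2, 1), (1, 1), (0, 1024)], .dead [(46, 1), (18, 20), (0, 20)], .dead [(45, 33), (18, 1320), (17, 1330), (3, 10), (0, 1990)], .dead [(43, 1024), (19, 1024), (2, 1), (0, 1024)], .dead [(45, 1), (15, 20), (0, 20)]] (.cons (.ref 125 [(0, [(46, 1)]), (0, [(45, 1)]), (0, [(44, 1)]), (0, [(43, 1)]), (0, [(42, 1)]), (0, [(41, 1)]), (0, [(21, 1)]), (0, [(20, 1)]), (0, [(19, 1)]), (0, [(18, 1)]), (0, [(17, 1)]), (0, [(16, 1)]), (0, [(8, 1)]), (0, [(3, 1)]), (0, [(2, 1)]), (3, [(1, 1)]), (0, [(0, 1)]), (27033896, [(40, 589081608192), (7, 593510793216), (6, 8925478912), (5, 4496293888)]), (73635135454, [(38, 2413015706107904), (22, 160474684146581504),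 (5, 137438953472), (4, 18279380811776)]), (18045818, [(10, 292326211584), (7, 4429185024), (6, 4462739456), (5, 4462739456)]), (39753700604, [(7, 9794035384320), (6, 9794597421056), (5, 9867678973952), (4, 9719846535168)])]) (.nil))) (.split [0, 0, 0, 0, 1024, 0, 0, 0, 0, -508] (.ref 126 [(0, [(46, 1)]), (0, [(45, 1)]), (0, [(44, 1)]), (0, [(43, 1)]), (0, [(42, 1)]), (0, [(41, 1)]), (0, [(21, 1)]), (0, [(20, 1)]), (0, [(19, 1)]), (0, [(17, 1)]), (0, [(16, 1)]), (0, [(8, 1)]), (0, [(3, 1)]), (0, [(2, 1)]), (3, [(1, 1)]), (3, [(0, 1)]), (27033896, [(40, 589081608192), (7, 593510793216), (6, 8925478912), (5, 4496293888)]), (73635135454, [(38, 2413015706107904), (22, 160474684146581504), (5, 137438953472), (4, 18279380811776)]), (18045818, [(10, 292326211584), (7, 4429185024), (6, 4462739456), (5, 4462739456)]), (39753700604, [(7, 9794035384320), (6, 9794597421056), (5, 9867678973952), (4, 9719846535168)])]) (.split [0, 0,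 0, 0, 0, 0, 0, 0, 1024, -508] (.node 0 (1) (0) (1) [.red 0 1023 [(19, 1024), (3, 1), (1, 1), (0, 1024)], .dead [(47, 1), (43, 20), (19, 20), (17, 20), (0, 60)], .dead [(0, 1)], .dead [(21, 512), (4, 1), (0, 512)], .red 0 0 [(19, 1), (0, 1)], .dead [(3, 1), (0, 1024)], .red 0 511 [(19, 1024), (1, 1), (0, 512)], .dead [(46, 1), (19, 20), (0, 20)], .kid, .dead [(43, 1024), (4, 1), (0, 1024)], .dead [(48, 1), (20, 20), (0, 20)], .dead [(19, 1024), (3, 1), (0, 1024)], .dead [(45, 1024), (21, 1024), (4, 1), (1, 1), (0, 1024)], .dead [(47, 1), (17, 20), (0, 20)]] (.cons (.ref 127 [(0, [(48, 1)]), (0, [(47, 1)]), (0, [(46, 1)]), (0, [(44, 1)]), (0, [(43, 1)]), (0, [(22, 1)]), (0, [(21, 1)]), (0, [(19, 1)]), (0, [(18, 1)]), (0, [(10, 1)]), (0, [(5, 1)]), (0, [(4, 1)]), (3, [(3, 1)]), (3, [(2, 1)]), (3, [(1, 1)]), (0, [(0, 1)]), (27033896, [(42, 589081608192), (9, 593510793216), (8, 8925478912), (7, 4496293888)]), (18045818, [(12,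 292326211584), (9, 4429185024), (8, 4462739456), (7, 4462739456)]), (39753700604, [(9, 9794035384320), (8, 9794597421056), (7, 9867678973952), (6, 9719846535168)])]) (.nil))) (.split [0, 0, 0, 1024, 0, 0, 0, 0, 0, -508] (.split [0, 0, 0, 0, 0, 1024, 0, 0, 0, -508] (.split [0, 0, 0, 0, 0, 0, 1024, 0, 0, -508] (.ref 128 [(0, [(50, 1)]), (0, [(49, 1)]), (0, [(48, 1)]), (0, [(46, 1)]), (0, [(45, 1)]), (0, [(24, 1)]), (0, [(23, 1)]), (0, [(20, 1)]), (0, [(12, 1)]), (0, [(7, 1)]), (0, [(6, 1)]), (3, [(5, 1)]), (3, [(4, 1)]), (3, [(3, 1)]), (3, [(1, 1)]), (3, [(0, 1)]), (18045818, [(14, 292326211584), (11, 4429185024), (10, 4462739456), (9, 4462739456)]), (36092726, [(13, 584652423168), (11, 8858370048), (10, 8925478912), (9, 8925478912)]), (39753700604, [(11, 9794035384320), (10, 9794597421056), (9, 9867678973952), (8, 9719846535168)])]) (.split [1024, 0, 0, 0, 0, 0, 0, 0, 0, -333] (.ref 129 [(0, [(51, 1)]), (0, [(50, 1)]),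 (0, [(49, 1)]), (0, [(48, 1)]), (0, [(47, 1)]), (0, [(25, 1)]), (0, [(21, 1)]), (0, [(13, 1)]), (0, [(8, 1)]), (0, [(7, 1)]), (3, [(6, 1)]), (3, [(5, 1)]), (3, [(4, 1)]), (3, [(2, 1)]), (3, [(1, 1)]), (0, [(0, 1)]), (27033896, [(45, 589081608192), (12, 593510793216), (11, 8925478912), (10, 4496293888)]), (39753700604, [(12, 9794035384320), (11, 9794597421056), (10, 9867678973952), (9, 9719846535168)])]) (.node 0 (1) (0) (1) [.red 0 0 [(24, 1), (0, 1)], .dead [(5, 1), (0, 1024)], .dead [(0, 1)], .dead [(8, 1), (2, 1), (0, 1024)], .red 0 0 [(23, 1), (0, 1)], .dead [(7, 1), (0, 1024)], .red 0 511 [(4, 1), (0, 512)], .dead [(50, 1), (23, 20), (0, 20)], .kid, .dead [(47, 1024), (8, 1), (0, 1024)], .dead [(24, 1024), (1, 1), (0, 1024)], .dead [(23, 1024), (7, 1), (0, 1024)], .dead [(49, 1024), (2, 1), (0, 1024)], .dead [(51, 1), (21, 20), (0, 20)]] (.cons (.ref 130 [(0, [(51, 1)]), (0, [(50, 1)]), (0, [(48, 1)]), (0, [(26, 1)]),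 (0, [(22, 1)]), (0, [(14, 1)]), (0, [(9, 1)]), (0, [(8, 1)]), (3, [(7, 1)]), (3, [(6, 1)]), (3, [(5, 1)]), (3, [(3, 1)]), (3, [(2, 1)]), (0, [(1, 1)]), (0, [(0, 1)]), (27033896, [(46, 589081608192), (13, 593510793216), (12, 8925478912), (11, 4496293888)]), (18045818, [(16, 292326211584), (13, 4429185024), (12, 4462739456), (11, 4462739456)]), (39753700604, [(13, 9794035384320), (12, 9794597421056), (11, 9867678973952), (10, 9719846535168)])]) (.nil))))) (.split [0, 0, 0, 0, 0, 0, 1024, 0, 0, -508] (.ref 131 [(0, [(50, 1)]), (0, [(49, 1)]), (0, [(48, 1)]), (0, [(47, 1)]), (0, [(23, 1)]), (0, [(20, 1)]), (0, [(12, 1)]), (0, [(7, 1)]), (0, [(6, 1)]), (3, [(5, 1)]), (3, [(4, 1)]), (3, [(3, 1)]), (3, [(1, 1)]), (3, [(0, 1)]), (27033896, [(44, 589081608192), (11, 593510793216), (10, 8925478912), (9, 4496293888)]), (73635135454, [(42, 2413015706107904), (26, 160474684146581504), (9, 137438953472), (8, 18279380811776)]), (18045818,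 [(14, 292326211584), (11, 4429185024), (10, 4462739456), (9, 4462739456)]), (39753700604, [(11, 9794035384320), (10, 9794597421056), (9, 9867678973952), (8, 9719846535168)])]) (.split [1024, 0, 0, 0, 0, 0, 0, 0, 0, -333] (.ref 132 [(0, [(51, 1)]), (0, [(50, 1)]), (0, [(49, 1)]), (0, [(48, 1)]), (0, [(21, 1)]), (0, [(13, 1)]), (0, [(8, 1)]), (0, [(7, 1)]), (3, [(6, 1)]), (3, [(5, 1)]), (3, [(4, 1)]), (3, [(3, 1)]), (3, [(2, 1)]), (3, [(1, 1)]), (0, [(0, 1)]), (27033896, [(45, 589081608192), (12, 593510793216), (11, 8925478912), (10, 4496293888)]), (36092726, [(14, 584652423168), (12, 8858370048), (11, 8925478912), (10, 8925478912)]), (39753700604, [(12, 9794035384320), (11, 9794597421056), (10, 9867678973952), (9, 9719846535168)])]) (.node 0 (1) (0) (1) [.red 0 0 [(24, 1), (0, 1)], .dead [(5, 1), (0, 1024)], .dead [(0, 1)], .dead [(8, 1), (2, 1), (0, 1024)], .red 0 0 [(23, 1), (0, 1)], .dead [(7, 1), (0, 1024)], .red 0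 511 [(4, 1), (0, 512)], .dead [(50, 1), (23, 20), (0, 20)], .kid, .dead [(47, 1024), (8, 1), (0, 1024)], .dead [(24, 1024), (1, 1), (0, 1024)], .dead [(23, 1024), (7, 1), (0, 1024)], .dead [(49, 1024), (2, 1), (0, 1024)], .dead [(51, 1), (21, 20), (0, 20)]] (.cons (.ref 133 [(0, [(51, 1)]), (0, [(50, 1)]), (0, [(22, 1)]), (0, [(14, 1)]), (0, [(9, 1)]), (0, [(8, 1)]), (3, [(7, 1)]), (3, [(6, 1)]), (3, [(5, 1)]), (3, [(4, 1)]), (3, [(3, 1)]), (3, [(2, 1)]), (0, [(1, 1)]), (0, [(0, 1)]), (27033896, [(46, 589081608192), (13, 593510793216), (12, 8925478912), (11, 4496293888)]), (18045818, [(16, 292326211584), (13, 4429185024), (12, 4462739456), (11, 4462739456)]), (39753700604, [(13, 9794035384320), (12, 9794597421056), (11, 9867678973952), (10, 9719846535168)])]) (.nil)))))) (.ref 134 [(0, [(48, 1)]), (0, [(47, 1)]), (0, [(46, 1)]), (0, [(23, 1)]), (0, [(22, 1)]), (0, [(21, 1)]), (0, [(20, 1)]), (0, [(19, 1)]), (0, [(18, 1)]),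 (0, [(10, 1)]), (0, [(5, 1)]), (3, [(0, 1)]), (27033896, [(42, 589081608192), (9, 593510793216), (8, 8925478912), (7, 4496293888)]), (18045818, [(12, 292326211584), (9, 4429185024), (8, 4462739456), (7, 4462739456)]), (36092726, [(11, 584652423168), (9, 8858370048), (8, 8925478912), (7, 8925478912)]), (39753700604, [(9, 9794035384320), (8, 9794597421056), (7, 9867678973952), (6, 9719846535168)])])))))

/-- a subtree -/
def nA_8 : T := .node 3 (1) (1) (1) [.dead [(38, 52934), (36, 35377), (35, 34979), (34, 35377), (17, 398), (11, 7013755), (5, 52735), (1, 796), (0, 106266)], .dead [(39, 265), (35, 264), (34, 264), (11, 34980), (9, 133), (5, 265), (4, 132), (0, 530)], .dead [(39, 1), (38, 1), (34, 3), (16, 1), (14, 1), (11, 199), (0, 3)], .red 1 70223 [(39, 1), (38, 265), (17, 2), (12, 1), (5, 4670160), (1, 4), (0, 532)], .red 1 132 [(5, 8844), (0, 1)], .red 1 355099 [(42, 67), (40, 133), (36, 1320), (5, 23614820), (3, 1340),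 (2, 20), (0, 2680)], .dead [(42, 17689), (40, 8844), (12, 1320), (5, 174240), (3, 2640), (2, 2660), (0, 2660)], .dead [(42, 17425), (40, 8778), (39, 2640), (6, 20), (5, 175560), (3, 2620), (2, 2660), (0, 2660)], .dead [(42, 2335014), (40, 1176385), (6, 1320), (5, 23349480), (3, 351140), (2, 351120), (0, 353780)], .kid, .kid, .red 0 355119 [(41, 67), (39, 330), (38, 175890), (36, 1340), (34, 1340), (17, 2000), (12, 330), (11, 178220), (1, 2660), (0, 355100)]] (.cons (.node 0 (1) (0) (1) [.red 0 0 [(15, 1), (0, 1)], .dead [(42, 1), (38, 20), (14, 20), (12, 20), (0, 60)], .dead [(0, 1)], .red 0 176219 [(43, 67), (42, 8778), (40, 88440), (26, 10), (12, 87780), (4, 1330), (3, 1340), (2, 1330), (1, 1330), (0, 352440)], .red 0 0 [(14, 1), (0, 1)], .dead [(40, 1), (15, 1), (0, 2)], .red 0 6996066 [(37, 17822), (15, 4634652), (14, 4670030), (7, 2299704), (4, 52800), (3, 35378), (2, 35244), (0, 2335015)], .dead [(41, 1), (14, 20),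 (0, 20)], .kid, .dead [(42, 588126), (41, 592548), (40, 44555), (38, 335), (26, 88450), (12, 5881260), (4, 1330), (3, 670), (1, 89110), (0, 11807075)], .dead [(43, 1), (15, 20), (0, 20)], .dead [(42, 1), (15, 40), (14, 40), (12, 20), (0, 60)], .dead [(42, 1), (40, 40), (16, 20), (13, 10), (5, 10), (0, 30)], .dead [(42, 1), (12, 20), (0, 20)]] (.cons (.ref 119 [(0, [(43, 1)]), (0, [(42, 1)]), (0, [(41, 1)]), (0, [(40, 1)]), (0, [(39, 1)]), (0, [(38, 1)]), (0, [(18, 1)]), (0, [(17, 1)]), (0, [(16, 1)]), (0, [(15, 1)]), (0, [(14, 1)]), (0, [(13, 1)]), (0, [(12, 1)]), (0, [(5, 1)]), (0, [(0, 1)]), (27033896, [(37, 589081608192), (4, 593510793216), (3, 8925478912), (2, 4496293888)]), (18045818, [(7, 292326211584), (4, 4429185024), (3, 4462739456), (2, 4462739456)]), (2361414, [(4, 579600384), (3, 583991296), (2, 579665920), (1, 575275008)]), (9133957304, [(35, 301609783394304), (19, 20058184467087360), (3, 17179869184), (1,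 2284922601472)])]) (.nil))) (.cons (.node 2 (1) (1) (1) [.red 0 0 [(12, 66), (0, 1)], .dead [(39, 17688), (26, 133), (14, 17688), (12, 8844), (6, 8844), (4, 1), (0, 35376)], .red 1 0 [(12, 66), (0, 1)], .dead [(40, 66), (27, 1), (5, 66), (1, 1), (0, 133)], .red 2 176899 [(43, 33), (42, 33), (41, 33), (39, 87120), (21, 23352140), (18, 660), (13, 660), (4, 176900), (2, 1320), (1, 175560), (0, 23352800)], .dead [(40, 1), (39, 1), (17, 1), (15, 1), (12, 1), (0, 3)], .kid, .kid, .kid, .dead [(42, 50), (41, 33), (18, 330), (14, 670), (13, 340), (0, 10)], .dead [(42, 199), (41, 132), (18, 1340), (14, 2640), (13, 1300), (0, 40)], .dead [(42, 99), (41, 67), (18, 660), (14, 1320), (13, 660), (0, 20)], .red 0 176904 [(43, 8778), (42, 8745), (41, 8778), (40, 11588280), (21, 23352140), (16, 660), (13, 88440), (5, 11675400), (4, 176900), (2, 1320), (1, 175560), (0, 176905)], .red 0 3082392719 [(43, 155274042), (42, 154690305), (41,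 155274042), (40, 203443888560), (21, 413076004460), (16, 11674740), (13, 1564415160), (5, 204984954240), (4, 3129184100), (2, 23349480), (1, 3105480840), (0, 3105744180)], .red 0 23351459 [(43, 1167474), (42, 1163085), (41, 1167474), (40, 1517889780), (21, 3105834620), (16, 87780), (13, 11762520), (5, 1529476740), (4, 23527700), (2, 175560), (1, 23349480), (0, 23351460)], .dead [(39, 17688), (26, 35245), (14, 17688), (12, 8844), (6, 2343660), (4, 265), (0, 35376)], .dead [(27, 1), (1, 1), (0, 1)], .dead [(41, 67), (26, 1330), (6, 88440), (4, 10), (0, 1340)], .dead [(43, 67), (42, 132), (15, 1320), (5, 1320), (0, 20)], .dead [(43, 33), (42, 66), (17, 10), (15, 660), (5, 650), (0, 10)], .dead [(43, 65), (42, 132), (40, 20), (17, 20), (15, 1320), (5, 1320), (0, 20)], .dead [(42, 34), (39, 650), (18, 15), (15, 650), (14, 665), (12, 340), (0, 15)], .dead [(42, 133), (39, 2660), (15, 2660), (14, 2660), (12, 1300), (0, 60)],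 .dead [(42, 34), (39, 650), (17, 15), (15, 665), (14, 650), (12, 340), (0, 15)], .dead [(43, 1), (40, 1320), (5, 1320), (0, 20)], .dead [(40, 8844), (27, 1), (5, 8844), (1, 1), (0, 133)], .dead [(40, 133), (17, 2), (12, 1), (5, 131), (0, 2)], .dead [(39, 2), (38, 2), (18, 1), (14, 1), (12, 332), (0, 5)], .dead [(40, 1), (38, 1), (12, 133), (0, 2)], .dead [(40, 1), (39, 1), (17, 1), (15, 1), (12, 199), (0, 3)]] (.cons (.split [0, 0, 0, 1024, 0, 0, 0, 0, 0, -1015] (.ref 120 [(0, [(44, 1)]), (0, [(43, 1)]), (0, [(42, 1)]), (0, [(41, 1)]), (0, [(40, 1)]), (0, [(39, 1)]), (0, [(19, 1)]), (0, [(18, 1)]), (0, [(17, 1)]), (0, [(16, 1)]), (0, [(15, 1)]), (0, [(14, 1)]), (0, [(6, 1)]), (0, [(1, 1)]), (0, [(0, 1)]), (73635135454, [(36, 2413015706107904), (20, 160474684146581504), (3, 137438953472), (2, 18279380811776)]), (18045818, [(8, 292326211584), (5, 4429185024), (4, 4462739456), (3, 4462739456)]), (143826356, [(10, 2356594868224),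 (5, 35701915648), (3, 35701915648), (2, 35165044736)]), (39753700604, [(5, 9794035384320), (4, 9794597421056), (3, 9867678973952), (2, 9719846535168)])]) (.node 0 (1) (0) (1) [.red 0 0 [(17, 1), (0, 1)], .dead [(44, 33), (40, 660), (16, 660), (2, 10), (0, 1990)], .dead [(0, 1)], .dead [(18, 512), (1, 1), (0, 512)], .red 0 0 [(16, 1), (0, 1)], .dead [(42, 1), (17, 1), (0, 2)], .red 0 6996066 [(39, 17822), (17, 4634652), (16, 4670030), (9, 2299704), (6, 52800), (5, 35378), (4, 35244), (0, 2335015)], .dead [(43, 1), (16, 20), (0, 20)], .kid, .dead [(40, 1024), (1, 1), (0, 1024)], .dead [(45, 1), (17, 20), (0, 20)], .dead [(44, 33), (17, 1330), (16, 1320), (2, 10), (0, 1990)], .dead [(42, 1024), (18, 1024), (1, 1), (0, 1024)], .dead [(44, 1), (14, 20), (0, 20)]] (.cons (.ref 121 [(0, [(45, 1)]), (0, [(44, 1)]), (0, [(43, 1)]), (0, [(42, 1)]), (0, [(41, 1)]), (0, [(40, 1)]), (0, [(20, 1)]), (0, [(19, 1)]), (0, [(18, 1)]), (0,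 [(17, 1)]), (0, [(16, 1)]), (0, [(15, 1)]), (0, [(7, 1)]), (0, [(2, 1)]), (0, [(1, 1)]), (0, [(0, 1)]), (27033896, [(39, 589081608192), (6, 593510793216), (5, 8925478912), (4, 4496293888)]), (73635135454, [(37, 2413015706107904), (21, 160474684146581504), (4, 137438953472), (3, 18279380811776)]), (18045818, [(9, 292326211584), (6, 4429185024), (5, 4462739456), (4, 4462739456)]), (39753700604, [(6, 9794035384320), (5, 9794597421056), (4, 9867678973952), (3, 9719846535168)])]) (.nil)))) (.cons (.split [0, 0, 0, 1024, 0, 0, 0, 0, 0, -1014] (.ref 122 [(0, [(44, 1)]), (0, [(43, 1)]), (0, [(42, 1)]), (0, [(41, 1)]), (0, [(40, 1)]), (0, [(39, 1)]), (0, [(19, 1)]), (0, [(18, 1)]), (0, [(17, 1)]), (0, [(16, 1)]), (0, [(15, 1)]), (0, [(14, 1)]), (0, [(6, 1)]), (0, [(1, 1)]), (1, [(0, 1)]), (27033896, [(38, 589081608192), (5, 593510793216), (4, 8925478912), (3, 4496293888)]), (73635135454, [(36, 2413015706107904), (20, 160474684146581504),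 (3, 137438953472), (2, 18279380811776)]), (18045818, [(8, 292326211584), (5, 4429185024), (4, 4462739456), (3, 4462739456)]), (143826356, [(10, 2356594868224), (5, 35701915648), (3, 35701915648), (2, 35165044736)]), (39753700604, [(5, 9794035384320), (4, 9794597421056), (3, 9867678973952), (2, 9719846535168)])]) (.node 0 (1) (0) (1) [.red 0 0 [(17, 1), (0, 1)], .dead [(44, 67), (40, 1320), (16, 1340), (2, 20), (0, 3980)], .dead [(0, 1)], .dead [(18, 512), (1, 1), (0, 512)], .red 0 0 [(16, 1), (0, 1)], .dead [(42, 1), (17, 1), (0, 2)], .red 0 6996066 [(39, 17822), (17, 4634652), (16, 4670030), (9, 2299704), (6, 52800), (5, 35378), (4, 35244), (0, 2335015)], .dead [(43, 1), (16, 20), (0, 20)], .kid, .dead [(40, 1024), (1, 1), (0, 1024)], .dead [(45, 1), (17, 20), (0, 20)], .dead [(44, 1), (17, 40), (16, 40), (14, 20), (0, 60)], .dead [(42, 1024), (18, 1024), (1, 1), (0, 1024)], .dead [(44, 1), (14, 20), (0, 20)]] (.cons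 (.ref 123 [(0, [(45, 1)]), (0, [(44, 1)]), (0, [(43, 1)]), (0, [(42, 1)]), (0, [(41, 1)]), (0, [(40, 1)]), (0, [(20, 1)]), (0, [(19, 1)]), (0, [(18, 1)]), (0, [(17, 1)]), (0, [(16, 1)]), (0, [(15, 1)]), (0, [(7, 1)]), (0, [(2, 1)]), (1, [(1, 1)]), (0, [(0, 1)]), (27033896, [(39, 589081608192), (6, 593510793216), (5, 8925478912), (4, 4496293888)]), (73635135454, [(37, 2413015706107904), (21, 160474684146581504), (4, 137438953472), (3, 18279380811776)]), (18045818, [(9, 292326211584), (6, 4429185024), (5, 4462739456), (4, 4462739456)]), (36092726, [(8, 584652423168), (6, 8858370048), (5, 8925478912), (4, 8925478912)]), (39753700604, [(6, 9794035384320), (5, 9794597421056), (4, 9867678973952), (3, 9719846535168)])]) (.nil)))) (.cons (nA_7) (.nil))))) (.nil)))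

/-- a subtree -/
def nA_9 : T := .node 3 (1) (0) (1) [.dead [(40, 26533), (35, 2640), (33, 5280), (13, 2640), (10, 525360), (6, 2660), (4, 5300), (0, 7960)], .dead [(40, 235277), (38, 52935), (33, 70228), (13, 35114), (10, 4652339), (5, 17291), (4, 53201), (1, 532), (0, 70756)], .dead [(40, 33), (38, 5), (33, 10), (13, 5), (10, 660), (0, 10)], .dead [(41, 17424), (40, 133), (39, 35112), (15, 2660), (6, 353780), (5, 348480), (4, 2660), (2, 5280), (0, 5320)], .dead [(41, 132), (39, 265), (6, 2660), (5, 2620), (2, 40), (0, 40)], .dead [(41, 66), (39, 133), (6, 1320), (5, 1320), (2, 20), (0, 20)], .kid, .kid, .kid, .dead [(41, 8911), (39, 4422), (24, 10), (6, 88440), (2, 1330), (1, 1340), (0, 1340)], .dead [(41, 133), (39, 67), (6, 1340), (2, 20), (1, 20), (0, 20)], .dead [(41, 583704), (39, 289641), (38, 44220), (24, 655), (6, 5881260), (2, 87115), (1, 88440), (0, 88440)]] (.cons (nA_8) (.cons (.node 3 (1) (1) (1) [.dead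 [(41, 199), (38, 262680), (36, 175570), (35, 175570), (34, 175570), (11, 34938430), (5, 264670), (1, 3980), (0, 529340)], .dead [(39, 265), (35, 264), (34, 264), (11, 34980), (9, 133), (5, 265), (4, 132), (0, 530)], .dead [(39, 1), (38, 1), (34, 3), (16, 1), (14, 1), (11, 199), (0, 3)], .red 1 348459 [(41, 1), (38, 1320), (5, 23173920), (1, 20), (0, 2640)], .red 1 132 [(5, 8844), (0, 1)], .red 1 355099 [(42, 67), (40, 133), (36, 1320), (5, 23614820), (3, 1340), (2, 20), (0, 2680)], .dead [(42, 17689), (40, 8844), (12, 1320), (5, 174240), (3, 2640), (2, 2660), (0, 2660)], .dead [(42, 17425), (40, 8778), (39, 2640), (6, 20), (5, 175560), (3, 2620), (2, 2660), (0, 2660)], .dead [(42, 2335014), (40, 1176385), (6, 1320), (5, 23349480), (3, 351140), (2, 351120), (0, 353780)], .kid, .kid, .red 0 140983 [(41, 93), (38, 69428), (36, 536), (34, 536), (17, 268), (16, 268), (11, 71288), (1, 1056), (0, 140984)]] (.cons (.split [0,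 0, 0, 1024, 0, 0, 0, 0, 0, -1015] (.ref 135 [(0, [(43, 1)]), (0, [(42, 1)]), (0, [(41, 1)]), (0, [(40, 1)]), (0, [(39, 1)]), (0, [(38, 1)]), (0, [(18, 1)]), (0, [(17, 1)]), (0, [(16, 1)]), (0, [(15, 1)]), (0, [(14, 1)]), (0, [(13, 1)]), (0, [(12, 1)]), (0, [(5, 1)]), (0, [(0, 1)]), (7154846852, [(37, 156713558736896), (4, 157873870995456), (3, 2365319020544), (2, 1187021586432)]), (8778, [(7, 143835136), (4, 2146304), (3, 2179072), (2, 2179072)]), (0, [(9, 67), (4, 1), (2, 1), (1, 1)]), (39753700604, [(4, 9719846535168), (3, 9867678973952), (2, 9794035384320), (1, 9794597421056)]), (9133957304, [(35, 301609783394304), (19, 20058184467087360), (3, 17179869184), (1, 2284922601472)])]) (.node 0 (1) (0) (1) [.red 0 0 [(16, 1), (0, 1)], .dead [(43, 1), (39, 20), (15, 20), (13, 20), (0, 60)], .dead [(0, 1)], .dead [(17, 512), (1, 1), (0, 512)], .red 0 0 [(15, 1), (0, 1)], .dead [(41, 1), (16, 1), (0, 2)], .red 0 7013820 [(38,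 266), (16, 4652472), (15, 4687718), (8, 2326236), (5, 34980), (4, 35246), (3, 35244), (0, 2361481)], .dead [(42, 1), (15, 20), (0, 20)], .kid, .dead [(39, 1024), (1, 1), (0, 1024)], .dead [(44, 1), (16, 20), (0, 20)], .dead [(43, 1), (16, 40), (15, 40), (13, 20), (0, 60)], .dead [(41, 1024), (17, 1024), (1, 1), (0, 1024)], .dead [(43, 1), (13, 20), (0, 20)]] (.cons (.ref 136 [(0, [(44, 1)]), (0, [(43, 1)]), (0, [(42, 1)]), (0, [(41, 1)]), (0, [(40, 1)]), (0, [(39, 1)]), (0, [(19, 1)]), (0, [(18, 1)]), (0, [(17, 1)]), (0, [(16, 1)]), (0, [(15, 1)]), (0, [(14, 1)]), (0, [(13, 1)]), (0, [(6, 1)]), (0, [(1, 1)]), (0, [(0, 1)]), (7154846852, [(38, 156713558736896), (5, 157873870995456), (4, 2365319020544), (3, 1187021586432)]), (8778, [(8, 143835136), (5, 2146304), (4, 2179072), (3, 2179072)]), (39753700604, [(5, 9719846535168), (4, 9867678973952), (3, 9794035384320), (2, 9794597421056)]), (9133957304, [(36, 301609783394304),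 (20, 20058184467087360), (4, 17179869184), (2, 2284922601472)])]) (.nil)))) (.cons (.split [0, 0, 0, 1024, 0, 0, 0, 0, 0, -1015] (.ref 137 [(0, [(43, 1)]), (0, [(42, 1)]), (0, [(41, 1)]), (0, [(40, 1)]), (0, [(39, 1)]), (0, [(38, 1)]), (0, [(18, 1)]), (0, [(17, 1)]), (0, [(16, 1)]), (0, [(15, 1)]), (0, [(14, 1)]), (0, [(13, 1)]), (0, [(12, 1)]), (0, [(5, 1)]), (0, [(0, 1)]), (7154846852, [(37, 156713558736896), (4, 157873870995456), (3, 2365319020544), (2, 1187021586432)]), (18406559984, [(35, 603219566788608), (19, 40116368934174720), (2, 34359738368), (1, 4569845202944)]), (8778, [(7, 143835136), (4, 2146304), (3, 2179072), (2, 2179072)]), (2382073484, [(9, 39176141537280), (4, 589081608192), (2, 593544347648), (1, 589115162624)]), (39603131772, [(4, 9719846535168), (3, 9794035384320), (2, 9867678973952), (1, 9794597421056)])]) (.node 0 (1) (0) (1) [.red 0 0 [(16, 1), (0, 1)], .dead [(43, 1), (39, 20), (15, 20), (13,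 20), (0, 60)], .dead [(0, 1)], .dead [(17, 512), (1, 1), (0, 512)], .red 0 0 [(15, 1), (0, 1)], .dead [(41, 1), (16, 1), (0, 2)], .red 0 7013820 [(38, 266), (16, 4652472), (15, 4687718), (8, 2326236), (5, 34980), (4, 35246), (3, 35244), (0, 2361481)], .dead [(42, 1), (15, 20), (0, 20)], .kid, .dead [(39, 1024), (1, 1), (0, 1024)], .dead [(44, 1), (16, 20), (0, 20)], .dead [(43, 1), (16, 40), (15, 40), (13, 20), (0, 60)], .dead [(41, 1024), (17, 1024), (1, 1), (0, 1024)], .dead [(43, 1), (13, 20), (0, 20)]] (.cons (.ref 138 [(0, [(44, 1)]), (0, [(43, 1)]), (0, [(42, 1)]), (0, [(41, 1)]), (0, [(40, 1)]), (0, [(39, 1)]), (0, [(19, 1)]), (0, [(18, 1)]), (0, [(17, 1)]), (0, [(16, 1)]), (0, [(15, 1)]), (0, [(14, 1)]), (0, [(13, 1)]), (0, [(6, 1)]), (0, [(1, 1)]), (0, [(0, 1)]), (7154846852, [(38, 156713558736896), (5, 157873870995456), (4, 2365319020544), (3, 1187021586432)]), (8778, [(8, 143835136), (5, 2146304), (4, 2179072),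 (3, 2179072)]), (39603131772, [(5, 9719846535168), (4, 9794035384320), (3, 9867678973952), (2, 9794597421056)])]) (.nil)))) (.nil)))) (.cons (.node 3 (1) (1) (1) [.dead [(38, 13333), (36, 9043), (35, 8645), (34, 8844), (13, 199), (11, 1759956), (5, 13333), (1, 199), (0, 26666)], .dead [(39, 265), (35, 264), (34, 264), (11, 34980), (9, 133), (5, 265), (4, 132), (0, 530)], .dead [(39, 1), (38, 1), (34, 3), (16, 1), (14, 1), (11, 199), (0, 3)], .red 1 69521759 [(41, 66), (40, 133), (38, 262680), (36, 1320), (16, 1320), (5, 4623461040), (3, 1340), (1, 3980), (0, 526680)], .red 1 132 [(5, 8844), (0, 1)], .red 1 355099 [(42, 67), (40, 133), (36, 1320), (5, 23614820), (3, 1340), (2, 20), (0, 2680)], .dead [(42, 17689), (40, 8844), (12, 1320), (5, 174240), (3, 2640), (2, 2660), (0, 2660)], .dead [(42, 17425), (40, 8778), (39, 2640), (6, 20), (5, 175560), (3, 2620), (2, 2660), (0, 2660)], .dead [(42, 2335014), (40, 1176385), (6,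 1320), (5, 23349480), (3, 351140), (2, 351120), (0, 353780)], .kid, .kid, .red 0 69516459 [(42, 8844), (41, 8579), (40, 8844), (38, 34672440), (36, 171580), (34, 348460), (16, 348460), (11, 34671100), (6, 176880), (1, 525340), (0, 69519080)]] (.cons (.node 0 (1) (0) (1) [.red 0 0 [(15, 1), (0, 1)], .dead [(42, 1), (38, 20), (14, 20), (12, 20), (0, 60)], .dead [(0, 1)], .red 0 3128918759 [(43, 1176319), (42, 156441516), (40, 1552741080), (26, 176900), (12, 1564415160), (4, 23527700), (3, 23526380), (2, 23525040), (1, 23703260), (0, 6257837520)], .red 0 0 [(14, 1), (0, 1)], .dead [(40, 1), (15, 1), (0, 2)], .red 0 3511332 [(15, 2326236), (14, 2352637), (7, 1167540), (4, 17557), (3, 17556), (2, 17689), (0, 1167474)], .dead [(41, 1), (14, 20), (0, 20)], .kid, .dead [(42, 588126), (41, 592548), (40, 44555), (38, 335), (26, 88450), (12, 5881260), (4, 1330), (3, 670), (1, 89110), (0, 11807075)], .dead [(43, 1), (15, 20), (0,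 20)], .dead [(42, 1), (15, 40), (14, 40), (12, 20), (0, 60)], .dead [(42, 1), (40, 40), (16, 20), (13, 10), (5, 10), (0, 30)], .dead [(42, 1), (12, 20), (0, 20)]] (.cons (.ref 139 [(0, [(43, 1)]), (0, [(42, 1)]), (0, [(41, 1)]), (0, [(40, 1)]), (0, [(39, 1)]), (0, [(38, 1)]), (0, [(18, 1)]), (0, [(17, 1)]), (0, [(16, 1)]), (0, [(15, 1)]), (0, [(14, 1)]), (0, [(13, 1)]), (0, [(12, 1)]), (0, [(5, 1)]), (0, [(0, 1)]), (217366022, [(37, 4748623216640), (4, 4784056696832), (3, 71403831296), (2, 35970351104)]), (75014444, [(7, 1224254423040), (4, 18409848832), (3, 18408800256), (2, 18548260864)]), (0, [(4, 1), (3, 1), (2, 1), (1, 1)])]) (.nil))) (.cons (.split [0, 0, 0, 1024, 0, 0, 0, 0, 0, -1015] (.ref 140 [(0, [(43, 1)]), (0, [(42, 1)]), (0, [(41, 1)]), (0, [(40, 1)]), (0, [(39, 1)]), (0, [(38, 1)]), (0, [(18, 1)]), (0, [(17, 1)]), (0, [(16, 1)]), (0, [(15, 1)]), (0, [(14, 1)]), (0, [(13, 1)]), (0, [(12, 1)]), (0, [(5, 1)]),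 (0, [(0, 1)]), (217366022, [(37, 4748623216640), (4, 4784056696832), (3, 71403831296), (2, 35970351104)]), (9134145404, [(35, 299324860792832), (19, 19906245704024064), (2, 17179869184), (1, 2267742732288)]), (75014444, [(7, 1224254423040), (4, 18409848832), (3, 18408800256), (2, 18548260864)]), (8954846, [(9, 146163105792), (4, 2231369728), (2, 2231369728), (1, 2214592512)]), (19800977726, [(4, 4897298710528), (3, 4859923267584), (2, 4933839486976), (1, 4897017692160)])]) (.node 0 (1) (0) (1) [.red 0 0 [(16, 1), (0, 1)], .dead [(43, 1), (39, 20), (15, 20), (13, 20), (0, 60)], .dead [(0, 1)], .dead [(17, 512), (1, 1), (0, 512)], .red 0 0 [(15, 1), (0, 1)], .dead [(41, 1), (16, 1), (0, 2)], .red 0 3511332 [(16, 2326236), (15, 2352637), (8, 1167540), (5, 17557), (4, 17556), (3, 17689), (0, 1167474)], .dead [(42, 1), (15, 20), (0, 20)], .kid, .dead [(39, 1024), (1, 1), (0, 1024)], .dead [(44, 1), (16, 20), (0, 20)], .dead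 [(43, 1), (16, 40), (15, 40), (13, 20), (0, 60)], .dead [(41, 1024), (17, 1024), (1, 1), (0, 1024)], .dead [(43, 1), (13, 20), (0, 20)]] (.cons (.ref 141 [(0, [(44, 1)]), (0, [(43, 1)]), (0, [(42, 1)]), (0, [(41, 1)]), (0, [(40, 1)]), (0, [(39, 1)]), (0, [(19, 1)]), (0, [(18, 1)]), (0, [(17, 1)]), (0, [(16, 1)]), (0, [(15, 1)]), (0, [(14, 1)]), (0, [(13, 1)]), (0, [(6, 1)]), (0, [(1, 1)]), (0, [(0, 1)]), (217366022, [(38, 4748623216640), (5, 4784056696832), (4, 71403831296), (3, 35970351104)]), (75014444, [(8, 1224254423040), (5, 18409848832), (4, 18408800256), (3, 18548260864)]), (9564195794, [(7, 156704566149120), (5, 2356460650496), (4, 2356326432768), (3, 2374177390592)]), (19800977726, [(5, 4897298710528), (4, 4859923267584), (3, 4933839486976), (2, 4897017692160)])]) (.nil)))) (.nil)))) (.nil))))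

/-- a subtree -/
def nA_10 : T := .split [0, 0, 0, 1024, 0, 0, 0, 0, 0, -1015] (.ref 147 [(0, [(43, 1)]), (0, [(42, 1)]), (0, [(41, 1)]), (0, [(40, 1)]), (0, [(39, 1)]), (0, [(38, 1)]), (0, [(18, 1)]), (0, [(17, 1)]), (0, [(16, 1)]), (0, [(15, 1)]), (0, [(14, 1)]), (0, [(13, 1)]), (0, [(12, 1)]), (0, [(5, 1)]), (0, [(0, 1)]), (75014444, [(7, 1224254423040), (4, 18409848832), (3, 18548260864), (2, 18408800256)]), (2382073484, [(6, 39176141537280), (4, 589115162624), (3, 593544347648), (2, 589081608192)])]) (.split [0, 0, 0, 0, 0, 0, 0, 1024, 0, -508] (.node 0 (1) (0) (1) [.red 0 0 [(17, 1), (0, 1)], .dead [(44, 1), (40, 20), (16, 20), (14, 20), (0, 60)], .dead [(0, 1)], .dead [(18, 512), (2, 1), (0, 512)], .red 0 0 [(16, 1), (0, 1)], .dead [(42, 1), (17, 1), (0, 2)], .red 0 511 [(17, 1024), (1, 1), (0, 512)], .dead [(43, 1), (16, 20), (0, 20)], .kid, .dead [(40, 1024), (2, 1), (1, 1), (0, 1024)], .dead [(45, 1), (17, 20),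 (0, 20)], .dead [(44, 1), (17, 40), (16, 40), (14, 20), (0, 60)], .dead [(42, 1024), (18, 1024), (2, 1), (0, 1024)], .dead [(44, 1), (14, 20), (0, 20)]] (.cons (.ref 148 [(0, [(45, 1)]), (0, [(44, 1)]), (0, [(43, 1)]), (0, [(42, 1)]), (0, [(41, 1)]), (0, [(40, 1)]), (0, [(20, 1)]), (0, [(19, 1)]), (0, [(18, 1)]), (0, [(17, 1)]), (0, [(16, 1)]), (0, [(15, 1)]), (0, [(14, 1)]), (0, [(7, 1)]), (0, [(2, 1)]), (3, [(1, 1)]), (0, [(0, 1)]), (57532585970, [(39, 1253636529192960), (6, 1263062908665856), (5, 18922552164352), (4, 9354438770688)]), (75574190, [(6, 18408800256), (5, 18687721472), (4, 18547212288), (3, 18549309440)]), (2382073484, [(8, 39176141537280), (6, 589115162624), (5, 593544347648), (4, 589081608192)])]) (.nil))) (.split [0, 0, 0, 1024, 0, 0, 0, 0, 0, -508] (.split [0, 0, 0, 0, 0, 0, 0, 0, 1024, -508] (.node 0 (1) (0) (1) [.red 0 0 [(19, 1), (0, 1)], .dead [(46, 1), (42, 20), (18, 20), (16, 20), (0, 60)], .dead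 [(0, 1)], .dead [(20, 512), (4, 1), (0, 512)], .red 0 0 [(18, 1), (0, 1)], .dead [(3, 1), (0, 1024)], .red 0 511 [(2, 1), (0, 512)], .dead [(45, 1), (18, 20), (0, 20)], .kid, .dead [(42, 1024), (4, 1), (0, 1024)], .dead [(47, 1), (19, 20), (0, 20)], .dead [(18, 1024), (3, 1), (0, 1024)], .dead [(44, 1024), (20, 1024), (4, 1), (1, 1), (0, 1024)], .dead [(46, 1), (16, 20), (0, 20)]] (.cons (.ref 149 [(0, [(47, 1)]), (0, [(46, 1)]), (0, [(45, 1)]), (0, [(44, 1)]), (0, [(43, 1)]), (0, [(42, 1)]), (0, [(22, 1)]), (0, [(21, 1)]), (0, [(20, 1)]), (0, [(18, 1)]), (0, [(17, 1)]), (0, [(16, 1)]), (0, [(9, 1)]), (0, [(4, 1)]), (3, [(3, 1)]), (3, [(1, 1)]), (0, [(0, 1)]), (75574190, [(8, 18408800256), (7, 18687721472), (6, 18547212288), (5, 18549309440)]), (2382073484, [(10, 39176141537280), (8, 589115162624), (7, 593544347648), (6, 589081608192)])]) (.nil))) (.split [0, 0, 0, 0, 1024, 0, 0, 0, 0, -508] (.ref 150 [(0, [(47, 1)]),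 (0, [(46, 1)]), (0, [(45, 1)]), (0, [(44, 1)]), (0, [(43, 1)]), (0, [(42, 1)]), (0, [(22, 1)]), (0, [(21, 1)]), (0, [(20, 1)]), (0, [(17, 1)]), (0, [(16, 1)]), (0, [(9, 1)]), (0, [(4, 1)]), (3, [(3, 1)]), (3, [(1, 1)]), (3, [(0, 1)]), (57532585970, [(41, 1253636529192960), (8, 1263062908665856), (7, 18922552164352), (6, 9354438770688)]), (75574190, [(8, 18408800256), (7, 18687721472), (6, 18547212288), (5, 18549309440)]), (2382073484, [(10, 39176141537280), (8, 589115162624), (7, 593544347648), (6, 589081608192)])]) (.split [0, 0, 0, 0, 0, 1024, 0, 0, 0, -508] (.split [0, 0, 0, 0, 0, 0, 1024, 0, 0, -508] (.ref 151 [(0, [(49, 1)]), (0, [(48, 1)]), (0, [(47, 1)]), (0, [(46, 1)]), (0, [(45, 1)]), (0, [(23, 1)]), (0, [(22, 1)]), (0, [(19, 1)]), (0, [(18, 1)]), (0, [(11, 1)]), (0, [(6, 1)]), (3, [(5, 1)]), (3, [(3, 1)]), (3, [(2, 1)]), (3, [(1, 1)]), (3, [(0, 1)]), (57532585970, [(43, 1253636529192960), (10, 1263062908665856),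 (9, 18922552164352), (8, 9354438770688)]), (75574190, [(10, 18408800256), (9, 18687721472), (8, 18547212288), (7, 18549309440)]), (2382073484, [(12, 39176141537280), (10, 589115162624), (9, 593544347648), (8, 589081608192)])]) (.split [0, 1024, 0, 0, 0, 0, 0, 0, 0, -333] (.ref 152 [(0, [(50, 1)]), (0, [(49, 1)]), (0, [(48, 1)]), (0, [(47, 1)]), (0, [(46, 1)]), (0, [(24, 1)]), (0, [(20, 1)]), (0, [(19, 1)]), (0, [(12, 1)]), (0, [(7, 1)]), (3, [(6, 1)]), (3, [(4, 1)]), (3, [(3, 1)]), (3, [(2, 1)]), (3, [(1, 1)]), (0, [(0, 1)]), (57532585970, [(44, 1253636529192960), (11, 1263062908665856), (10, 18922552164352), (9, 9354438770688)]), (75574190, [(11, 18408800256), (10, 18687721472), (9, 18547212288), (8, 18549309440)]), (2382073484, [(13, 39176141537280), (11, 589115162624), (10, 593544347648), (9, 589081608192)])]) (.node 0 (1) (0) (1) [.red 0 0 [(23, 1), (0, 1)], .dead [(5, 1), (0, 1024)], .dead [(0, 1)], .dead [(8, 1),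 (2, 1), (0, 1024)], .red 0 0 [(22, 1), (0, 1)], .dead [(7, 1), (0, 1024)], .red 0 511 [(6, 1), (0, 512)], .dead [(49, 1), (22, 20), (0, 20)], .kid, .dead [(46, 1024), (8, 1), (0, 1024)], .dead [(51, 1), (23, 20), (0, 20)], .dead [(22, 1024), (7, 1), (0, 1024)], .dead [(48, 1024), (2, 1), (0, 1024)], .dead [(20, 1024), (1, 1), (0, 1024)]] (.cons (.ref 153 [(0, [(51, 1)]), (0, [(49, 1)]), (0, [(48, 1)]), (0, [(25, 1)]), (0, [(21, 1)]), (0, [(20, 1)]), (0, [(13, 1)]), (0, [(8, 1)]), (3, [(7, 1)]), (3, [(5, 1)]), (3, [(4, 1)]), (3, [(3, 1)]), (3, [(2, 1)]), (0, [(1, 1)]), (0, [(0, 1)]), (57532585970, [(45, 1253636529192960), (12, 1263062908665856), (11, 18922552164352), (10, 9354438770688)]), (75574190, [(12, 18408800256), (11, 18687721472), (10, 18547212288), (9, 18549309440)]), (2382073484, [(14, 39176141537280), (12, 589115162624), (11, 593544347648), (10, 589081608192)])]) (.nil))))) (.split [0, 0, 0, 0, 0, 0, 1024, 0,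 0, -508] (.ref 154 [(0, [(49, 1)]), (0, [(48, 1)]), (0, [(47, 1)]), (0, [(46, 1)]), (0, [(44, 1)]), (0, [(22, 1)]), (0, [(19, 1)]), (0, [(18, 1)]), (0, [(11, 1)]), (0, [(6, 1)]), (3, [(5, 1)]), (3, [(3, 1)]), (3, [(2, 1)]), (3, [(1, 1)]), (3, [(0, 1)]), (57532585970, [(43, 1253636529192960), (10, 1263062908665856), (9, 18922552164352), (8, 9354438770688)]), (75574190, [(10, 18408800256), (9, 18687721472), (8, 18547212288), (7, 18549309440)]), (2382073484, [(12, 39176141537280), (10, 589115162624), (9, 593544347648), (8, 589081608192)])]) (.node 0 (1) (0) (1) [.red 0 0 [(22, 1), (0, 1)], .dead [(4, 1), (0, 1024)], .dead [(0, 1)], .dead [(7, 1), (1, 1), (0, 1024)], .red 0 0 [(21, 1), (0, 1)], .dead [(6, 1), (0, 1024)], .red 0 511 [(5, 1), (0, 512)], .dead [(48, 1), (21, 20), (0, 20)], .kid, .dead [(45, 1024), (7, 1), (0, 1024)], .dead [(50, 1), (22, 20), (0, 20)], .dead [(21, 1024), (6, 1), (0, 1024)], .dead [(47, 1024),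 (1, 1), (0, 1024)], .dead [(49, 1), (19, 20), (0, 20)]] (.cons (.ref 155 [(0, [(50, 1)]), (0, [(49, 1)]), (0, [(48, 1)]), (0, [(20, 1)]), (0, [(19, 1)]), (0, [(12, 1)]), (0, [(7, 1)]), (3, [(6, 1)]), (3, [(5, 1)]), (3, [(4, 1)]), (3, [(3, 1)]), (3, [(2, 1)]), (3, [(1, 1)]), (0, [(0, 1)]), (75574190, [(11, 18408800256), (10, 18687721472), (9, 18547212288), (8, 18549309440)]), (2382073484, [(13, 39176141537280), (11, 589115162624), (10, 593544347648), (9, 589081608192)])]) (.nil))))))) (.node 0 (1) (0) (1) [.red 0 0 [(18, 1), (0, 1)], .dead [(17, 1024), (1, 1), (0, 1024)], .dead [(0, 1)], .dead [(19, 512), (1, 1), (0, 512)], .red 0 0 [(17, 1), (0, 1)], .dead [(2, 1), (0, 1024)], .red 0 1782166 [(18, 1189652), (17, 1185163), (7, 8778), (6, 8911), (5, 8844), (4, 8845), (0, 601426)], .dead [(44, 1), (17, 20), (0, 20)], .kid, .dead [(41, 1024), (1, 1), (0, 1024)], .dead [(46, 1), (18, 20), (0, 20)], .dead [(17, 1024), (2, 1),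 (0, 1024)], .dead [(43, 1024), (19, 1024), (1, 1), (0, 1024)], .dead [(45, 1), (15, 20), (0, 20)]] (.cons (.ref 156 [(0, [(46, 1)]), (0, [(45, 1)]), (0, [(44, 1)]), (0, [(21, 1)]), (0, [(20, 1)]), (0, [(19, 1)]), (0, [(18, 1)]), (0, [(17, 1)]), (0, [(16, 1)]), (0, [(15, 1)]), (0, [(8, 1)]), (3, [(1, 1)]), (0, [(0, 1)]), (57532585970, [(40, 1253636529192960), (7, 1263062908665856), (6, 18922552164352), (5, 9354438770688)]), (75574190, [(7, 18408800256), (6, 18687721472), (5, 18547212288), (4, 18549309440)]), (2382073484, [(9, 39176141537280), (7, 589115162624), (6, 593544347648), (5, 589081608192)])]) (.nil)))))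

/-- a subtree -/
def nA_11 : T := .node 3 (1) (1) (1) [.dead [(38, 13333), (36, 9043), (35, 8645), (34, 8844), (13, 199), (11, 1759956), (5, 13333), (1, 199), (0, 26666)], .dead [(39, 265), (35, 264), (34, 264), (11, 34980), (9, 133), (5, 265), (4, 132), (0, 530)], .dead [(39, 1), (38, 1), (34, 3), (16, 1), (14, 1), (11, 199), (0, 3)], .red 1 69521759 [(41, 66), (40, 133), (38, 262680), (36, 1320), (16, 1320), (5, 4623461040), (3, 1340), (1, 3980), (0, 526680)], .red 1 132 [(5, 8844), (0, 1)], .red 1 349139 [(41, 33), (40, 166), (36, 1980), (13, 660), (5, 23218140), (3, 2000), (2, 10), (0, 2650)], .dead [(42, 17556), (40, 8911), (5, 174240), (3, 2660), (2, 2660), (0, 2640)], .dead [(42, 264), (40, 135), (39, 20), (8, 20), (6, 20), (5, 2640), (3, 40), (2, 40), (0, 40)], .dead [(42, 8811), (41, 33), (40, 4489), (5, 88440), (3, 1340), (2, 1330), (0, 1330)], .kid, .kid, .red 0 69516459 [(42, 8844), (41, 8579), (40, 8844),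 (38, 34672440), (36, 171580), (34, 348460), (16, 348460), (11, 34671100), (6, 176880), (1, 525340), (0, 69519080)]] (.cons (.split [0, 0, 0, 1024, 0, 0, 0, 0, 0, -1015] (.ref 157 [(0, [(43, 1)]), (0, [(42, 1)]), (0, [(41, 1)]), (0, [(40, 1)]), (0, [(39, 1)]), (0, [(38, 1)]), (0, [(18, 1)]), (0, [(17, 1)]), (0, [(16, 1)]), (0, [(15, 1)]), (0, [(14, 1)]), (0, [(13, 1)]), (0, [(12, 1)]), (0, [(5, 1)]), (0, [(0, 1)]), (54615518, [(37, 1187021586432), (4, 1196014174208), (3, 17850957824), (2, 8858370048)]), (285218, [(7, 4636803072), (4, 70254592), (3, 69730304), (2, 69730304)]), (149998862, [(4, 37375442944), (3, 37098618880), (2, 36817600512), (1, 37094424576)]), (36259798112, [(35, 1197299443171328), (19, 79624982816096256), (3, 68719476736), (1, 9070970929152)])]) (.split [0, 0, 0, 0, 0, 0, 0, 0, 1024, -508] (.node 0 (1) (0) (1) [.red 0 0 [(17, 1), (0, 1)], .dead [(44, 1), (40, 20), (16, 20), (14, 20), (0, 60)], .dead [(0,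 1)], .dead [(18, 512), (2, 1), (0, 512)], .red 0 0 [(16, 1), (0, 1)], .dead [(42, 1), (17, 1), (0, 2)], .red 0 511 [(16, 1024), (1, 1), (0, 512)], .dead [(43, 1), (16, 20), (0, 20)], .kid, .dead [(40, 1024), (2, 1), (0, 1024)], .dead [(45, 1), (17, 20), (0, 20)], .dead [(44, 1), (17, 40), (16, 40), (14, 20), (0, 60)], .dead [(42, 1024), (18, 1024), (2, 1), (1, 1), (0, 1024)], .dead [(44, 1), (14, 20), (0, 20)]] (.cons (.ref 158 [(0, [(45, 1)]), (0, [(44, 1)]), (0, [(43, 1)]), (0, [(42, 1)]), (0, [(41, 1)]), (0, [(40, 1)]), (0, [(20, 1)]), (0, [(19, 1)]), (0, [(18, 1)]), (0, [(17, 1)]), (0, [(16, 1)]), (0, [(15, 1)]), (0, [(14, 1)]), (0, [(7, 1)]), (0, [(2, 1)]), (3, [(1, 1)]), (0, [(0, 1)]), (54615518, [(39, 1187021586432), (6, 1196014174208), (5, 17850957824), (4, 8858370048)]), (285218, [(9, 4636803072), (6, 70254592), (5, 69730304), (4, 69730304)]), (149998862, [(6, 37375442944), (5, 37098618880), (4, 36817600512),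 (3, 37094424576)]), (36259798112, [(37, 1197299443171328), (21, 79624982816096256), (5, 68719476736), (3, 9070970929152)])]) (.nil))) (.split [0, 0, 0, 0, 1024, 0, 0, 0, 0, -508] (.ref 159 [(0, [(45, 1)]), (0, [(44, 1)]), (0, [(43, 1)]), (0, [(42, 1)]), (0, [(41, 1)]), (0, [(40, 1)]), (0, [(20, 1)]), (0, [(19, 1)]), (0, [(18, 1)]), (0, [(17, 1)]), (0, [(15, 1)]), (0, [(14, 1)]), (0, [(7, 1)]), (0, [(2, 1)]), (3, [(1, 1)]), (3, [(0, 1)]), (285218, [(9, 4636803072), (6, 70254592), (5, 69730304), (4, 69730304)]), (149998862, [(6, 37375442944), (5, 37098618880), (4, 36817600512), (3, 37094424576)]), (36259798112, [(37, 1197299443171328), (21, 79624982816096256), (5, 68719476736), (3, 9070970929152)])]) (.split [0, 0, 0, 1024, 0, 0, 0, 0, 0, -508] (.node 0 (1) (0) (1) [.red 0 0 [(19, 1), (0, 1)], .dead [(3, 1), (0, 1024)], .dead [(0, 1)], .dead [(20, 512), (4, 1), (0, 512)], .red 0 0 [(18, 1), (0, 1)], .dead [(44, 1), (19,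 1), (0, 2)], .red 0 511 [(1, 1), (0, 512)], .dead [(45, 1), (18, 20), (0, 20)], .kid, .dead [(42, 1024), (4, 1), (0, 1024)], .dead [(47, 1), (19, 20), (0, 20)], .dead [(19, 1024), (3, 1), (0, 1024)], .dead [(44, 1024), (20, 1024), (4, 1), (0, 1024)], .dead [(46, 1), (16, 20), (0, 20)]] (.cons (.ref 160 [(0, [(47, 1)]), (0, [(46, 1)]), (0, [(45, 1)]), (0, [(44, 1)]), (0, [(43, 1)]), (0, [(42, 1)]), (0, [(21, 1)]), (0, [(20, 1)]), (0, [(19, 1)]), (0, [(17, 1)]), (0, [(16, 1)]), (0, [(9, 1)]), (0, [(4, 1)]), (3, [(3, 1)]), (3, [(2, 1)]), (3, [(1, 1)]), (0, [(0, 1)]), (54615518, [(41, 1187021586432), (8, 1196014174208), (7, 17850957824), (6, 8858370048)]), (285218, [(11, 4636803072), (8, 70254592), (7, 69730304), (6, 69730304)]), (149998862, [(8, 37375442944), (7, 37098618880), (6, 36817600512), (5, 37094424576)]), (36259798112, [(39, 1197299443171328), (23, 79624982816096256), (7, 68719476736), (5, 9070970929152)])]) (.nil)))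 (.ref 161 [(0, [(46, 1)]), (0, [(45, 1)]), (0, [(44, 1)]), (0, [(21, 1)]), (0, [(20, 1)]), (0, [(19, 1)]), (0, [(18, 1)]), (0, [(17, 1)]), (0, [(16, 1)]), (0, [(15, 1)]), (0, [(8, 1)]), (3, [(0, 1)]), (54615518, [(40, 1187021586432), (7, 1196014174208), (6, 17850957824), (5, 8858370048)]), (285218, [(10, 4636803072), (7, 70254592), (6, 69730304), (5, 69730304)]), (149998862, [(7, 37375442944), (6, 37098618880), (5, 36817600512), (4, 37094424576)])]))))) (.cons (.split [0, 0, 0, 1024, 0, 0, 0, 0, 0, -1015] (.ref 162 [(0, [(43, 1)]), (0, [(42, 1)]), (0, [(41, 1)]), (0, [(40, 1)]), (0, [(39, 1)]), (0, [(38, 1)]), (0, [(18, 1)]), (0, [(17, 1)]), (0, [(16, 1)]), (0, [(15, 1)]), (0, [(14, 1)]), (0, [(13, 1)]), (0, [(12, 1)]), (0, [(5, 1)]), (0, [(0, 1)]), (54615518, [(37, 1187021586432), (4, 1196014174208), (3, 17850957824), (2, 8858370048)]), (285218, [(7, 4636803072), (4, 70254592), (3, 69730304), (2, 69730304)]), (9134145404,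 [(35, 299324860792832), (19, 19906245704024064), (2, 17179869184), (1, 2267742732288)]), (298866028, [(4, 74750885888), (3, 73635201024), (2, 74197237760), (1, 74188849152)])]) (.split [0, 0, 0, 0, 0, 0, 0, 0, 1024, -508] (.node 0 (1) (0) (1) [.red 0 0 [(17, 1), (0, 1)], .dead [(44, 1), (40, 20), (16, 20), (14, 20), (0, 60)], .dead [(0, 1)], .dead [(18, 512), (2, 1), (0, 512)], .red 0 0 [(16, 1), (0, 1)], .dead [(42, 1), (17, 1), (0, 2)], .red 0 511 [(16, 1024), (1, 1), (0, 512)], .dead [(43, 1), (16, 20), (0, 20)], .kid, .dead [(40, 1024), (2, 1), (0, 1024)], .dead [(45, 1), (17, 20), (0, 20)], .dead [(44, 1), (17, 40), (16, 40), (14, 20), (0, 60)], .dead [(42, 1024), (18, 1024), (2, 1), (1, 1), (0, 1024)], .dead [(44, 1), (14, 20), (0, 20)]] (.cons (.ref 163 [(0, [(45, 1)]), (0, [(44, 1)]), (0, [(43, 1)]), (0, [(42, 1)]), (0, [(41, 1)]), (0, [(40, 1)]), (0, [(20, 1)]), (0, [(19, 1)]), (0, [(18, 1)]), (0, [(17, 1)]),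 (0, [(16, 1)]), (0, [(15, 1)]), (0, [(14, 1)]), (0, [(7, 1)]), (0, [(2, 1)]), (3, [(1, 1)]), (0, [(0, 1)]), (54615518, [(39, 1187021586432), (6, 1196014174208), (5, 17850957824), (4, 8858370048)]), (285218, [(9, 4636803072), (6, 70254592), (5, 69730304), (4, 69730304)]), (9134145404, [(37, 299324860792832), (21, 19906245704024064), (4, 17179869184), (3, 2267742732288)]), (298866028, [(6, 74750885888), (5, 73635201024), (4, 74197237760), (3, 74188849152)])]) (.nil))) (.split [0, 0, 0, 0, 1024, 0, 0, 0, 0, -508] (.ref 164 [(0, [(45, 1)]), (0, [(44, 1)]), (0, [(43, 1)]), (0, [(42, 1)]), (0, [(41, 1)]), (0, [(40, 1)]), (0, [(20, 1)]), (0, [(19, 1)]), (0, [(18, 1)]), (0, [(17, 1)]), (0, [(15, 1)]), (0, [(14, 1)]), (0, [(7, 1)]), (0, [(2, 1)]), (3, [(1, 1)]), (3, [(0, 1)]), (54615518, [(39, 1187021586432), (6, 1196014174208), (5, 17850957824), (4, 8858370048)]), (285218, [(9, 4636803072), (6, 70254592), (5, 69730304), (4, 69730304)]),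 (9134145404, [(37, 299324860792832), (21, 19906245704024064), (4, 17179869184), (3, 2267742732288)]), (298866028, [(6, 74750885888), (5, 73635201024), (4, 74197237760), (3, 74188849152)])]) (.node 0 (1) (0) (1) [.red 0 0 [(18, 1), (0, 1)], .dead [(2, 1), (0, 1024)], .dead [(0, 1)], .dead [(19, 512), (3, 1), (0, 512)], .red 0 0 [(17, 1), (0, 1)], .dead [(43, 1), (18, 1), (0, 2)], .red 0 53332 [(18, 35510), (17, 35644), (10, 17688), (7, 268), (6, 266), (5, 266), (0, 17689)], .dead [(44, 1), (17, 20), (0, 20)], .kid, .dead [(41, 1024), (3, 1), (0, 1024)], .dead [(46, 1), (18, 20), (0, 20)], .dead [(18, 1024), (2, 1), (0, 1024)], .dead [(43, 1024), (19, 1024), (3, 1), (0, 1024)], .dead [(45, 1), (15, 20), (0, 20)]] (.cons (.ref 165 [(0, [(46, 1)]), (0, [(45, 1)]), (0, [(44, 1)]), (0, [(43, 1)]), (0, [(42, 1)]), (0, [(41, 1)]), (0, [(21, 1)]), (0, [(20, 1)]), (0, [(19, 1)]), (0, [(18, 1)]), (0, [(17, 1)]), (0, [(16, 1)]), (0,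 [(15, 1)]), (0, [(8, 1)]), (0, [(3, 1)]), (3, [(2, 1)]), (3, [(1, 1)]), (0, [(0, 1)]), (54615518, [(40, 1187021586432), (7, 1196014174208), (6, 17850957824), (5, 8858370048)]), (285218, [(10, 4636803072), (7, 70254592), (6, 69730304), (5, 69730304)]), (9134145404, [(38, 299324860792832), (22, 19906245704024064), (5, 17179869184), (4, 2267742732288)]), (298866028, [(7, 74750885888), (6, 73635201024), (5, 74197237760), (4, 74188849152)])]) (.nil)))))) (.nil)))

/-- a subtree -/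
def nA_12 : T := .node 3 (0) (0) (1) [.red 0 132 [(6, 8844), (0, 1)], .dead [(40, 53), (39, 53), (35, 33788), (32, 528), (13, 530), (11, 530), (9, 530), (6, 266), (3, 530), (0, 532)], .dead [(35, 66), (32, 1), (0, 1)], .kid, .red 0 131 [(23, 1), (1, 1), (0, 132)], .kid, .dead [(40, 131), (38, 265), (12, 2620), (6, 2660), (4, 2620), (1, 40), (0, 40)], .dead [(40, 34981), (39, 266), (38, 70224), (37, 2660), (14, 5320), (12, 699620), (6, 707560), (4, 696960), (3, 5320), (1, 10560), (0, 10640)], .dead [(40, 66), (38, 133), (12, 1320), (6, 1320), (4, 1320), (1, 20), (0, 20)], .dead [(23, 17557), (6, 8844), (1, 265), (0, 17688)], .dead [(24, 1), (0, 1)], .dead [(23, 1), (0, 1)]] (.cons (nA_9) (.cons (.node 3 (1) (0) (1) [.dead [(40, 26533), (35, 2640), (33, 5280), (13, 2640), (10, 525360), (6, 2660), (4, 5300), (0, 7960)], .dead [(40, 4389), (38, 990), (33, 1310), (13, 660), (10, 86790), (5, 330), (4, 990), (1, 10), (0, 1320)],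 .dead [(40, 33), (38, 5), (33, 10), (13, 5), (10, 660), (0, 10)], .dead [(41, 17424), (40, 133), (39, 35112), (15, 2660), (6, 353780), (5, 348480), (4, 2660), (2, 5280), (0, 5320)], .dead [(41, 132), (39, 265), (6, 2660), (5, 2620), (2, 40), (0, 40)], .dead [(41, 66), (39, 133), (6, 1320), (5, 1320), (2, 20), (0, 20)], .kid, .kid, .kid, .dead [(41, 17556), (39, 8911), (6, 174240), (2, 2660), (1, 2660), (0, 2640)], .dead [(41, 2326236), (39, 1185163), (6, 23350800), (2, 353780), (1, 351140), (0, 351120)], .dead [(41, 35111), (39, 17822), (38, 2660), (13, 20), (6, 353760), (2, 5320), (1, 5360), (0, 5320)]] (.cons (.node 3 (1) (1) (1) [.dead [(38, 52934), (36, 35377), (35, 34979), (34, 35377), (17, 398), (11, 7013755), (5, 52735), (1, 796), (0, 106266)], .dead [(39, 265), (35, 264), (34, 264), (11, 34980), (9, 133), (5, 265), (4, 132), (0, 530)], .dead [(39, 1), (38, 1), (34, 3), (16, 1), (14, 1), (11, 199), (0, 3)], .red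 1 70223 [(39, 1), (38, 265), (17, 2), (12, 1), (5, 4670160), (1, 4), (0, 532)], .red 1 132 [(5, 8844), (0, 1)], .red 1 349139 [(41, 33), (40, 166), (36, 1980), (13, 660), (5, 23218140), (3, 2000), (2, 10), (0, 2650)], .dead [(42, 17556), (40, 8911), (5, 174240), (3, 2660), (2, 2660), (0, 2640)], .dead [(42, 264), (40, 135), (39, 20), (8, 20), (6, 20), (5, 2640), (3, 40), (2, 40), (0, 40)], .dead [(42, 8811), (41, 33), (40, 4489), (5, 88440), (3, 1340), (2, 1330), (0, 1330)], .kid, .kid, .red 0 355119 [(41, 67), (39, 330), (38, 175890), (36, 1340), (34, 1340), (17, 2000), (12, 330), (11, 178220), (1, 2660), (0, 355100)]] (.cons (.split [0, 0, 0, 1024, 0, 0, 0, 0, 0, -1015] (.ref 142 [(0, [(43, 1)]), (0, [(42, 1)]), (0, [(41, 1)]), (0, [(40, 1)]), (0, [(39, 1)]), (0, [(38, 1)]), (0, [(18, 1)]), (0, [(17, 1)]), (0, [(16, 1)]), (0, [(15, 1)]), (0, [(14, 1)]), (0, [(13, 1)]), (0, [(12, 1)]), (0, [(5, 1)]), (0, [(0, 1)]), (26534,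 [(37, 575275008), (4, 579665920), (3, 8716288), (2, 4325376)]), (18045818, [(7, 292326211584), (4, 4462739456), (3, 4462739456), (2, 4429185024)]), (2210, [(4, 548864), (3, 548864), (2, 540672), (1, 540672)])]) (.node 0 (1) (0) (1) [.red 0 0 [(16, 1), (0, 1)], .dead [(43, 1), (39, 20), (15, 20), (13, 20), (0, 60)], .dead [(0, 1)], .dead [(17, 512), (1, 1), (0, 512)], .red 0 0 [(15, 1), (0, 1)], .dead [(41, 1), (16, 1), (0, 2)], .red 0 52802 [(16, 35246), (15, 35114), (8, 17424), (5, 266), (4, 266), (3, 264), (0, 17557)], .dead [(42, 1), (15, 20), (0, 20)], .kid, .dead [(39, 1024), (1, 1), (0, 1024)], .dead [(44, 1), (16, 20), (0, 20)], .dead [(43, 1), (16, 40), (15, 40), (13, 20), (0, 60)], .dead [(41, 1024), (17, 1024), (1, 1), (0, 1024)], .dead [(43, 1), (13, 20), (0, 20)]] (.cons (.ref 143 [(0, [(44, 1)]), (0, [(43, 1)]), (0, [(42, 1)]), (0, [(41, 1)]), (0, [(40, 1)]), (0, [(39, 1)]), (0, [(19, 1)]), (0, [(18, 1)]),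 (0, [(17, 1)]), (0, [(16, 1)]), (0, [(15, 1)]), (0, [(14, 1)]), (0, [(13, 1)]), (0, [(6, 1)]), (0, [(1, 1)]), (0, [(0, 1)]), (26534, [(38, 575275008), (5, 579665920), (4, 8716288), (3, 4325376)]), (18045818, [(8, 292326211584), (5, 4462739456), (4, 4462739456), (3, 4429185024)]), (2210, [(5, 548864), (4, 548864), (3, 540672), (2, 540672)]), (36259798112, [(36, 1197299443171328), (20, 79624982816096256), (4, 68719476736), (2, 9070970929152)])]) (.nil)))) (.cons (.split [0, 0, 0, 1024, 0, 0, 0, 0, 0, -1015] (.ref 144 [(0, [(43, 1)]), (0, [(42, 1)]), (0, [(41, 1)]), (0, [(40, 1)]), (0, [(39, 1)]), (0, [(38, 1)]), (0, [(18, 1)]), (0, [(17, 1)]), (0, [(16, 1)]), (0, [(15, 1)]), (0, [(14, 1)]), (0, [(13, 1)]), (0, [(12, 1)]), (0, [(5, 1)]), (0, [(0, 1)]), (26534, [(37, 575275008), (4, 579665920), (3, 8716288), (2, 4325376)]), (18045818, [(7, 292326211584), (4, 4462739456), (3, 4462739456), (2, 4429185024)]), (39603131772, [(4,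 9867678973952), (3, 9794597421056), (2, 9794035384320), (1, 9719846535168)])]) (.node 0 (1) (0) (1) [.red 0 0 [(16, 1), (0, 1)], .dead [(43, 1), (39, 20), (15, 20), (13, 20), (0, 60)], .dead [(0, 1)], .dead [(17, 512), (1, 1), (0, 512)], .red 0 0 [(15, 1), (0, 1)], .dead [(41, 1), (16, 1), (0, 2)], .red 0 52802 [(16, 35246), (15, 35114), (8, 17424), (5, 266), (4, 266), (3, 264), (0, 17557)], .dead [(42, 1), (15, 20), (0, 20)], .kid, .dead [(39, 1024), (1, 1), (0, 1024)], .dead [(44, 1), (16, 20), (0, 20)], .dead [(43, 1), (16, 40), (15, 40), (13, 20), (0, 60)], .dead [(41, 1024), (17, 1024), (1, 1), (0, 1024)], .dead [(43, 1), (13, 20), (0, 20)]] (.cons (.ref 145 [(0, [(44, 1)]), (0, [(43, 1)]), (0, [(42, 1)]), (0, [(41, 1)]), (0, [(40, 1)]), (0, [(39, 1)]), (0, [(19, 1)]), (0, [(18, 1)]), (0, [(17, 1)]), (0, [(16, 1)]), (0, [(15, 1)]), (0, [(14, 1)]), (0, [(13, 1)]), (0, [(6, 1)]), (0, [(1, 1)]), (0, [(0, 1)]), (26534,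 [(38, 575275008), (5, 579665920), (4, 8716288), (3, 4325376)]), (73635135454, [(36, 2413015706107904), (20, 160474684146581504), (3, 137438953472), (2, 18279380811776)]), (18045818, [(8, 292326211584), (5, 4462739456), (4, 4462739456), (3, 4429185024)]), (39603131772, [(5, 9867678973952), (4, 9794597421056), (3, 9794035384320), (2, 9719846535168)])]) (.nil)))) (.nil)))) (.cons (.node 3 (1) (0) (0) [.dead [(39, 66), (36, 1), (0, 1)], .red 1 18398687 [(41, 3498), (40, 3551), (39, 70356), (34, 524), (14, 792), (11, 34980), (6, 1223548524), (5, 34980), (2, 1060), (0, 139920)], .red 1 132 [(6, 8844), (0, 1)], .dead [(33, 1), (0, 1)], .dead [(32, 1), (0, 1)], .dead [(33, 17556), (6, 8712), (3, 265), (0, 17689)], .red 0 132 [(6, 8844), (0, 1)], .red 0 17423669 [(41, 2211), (40, 2195), (39, 44715), (34, 320), (16, 990), (11, 21615), (6, 1158696165), (5, 22605), (2, 670), (0, 131670)], .red 0 348479 [(42, 198), (40, 67), (13, 1320),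 (6, 23176560), (3, 40), (2, 20), (0, 2660)], .kid, .red 0 176879 [(41, 4489), (40, 4422), (36, 173570), (5, 44890), (4, 44890), (3, 173570), (1, 1340), (0, 174910)], .kid] (.cons (.node 0 (1) (0) (1) [.red 0 0 [(15, 1), (0, 1)], .dead [(42, 1), (38, 20), (14, 20), (12, 20), (0, 60)], .dead [(0, 1)], .red 0 46526039 [(42, 2335080), (41, 17557), (40, 23352120), (16, 1320), (12, 23350800), (6, 23350800), (4, 351140), (3, 353780), (2, 351120), (0, 93053400)], .red 0 0 [(14, 1), (0, 1)], .dead [(40, 1), (15, 1), (0, 2)], .red 0 468183740 [(15, 311742026), (14, 312900854), (4, 2335214), (3, 2352638), (2, 2317392), (1, 2335080), (0, 157609123)], .dead [(41, 1), (14, 20), (0, 20)], .kid, .dead [(42, 4422), (41, 4422), (26, 665), (12, 44220), (6, 44220), (4, 5), (0, 88440)], .dead [(43, 1), (15, 20), (0, 20)], .dead [(42, 1), (15, 40), (14, 40), (12, 20), (0, 60)], .dead [(42, 1), (40, 40), (16, 20), (13, 10), (5, 10), (0, 30)],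 .dead [(42, 1), (12, 20), (0, 20)]] (.cons (.ref 146 [(0, [(43, 1)]), (0, [(42, 1)]), (0, [(41, 1)]), (0, [(40, 1)]), (0, [(39, 1)]), (0, [(38, 1)]), (0, [(18, 1)]), (0, [(17, 1)]), (0, [(16, 1)]), (0, [(15, 1)]), (0, [(14, 1)]), (0, [(13, 1)]), (0, [(12, 1)]), (0, [(5, 1)]), (0, [(0, 1)]), (57532585970, [(37, 1253636529192960), (4, 1263062908665856), (3, 18922552164352), (2, 9354438770688)]), (2485562046, [(4, 612162338816), (3, 616729935872), (2, 607490408448), (1, 612127211520)]), (2382073484, [(6, 39176141537280), (4, 589115162624), (3, 593544347648), (2, 589081608192)])]) (.nil))) (.cons (nA_10) (.nil)))) (.cons (nA_11) (.nil))))) (.nil)))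

/-- a subtree -/
def nA_13 : T := .node 1 (1) (0) (0) [.kid, .dead [(27, 2), (12, 1), (0, 133)], .kid, .kid] (.cons (.ref 78 [(0, [(35, 1)]), (0, [(34, 1)]), (0, [(33, 1)]), (0, [(10, 1)]), (0, [(9, 1)]), (0, [(8, 1)]), (0, [(7, 1)]), (0, [(6, 1)]), (0, [(5, 1)]), (0, [(30, 2), (2, 1), (0, 133)]), (0, [(30, 1), (29, 1), (28, 1), (0, 199)])]) (.cons (.node 1 (0) (1) (0) [.dead [(37, 266), (35, 135), (31, 80), (11, 5320), (7, 2660), (6, 2660), (3, 40), (0, 5320)], .kid, .dead [(24, 2), (13, 1), (0, 133)], .kid] (.cons (.node 1 (1) (1) (1) [.dead [(32, 1), (31, 1), (30, 1), (7, 199), (0, 199)], .kid, .kid, .kid] (.cons (.node 1 (1) (1) (0) [.dead [(37, 133), (35, 10), (33, 20), (32, 20), (9, 10), (8, 2650), (3, 10), (1, 10), (0, 2660)], .kid, .kid, .kid] (.cons (.ref 79 [(0, [(38, 1)]), (0, [(37, 1)]), (0, [(14, 1)]), (0, [(13, 1)]), (0, [(12, 1)]), (0, [(11, 1)]), (0, [(10, 1)]), (0, [(9, 1)]), (0, [(8, 1)]), (0, [(33,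 2), (15, 133), (0, 1)])]) (.cons (.node 1 (1) (2) (0) [.dead [(38, 133), (37, 20), (36, 2640), (33, 40), (9, 2660), (1, 20), (0, 2660)], .kid, .dead [(40, 133), (27, 20), (16, 10), (10, 1330), (0, 1330)], .kid] (.cons (.node 1 (1) (1) (-1) [.kid, .dead [(40, 4422), (30, 1325), (27, 655), (14, 88440), (11, 44220), (2, 44220), (0, 88440)], .kid, .kid] (.cons (.ref 80 [(0, [(41, 1)]), (0, [(40, 1)]), (0, [(39, 1)]), (0, [(38, 1)]), (0, [(15, 1)]), (0, [(13, 1)]), (0, [(11, 1)]), (0, [(35, 2), (1, 1), (0, 133)]), (0, [(34, 2), (2, 1), (0, 133)]), (0, [(35, 2), (17, 133), (1, 1)]), (0, [(34, 2), (17, 133), (2, 1)])]) (.cons (.ref 81 [(0, [(41, 1)]), (0, [(40, 1)]), (0, [(38, 1)]), (0, [(12, 1)]), (0, [(11, 1)]), (0, [(10, 1)]), (0, [(35, 2), (17, 133), (1, 1)]), (0, [(34, 2), (17, 133), (0, 1)])]) (.cons (.ref 82 [(0, [(41, 1)]), (0, [(40, 1)]), (0, [(39, 1)]), (0, [(38, 1)]), (0, [(36, 1)]), (0, [(16, 1)]), (0, [(15, 1)]),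 (0, [(14, 1)]), (0, [(13, 1)]), (0, [(12, 1)]), (0, [(11, 1)]), (0, [(10, 1)]), (0, [(35, 2), (17, 133), (1, 1)]), (0, [(34, 2), (17, 133), (2, 1)]), (0, [(17, 1), (3, 1), (2, 1), (0, 1)]), (0, [(17, 1), (2, 1), (1, 1), (0, 1)])]) (.nil))))) (.cons (.ref 83 [(0, [(40, 1)]), (0, [(39, 1)]), (0, [(38, 1)]), (0, [(37, 1)]), (0, [(35, 1)]), (0, [(15, 1)]), (0, [(14, 1)]), (0, [(13, 1)]), (0, [(12, 1)]), (0, [(11, 1)]), (0, [(10, 1)]), (0, [(9, 1)]), (0, [(34, 2), (16, 133), (2, 1)]), (0, [(33, 2), (16, 133), (1, 1)]), (0, [(16, 1), (2, 1), (1, 1), (0, 1)])]) (.nil)))) (.cons (.ref 84 [(0, [(39, 1)]), (0, [(38, 1)]), (0, [(37, 1)]), (0, [(36, 1)]), (0, [(35, 1)]), (0, [(34, 1)]), (0, [(14, 1)]), (0, [(13, 1)]), (0, [(12, 1)]), (0, [(11, 1)]), (0, [(10, 1)]), (0, [(9, 1)]), (0, [(8, 1)]), (0, [(33, 2), (15, 133), (1, 1)]), (0, [(15, 1), (3, 1), (1, 1), (0, 1)]), (0, [(15, 1), (5, 1), (3, 1), (0, 1)])]) (.nil))))) (.cons (.node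 1 (1) (1) (0) [.dead [(37, 133), (36, 10), (33, 20), (32, 20), (9, 10), (8, 2650), (2, 10), (1, 10), (0, 2660)], .kid, .kid, .kid] (.cons (.ref 85 [(0, [(38, 1)]), (0, [(37, 1)]), (0, [(14, 1)]), (0, [(13, 1)]), (0, [(12, 1)]), (0, [(11, 1)]), (0, [(10, 1)]), (0, [(9, 1)]), (0, [(8, 1)]), (0, [(33, 2), (15, 133), (0, 1)])]) (.cons (.node 1 (0) (1) (-1) [.kid, .kid, .dead [(37, 133), (27, 6), (16, 3), (11, 266), (9, 133), (0, 399)], .kid] (.cons (.node 0 (0) (1) (1) [.dead [(0, 1)], .dead [(41, 399), (40, 266), (39, 133), (28, 20), (17, 10), (12, 5320), (11, 3990), (10, 2660), (2, 1330), (0, 7980)], .kid, .dead [(38, 133), (36, 267), (35, 2), (14, 266), (10, 133), (7, 1), (1, 133), (0, 800)], .kid, .dead [(38, 1), (37, 1), (15, 2), (10, 1), (0, 4)], .red 2 0 [(0, 1)], .kid, .dead [(36, 1), (0, 1)], .dead [(38, 1), (36, 3), (16, 2), (11, 1), (0, 3)], .dead [(37, 1), (0, 1)], .dead [(41, 67), (37, 3970), (34, 20), (12, 1320),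 (10, 1330), (2, 10), (1, 1330), (0, 3980)], .dead [(41, 1), (15, 10), (14, 10), (10, 20), (0, 30)], .dead [(41, 1), (10, 20), (0, 20)]] (.cons (.ref 86 [(0, [(41, 1)]), (0, [(40, 1)]), (0, [(39, 1)]), (0, [(38, 1)]), (0, [(36, 1)]), (0, [(16, 1)]), (0, [(15, 1)]), (0, [(14, 1)]), (0, [(13, 1)]), (0, [(12, 1)]), (0, [(11, 1)]), (0, [(10, 1)]), (0, [(0, 1)]), (0, [(34, 2), (2, 1), (1, 133)]), (0, [(34, 2), (17, 133), (2, 1)])]) (.cons (.ref 87 [(0, [(41, 1)]), (0, [(40, 1)]), (0, [(39, 1)]), (0, [(38, 1)]), (0, [(36, 1)]), (0, [(16, 1)]), (0, [(15, 1)]), (0, [(14, 1)]), (0, [(13, 1)]), (0, [(12, 1)]), (0, [(11, 1)]), (0, [(10, 1)]), (0, [(0, 1)]), (0, [(34, 2), (2, 1), (1, 133)]), (0, [(34, 2), (17, 133), (2, 1)])]) (.cons (.ref 88 [(0, [(41, 1)]), (0, [(40, 1)]), (0, [(39, 1)]), (0, [(38, 1)]), (0, [(36, 1)]), (0, [(16, 1)]), (0, [(15, 1)]), (0, [(14, 1)]), (0, [(13, 1)]), (0, [(12, 1)]), (0, [(11, 1)]), (0, [(10, 1)]),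 (0, [(0, 1)]), (0, [(34, 2), (2, 1), (1, 133)]), (0, [(34, 2), (17, 133), (2, 1)])]) (.nil))))) (.cons (.node 1 (1) (1) (-1) [.kid, .dead [(40, 4422), (30, 1325), (27, 655), (14, 88440), (11, 44220), (2, 44220), (0, 88440)], .dead [(41, 134), (40, 67), (30, 20), (27, 20), (11, 1340), (1, 1340), (0, 1340)], .kid] (.cons (.ref 89 [(0, [(41, 1)]), (0, [(40, 1)]), (0, [(39, 1)]), (0, [(38, 1)]), (0, [(11, 1)]), (0, [(10, 1)]), (0, [(32, 2), (1, 133), (0, 1)]), (0, [(21, 2), (2, 1), (0, 1)]), (0, [(30, 2), (2, 1), (1, 133)])]) (.cons (.ref 90 [(0, [(41, 1)]), (0, [(40, 1)]), (0, [(39, 1)]), (0, [(38, 1)]), (0, [(36, 1)]), (0, [(16, 1)]), (0, [(15, 1)]), (0, [(14, 1)]), (0, [(13, 1)]), (0, [(12, 1)]), (0, [(11, 1)]), (0, [(10, 1)]), (0, [(35, 2), (17, 133), (1, 1)]), (0, [(34, 2), (17, 133), (2, 1)]), (0, [(17, 1), (2, 1), (1, 1), (0, 1)])]) (.nil)))) (.cons (.ref 91 [(0, [(40, 1)]), (0, [(39, 1)]), (0, [(38, 1)]), (0, [(37,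 1)]), (0, [(35, 1)]), (0, [(15, 1)]), (0, [(14, 1)]), (0, [(13, 1)]), (0, [(12, 1)]), (0, [(11, 1)]), (0, [(10, 1)]), (0, [(9, 1)]), (0, [(33, 2), (16, 133), (1, 1)]), (0, [(16, 1), (6, 1), (1, 1), (0, 1)]), (0, [(16, 1), (3, 1), (1, 1), (0, 1)])]) (.nil))))) (.cons (.node 0 (0) (1) (1) [.dead [(0, 1)], .red 0 19 [(40, 2), (39, 1), (38, 1), (15, 10), (11, 30), (10, 20), (9, 20), (0, 50)], .kid, .dead [(37, 1), (35, 1), (13, 2), (9, 1), (0, 4)], .kid, .dead [(37, 1), (36, 1), (14, 2), (9, 1), (0, 4)], .red 2 0 [(0, 1)], .kid, .dead [(35, 1), (0, 1)], .dead [(37, 1), (35, 3), (15, 2), (10, 1), (0, 3)], .dead [(36, 1), (0, 1)], .dead [(40, 1), (39, 2), (36, 20), (11, 20), (9, 20), (0, 40)], .dead [(40, 1), (14, 10), (13, 10), (9, 20), (0, 30)], .dead [(40, 1), (9, 20), (0, 20)]] (.cons (.ref 92 [(0, [(40, 1)]), (0, [(39, 1)]), (0, [(38, 1)]), (0, [(37, 1)]), (0, [(36, 1)]), (0, [(35, 1)]), (0, [(15, 1)]), (0, [(14, 1)]),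 (0, [(13, 1)]), (0, [(12, 1)]), (0, [(11, 1)]), (0, [(10, 1)]), (0, [(9, 1)]), (0, [(0, 1)]), (1, [(16, 1), (6, 1), (2, 1), (1, 1)]), (0, [(16, 1), (3, 1), (2, 1), (1, 1)])]) (.cons (.ref 93 [(0, [(40, 1)]), (0, [(39, 1)]), (0, [(38, 1)]), (0, [(37, 1)]), (0, [(36, 1)]), (0, [(35, 1)]), (0, [(15, 1)]), (0, [(14, 1)]), (0, [(13, 1)]), (0, [(12, 1)]), (0, [(11, 1)]), (0, [(10, 1)]), (0, [(9, 1)]), (0, [(0, 1)]), (0, [(16, 1), (3, 1), (2, 1), (1, 1)]), (0, [(16, 1), (6, 1), (4, 1), (1, 1)])]) (.cons (.ref 94 [(0, [(40, 1)]), (0, [(39, 1)]), (0, [(38, 1)]), (0, [(37, 1)]), (0, [(36, 1)]), (0, [(35, 1)]), (0, [(15, 1)]), (0, [(14, 1)]), (0, [(13, 1)]), (0, [(12, 1)]), (0, [(11, 1)]), (0, [(10, 1)]), (0, [(9, 1)]), (0, [(0, 1)]), (1, [(16, 1), (6, 1), (2, 1), (1, 1)]), (0, [(16, 1), (3, 1), (2, 1), (1, 1)]), (0, [(16, 1), (6, 1), (4, 1), (1, 1)])]) (.nil))))) (.nil))))) (.cons (.ref 95 [(0, [(38, 1)]), (0, [(37, 1)]), (0, [(35,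 1)]), (0, [(34, 1)]), (0, [(12, 1)]), (0, [(10, 1)]), (0, [(9, 1)]), (0, [(14, 1), (4, 1), (2, 1), (0, 1)]), (0, [(14, 1), (2, 1), (1, 1), (0, 1)])]) (.nil))))) (.cons (.ref 96 [(0, [(37, 1)]), (0, [(36, 1)]), (0, [(35, 1)]), (0, [(34, 1)]), (0, [(33, 1)]), (0, [(32, 1)]), (0, [(12, 1)]), (0, [(11, 1)]), (0, [(10, 1)]), (0, [(9, 1)]), (0, [(8, 1)]), (0, [(7, 1)]), (0, [(6, 1)]), (0, [(13, 1), (3, 1), (1, 1), (0, 1)])]) (.nil)))) (.cons (.node 1 (1) (1) (1) [.dead [(31, 1), (30, 1), (29, 1), (6, 199), (0, 199)], .kid, .kid, .kid] (.cons (.ref 97 [(0, [(37, 1)]), (0, [(36, 1)]), (0, [(35, 1)]), (0, [(34, 1)]), (0, [(33, 1)]), (0, [(32, 1)]), (0, [(12, 1)]), (0, [(11, 1)]), (0, [(10, 1)]), (0, [(9, 1)]), (0, [(8, 1)]), (0, [(7, 1)]), (0, [(6, 1)]), (0, [(31, 2), (13, 133), (0, 1)]), (0, [(13, 1), (2, 1), (1, 1), (0, 1)])]) (.cons (.ref 98 [(0, [(37, 1)]), (0, [(35, 1)]), (0, [(34, 1)]), (0, [(32, 1)]), (0, [(12, 1)]), (0,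 [(11, 1)]), (0, [(10, 1)]), (0, [(9, 1)]), (0, [(8, 1)]), (0, [(7, 1)]), (0, [(13, 1), (3, 1), (1, 1), (0, 1)])]) (.cons (.node 0 (0) (1) (1) [.dead [(0, 1)], .red 0 19 [(38, 2), (37, 1), (36, 1), (13, 10), (9, 30), (8, 20), (7, 20), (0, 50)], .kid, .dead [(35, 1), (33, 1), (11, 2), (7, 1), (0, 4)], .kid, .dead [(35, 1), (34, 1), (12, 2), (7, 1), (0, 4)], .red 2 0 [(0, 1)], .kid, .dead [(33, 1), (0, 1)], .dead [(35, 133), (33, 266), (21, 2), (14, 1), (13, 266), (1, 133), (0, 399)], .dead [(34, 1), (0, 1)], .dead [(38, 1), (37, 2), (34, 20), (9, 20), (7, 20), (0, 40)], .dead [(38, 1), (12, 10), (11, 10), (7, 20), (0, 30)], .dead [(38, 1), (7, 20), (0, 20)]] (.cons (.node 0 (1) (0) (1) [.red 0 0 [(11, 1), (0, 1)], .dead [(38, 1), (34, 20), (10, 20), (8, 20), (0, 60)], .dead [(0, 1)], .red 0 4 [(38, 1), (36, 5), (9, 5), (8, 5), (1, 10), (0, 20)], .red 0 0 [(10, 1), (0, 1)], .dead [(36, 1), (11, 1), (0, 2)], .red 0 0 [(0,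 1)], .dead [(37, 1), (10, 20), (0, 20)], .kid, .dead [(38, 133), (37, 133), (22, 20), (15, 10), (8, 1330), (2, 1330), (0, 2660)], .dead [(39, 1), (11, 20), (0, 20)], .dead [(38, 1), (11, 40), (10, 40), (8, 20), (0, 60)], .dead [(38, 1), (36, 20), (1, 20), (0, 20)], .dead [(38, 1), (8, 20), (0, 20)]] (.cons (nA_6) (.nil))) (.cons (.ref 116 [(0, [(38, 1)]), (0, [(37, 1)]), (0, [(36, 1)]), (0, [(35, 1)]), (0, [(34, 1)]), (0, [(33, 1)]), (0, [(13, 1)]), (0, [(12, 1)]), (0, [(11, 1)]), (0, [(10, 1)]), (0, [(9, 1)]), (0, [(8, 1)]), (0, [(7, 1)]), (0, [(0, 1)]), (0, [(14, 1), (4, 1), (3, 1), (1, 1)])]) (.cons (.node 3 (0) (0) (0) [.kid, .kid, .kid, .red 0 132 [(15, 8844), (0, 1)], .dead [(39, 133), (38, 133), (37, 133), (30, 2640), (15, 2650), (9, 1330), (4, 1330), (1, 1330), (0, 2660)], .dead [(39, 133), (30, 5280), (15, 5300), (11, 2660), (3, 2660), (0, 5320)], .dead [(39, 131), (38, 264), (37, 2), (36, 2660), (15, 5320), (13,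 5280), (11, 2620), (10, 40), (5, 5320), (2, 5280), (0, 80)], .dead [(39, 133), (38, 266), (36, 2660), (15, 5280), (13, 5320), (11, 2660), (5, 5320), (2, 5320), (0, 80)], .dead [(39, 67), (38, 132), (36, 1320), (15, 2660), (13, 2640), (11, 1340), (5, 2640), (3, 20), (2, 2640), (0, 40)], .dead [(34, 133), (22, 264), (15, 265), (5, 133), (0, 266)], .dead [(39, 133), (38, 133), (37, 133), (22, 2640), (15, 2650), (9, 1330), (4, 1330), (1, 1330), (0, 2660)], .red 2 132 [(15, 8844), (0, 1)]] (.cons (.ref 117 [(0, [(39, 1)]), (0, [(38, 1)]), (0, [(37, 1)]), (0, [(36, 1)]), (0, [(35, 1)]), (0, [(34, 1)]), (0, [(14, 1)]), (0, [(13, 1)]), (0, [(12, 1)]), (0, [(11, 1)]), (0, [(10, 1)]), (0, [(9, 1)]), (0, [(8, 1)]), (0, [(1, 1)]), (0, [(31, 264), (4, 133), (3, 265), (0, 266)]), (0, [(5, 132), (4, 133), (3, 133), (0, 2)]), (0, [(5, 132), (4, 133), (2, 133), (0, 2)]), (0, [(31, 264), (4, 133), (2, 265), (0, 266)])]) (.cons (.ref 118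 [(0, [(39, 1)]), (0, [(38, 1)]), (0, [(37, 1)]), (0, [(36, 1)]), (0, [(13, 1)]), (0, [(11, 1)]), (0, [(10, 1)]), (0, [(31, 264), (5, 133), (2, 265), (0, 266)]), (0, [(31, 264), (5, 133), (3, 265), (0, 266)])]) (.cons (nA_12) (.nil))))) (.nil))))) (.nil))))) (.nil))))

/-- a subtree -/
def nA_14 : T := .node 3 (0) (1) (0) [.dead [(40, 35642), (38, 18351), (33, 10560), (14, 691640), (10, 351100), (9, 351140), (5, 5320), (4, 10600), (3, 5280), (0, 10640)], .dead [(36, 66), (33, 1), (0, 1)], .dead [(40, 132), (38, 67), (32, 40), (14, 2640), (10, 1300), (9, 1340), (0, 40)], .dead [(39, 13134), (36, 995), (34, 87785), (32, 87785), (5, 132335), (2, 176885), (0, 1990)], .dead [(39, 26467), (34, 175560), (32, 175560), (5, 262680), (2, 353780), (0, 3980)], .dead [(39, 6567), (34, 43890), (32, 42895), (5, 65670), (2, 87450), (0, 995)], .dead [(28, 1), (0, 1)], .dead [(27, 1), (0, 1)], .dead [(27, 17557), (5, 8844), (2, 265), (0,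 17688)], .red 1 65 [(20, 67), (2, 1), (0, 66)], .kid, .kid] (.cons (.node 0 (1) (0) (1) [.red 0 0 [(13, 1), (0, 1)], .dead [(40, 1), (36, 20), (12, 20), (10, 20), (0, 60)], .dead [(0, 1)], .red 0 19 [(40, 1), (10, 20), (0, 40)], .red 0 0 [(12, 1), (0, 1)], .dead [(38, 1), (13, 1), (0, 2)], .red 0 0 [(16, 2), (0, 1)], .dead [(39, 1), (12, 20), (0, 20)], .kid, .dead [(40, 1), (39, 1), (36, 10), (11, 10), (10, 10), (0, 20)], .dead [(41, 1), (13, 20), (0, 20)], .dead [(28, 133), (13, 17688), (12, 17688), (10, 8844), (5, 8844), (3, 1), (0, 35376)], .dead [(40, 1), (38, 40), (14, 20), (11, 10), (4, 10), (0, 30)], .dead [(40, 1), (10, 20), (0, 20)]] (.cons (.node 3 (1) (1) (1) [.dead [(41, 133), (37, 6630), (36, 7940), (35, 5280), (12, 3970), (11, 876490), (7, 2660), (6, 5300), (0, 13260)], .dead [(39, 1), (37, 1), (35, 2), (12, 1), (11, 132), (5, 1), (0, 2)], .dead [(39, 529), (35, 528), (34, 528), (14, 2), (11, 69961), (6,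 528), (5, 263), (3, 4), (0, 1060)], .dead [(41, 135), (40, 264), (37, 20), (8, 20), (7, 20), (6, 2640), (4, 40), (2, 40), (0, 40)], .dead [(42, 33), (41, 4489), (40, 8811), (6, 88440), (4, 1340), (2, 1330), (0, 1330)], .dead [(41, 8911), (40, 17556), (6, 174240), (4, 2660), (2, 2660), (0, 2640)], .kid, .red 0 2659 [(41, 67), (40, 66), (37, 670), (36, 20), (12, 670), (11, 1990), (2, 20), (0, 2660)], .kid, .red 0 132 [(6, 8844), (0, 1)], .red 0 348479 [(41, 199), (34, 2640), (16, 1320), (15, 1320), (6, 23173920), (4, 2660), (2, 20), (0, 2640)], .red 0 35111 [(39, 133), (14, 1), (6, 2335080), (3, 2), (0, 266)]] (.cons (.ref 193 [(0, [(42, 1)]), (0, [(41, 1)]), (0, [(40, 1)]), (0, [(39, 1)]), (0, [(38, 1)]), (0, [(37, 1)]), (0, [(17, 1)]), (0, [(16, 1)]), (0, [(15, 1)]), (0, [(14, 1)]), (0, [(13, 1)]), (0, [(12, 1)]), (0, [(11, 1)]), (0, [(5, 1)]), (0, [(1, 1)]), (18045818, [(8, 292326211584), (4, 4462739456), (3, 4429185024),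 (2, 4462739456)]), (4494302, [(6, 73081552896), (4, 1115684864), (3, 1107296256), (2, 1115684864)]), (39603131772, [(4, 9867678973952), (3, 9794035384320), (2, 9794597421056), (0, 9719846535168)])]) (.cons (.ref 194 [(0, [(42, 1)]), (0, [(41, 1)]), (0, [(40, 1)]), (0, [(39, 1)]), (0, [(38, 1)]), (0, [(37, 1)]), (0, [(17, 1)]), (0, [(16, 1)]), (0, [(15, 1)]), (0, [(14, 1)]), (0, [(13, 1)]), (0, [(12, 1)]), (0, [(11, 1)]), (0, [(5, 1)]), (0, [(1, 1)]), (26534, [(34, 575275008), (4, 579665920), (3, 4325376), (2, 8716288)]), (18045818, [(8, 292326211584), (4, 4462739456), (3, 4429185024), (2, 4462739456)]), (2210, [(4, 548864), (3, 540672), (2, 548864), (0, 540672)])]) (.nil)))) (.nil))) (.cons (.node 3 (1) (1) (1) [.dead [(40, 17423), (37, 2660), (36, 881810), (35, 1056060), (34, 702280), (11, 528030), (10, 116575810), (5, 704920), (1, 5320), (0, 1763620)], .dead [(38, 1), (36, 1), (34, 2), (11, 1), (10, 132), (4, 1), (0,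 2)], .dead [(38, 529), (34, 528), (33, 528), (13, 2), (10, 69961), (5, 528), (4, 263), (2, 4), (0, 1060)], .dead [(40, 8909), (39, 17556), (36, 20), (12, 2620), (7, 2640), (5, 172940), (3, 2620), (1, 2660), (0, 2660)], .dead [(41, 66), (40, 1176319), (39, 2335014), (5, 23350800), (3, 351140), (1, 351120), (0, 353780)], .dead [(40, 8844), (39, 17623), (12, 1320), (5, 174240), (3, 2640), (1, 2660), (0, 2660)], .kid, .red 0 176229 [(40, 4356), (39, 4422), (36, 43895), (35, 670), (34, 670), (11, 43895), (10, 132335), (1, 1320), (0, 176230)], .kid, .red 0 132 [(5, 8844), (0, 1)], .red 0 17687 [(40, 10), (33, 133), (15, 67), (14, 67), (5, 1176252), (3, 134), (1, 1), (0, 134)], .red 0 35111 [(38, 133), (13, 1), (5, 2335080), (2, 2), (0, 266)]] (.cons (.node 0 (1) (0) (1) [.red 0 0 [(14, 1), (0, 1)], .dead [(41, 1), (37, 20), (13, 20), (11, 20), (0, 60)], .dead [(0, 1)], .red 0 19 [(41, 1), (11, 20), (0, 40)], .red 0 0 [(13, 1),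 (0, 1)], .dead [(39, 1), (14, 1), (0, 2)], .red 0 0 [(0, 1)], .dead [(40, 1), (13, 20), (0, 20)], .kid, .dead [(41, 1), (40, 1), (37, 10), (12, 10), (11, 10), (0, 20)], .dead [(42, 1), (14, 20), (0, 20)], .dead [(30, 1), (14, 133), (13, 132), (11, 66), (1, 1), (0, 265)], .dead [(41, 1), (39, 40), (15, 20), (12, 10), (5, 10), (0, 30)], .dead [(41, 1), (11, 20), (0, 20)]] (.cons (.node 2 (1) (1) (1) [.red 0 0 [(40, 66), (6, 66), (0, 133)], .dead [(39, 2), (38, 1), (14, 2), (13, 1), (12, 1), (0, 4)], .red 0 0 [(42, 10), (18, 67), (17, 66), (14, 1), (1, 66), (0, 266)], .dead [(40, 1), (38, 1), (13, 1), (6, 1), (0, 2)], .red 2 0 [(38, 66), (13, 66), (0, 133)], .dead [(40, 1), (39, 1), (17, 1), (15, 1), (12, 1), (0, 3)], .kid, .kid, .kid, .dead [(42, 50), (41, 33), (18, 330), (14, 670), (13, 340), (0, 10)], .dead [(42, 199), (41, 132), (18, 1340), (14, 2640), (13, 1300), (0, 40)], .dead [(42, 99), (41, 67), (18, 660), (14, 1320),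 (13, 660), (0, 20)], .red 0 132 [(38, 66), (13, 66), (12, 8778), (0, 1)], .red 0 263 [(40, 17557), (38, 17689), (13, 17689), (6, 17557), (0, 266)], .red 0 263 [(38, 133), (13, 133), (12, 17423), (0, 2)], .dead [(39, 2), (38, 265), (14, 2), (13, 265), (12, 1), (0, 4)], .dead [(40, 1), (38, 133), (13, 133), (6, 1), (0, 2)], .dead [(41, 1), (38, 1320), (13, 1320), (0, 20)], .dead [(43, 67), (42, 132), (15, 1320), (6, 1320), (0, 20)], .dead [(43, 33), (42, 66), (17, 10), (15, 660), (6, 650), (0, 10)], .dead [(43, 65), (42, 132), (40, 20), (17, 20), (15, 1320), (6, 1320), (0, 20)], .dead [(31, 1), (2, 1), (0, 1)], .dead [(42, 67), (30, 1330), (7, 88440), (5, 10), (0, 1340)], .dead [(39, 17688), (30, 17423), (15, 17688), (12, 8844), (7, 1158564), (5, 131), (0, 17688)], .dead [(43, 1), (40, 1320), (6, 1320), (0, 20)], .dead [(40, 133), (38, 1), (13, 1), (6, 133), (0, 2)], .dead [(40, 133), (17, 2), (12, 1), (6, 131), (0, 2)],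 .dead [(39, 2), (38, 2), (18, 1), (14, 1), (12, 332), (0, 5)], .dead [(40, 1), (38, 1), (12, 133), (0, 2)], .dead [(40, 1), (39, 1), (17, 1), (15, 1), (12, 199), (0, 3)]] (.cons (.ref 195 [(0, [(43, 1)]), (0, [(42, 1)]), (0, [(41, 1)]), (0, [(40, 1)]), (0, [(39, 1)]), (0, [(38, 1)]), (0, [(18, 1)]), (0, [(17, 1)]), (0, [(16, 1)]), (0, [(15, 1)]), (0, [(14, 1)]), (0, [(13, 1)]), (0, [(6, 1)]), (0, [(1, 1)]), (0, [(0, 1)]), (18045818, [(9, 292326211584), (5, 4429185024), (4, 4462739456), (3, 4462739456)]), (27033896, [(35, 589081608192), (5, 593510793216), (4, 4496293888), (3, 8925478912)]), (36092726, [(7, 584652423168), (5, 8858370048), (4, 8925478912), (3, 8925478912)]), (39753700604, [(5, 9794035384320), (4, 9867678973952), (3, 9794597421056), (2, 9719846535168)])]) (.cons (.ref 196 [(0, [(43, 1)]), (0, [(42, 1)]), (0, [(41, 1)]), (0, [(40, 1)]), (0, [(39, 1)]), (0, [(18, 1)]), (0, [(17, 1)]), (0, [(16, 1)]), (0, [(15,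 1)]), (0, [(14, 1)]), (0, [(13, 1)]), (0, [(6, 1)]), (0, [(1, 1)]), (0, [(0, 1)]), (18045818, [(9, 292326211584), (5, 4429185024), (4, 4462739456), (3, 4462739456)]), (39753700604, [(5, 9794035384320), (4, 9867678973952), (3, 9794597421056), (2, 9719846535168)])]) (.cons (.ref 197 [(0, [(43, 1)]), (0, [(42, 1)]), (0, [(41, 1)]), (0, [(40, 1)]), (0, [(39, 1)]), (0, [(38, 1)]), (0, [(18, 1)]), (0, [(17, 1)]), (0, [(16, 1)]), (0, [(15, 1)]), (0, [(14, 1)]), (0, [(13, 1)]), (0, [(6, 1)]), (0, [(1, 1)]), (0, [(0, 1)]), (18045818, [(9, 292326211584), (5, 4429185024), (4, 4462739456), (3, 4462739456)]), (27033896, [(35, 589081608192), (5, 593510793216), (4, 4496293888), (3, 8925478912)]), (36092726, [(7, 584652423168), (5, 8858370048), (4, 8925478912), (3, 8925478912)]), (39753700604, [(5, 9794035384320), (4, 9867678973952), (3, 9794597421056), (2, 9719846535168)])]) (.nil))))) (.nil))) (.cons (.node 0 (1) (0) (1) [.red 0 0 [(14,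 1), (0, 1)], .dead [(41, 1), (37, 20), (13, 20), (11, 20), (0, 60)], .dead [(0, 1)], .red 0 19 [(41, 1), (11, 20), (0, 40)], .red 0 0 [(13, 1), (0, 1)], .dead [(39, 1), (14, 1), (0, 2)], .red 0 0 [(0, 1)], .dead [(40, 1), (13, 20), (0, 20)], .kid, .dead [(41, 1), (40, 1), (37, 10), (12, 10), (11, 10), (0, 20)], .dead [(42, 1), (14, 20), (0, 20)], .dead [(28, 1), (14, 132), (13, 133), (11, 66), (1, 1), (0, 265)], .dead [(41, 1), (39, 40), (15, 20), (12, 10), (5, 10), (0, 30)], .dead [(41, 1), (11, 20), (0, 20)]] (.cons (.ref 198 [(0, [(42, 1)]), (0, [(41, 1)]), (0, [(40, 1)]), (0, [(39, 1)]), (0, [(38, 1)]), (0, [(37, 1)]), (0, [(17, 1)]), (0, [(16, 1)]), (0, [(15, 1)]), (0, [(14, 1)]), (0, [(13, 1)]), (0, [(12, 1)]), (0, [(11, 1)]), (0, [(5, 1)]), (0, [(0, 1)]), (18045818, [(8, 292326211584), (4, 4429185024), (3, 4462739456), (2, 4462739456)]), (27033896, [(34, 589081608192), (4, 593510793216), (3, 4496293888), (2, 8925478912)]),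 (2361414, [(4, 579600384), (3, 579665920), (2, 583991296), (1, 575275008)])]) (.nil))) (.nil)))) (.nil)))

/-- a subtree -/
def nA_15 : T := .node 3 (0) (1) (1) [.dead [(39, 17954), (32, 6600), (14, 83145), (13, 83145), (12, 93070), (10, 86470), (8, 352455), (4, 3325), (3, 6625), (0, 6650)], .dead [(39, 53), (32, 20), (14, 260), (13, 260), (12, 280), (10, 260), (8, 1060), (0, 20)], .dead [(39, 53), (31, 20), (14, 260), (13, 280), (12, 260), (10, 260), (8, 1060), (0, 20)], .kid, .kid, .kid, .dead [(38, 289641), (37, 583704), (26, 1325), (6, 5837040), (4, 5792820), (1, 87785), (0, 88440)], .dead [(38, 2211), (37, 4422), (34, 335), (26, 5), (6, 44555), (4, 44555), (1, 665), (0, 670)], .dead [(38, 294063), (37, 588126), (26, 665), (6, 5837040), (4, 5881260), (1, 88445), (0, 88440)], .dead [(38, 265), (37, 132), (6, 2660), (5, 2620), (1, 40), (0, 40)], .dead [(38, 133), (37, 66), (6, 1320), (5, 1320), (1, 20), (0, 20)], .dead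 [(38, 8778), (37, 4356), (36, 665), (6, 88445), (5, 87120), (3, 665), (1, 1320), (0, 1330)]] (.cons (.node 0 (1) (0) (1) [.red 0 0 [(12, 1), (0, 1)], .dead [(39, 1), (35, 20), (11, 20), (9, 20), (0, 60)], .dead [(0, 1)], .red 0 19 [(39, 1), (9, 20), (0, 40)], .red 0 0 [(11, 1), (0, 1)], .dead [(37, 1), (12, 1), (0, 2)], .red 0 0 [(11, 2), (0, 1)], .dead [(38, 1), (11, 20), (0, 20)], .kid, .dead [(39, 1), (38, 1), (35, 10), (10, 10), (9, 10), (0, 20)], .dead [(40, 1), (12, 20), (0, 20)], .dead [(27, 133), (12, 17688), (11, 17688), (9, 8844), (4, 8844), (2, 1), (0, 35376)], .dead [(39, 1), (37, 40), (13, 20), (10, 10), (3, 10), (0, 30)], .dead [(39, 1), (9, 20), (0, 20)]] (.cons (.node 3 (0) (1) (0) [.dead [(41, 35642), (39, 18351), (34, 10560), (15, 691640), (11, 351100), (10, 351140), (6, 5320), (5, 10600), (4, 5280), (0, 10640)], .dead [(37, 66), (34, 1), (0, 1)], .dead [(41, 132), (39, 67), (33, 40), (15, 2640), (11,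 1300), (10, 1340), (0, 40)], .dead [(40, 13134), (37, 995), (35, 87785), (33, 87785), (6, 132335), (3, 176885), (0, 1990)], .dead [(40, 26467), (35, 175560), (33, 175560), (6, 262680), (3, 353780), (0, 3980)], .dead [(40, 6567), (35, 43890), (33, 42895), (6, 65670), (3, 87450), (0, 995)], .dead [(29, 1), (0, 1)], .dead [(28, 1), (0, 1)], .dead [(28, 17557), (6, 8844), (3, 265), (0, 17688)], .red 1 131 [(28, 1), (3, 1), (0, 132)], .kid, .kid] (.cons (.node 3 (1) (1) (1) [.dead [(41, 133), (37, 6630), (36, 7940), (35, 5280), (12, 3970), (11, 876490), (7, 2660), (6, 5300), (0, 13260)], .dead [(39, 1), (37, 1), (35, 2), (12, 1), (11, 132), (5, 1), (0, 2)], .dead [(42, 133), (39, 351130), (35, 351140), (34, 351140), (11, 46526050), (6, 352460), (5, 175570), (3, 2660), (0, 704920)], .dead [(41, 135), (40, 264), (37, 20), (8, 20), (7, 20), (6, 2640), (4, 40), (1, 40), (0, 40)], .dead [(42, 33), (41, 4489), (40, 8811), (6, 88440),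 (4, 1340), (1, 1330), (0, 1330)], .dead [(41, 8911), (40, 17556), (6, 174240), (4, 2660), (1, 2660), (0, 2640)], .kid, .red 0 2659 [(41, 67), (40, 66), (37, 670), (36, 20), (12, 670), (11, 1990), (1, 20), (0, 2660)], .kid, .red 0 132 [(6, 8844), (0, 1)], .red 0 348479 [(41, 199), (34, 2640), (16, 1320), (6, 23173920), (4, 2660), (1, 20), (0, 2640)], .red 0 348459 [(42, 1), (39, 1320), (6, 23173920), (3, 20), (0, 2640)]] (.cons (.ref 185 [(0, [(42, 1)]), (0, [(41, 1)]), (0, [(40, 1)]), (0, [(39, 1)]), (0, [(38, 1)]), (0, [(37, 1)]), (0, [(17, 1)]), (0, [(16, 1)]), (0, [(15, 1)]), (0, [(14, 1)]), (0, [(13, 1)]), (0, [(12, 1)]), (0, [(11, 1)]), (0, [(5, 1)]), (0, [(2, 1)]), (75014444, [(8, 1224254423040), (4, 18409848832), (3, 18408800256), (1, 18548260864)]), (2382073484, [(6, 39176141537280), (4, 589115162624), (3, 589081608192), (1, 593544347648)]), (0, [(4, 1), (3, 1), (1, 1), (0, 1)])]) (.cons (.ref 186 [(0, [(42, 1)]),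 (0, [(41, 1)]), (0, [(40, 1)]), (0, [(39, 1)]), (0, [(38, 1)]), (0, [(37, 1)]), (0, [(17, 1)]), (0, [(16, 1)]), (0, [(15, 1)]), (0, [(14, 1)]), (0, [(13, 1)]), (0, [(12, 1)]), (0, [(11, 1)]), (0, [(5, 1)]), (0, [(2, 1)]), (57532585970, [(34, 1253636529192960), (4, 1263062908665856), (3, 9354438770688), (1, 18922552164352)]), (75014444, [(8, 1224254423040), (4, 18409848832), (3, 18408800256), (1, 18548260864)]), (19800977726, [(4, 4897298710528), (3, 4859923267584), (1, 4933839486976), (0, 4897017692160)])]) (.nil)))) (.cons (.node 3 (1) (1) (1) [.dead [(41, 17423), (38, 2660), (37, 881810), (36, 1056060), (35, 702280), (12, 528030), (11, 116575810), (6, 704920), (1, 5320), (0, 1763620)], .dead [(39, 1), (37, 1), (35, 2), (12, 1), (11, 132), (5, 1), (0, 2)], .dead [(42, 133), (39, 351130), (35, 351140), (34, 351140), (11, 46526050), (6, 352460), (5, 175570), (3, 2660), (0, 704920)], .dead [(41, 8909), (40, 17556), (37,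 20), (13, 2620), (8, 2640), (6, 172940), (4, 2620), (1, 2660), (0, 2660)], .dead [(42, 66), (41, 1176319), (40, 2335014), (6, 23350800), (4, 351140), (1, 351120), (0, 353780)], .dead [(41, 8844), (40, 17623), (13, 1320), (6, 174240), (4, 2640), (1, 2660), (0, 2660)], .kid, .red 0 176229 [(41, 4356), (40, 4422), (37, 43895), (36, 670), (35, 670), (12, 43895), (11, 132335), (1, 1320), (0, 176230)], .kid, .red 0 132 [(6, 8844), (0, 1)], .red 0 17687 [(41, 10), (34, 133), (16, 67), (6, 1176252), (4, 134), (1, 1), (0, 134)], .red 0 348459 [(42, 1), (39, 1320), (6, 23173920), (3, 20), (0, 2640)]] (.cons (.ref 187 [(0, [(42, 1)]), (0, [(41, 1)]), (0, [(40, 1)]), (0, [(39, 1)]), (0, [(38, 1)]), (0, [(37, 1)]), (0, [(17, 1)]), (0, [(16, 1)]), (0, [(15, 1)]), (0, [(14, 1)]), (0, [(13, 1)]), (0, [(12, 1)]), (0, [(11, 1)]), (0, [(5, 1)]), (0, [(2, 1)]), (8778, [(8, 143835136), (4, 2146304), (3, 2179072), (1, 2179072)]), (39603131772,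 [(4, 9719846535168), (3, 9867678973952), (1, 9794035384320), (0, 9794597421056)])]) (.cons (.ref 188 [(0, [(42, 1)]), (0, [(41, 1)]), (0, [(40, 1)]), (0, [(39, 1)]), (0, [(38, 1)]), (0, [(37, 1)]), (0, [(17, 1)]), (0, [(16, 1)]), (0, [(15, 1)]), (0, [(14, 1)]), (0, [(13, 1)]), (0, [(12, 1)]), (0, [(11, 1)]), (0, [(5, 1)]), (0, [(2, 1)]), (8778, [(8, 143835136), (4, 2146304), (3, 2179072), (1, 2179072)]), (7154846852, [(34, 156713558736896), (4, 157873870995456), (3, 1187021586432), (1, 2365319020544)]), (39753700604, [(4, 9719846535168), (3, 9794035384320), (1, 9867678973952), (0, 9794597421056)]), (9133957304, [(35, 301609783394304), (18, 20058184467087360), (1, 17179869184), (0, 2284922601472)])]) (.nil)))) (.nil)))) (.nil))) (.cons (.node 3 (0) (1) (0) [.dead [(40, 35642), (38, 18351), (33, 10560), (14, 691640), (10, 351100), (9, 351140), (5, 5320), (4, 10600), (3, 5280), (0, 10640)], .dead [(36, 66), (33, 1), (0, 1)],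 .dead [(40, 132), (38, 67), (32, 40), (14, 2640), (10, 1300), (9, 1340), (0, 40)], .dead [(39, 13134), (36, 995), (34, 87785), (32, 87785), (5, 132335), (2, 176885), (0, 1990)], .dead [(39, 26467), (34, 175560), (32, 175560), (5, 262680), (2, 353780), (0, 3980)], .dead [(39, 6567), (34, 43890), (32, 42895), (5, 65670), (2, 87450), (0, 995)], .dead [(28, 1), (0, 1)], .dead [(27, 1), (0, 1)], .dead [(27, 17557), (5, 8844), (2, 265), (0, 17688)], .red 1 131 [(27, 1), (2, 1), (0, 132)], .kid, .kid] (.cons (.node 0 (1) (0) (1) [.red 0 0 [(13, 1), (0, 1)], .dead [(40, 1), (36, 20), (12, 20), (10, 20), (0, 60)], .dead [(0, 1)], .red 0 19 [(40, 1), (10, 20), (0, 40)], .red 0 0 [(12, 1), (0, 1)], .dead [(38, 1), (13, 1), (0, 2)], .red 0 0 [(0, 1)], .dead [(39, 1), (12, 20), (0, 20)], .kid, .dead [(40, 1), (39, 1), (36, 10), (11, 10), (10, 10), (0, 20)], .dead [(41, 1), (13, 20), (0, 20)], .dead [(28, 133), (13, 17688), (12, 17688),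 (10, 8844), (5, 8844), (3, 1), (0, 35376)], .dead [(40, 1), (38, 40), (14, 20), (11, 10), (4, 10), (0, 30)], .dead [(40, 1), (10, 20), (0, 20)]] (.cons (.node 3 (1) (1) (1) [.dead [(41, 133), (37, 6630), (36, 7940), (35, 5280), (12, 3970), (11, 876490), (7, 2660), (6, 5300), (0, 13260)], .dead [(39, 1), (37, 1), (35, 2), (12, 1), (11, 132), (5, 1), (0, 2)], .dead [(39, 264), (38, 1), (35, 262), (34, 264), (11, 34848), (6, 264), (5, 131), (3, 2), (0, 528)], .dead [(41, 135), (40, 264), (37, 20), (8, 20), (7, 20), (6, 2640), (4, 40), (2, 40), (0, 40)], .dead [(42, 33), (41, 4489), (40, 8811), (6, 88440), (4, 1340), (2, 1330), (0, 1330)], .dead [(41, 8911), (40, 17556), (6, 174240), (4, 2660), (2, 2660), (0, 2640)], .kid, .red 0 2659 [(41, 67), (40, 66), (37, 670), (36, 20), (12, 670), (11, 1990), (2, 20), (0, 2660)], .kid, .red 0 132 [(6, 8844), (0, 1)], .red 0 348479 [(41, 199), (34, 2640), (17, 1320), (16, 1320), (6, 23173920),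 (4, 2660), (2, 20), (0, 2640)], .red 0 18539135 [(41, 53), (39, 70224), (34, 528), (6, 1232922768), (5, 264), (4, 532), (3, 1060), (0, 140448)]] (.cons (.ref 189 [(0, [(42, 1)]), (0, [(41, 1)]), (0, [(40, 1)]), (0, [(39, 1)]), (0, [(38, 1)]), (0, [(37, 1)]), (0, [(17, 1)]), (0, [(16, 1)]), (0, [(15, 1)]), (0, [(14, 1)]), (0, [(13, 1)]), (0, [(12, 1)]), (0, [(11, 1)]), (0, [(5, 1)]), (0, [(1, 1)]), (54615518, [(34, 1187021586432), (4, 1196014174208), (3, 8858370048), (2, 17850957824)]), (285218, [(8, 4636803072), (4, 70254592), (3, 69730304), (2, 69730304)]), (298866028, [(4, 74750885888), (3, 74197237760), (2, 73635201024), (0, 74188849152)])]) (.cons (.ref 190 [(0, [(42, 1)]), (0, [(41, 1)]), (0, [(40, 1)]), (0, [(39, 1)]), (0, [(38, 1)]), (0, [(37, 1)]), (0, [(17, 1)]), (0, [(16, 1)]), (0, [(15, 1)]), (0, [(14, 1)]), (0, [(13, 1)]), (0, [(12, 1)]), (0, [(11, 1)]), (0, [(5, 1)]), (0, [(1, 1)]), (54615518, [(34, 1187021586432),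 (4, 1196014174208), (3, 8858370048), (2, 17850957824)]), (285218, [(8, 4636803072), (4, 70254592), (3, 69730304), (2, 69730304)]), (149998862, [(4, 37375442944), (3, 36817600512), (2, 37098618880), (0, 37094424576)]), (36259798112, [(35, 1197299443171328), (18, 79624982816096256), (2, 68719476736), (0, 9070970929152)])]) (.nil)))) (.nil))) (.cons (.node 0 (1) (0) (1) [.red 0 0 [(13, 1), (0, 1)], .dead [(40, 1), (36, 20), (12, 20), (10, 20), (0, 60)], .dead [(0, 1)], .red 0 19 [(40, 1), (10, 20), (0, 40)], .red 0 0 [(12, 1), (0, 1)], .dead [(38, 1), (13, 1), (0, 2)], .red 0 0 [(0, 1)], .dead [(39, 1), (12, 20), (0, 20)], .kid, .dead [(40, 1), (39, 1), (36, 10), (11, 10), (10, 10), (0, 20)], .dead [(41, 1), (13, 20), (0, 20)], .dead [(28, 133), (13, 17688), (12, 17688), (10, 8844), (5, 8844), (3, 1), (0, 35376)], .dead [(40, 1), (38, 40), (14, 20), (11, 10), (4, 10), (0, 30)], .dead [(40, 1), (10, 20), (0, 20)]] (.cons (.node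 3 (1) (1) (1) [.dead [(41, 17423), (38, 2660), (37, 881810), (36, 1056060), (35, 702280), (12, 528030), (11, 116575810), (6, 704920), (2, 5320), (0, 1763620)], .dead [(39, 1), (37, 1), (35, 2), (12, 1), (11, 132), (5, 1), (0, 2)], .dead [(39, 264), (38, 1), (35, 262), (34, 264), (11, 34848), (6, 264), (5, 131), (3, 2), (0, 528)], .dead [(41, 8909), (40, 17556), (37, 20), (13, 2620), (8, 2640), (6, 172940), (4, 2620), (2, 2660), (0, 2660)], .dead [(42, 66), (41, 1176319), (40, 2335014), (6, 23350800), (4, 351140), (2, 351120), (0, 353780)], .dead [(41, 8844), (40, 17623), (13, 1320), (6, 174240), (4, 2640), (2, 2660), (0, 2660)], .kid, .red 0 176229 [(41, 4356), (40, 4422), (37, 43895), (36, 670), (35, 670), (12, 43895), (11, 132335), (2, 1320), (0, 176230)], .kid, .red 0 132 [(6, 8844), (0, 1)], .red 0 17687 [(41, 10), (34, 133), (17, 67), (16, 67), (6, 1176252), (4, 134), (2, 1), (0, 134)], .red 0 18539135 [(41, 53),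 (39, 70224), (34, 528), (6, 1232922768), (5, 264), (4, 532), (3, 1060), (0, 140448)]] (.cons (.ref 191 [(0, [(42, 1)]), (0, [(41, 1)]), (0, [(40, 1)]), (0, [(39, 1)]), (0, [(38, 1)]), (0, [(37, 1)]), (0, [(17, 1)]), (0, [(16, 1)]), (0, [(15, 1)]), (0, [(14, 1)]), (0, [(13, 1)]), (0, [(12, 1)]), (0, [(11, 1)]), (0, [(5, 1)]), (0, [(1, 1)]), (217366022, [(34, 4748623216640), (4, 4784056696832), (3, 35970351104), (2, 71403831296)]), (75014444, [(8, 1224254423040), (4, 18409848832), (3, 18548260864), (2, 18408800256)]), (9564195794, [(6, 156704566149120), (4, 2356460650496), (3, 2374177390592), (2, 2356326432768)]), (19800977726, [(4, 4897298710528), (3, 4933839486976), (2, 4859923267584), (0, 4897017692160)])]) (.cons (.ref 192 [(0, [(42, 1)]), (0, [(41, 1)]), (0, [(40, 1)]), (0, [(39, 1)]), (0, [(38, 1)]), (0, [(37, 1)]), (0, [(17, 1)]), (0, [(16, 1)]), (0, [(15, 1)]), (0, [(14, 1)]), (0, [(13, 1)]), (0, [(12, 1)]), (0,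 [(11, 1)]), (0, [(5, 1)]), (0, [(1, 1)]), (217366022, [(34, 4748623216640), (4, 4784056696832), (3, 35970351104), (2, 71403831296)]), (75014444, [(8, 1224254423040), (4, 18409848832), (3, 18548260864), (2, 18408800256)]), (0, [(4, 1), (3, 1), (2, 1), (0, 1)])]) (.nil)))) (.nil))) (.nil)))) (.cons (nA_14) (.nil))))

/-- a subtree -/
def nA_16 : T := .node 1 (0) (1) (0) [.dead [(35, 266), (33, 135), (28, 80), (9, 5320), (5, 2660), (4, 2660), (1, 40), (0, 5320)], .kid, .dead [(22, 2), (11, 1), (0, 133)], .kid] (.cons (.node 1 (1) (1) (0) [.dead [(34, 199), (30, 20), (29, 20), (28, 20), (5, 3980), (0, 3980)], .kid, .kid, .kid] (.cons (.ref 167 [(0, [(35, 1)]), (0, [(34, 1)]), (0, [(11, 1)]), (0, [(10, 1)]), (0, [(9, 1)]), (0, [(8, 1)]), (0, [(7, 1)]), (0, [(6, 1)]), (0, [(5, 1)]), (0, [(30, 2), (12, 133), (0, 1)])]) (.cons (.node 0 (0) (1) (1) [.dead [(0, 1)], .dead [(37, 399), (36, 266), (35, 133), (24, 20), (13, 10), (8,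 5320), (7, 3990), (6, 2660), (1, 1330), (0, 7980)], .kid, .dead [(34, 1), (32, 1), (10, 2), (6, 1), (0, 4)], .kid, .dead [(34, 1), (33, 1), (11, 2), (6, 1), (0, 4)], .red 2 0 [(0, 1)], .kid, .dead [(32, 1), (0, 1)], .dead [(34, 1), (32, 3), (12, 2), (7, 1), (0, 3)], .dead [(33, 1), (0, 1)], .dead [(37, 1), (36, 2), (33, 20), (8, 20), (6, 20), (0, 40)], .dead [(37, 1), (11, 10), (10, 10), (6, 20), (0, 30)], .dead [(37, 1), (6, 20), (0, 20)]] (.cons (.node 1 (0) (1) (-1) [.kid, .kid, .dead [(35, 133), (25, 6), (14, 3), (9, 266), (7, 133), (0, 399)], .kid] (.cons (.ref 168 [(0, [(38, 1)]), (0, [(37, 1)]), (0, [(36, 1)]), (0, [(35, 1)]), (0, [(33, 1)]), (0, [(13, 1)]), (0, [(12, 1)]), (0, [(11, 1)]), (0, [(10, 1)]), (0, [(9, 1)]), (0, [(8, 1)]), (0, [(7, 1)]), (0, [(1, 1)]), (0, [(31, 2), (2, 1), (0, 133)]), (0, [(31, 2), (14, 133), (2, 1)])]) (.cons (.ref 169 [(0, [(38, 1)]), (0, [(37, 1)]), (0, [(36, 1)]), (0, [(35, 1)]),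 (0, [(33, 1)]), (0, [(13, 1)]), (0, [(12, 1)]), (0, [(11, 1)]), (0, [(10, 1)]), (0, [(9, 1)]), (0, [(8, 1)]), (0, [(7, 1)]), (0, [(1, 1)]), (0, [(32, 2), (14, 133), (0, 1)]), (0, [(31, 2), (14, 133), (2, 1)])]) (.cons (.ref 170 [(0, [(38, 1)]), (0, [(37, 1)]), (0, [(36, 1)]), (0, [(35, 1)]), (0, [(33, 1)]), (0, [(13, 1)]), (0, [(12, 1)]), (0, [(11, 1)]), (0, [(10, 1)]), (0, [(9, 1)]), (0, [(8, 1)]), (0, [(7, 1)]), (0, [(1, 1)]), (0, [(31, 2), (14, 133), (2, 1)]), (0, [(14, 1), (3, 1), (2, 1), (0, 1)])]) (.nil))))) (.cons (.node 1 (0) (1) (-1) [.kid, .kid, .dead [(35, 133), (25, 6), (14, 3), (9, 266), (7, 133), (0, 399)], .kid] (.cons (.ref 171 [(0, [(38, 1)]), (0, [(37, 1)]), (0, [(36, 1)]), (0, [(35, 1)]), (0, [(33, 1)]), (0, [(13, 1)]), (0, [(12, 1)]), (0, [(11, 1)]), (0, [(10, 1)]), (0, [(9, 1)]), (0, [(8, 1)]), (0, [(7, 1)]), (0, [(1, 1)]), (0, [(31, 2), (2, 1), (0, 133)]), (0, [(31, 2), (14, 133), (2, 1)])]) (.cons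 (.ref 172 [(0, [(38, 1)]), (0, [(37, 1)]), (0, [(36, 1)]), (0, [(35, 1)]), (0, [(33, 1)]), (0, [(13, 1)]), (0, [(12, 1)]), (0, [(11, 1)]), (0, [(10, 1)]), (0, [(9, 1)]), (0, [(8, 1)]), (0, [(7, 1)]), (0, [(1, 1)]), (0, [(32, 2), (14, 133), (0, 1)]), (0, [(31, 2), (14, 133), (2, 1)])]) (.cons (.ref 173 [(0, [(38, 1)]), (0, [(37, 1)]), (0, [(36, 1)]), (0, [(35, 1)]), (0, [(33, 1)]), (0, [(13, 1)]), (0, [(12, 1)]), (0, [(11, 1)]), (0, [(10, 1)]), (0, [(9, 1)]), (0, [(8, 1)]), (0, [(7, 1)]), (0, [(1, 1)]), (0, [(31, 2), (14, 133), (2, 1)]), (0, [(14, 1), (3, 1), (2, 1), (0, 1)])]) (.nil))))) (.cons (.node 1 (0) (1) (-1) [.kid, .kid, .dead [(35, 133), (25, 6), (14, 3), (9, 266), (7, 133), (0, 399)], .kid] (.cons (.ref 174 [(0, [(38, 1)]), (0, [(37, 1)]), (0, [(36, 1)]), (0, [(35, 1)]), (0, [(33, 1)]), (0, [(13, 1)]), (0, [(12, 1)]), (0, [(11, 1)]), (0, [(10, 1)]), (0, [(9, 1)]), (0, [(8, 1)]), (0, [(7, 1)]), (0, [(1, 1)]),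 (0, [(31, 2), (2, 1), (0, 133)]), (0, [(31, 2), (14, 133), (2, 1)])]) (.cons (.ref 175 [(0, [(38, 1)]), (0, [(37, 1)]), (0, [(36, 1)]), (0, [(35, 1)]), (0, [(33, 1)]), (0, [(13, 1)]), (0, [(12, 1)]), (0, [(11, 1)]), (0, [(10, 1)]), (0, [(9, 1)]), (0, [(8, 1)]), (0, [(7, 1)]), (0, [(1, 1)]), (0, [(32, 2), (14, 133), (0, 1)]), (0, [(31, 2), (14, 133), (2, 1)])]) (.cons (.ref 176 [(0, [(38, 1)]), (0, [(37, 1)]), (0, [(36, 1)]), (0, [(35, 1)]), (0, [(33, 1)]), (0, [(13, 1)]), (0, [(12, 1)]), (0, [(11, 1)]), (0, [(10, 1)]), (0, [(9, 1)]), (0, [(8, 1)]), (0, [(7, 1)]), (0, [(1, 1)]), (0, [(31, 2), (14, 133), (2, 1)]), (0, [(14, 1), (3, 1), (2, 1), (0, 1)])]) (.nil))))) (.nil))))) (.cons (.node 0 (0) (1) (1) [.dead [(0, 1)], .red 0 19 [(37, 2), (36, 1), (35, 1), (12, 10), (8, 30), (7, 20), (6, 20), (0, 50)], .kid, .dead [(34, 1), (32, 1), (10, 2), (6, 1), (0, 4)], .kid, .dead [(34, 1), (33, 1), (11, 2), (6, 1), (0, 4)], .red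 2 0 [(0, 1)], .kid, .dead [(32, 1), (0, 1)], .dead [(34, 1), (32, 3), (12, 2), (7, 1), (0, 3)], .dead [(33, 1), (0, 1)], .dead [(37, 1), (36, 2), (33, 20), (8, 20), (6, 20), (0, 40)], .dead [(37, 1), (11, 10), (10, 10), (6, 20), (0, 30)], .dead [(37, 1), (6, 20), (0, 20)]] (.cons (.ref 177 [(0, [(37, 1)]), (0, [(36, 1)]), (0, [(35, 1)]), (0, [(34, 1)]), (0, [(33, 1)]), (0, [(32, 1)]), (0, [(12, 1)]), (0, [(11, 1)]), (0, [(10, 1)]), (0, [(9, 1)]), (0, [(8, 1)]), (0, [(7, 1)]), (0, [(6, 1)]), (0, [(0, 1)]), (0, [(13, 1), (3, 1), (2, 1), (1, 1)])]) (.cons (.ref 178 [(0, [(37, 1)]), (0, [(36, 1)]), (0, [(35, 1)]), (0, [(34, 1)]), (0, [(33, 1)]), (0, [(32, 1)]), (0, [(12, 1)]), (0, [(11, 1)]), (0, [(10, 1)]), (0, [(9, 1)]), (0, [(8, 1)]), (0, [(7, 1)]), (0, [(6, 1)]), (0, [(0, 1)]), (0, [(13, 1), (3, 1), (2, 1), (1, 1)])]) (.cons (.node 1 (1) (1) (1) [.dead [(32, 1), (31, 1), (30, 1), (7, 199), (0, 199)], .kid, .kid, .dead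 [(38, 1), (37, 2), (14, 20), (10, 20), (4, 20), (3, 20), (0, 20)]] (.cons (.ref 179 [(0, [(38, 1)]), (0, [(37, 1)]), (0, [(36, 1)]), (0, [(35, 1)]), (0, [(34, 1)]), (0, [(33, 1)]), (0, [(13, 1)]), (0, [(12, 1)]), (0, [(11, 1)]), (0, [(10, 1)]), (0, [(9, 1)]), (0, [(8, 1)]), (0, [(7, 1)]), (0, [(1, 1)]), (1, [(14, 1), (4, 1), (2, 1), (0, 1)]), (0, [(14, 1), (4, 1), (3, 1), (2, 1)])]) (.cons (.ref 180 [(0, [(38, 1)]), (0, [(37, 1)]), (0, [(36, 1)]), (0, [(35, 1)]), (0, [(34, 1)]), (0, [(33, 1)]), (0, [(13, 1)]), (0, [(12, 1)]), (0, [(11, 1)]), (0, [(10, 1)]), (0, [(9, 1)]), (0, [(8, 1)]), (0, [(7, 1)]), (0, [(1, 1)]), (0, [(14, 1), (4, 1), (3, 1), (2, 1)]), (0, [(14, 1), (3, 1), (2, 1), (0, 1)])]) (.nil)))) (.nil))))) (.nil))))) (.cons (.node 1 (1) (1) (1) [.dead [(30, 1), (29, 1), (28, 1), (5, 199), (0, 199)], .kid, .kid, .kid] (.cons (.ref 181 [(0, [(35, 1)]), (0, [(34, 1)]), (0, [(11, 1)]), (0, [(10, 1)]), (0, [(9, 1)]),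 (0, [(8, 1)]), (0, [(7, 1)]), (0, [(6, 1)]), (0, [(12, 1), (2, 1), (1, 1), (0, 1)])]) (.cons (.node 0 (0) (1) (1) [.dead [(0, 1)], .red 0 19 [(37, 2), (36, 1), (35, 1), (12, 10), (8, 30), (7, 20), (6, 20), (0, 50)], .kid, .dead [(34, 1), (32, 1), (10, 2), (6, 1), (0, 4)], .kid, .dead [(34, 1), (33, 1), (11, 2), (6, 1), (0, 4)], .red 2 0 [(0, 1)], .kid, .dead [(32, 1), (0, 1)], .dead [(34, 1), (32, 3), (12, 2), (7, 1), (0, 3)], .dead [(33, 1), (0, 1)], .dead [(37, 1), (36, 2), (33, 20), (8, 20), (6, 20), (0, 40)], .dead [(37, 1), (11, 10), (10, 10), (6, 20), (0, 30)], .dead [(37, 1), (6, 20), (0, 20)]] (.cons (.node 0 (1) (0) (1) [.red 0 0 [(10, 1), (0, 1)], .dead [(37, 1), (33, 20), (9, 20), (7, 20), (0, 60)], .dead [(0, 1)], .red 0 4 [(37, 1), (35, 5), (8, 5), (7, 5), (1, 10), (0, 20)], .red 0 0 [(9, 1), (0, 1)], .dead [(35, 1), (10, 1), (0, 2)], .red 0 0 [(13, 2), (0, 1)], .dead [(36, 1), (9, 20), (0, 20)], .kid, .dead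 [(37, 1), (36, 1), (33, 10), (8, 10), (7, 10), (0, 20)], .dead [(38, 1), (10, 20), (0, 20)], .dead [(25, 2), (14, 1), (10, 266), (9, 266), (7, 133), (2, 133), (0, 532)], .dead [(37, 1), (35, 20), (1, 20), (0, 20)], .dead [(37, 1), (7, 20), (0, 20)]] (.cons (.ref 182 [(0, [(38, 1)]), (0, [(37, 1)]), (0, [(36, 1)]), (0, [(35, 1)]), (0, [(34, 1)]), (0, [(33, 1)]), (0, [(13, 1)]), (0, [(12, 1)]), (0, [(11, 1)]), (0, [(10, 1)]), (0, [(9, 1)]), (0, [(8, 1)]), (0, [(7, 1)]), (0, [(1, 1)]), (0, [(0, 1)]), (0, [(14, 1), (5, 1), (3, 1), (2, 1)])]) (.nil))) (.cons (.node 0 (1) (0) (1) [.red 0 0 [(10, 1), (1, 1), (0, 1)], .dead [(37, 1), (33, 20), (9, 20), (7, 20), (0, 60)], .dead [(0, 1)], .red 0 19 [(37, 1), (7, 20), (0, 40)], .red 0 0 [(9, 1), (0, 1)], .dead [(35, 1), (10, 1), (0, 2)], .red 0 0 [(13, 2), (0, 1)], .dead [(36, 1), (9, 20), (0, 20)], .kid, .dead [(37, 1), (36, 1), (33, 10), (8, 10), (7, 10), (0, 20)], .dead [(38,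 1), (10, 20), (0, 20)], .dead [(25, 2), (14, 1), (10, 266), (9, 266), (7, 133), (2, 133), (0, 532)], .dead [(37, 1), (35, 70), (11, 40), (8, 10), (7, 10), (0, 50)], .dead [(37, 1), (7, 20), (0, 20)]] (.cons (.ref 183 [(0, [(38, 1)]), (0, [(37, 1)]), (0, [(36, 1)]), (0, [(35, 1)]), (0, [(34, 1)]), (0, [(33, 1)]), (0, [(13, 1)]), (0, [(12, 1)]), (0, [(11, 1)]), (0, [(10, 1)]), (0, [(9, 1)]), (0, [(8, 1)]), (0, [(7, 1)]), (0, [(1, 1)]), (0, [(0, 1)])]) (.nil))) (.cons (.node 3 (0) (0) (0) [.kid, .kid, .kid, .dead [(37, 133), (36, 133), (14, 1320), (4, 1330), (3, 1330), (1, 1330), (0, 20)], .dead [(37, 66), (36, 66), (33, 5), (14, 665), (4, 665), (3, 660), (1, 660), (0, 10)], .dead [(37, 66), (36, 66), (35, 5), (14, 665), (4, 655), (3, 665), (2, 5), (1, 660), (0, 10)], .dead [(37, 665), (36, 399), (35, 5320), (25, 15840), (14, 15900), (13, 2660), (9, 7980), (8, 5320), (5, 7980), (0, 15960)], .red 1 132 [(14, 8844), (0, 1)],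 .dead [(34, 133), (25, 264), (14, 265), (3, 133), (0, 266)], .dead [(37, 665), (36, 399), (35, 5320), (21, 15840), (14, 15900), (13, 2660), (9, 7980), (8, 5320), (5, 7980), (0, 15960)], .dead [(33, 133), (21, 264), (14, 265), (4, 133), (0, 266)], .red 2 132 [(14, 8844), (0, 1)]] (.cons (.ref 184 [(0, [(38, 1)]), (0, [(37, 1)]), (0, [(36, 1)]), (0, [(35, 1)]), (0, [(34, 1)]), (0, [(33, 1)]), (0, [(12, 1)]), (0, [(11, 1)]), (0, [(10, 1)]), (0, [(9, 1)]), (0, [(8, 1)]), (0, [(7, 1)]), (0, [(1, 1)]), (0, [(31, 264), (4, 265), (3, 133), (0, 266)]), (0, [(30, 264), (4, 133), (3, 265), (0, 266)]), (0, [(30, 264), (3, 265), (2, 133), (0, 266)]), (0, [(31, 264), (3, 133), (2, 265), (0, 266)])]) (.cons (nA_15) (.cons (.ref 199 [(0, [(38, 1)]), (0, [(37, 1)]), (0, [(36, 1)]), (0, [(35, 1)]), (0, [(34, 1)]), (0, [(33, 1)]), (0, [(13, 1)]), (0, [(12, 1)]), (0, [(11, 1)]), (0, [(10, 1)]), (0, [(9, 1)]), (0, [(8, 1)]), (0, [(7, 1)]),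 (0, [(1, 1)]), (0, [(31, 264), (5, 133), (4, 265), (0, 266)]), (0, [(5, 133), (4, 133), (3, 132), (0, 2)]), (0, [(5, 133), (3, 132), (2, 133), (0, 2)]), (0, [(31, 264), (5, 133), (2, 265), (0, 266)])]) (.nil))))) (.nil))))) (.cons (.ref 200 [(0, [(36, 1)]), (0, [(35, 1)]), (0, [(34, 1)]), (0, [(33, 1)]), (0, [(32, 1)]), (0, [(31, 1)]), (0, [(11, 1)]), (0, [(10, 1)]), (0, [(9, 1)]), (0, [(8, 1)]), (0, [(7, 1)]), (0, [(6, 1)]), (0, [(5, 1)]), (0, [(12, 1), (3, 1), (2, 1), (0, 1)])]) (.nil))))) (.nil)))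

/-- a subtree -/
def nA_17 : T := .node 0 (1) (1) (0) [.kid, .dead [(26, 1), (0, 1)], .kid, .dead [(27, 1), (0, 1)], .dead [(0, 1)], .red 2 0 [(27, 1), (26, 1), (0, 2)], .red 2 0 [(0, 1)], .dead [(29, 1), (5, 20), (0, 20)], .dead [(27, 1), (0, 1)], .dead [(27, 1), (26, 1), (0, 1)], .kid, .dead [(26, 1), (2, 1), (0, 1)], .red 0 0 [(27, 2), (4, 1), (0, 1)], .dead [(27, 1), (26, 1), (0, 1)]] (.cons (.node 0 (0) (1) (1) [.dead [(0, 1)], .red 2 0 [(27, 1), (26, 1), (0, 2)], .kid, .dead [(26, 1), (0, 1)], .kid, .dead [(27, 1), (0, 1)], .red 2 0 [(0, 1)], .kid, .dead [(26, 1), (0, 1)], .dead [(31, 1), (26, 20), (1, 20), (0, 20)], .dead [(27, 1), (0, 1)], .red 0 0 [(28, 2), (5, 1), (2, 1), (1, 1), (0, 1)], .dead [(27, 1), (26, 1), (0, 1)], .dead [(27, 1), (26, 1), (0, 1)]] (.cons (.node 0 (1) (1) (1) [.kid, .dead [(27, 1), (2, 1), (0, 1)], .red 2 19 [(31, 3), (6, 20), (4, 20), (3, 20), (2, 20), (0, 80)], .dead [(29, 1), (1, 1),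 (0, 1)], .kid, .dead [(29, 1), (6, 1), (0, 1)], .kid, .dead [(31, 1), (30, 1), (3, 20), (2, 20), (0, 20)], .red 1 0 [(29, 1), (1, 1), (0, 1)], .dead [(29, 1), (27, 1), (2, 1), (0, 1)], .dead [(32, 1), (31, 2), (29, 20), (6, 40), (4, 20), (0, 40)], .dead [(29, 1), (28, 2), (4, 1), (3, 2), (0, 2)], .dead [(29, 1), (28, 1), (1, 1), (0, 1)], .dead [(29, 1), (28, 1), (27, 1), (0, 1)]] (.cons (.ref 0 [(0, [(32, 1)]), (0, [(31, 1)]), (0, [(30, 1)]), (0, [(29, 1)]), (0, [(28, 1)]), (0, [(7, 1)]), (0, [(6, 1)]), (0, [(5, 1)]), (0, [(4, 1)]), (0, [(3, 1)]), (0, [(1, 1)]), (0, [(0, 1)])]) (.cons (.ref 1 [(0, [(32, 1)]), (0, [(31, 1)]), (0, [(30, 1)]), (0, [(29, 1)]), (0, [(27, 1)]), (0, [(7, 1)]), (0, [(6, 1)]), (0, [(5, 1)]), (0, [(4, 1)]), (0, [(3, 1)]), (0, [(2, 1)]), (0, [(1, 1)]), (0, [(0, 1)])]) (.cons (.node 0 (1) (0) (1) [.red 0 0 [(5, 1), (0, 1)], .dead [(32, 1), (28, 20), (4, 20), (1, 20), (0, 60)], .dead [(0, 1)], .red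 0 19 [(32, 1), (1, 20), (0, 40)], .red 0 0 [(4, 1), (0, 1)], .dead [(30, 1), (5, 1), (0, 2)], .red 0 2 [(5, 2), (4, 2), (0, 1)], .dead [(31, 1), (4, 20), (0, 20)], .kid, .dead [(32, 1), (31, 2), (1, 20), (0, 20)], .dead [(33, 1), (5, 20), (0, 20)], .dead [(32, 1), (5, 40), (4, 40), (1, 20), (0, 60)], .dead [(32, 1), (30, 20), (2, 20), (0, 20)], .dead [(32, 1), (1, 20), (0, 20)]] (.cons (.ref 2 [(0, [(33, 1)]), (0, [(32, 1)]), (0, [(31, 1)]), (0, [(30, 1)]), (0, [(29, 1)]), (0, [(28, 1)]), (0, [(8, 1)]), (0, [(7, 1)]), (0, [(6, 1)]), (0, [(5, 1)]), (0, [(4, 1)]), (0, [(3, 1)]), (0, [(2, 1)]), (0, [(1, 1)]), (0, [(0, 1)])]) (.nil))) (.nil))))) (.cons (.node 0 (1) (1) (1) [.kid, .dead [(27, 1), (2, 1), (0, 1)], .red 2 9 [(31, 1), (4, 10), (3, 10), (2, 10), (1, 10), (0, 30)], .red 0 0 [(29, 1), (27, 1), (2, 1), (0, 1)], .kid, .dead [(29, 1), (4, 1), (1, 2), (0, 2)], .kid, .dead [(31, 1), (30, 1), (3, 20), (2, 20), (0, 20)],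 .kid, .dead [(29, 1), (27, 1), (2, 1), (0, 1)], .dead [(32, 1), (31, 1), (4, 20), (1, 20), (0, 20)], .dead [(29, 1), (28, 2), (4, 1), (3, 2), (0, 2)], .dead [(29, 1), (27, 1), (1, 1), (0, 1)], .dead [(29, 1), (27, 1), (2, 1), (1, 1), (0, 1)]] (.cons (.ref 3 [(0, [(32, 1)]), (0, [(31, 1)]), (0, [(30, 1)]), (0, [(29, 1)]), (0, [(27, 1)]), (0, [(7, 1)]), (0, [(6, 1)]), (0, [(5, 1)]), (0, [(4, 1)]), (0, [(3, 1)]), (0, [(1, 1)]), (0, [(0, 1)])]) (.cons (.ref 4 [(0, [(32, 1)]), (0, [(31, 1)]), (0, [(30, 1)]), (0, [(29, 1)]), (0, [(27, 1)]), (0, [(7, 1)]), (0, [(6, 1)]), (0, [(5, 1)]), (0, [(4, 1)]), (0, [(3, 1)]), (0, [(2, 1)]), (0, [(0, 1)])]) (.cons (.node 0 (1) (0) (1) [.red 0 0 [(5, 1), (0, 1)], .dead [(32, 1), (28, 20), (4, 20), (1, 20), (0, 60)], .dead [(0, 1)], .red 0 19 [(32, 1), (1, 20), (0, 40)], .red 0 0 [(4, 1), (0, 1)], .dead [(30, 1), (5, 1), (0, 2)], .red 0 2 [(5, 2), (4, 2), (0, 1)], .dead [(31, 1), (4, 20),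 (0, 20)], .kid, .dead [(32, 1), (31, 2), (1, 20), (0, 20)], .dead [(33, 1), (5, 20), (0, 20)], .dead [(32, 1), (5, 40), (4, 40), (1, 20), (0, 60)], .dead [(32, 1), (30, 80), (6, 40), (1, 20), (0, 60)], .dead [(32, 1), (1, 20), (0, 20)]] (.cons (.ref 5 [(0, [(33, 1)]), (0, [(32, 1)]), (0, [(31, 1)]), (0, [(30, 1)]), (0, [(28, 1)]), (0, [(8, 1)]), (0, [(7, 1)]), (0, [(6, 1)]), (0, [(5, 1)]), (0, [(4, 1)]), (0, [(3, 1)]), (0, [(2, 1)]), (0, [(1, 1)]), (0, [(0, 1)])]) (.nil))) (.cons (.ref 6 [(0, [(32, 1)]), (0, [(31, 1)]), (0, [(30, 1)]), (0, [(29, 1)]), (0, [(27, 1)]), (0, [(5, 1)]), (0, [(2, 1)]), (0, [(1, 1)]), (0, [(0, 1)])]) (.nil)))))) (.cons (.node 0 (1) (1) (1) [.red 1 0 [(29, 1), (1, 1), (0, 2)], .dead [(27, 1), (2, 1), (0, 1)], .red 1 19 [(31, 3), (6, 20), (4, 20), (3, 20), (2, 20), (0, 80)], .dead [(29, 2), (27, 1), (2, 1), (1, 1), (0, 2)], .kid, .dead [(29, 1), (6, 1), (0, 1)], .kid, .dead [(31, 1), (30, 1), (3,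 20), (2, 20), (0, 20)], .red 0 1 [(29, 1), (1, 1), (0, 1)], .dead [(29, 1), (27, 1), (2, 1), (0, 1)], .dead [(32, 1), (31, 2), (4, 20), (1, 20), (0, 20)], .dead [(29, 1), (28, 2), (4, 1), (3, 2), (0, 2)], .dead [(29, 1), (1, 1), (0, 1)], .dead [(29, 1), (28, 1), (27, 1), (0, 1)]] (.cons (.ref 7 [(0, [(32, 1)]), (0, [(31, 1)]), (0, [(30, 1)]), (0, [(29, 1)]), (0, [(27, 1)]), (0, [(7, 1)]), (0, [(6, 1)]), (0, [(5, 1)]), (0, [(4, 1)]), (0, [(3, 1)]), (0, [(2, 1)]), (0, [(1, 1)]), (0, [(0, 1)])]) (.cons (.node 1 (-1) (1) (1) [.kid, .kid, .dead [(31, 133), (20, 20), (9, 10), (5, 1330), (2, 1330), (0, 1330)], .kid] (.cons (.ref 8 [(0, [(33, 1)]), (0, [(8, 1)]), (0, [(7, 1)]), (0, [(6, 1)]), (0, [(4, 1)]), (0, [(3, 1)]), (0, [(2, 1)]), (0, [(1, 1)]), (0, [(27, 1), (26, 1), (25, 1), (0, 199)])]) (.cons (.node 1 (0) (1) (1) [.dead [(34, 199), (28, 25), (27, 25), (26, 25), (9, 995), (8, 995), (7, 995), (5, 995), (2, 3980), (0, 4975)],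 .kid, .kid, .kid] (.cons (.node 0 (1) (0) (1) [.red 0 0 [(7, 1), (0, 1)], .dead [(34, 1), (30, 20), (6, 20), (3, 20), (0, 60)], .dead [(0, 1)], .red 0 19 [(34, 1), (3, 20), (0, 40)], .red 0 0 [(6, 1), (0, 1)], .dead [(32, 1), (7, 1), (0, 2)], .red 0 2 [(7, 2), (6, 2), (0, 1)], .dead [(33, 1), (6, 20), (0, 20)], .kid, .dead [(34, 1), (33, 2), (3, 20), (0, 20)], .dead [(35, 1), (7, 20), (0, 20)], .dead [(34, 1), (7, 40), (6, 40), (3, 20), (0, 60)], .dead [(34, 1), (32, 50), (8, 20), (4, 10), (3, 10), (0, 40)], .dead [(34, 1), (3, 20), (0, 20)]] (.cons (nA_4) (.nil))) (.cons (.ref 66 [(0, [(34, 1)]), (0, [(33, 1)]), (0, [(32, 1)]), (0, [(31, 1)]), (0, [(29, 1)]), (0, [(9, 1)]), (0, [(8, 1)]), (0, [(7, 1)]), (0, [(6, 1)]), (0, [(5, 1)]), (0, [(4, 1)]), (0, [(3, 1)]), (0, [(2, 1)]), (0, [(27, 2), (10, 133), (0, 1)])]) (.cons (.node 0 (1) (0) (1) [.red 0 0 [(7, 1), (0, 1)], .dead [(34, 1), (30, 20), (6, 20), (3, 20), (0, 60)],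 .dead [(0, 1)], .red 0 2659 [(34, 133), (32, 1330), (18, 20), (11, 10), (3, 1330), (1, 1330), (0, 5320)], .red 0 0 [(6, 1), (0, 1)], .dead [(32, 1), (7, 1), (0, 2)], .red 0 2 [(7, 2), (6, 2), (0, 1)], .dead [(33, 1), (6, 20), (0, 20)], .kid, .dead [(34, 133), (33, 133), (32, 1330), (18, 20), (11, 10), (3, 1330), (1, 1330), (0, 2660)], .dead [(35, 1), (7, 20), (0, 20)], .dead [(34, 1), (7, 40), (6, 40), (3, 20), (0, 60)], .dead [(34, 133), (32, 2660), (18, 20), (11, 10), (4, 1330), (1, 1330), (0, 2660)], .dead [(34, 1), (3, 20), (0, 20)]] (.cons (.ref 67 [(0, [(35, 1)]), (0, [(34, 1)]), (0, [(33, 1)]), (0, [(32, 1)]), (0, [(31, 1)]), (0, [(10, 1)]), (0, [(9, 1)]), (0, [(8, 1)]), (0, [(7, 1)]), (0, [(6, 1)]), (0, [(5, 1)]), (0, [(4, 1)]), (0, [(3, 1)]), (0, [(0, 1)]), (0, [(27, 2), (11, 133), (1, 1)])]) (.nil))) (.nil))))) (.cons (.ref 68 [(0, [(32, 1)]), (0, [(31, 1)]), (0, [(30, 1)]), (0, [(29, 1)]), (0, [(7, 1)]), (0,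 [(3, 1)]), (0, [(2, 1)]), (0, [(1, 1)]), (0, [(25, 2), (9, 133), (0, 1)])]) (.nil))))) (.nil)))) (.nil))))) (.cons (.node 0 (1) (1) (1) [.red 1 19 [(30, 3), (5, 20), (4, 20), (3, 20), (1, 80), (0, 20)], .dead [(27, 1), (2, 1), (1, 1), (0, 1)], .kid, .dead [(30, 1), (4, 20), (1, 40), (0, 20)], .red 1 19 [(30, 3), (6, 20), (4, 20), (2, 20), (1, 80), (0, 20)], .dead [(28, 1), (5, 1), (0, 1)], .kid, .dead [(30, 2), (29, 1), (6, 20), (2, 20), (1, 20), (0, 20)], .dead [(31, 1), (30, 1), (29, 1), (4, 20), (1, 40), (0, 20)], .dead [(27, 1), (26, 2), (6, 1), (1, 3), (0, 2)], .dead [(31, 1), (30, 2), (5, 20), (3, 20), (1, 20), (0, 20)], .dead [(28, 1), (27, 2), (3, 1), (2, 2), (0, 2)], .dead [(28, 2), (27, 1), (5, 1), (4, 2), (1, 3), (0, 2)], .dead [(28, 1), (27, 1), (26, 1), (0, 1)]] (.cons (.ref 69 [(0, [(31, 1)]), (0, [(30, 1)]), (0, [(29, 1)]), (0, [(6, 1)]), (0, [(5, 1)]), (0, [(4, 1)]), (0, [(3, 1)]), (0, [(2, 1)]), (0, [(0,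 1)])]) (.cons (.ref 70 [(0, [(31, 1)]), (0, [(30, 1)]), (0, [(29, 1)]), (0, [(6, 1)]), (0, [(5, 1)]), (0, [(4, 1)]), (0, [(3, 1)]), (0, [(2, 1)]), (0, [(1, 1)]), (0, [(0, 1)])]) (.nil)))) (.cons (.node 0 (1) (1) (1) [.kid, .dead [(28, 1), (27, 1), (2, 2), (1, 1), (0, 2)], .kid, .red 0 1 [(28, 1), (27, 1), (26, 2), (1, 1), (0, 2)], .red 2 0 [(26, 1), (1, 1), (0, 2)], .dead [(28, 1), (5, 1), (0, 1)], .kid, .dead [(30, 3), (29, 2), (6, 20), (2, 40), (1, 20), (0, 40)], .red 0 1 [(26, 1), (1, 1), (0, 1)], .dead [(26, 1), (1, 1), (0, 1)], .dead [(31, 1), (30, 2), (28, 20), (5, 40), (3, 20), (0, 40)], .dead [(28, 1), (27, 2), (3, 1), (2, 2), (0, 2)], .red 0 1 [(28, 1), (27, 1), (26, 1), (0, 1)], .dead [(28, 1), (27, 1), (26, 1), (0, 1)]] (.cons (.node 0 (0) (1) (1) [.dead [(0, 1)], .dead [(32, 1), (1, 20), (0, 20)], .kid, .dead [(27, 1), (0, 1)], .kid, .dead [(28, 1), (0, 1)], .red 2 0 [(0, 1)], .kid, .dead [(27, 1), (0, 1)],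 .dead [(29, 1), (27, 3), (7, 2), (2, 1), (0, 3)], .dead [(28, 1), (0, 1)], .dead [(32, 1), (28, 20), (1, 20), (0, 20)], .dead [(28, 1), (27, 1), (0, 1)], .dead [(28, 1), (27, 1), (0, 1)]] (.cons (.ref 71 [(0, [(32, 1)]), (0, [(31, 1)]), (0, [(30, 1)]), (0, [(29, 1)]), (0, [(28, 1)]), (0, [(7, 1)]), (0, [(6, 1)]), (0, [(5, 1)]), (0, [(4, 1)]), (0, [(3, 1)]), (0, [(2, 1)]), (0, [(1, 1)]), (0, [(0, 1)])]) (.cons (.ref 72 [(0, [(32, 1)]), (0, [(31, 1)]), (0, [(30, 1)]), (0, [(29, 1)]), (0, [(27, 1)]), (0, [(7, 1)]), (0, [(6, 1)]), (0, [(5, 1)]), (0, [(4, 1)]), (0, [(3, 1)]), (0, [(2, 1)]), (0, [(1, 1)]), (0, [(0, 1)])]) (.cons (.ref 73 [(0, [(32, 1)]), (0, [(31, 1)]), (0, [(30, 1)]), (0, [(29, 1)]), (0, [(28, 1)]), (0, [(27, 1)]), (0, [(7, 1)]), (0, [(6, 1)]), (0, [(5, 1)]), (0, [(4, 1)]), (0, [(3, 1)]), (0, [(2, 1)]), (0, [(1, 1)]), (0, [(0, 1)])]) (.nil))))) (.cons (.ref 74 [(0, [(31, 1)]), (0, [(30, 1)]), (0, [(29, 1)]),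 (0, [(6, 1)]), (0, [(5, 1)]), (0, [(4, 1)]), (0, [(3, 1)]), (0, [(2, 1)]), (0, [(1, 1)]), (0, [(0, 1)])]) (.cons (.node 1 (-1) (1) (1) [.kid, .kid, .dead [(30, 133), (19, 30), (8, 15), (5, 1330), (4, 1330), (1, 665), (0, 1995)], .kid] (.cons (.ref 75 [(0, [(32, 1)]), (0, [(31, 1)]), (0, [(7, 1)]), (0, [(6, 1)]), (0, [(5, 1)]), (0, [(3, 1)]), (0, [(2, 1)]), (0, [(1, 1)]), (0, [(26, 1), (25, 1), (24, 1), (0, 199)])]) (.cons (.node 1 (0) (1) (1) [.dead [(33, 199), (27, 25), (26, 25), (25, 25), (8, 995), (7, 995), (6, 995), (4, 995), (2, 3980), (0, 4975)], .kid, .kid, .kid] (.cons (.node 1 (0) (0) (1) [.kid, .kid, .kid, .dead [(17, 2), (10, 1), (0, 133)]] (.cons (.ref 76 [(0, [(34, 1)]), (0, [(33, 1)]), (0, [(29, 1)]), (0, [(7, 1)]), (0, [(5, 1)]), (0, [(4, 1)]), (0, [(3, 1)]), (0, [(28, 1), (27, 1), (26, 1), (0, 199)])]) (.cons (.node 1 (1) (0) (1) [.dead [(34, 199), (29, 20), (28, 20), (27, 20), (4, 3980), (0, 3980)], .kid,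 .kid, .kid] (.cons (.ref 77 [(0, [(34, 1)]), (0, [(33, 1)]), (0, [(31, 1)]), (0, [(30, 1)]), (0, [(10, 1)]), (0, [(9, 1)]), (0, [(8, 1)]), (0, [(7, 1)]), (0, [(6, 1)]), (0, [(5, 1)]), (0, [(4, 1)]), (0, [(29, 2), (11, 133), (0, 1)])]) (.cons (nA_13) (.cons (.ref 166 [(0, [(35, 1)]), (0, [(34, 1)]), (0, [(32, 1)]), (0, [(31, 1)]), (0, [(10, 1)]), (0, [(9, 1)]), (0, [(8, 1)]), (0, [(7, 1)]), (0, [(6, 1)]), (0, [(5, 1)]), (0, [(4, 1)]), (0, [(27, 2), (11, 133), (0, 1)])]) (.nil))))) (.cons (nA_16) (.nil))))) (.cons (.node 0 (0) (1) (1) [.dead [(0, 1)], .dead [(31, 133), (29, 399), (21, 6), (10, 3), (9, 266), (4, 133), (1, 399), (0, 798)], .red 0 132 [(21, 2), (10, 1), (1, 133), (0, 133)], .dead [(31, 1), (29, 1), (7, 2), (3, 1), (0, 4)], .kid, .dead [(31, 133), (21, 2), (10, 1), (8, 266), (3, 133), (1, 133), (0, 532)], .red 0 265 [(21, 2), (10, 1), (1, 133), (0, 133)], .red 0 265 [(21, 2), (10, 1), (1, 133), (0, 133)], .dead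 [(29, 1), (0, 1)], .dead [(31, 1), (29, 3), (9, 2), (4, 1), (0, 3)], .dead [(21, 2), (10, 1), (1, 133), (0, 133)], .dead [(21, 2), (10, 1), (1, 133), (0, 133)], .dead [(34, 1), (8, 10), (7, 10), (3, 20), (0, 30)], .dead [(34, 1), (3, 20), (0, 20)]] (.cons (.ref 201 [(0, [(34, 1)]), (0, [(33, 1)]), (0, [(32, 1)]), (0, [(31, 1)]), (0, [(29, 1)]), (0, [(9, 1)]), (0, [(8, 1)]), (0, [(7, 1)]), (0, [(6, 1)]), (0, [(5, 1)]), (0, [(4, 1)]), (0, [(3, 1)]), (0, [(0, 1)]), (0, [(27, 2), (10, 133), (1, 1)])]) (.nil))) (.cons (.node 1 (-1) (0) (1) [.kid, .kid, .kid, .dead [(31, 133), (17, 2), (10, 1), (0, 133)]] (.cons (.node 0 (0) (1) (1) [.dead [(0, 1)], .dead [(35, 133), (34, 266), (31, 2660), (18, 80), (11, 40), (6, 2660), (4, 2660), (2, 5320), (0, 10640)], .kid, .dead [(32, 133), (18, 2), (11, 1), (8, 266), (4, 133), (2, 133), (0, 532)], .red 0 132 [(18, 2), (11, 1), (2, 133), (0, 133)], .dead [(32, 1), (31, 1), (9, 2), (4, 1),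 (0, 4)], .red 0 265 [(18, 2), (11, 1), (2, 133), (0, 133)], .red 0 265 [(18, 2), (11, 1), (2, 133), (0, 133)], .dead [(18, 2), (11, 1), (2, 133), (0, 133)], .dead [(18, 2), (11, 1), (2, 133), (0, 133)], .dead [(31, 1), (0, 1)], .dead [(35, 1), (34, 2), (31, 20), (6, 20), (4, 20), (0, 40)], .dead [(35, 1), (9, 10), (8, 10), (4, 20), (0, 30)], .dead [(35, 1), (4, 20), (0, 20)]] (.cons (.ref 202 [(0, [(35, 1)]), (0, [(34, 1)]), (0, [(32, 1)]), (0, [(31, 1)]), (0, [(10, 1)]), (0, [(9, 1)]), (0, [(8, 1)]), (0, [(7, 1)]), (0, [(6, 1)]), (0, [(4, 1)]), (0, [(0, 1)]), (0, [(27, 2), (11, 133), (2, 1)]), (0, [(27, 2), (2, 1), (1, 133)])]) (.nil))) (.cons (.node 1 (0) (0) (1) [.dead [(35, 2211), (34, 6633), (27, 1985), (18, 1315), (9, 44220), (4, 44220), (2, 88440), (0, 132660)], .kid, .kid, .dead [(18, 2), (11, 1), (0, 133)]] (.cons (.node 1 (1) (0) (1) [.dead [(35, 133), (33, 20), (28, 40), (5, 2640), (3, 20), (0, 2660)], .kid,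 .kid, .kid] (.cons (.ref 203 [(0, [(35, 1)]), (0, [(34, 1)]), (0, [(32, 1)]), (0, [(11, 1)]), (0, [(10, 1)]), (0, [(9, 1)]), (0, [(8, 1)]), (0, [(7, 1)]), (0, [(5, 1)]), (0, [(30, 2), (12, 133), (0, 1)]), (0, [(28, 2), (12, 133), (3, 1)])]) (.cons (.ref 204 [(0, [(36, 1)]), (0, [(35, 1)]), (0, [(34, 1)]), (0, [(33, 1)]), (0, [(32, 1)]), (0, [(11, 1)]), (0, [(10, 1)]), (0, [(9, 1)]), (0, [(8, 1)]), (0, [(7, 1)]), (0, [(6, 1)]), (0, [(5, 1)]), (0, [(28, 2), (12, 133), (3, 1)]), (0, [(12, 1), (3, 1), (1, 1), (0, 1)])]) (.cons (.ref 205 [(0, [(36, 1)]), (0, [(35, 1)]), (0, [(33, 1)]), (0, [(32, 1)]), (0, [(11, 1)]), (0, [(10, 1)]), (0, [(9, 1)]), (0, [(8, 1)]), (0, [(7, 1)]), (0, [(5, 1)]), (0, [(28, 2), (12, 133), (3, 1)]), (0, [(28, 2), (12, 133), (0, 1)])]) (.nil))))) (.cons (.ref 206 [(0, [(35, 1)]), (0, [(34, 1)]), (0, [(33, 1)]), (0, [(32, 1)]), (0, [(31, 1)]), (0, [(10, 1)]), (0, [(9, 1)]), (0, [(8, 1)]), (0, [(7, 1)]),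 (0, [(6, 1)]), (0, [(5, 1)]), (0, [(4, 1)]), (0, [(27, 2), (11, 133), (2, 1)]), (0, [(11, 1), (2, 1), (1, 1), (0, 1)])]) (.nil)))) (.cons (.ref 207 [(0, [(34, 1)]), (0, [(33, 1)]), (0, [(32, 1)]), (0, [(31, 1)]), (0, [(30, 1)]), (0, [(9, 1)]), (0, [(8, 1)]), (0, [(7, 1)]), (0, [(6, 1)]), (0, [(5, 1)]), (0, [(3, 1)]), (0, [(27, 2), (10, 133), (0, 1)]), (0, [(26, 2), (10, 133), (1, 1)]), (0, [(10, 1), (2, 1), (1, 1), (0, 1)])]) (.nil))))) (.nil))))) (.cons (.ref 208 [(0, [(32, 1)]), (0, [(31, 1)]), (0, [(30, 1)]), (0, [(29, 1)]), (0, [(28, 1)]), (0, [(6, 1)]), (0, [(2, 1)]), (0, [(1, 1)]), (0, [(24, 2), (8, 133), (0, 1)])]) (.nil))))) (.nil))))) (.nil))))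

end Pool.Agent.Helper58.KB
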