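import Pool.Agent.Helper58.KB.TrB_0
import Pool.Agent.Helper58.KB.TrB_1
import Pool.Agent.Helper58.KB.TrB_2
import Pool.Agent.Helper58.KB.TrB_3
set_option autoImplicit false
set_option maxRecDepth 100000
namespace Pool.Agent.Helper58.KB

/-- all lists of forms -/
def FsB : List (List (List ℤ)) := FB_0 ++ (FB_1 ++ (FB_2 ++ (FB_3)))

theorem hFsB : ∀ F ∈ FsB, Valid GB F :=
  List.forall_mem_append.2 ⟨hFB_0, List.forall_mem_append.2 ⟨hFB_1, List.forall_mem_append.2 ⟨hFB_2, hFB_3⟩⟩⟩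

/-- a subtree -/
def nB_1 : T := .node 3 (-1) (1) (1) [.dead [(42, 17623), (39, 23262360), (35, 175560), (3, 11499840), (2, 178220), (1, 175560), (0, 352460)], .dead [(39, 17689), (34, 132), (7, 133), (3, 8711), (2, 132), (1, 134), (0, 266)], .dead [(39, 621122635), (35, 4669896), (14, 4687718), (7, 2343859), (3, 308274849), (2, 4740652), (1, 4599404), (0, 9375436)], .kid, .kid, .kid, .red 2 2334815 [(39, 155265264), (38, 8844), (37, 8844), (25, 1), (4, 133), (3, 155274108), (0, 17688)], .red 2 262019 [(40, 99), (39, 17426650), (35, 660), (11, 660), (4, 660), (3, 17425320), (1, 10), (0, 1990)], .red 2 132 [(7, 8844), (0, 1)], .dead [(41, 13167), (37, 88440), (25, 1340), (14, 86460), (12, 89110), (10, 88440), (4, 1340), (3, 88440), (2, 1310), (0, 2650)], .dead [(41, 116743011), (37, 776326320), (25, 11938745), (17, 23436600), (14, 758770980), (12, 758770980), (10, 788044620), (4, 11763845), (3, 764608020), (2, 11674080),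 (0, 23436600)], .dead [(41, 879978), (39, 88775), (37, 5792485), (25, 90435), (14, 5837040), (12, 5837040), (10, 5970035), (4, 87785), (3, 5881260), (2, 88440), (0, 177550)]] (.cons (.node 3 (0) (1) (1) [.dead [(37, 1), (0, 1)], .dead [(36, 1), (0, 1)], .dead [(35, 1), (0, 1)], .red 0 2343925 [(35, 17556), (3, 67), (2, 17822), (0, 2343859)], .kid, .kid, .red 1 2334815 [(39, 8844), (38, 8844), (26, 1), (5, 133), (4, 155274108), (0, 17688)], .red 1 262019 [(41, 99), (36, 660), (12, 660), (5, 660), (4, 17425320), (2, 10), (0, 1990)], .red 1 132 [(4, 8844), (0, 1)], .red 0 2334815 [(39, 8844), (38, 8844), (26, 1), (5, 133), (4, 155274108), (0, 17688)], .red 0 132 [(4, 8844), (0, 1)], .red 0 175569 [(42, 33), (4, 11676070), (3, 10), (0, 1330)]] (.cons (.ref 37 [(0, [(43, 1)]), (0, [(42, 1)]), (0, [(41, 1)]), (0, [(40, 1)]), (0, [(39, 1)]), (0, [(38, 1)]), (0, [(18, 1)]), (0, [(17, 1)]), (0, [(16, 1)]), (0, [(15, 1)]), (0, [(14,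 1)]), (0, [(13, 1)]), (0, [(12, 1)]), (0, [(11, 1)]), (0, [(10, 1)]), (6724574, [(37, 145039032320), (5, 146163105792), (3, 1124073472), (0, 2214592512)]), (8778, [(5, 2179072), (4, 143835136), (3, 2179072), (2, 2146304)]), (36535590636, [(35, 1206507853053952), (19, 80237342073290752), (3, 68719476736), (2, 9139690405888)]), (72962, [(5, 18112512), (3, 18112512), (2, 17704960), (0, 17979392)]), (7173073874, [(36, 155517544562688), (5, 156704566149120), (3, 2365319020544), (1, 1196014174208)]), (19800977726, [(5, 4897017692160), (3, 4933839486976), (2, 4859923267584), (1, 4897298710528)]), (17978300, [(6, 292326211584), (5, 4429185024), (3, 4462739456), (1, 4462739456)])]) (.cons (.ref 38 [(0, [(43, 1)]), (0, [(42, 1)]), (0, [(41, 1)]), (0, [(40, 1)]), (0, [(39, 1)]), (0, [(38, 1)]), (0, [(18, 1)]), (0, [(17, 1)]), (0, [(16, 1)]), (0, [(15, 1)]), (0, [(14, 1)]), (0, [(13, 1)]), (0, [(12, 1)]), (0, [(11, 1)]), (0, [(10, 1)]),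 (216288222, [(36, 4677219385344), (5, 4713189736448), (3, 70866960384), (0, 35970351104)]), (217365874, [(37, 4712652865536), (5, 4748623216640), (3, 35433480192), (0, 71403831296)]), (2485562046, [(5, 616729935872), (3, 612127211520), (2, 607490408448), (0, 612162338816)]), (36535590636, [(35, 1206507853053952), (19, 80237342073290752), (3, 68719476736), (2, 9139690405888)]), (7173073874, [(36, 155517544562688), (5, 156704566149120), (3, 2365319020544), (1, 1196014174208)]), (19800977726, [(5, 4897017692160), (3, 4933839486976), (2, 4859923267584), (1, 4897298710528)]), (17978300, [(6, 292326211584), (5, 4429185024), (3, 4462739456), (1, 4462739456)])]) (.nil)))) (.cons (.ref 39 [(0, [(42, 1)]), (0, [(41, 1)]), (0, [(40, 1)]), (0, [(39, 1)]), (0, [(38, 1)]), (0, [(37, 1)]), (0, [(17, 1)]), (0, [(16, 1)]), (0, [(15, 1)]), (0, [(14, 1)]), (0, [(13, 1)]), (0, [(12, 1)]), (0, [(11, 1)]), (0, [(10, 1)]), (0, [(9, 1)]), (432551808,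 [(35, 9353901899776), (4, 9425842601984), (3, 4784056696832), (2, 142270791680)]), (0, [(36, 131), (4, 132), (3, 132), (2, 1)]), (8778, [(4, 2179072), (3, 143835136), (2, 2179072), (1, 2146304)]), (36535590636, [(34, 1206507853053952), (18, 80237342073290752), (2, 68719476736), (1, 9139690405888)]), (72962, [(4, 18112512), (2, 18112512), (1, 17704960), (0, 17979392)]), (0, [(5, 65), (4, 1), (2, 1), (0, 1)])]) (.cons (.split [0, 0, 0, 1024, 0, 0, 0, 0, 0, -1024] (.split [0, 0, 0, 0, 0, 0, 0, 0, 1024, -1024] (.ref 40 [(0, [(44, 1)]), (0, [(43, 1)]), (0, [(42, 1)]), (0, [(41, 1)]), (0, [(40, 1)]), (0, [(39, 1)]), (0, [(18, 1)]), (0, [(15, 1)]), (0, [(14, 1)]), (0, [(13, 1)]), (0, [(12, 1)]), (0, [(11, 1)]), (1023, [(0, 1)]), (432551808, [(37, 9353901899776), (6, 9425842601984), (5, 4784056696832), (4, 142270791680)]), (0, [(38, 131), (6, 132), (5, 132), (4, 1)]), (8778, [(6, 2179072), (5, 143835136), (4, 2179072), (3, 2146304)]),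 (36535590636, [(36, 1206507853053952), (20, 80237342073290752), (4, 68719476736), (3, 9139690405888)]), (216288222, [(37, 4677219385344), (6, 4713189736448), (4, 70866960384), (2, 35970351104)]), (39753700604, [(6, 9867678973952), (4, 9794035384320), (3, 9719846535168), (2, 9794597421056)])]) (.split [0, 0, 0, 0, 0, 1024, 0, 0, 0, -934] (.ref 41 [(0, [(45, 1)]), (0, [(44, 1)]), (0, [(43, 1)]), (0, [(42, 1)]), (0, [(41, 1)]), (0, [(40, 1)]), (0, [(19, 1)]), (0, [(15, 1)]), (0, [(14, 1)]), (0, [(13, 1)]), (0, [(12, 1)]), (1023, [(2, 1)]), (1023, [(1, 1)]), (1, [(0, 1)]), (8778, [(7, 2179072), (6, 143835136), (5, 2179072), (4, 2146304)]), (39753700604, [(7, 9867678973952), (5, 9794035384320), (4, 9719846535168), (3, 9794597421056)])]) (.split [0, 0, 0, 0, 0, 0, 1024, 0, 0, -678] (.ref 42 [(0, [(46, 1)]), (0, [(45, 1)]), (0, [(44, 1)]), (0, [(43, 1)]), (0, [(41, 1)]), (0, [(19, 1)]), (0, [(16, 1)]), (0, [(15, 1)]), (0, [(14,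 1)]), (0, [(13, 1)]), (1023, [(3, 1)]), (1023, [(2, 1)]), (1, [(1, 1)]), (1, [(0, 1)]), (432551808, [(39, 9353901899776), (8, 9425842601984), (7, 4784056696832), (6, 142270791680)]), (8778, [(8, 2179072), (7, 143835136), (6, 2179072), (5, 2146304)]), (216288222, [(39, 4677219385344), (8, 4713189736448), (6, 70866960384), (4, 35970351104)]), (39753700604, [(8, 9867678973952), (6, 9794035384320), (5, 9719846535168), (4, 9794597421056)])]) (.split [0, 0, 0, 0, 0, 0, 0, 0, 1024, -512] (.node 3 (0) (1) (1) [.dead [(42, 1), (0, 1)], .dead [(41, 1), (0, 1)], .dead [(40, 1), (0, 1)], .red 0 600045055 [(40, 4494336), (8, 17152), (7, 4562432), (1, 583737), (0, 600027904)], .kid, .kid, .red 1 89205759 [(46, 256), (44, 337920), (43, 337920), (10, 5120), (9, 5932523520), (3, 5), (0, 675840)], .red 1 44943359 [(46, 8448), (9, 2988902400), (7, 2560), (1, 165), (0, 340480)], .red 1 132 [(9, 8844), (0, 1)], .red 0 89891839 [(46, 256), (44,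 337920), (43, 337920), (10, 5120), (9, 5978147840), (3, 5), (0, 680960)], .red 0 132 [(9, 8844), (0, 1)], .red 0 175569 [(47, 33), (9, 11676070), (8, 10), (0, 1330)]] (.cons (.ref 43 [(0, [(48, 1)]), (0, [(47, 1)]), (0, [(46, 1)]), (0, [(45, 1)]), (0, [(44, 1)]), (0, [(43, 1)]), (0, [(18, 1)]), (0, [(17, 1)]), (0, [(16, 1)]), (0, [(15, 1)]), (1023, [(5, 1)]), (1023, [(4, 1)]), (1, [(3, 1)]), (1, [(2, 1)]), (511, [(1, 1)]), (6724574, [(41, 145039032320), (10, 146163105792), (8, 2214592512), (0, 1124073472)]), (72962, [(10, 18112512), (8, 18112512), (7, 17704960), (0, 17979392)]), (216288222, [(41, 4677219385344), (10, 4713189736448), (8, 70866960384), (6, 35970351104)]), (39753700604, [(10, 9867678973952), (8, 9794035384320), (7, 9719846535168), (6, 9794597421056)])]) (.cons (.ref 44 [(0, [(48, 1)]), (0, [(47, 1)]), (0, [(46, 1)]), (0, [(45, 1)]), (0, [(44, 1)]), (0, [(43, 1)]), (0, [(18, 1)]), (0, [(17, 1)]), (0, [(16, 1)]),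 (0, [(15, 1)]), (1023, [(5, 1)]), (1023, [(4, 1)]), (1, [(3, 1)]), (1, [(2, 1)]), (511, [(1, 1)]), (217365874, [(42, 4712652865536), (10, 4748623216640), (8, 35433480192), (0, 71403831296)]), (2485562046, [(10, 616729935872), (8, 612127211520), (7, 607490408448), (0, 612162338816)]), (216288222, [(41, 4677219385344), (10, 4713189736448), (8, 70866960384), (6, 35970351104)]), (39753700604, [(10, 9867678973952), (8, 9794035384320), (7, 9719846535168), (6, 9794597421056)])]) (.nil)))) (.ref 45 [(0, [(47, 1)]), (0, [(46, 1)]), (0, [(45, 1)]), (0, [(44, 1)]), (0, [(43, 1)]), (0, [(17, 1)]), (0, [(16, 1)]), (0, [(15, 1)]), (0, [(14, 1)]), (1023, [(4, 1)]), (1, [(2, 1)]), (1, [(1, 1)]), (511, [(0, 1)]), (432551808, [(40, 9353901899776), (9, 9425842601984), (8, 4784056696832), (7, 142270791680)]), (8778, [(9, 2179072), (8, 143835136), (7, 2179072), (6, 2146304)]), (216288222, [(40, 4677219385344), (9, 4713189736448), (7, 70866960384),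 (5, 35970351104)]), (39753700604, [(9, 9867678973952), (7, 9794035384320), (6, 9719846535168), (5, 9794597421056)])]))))) (.ref 46 [(0, [(43, 1)]), (0, [(42, 1)]), (0, [(41, 1)]), (0, [(40, 1)]), (0, [(39, 1)]), (0, [(38, 1)]), (0, [(18, 1)]), (0, [(17, 1)]), (0, [(16, 1)]), (0, [(15, 1)]), (0, [(14, 1)]), (0, [(13, 1)]), (0, [(12, 1)]), (0, [(11, 1)]), (0, [(10, 1)]), (1023, [(0, 1)]), (432551808, [(36, 9353901899776), (5, 9425842601984), (4, 4784056696832), (3, 142270791680)]), (0, [(37, 131), (5, 132), (4, 132), (3, 1)]), (8778, [(5, 2179072), (4, 143835136), (3, 2179072), (2, 2146304)]), (216288222, [(36, 4677219385344), (5, 4713189736448), (3, 70866960384), (1, 35970351104)]), (39753700604, [(5, 9867678973952), (3, 9794035384320), (2, 9719846535168), (1, 9794597421056)])])) (.nil))))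

/-- a subtree -/
def nB_2 : T := .node 3 (-1) (1) (1) [.red 0 35444 [(39, 313475580), (35, 3555556), (4, 1185096), (3, 155857812), (2, 2388148), (1, 2352504), (0, 4714185)], .dead [(39, 4714185), (35, 17822), (34, 17688), (7, 35445), (3, 2317059), (2, 35246), (1, 35778), (0, 70890)], .dead [(39, 2326170), (35, 17689), (14, 17556), (7, 8778), (3, 1150050), (2, 17689), (1, 17292), (0, 35112)], .kid, .kid, .kid, .red 2 2334815 [(39, 155265264), (38, 8844), (37, 8844), (25, 1), (4, 133), (3, 155274108), (0, 17688)], .red 2 262019 [(40, 99), (39, 17426650), (35, 660), (11, 660), (4, 660), (3, 17425320), (1, 10), (0, 1990)], .red 2 132 [(7, 8844), (0, 1)], .dead [(41, 38914337), (37, 258804920), (25, 3950325), (14, 256815020), (12, 264656700), (10, 260735860), (4, 3921505), (3, 260735860), (2, 3861880), (0, 7841680)], .dead [(41, 58518537), (37, 385244640), (25, 5969375), (17, 11762520), (14, 382281900), (12, 382281900), (10,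 394044420), (4, 5838035), (3, 382281900), (2, 5837040), (0, 11762520)], .dead [(41, 882189), (39, 89110), (37, 5747930), (25, 90435), (14, 5881260), (12, 5881260), (10, 5970370), (4, 87115), (3, 5881260), (2, 88440), (0, 178220)]] (.cons (.node 3 (0) (1) (1) [.dead [(37, 1), (0, 1)], .dead [(36, 1), (0, 1)], .dead [(35, 1), (0, 1)], .red 0 2343858 [(35, 17556), (3, 67), (2, 17822), (0, 2343792)], .kid, .kid, .red 1 2334815 [(39, 8844), (38, 8844), (26, 1), (5, 133), (4, 155274108), (0, 17688)], .red 1 262019 [(41, 99), (36, 660), (12, 660), (5, 660), (4, 17425320), (2, 10), (0, 1990)], .red 1 132 [(4, 8844), (0, 1)], .red 0 2334815 [(39, 8844), (38, 8844), (26, 1), (5, 133), (4, 155274108), (0, 17688)], .red 0 132 [(4, 8844), (0, 1)], .red 0 348459 [(42, 67), (4, 23173920), (3, 20), (0, 2640)]] (.cons (.ref 53 [(0, [(43, 1)]), (0, [(42, 1)]), (0, [(41, 1)]), (0, [(40, 1)]), (0, [(39, 1)]), (0, [(38, 1)]), (0, [(18, 1)]),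 (0, [(17, 1)]), (0, [(16, 1)]), (0, [(15, 1)]), (0, [(14, 1)]), (0, [(13, 1)]), (0, [(12, 1)]), (0, [(11, 1)]), (0, [(10, 1)]), (7173073874, [(37, 155517544562688), (5, 156704566149120), (3, 1196014174208), (0, 2365319020544)]), (9133957304, [(35, 301609783394304), (19, 20058184467087360), (3, 17179869184), (2, 2284922601472)]), (18900230, [(5, 4636803072), (3, 4671930368), (2, 4602200064), (0, 4637327360)]), (75014444, [(5, 18408800256), (4, 1224254423040), (3, 18548260864), (2, 18409848832)]), (1788785228, [(36, 39178389684224), (5, 39468467748864), (3, 591329755136), (1, 296755396608)]), (39753700604, [(5, 9719846535168), (3, 9867678973952), (2, 9794597421056), (1, 9794035384320)])]) (.cons (.ref 54 [(0, [(43, 1)]), (0, [(42, 1)]), (0, [(41, 1)]), (0, [(40, 1)]), (0, [(39, 1)]), (0, [(38, 1)]), (0, [(18, 1)]), (0, [(17, 1)]), (0, [(16, 1)]), (0, [(15, 1)]), (0, [(14, 1)]), (0, [(13, 1)]), (0, [(12, 1)]), (0, [(11, 1)]),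 (0, [(10, 1)]), (217366022, [(36, 4748623216640), (5, 4784056696832), (3, 71403831296), (0, 35970351104)]), (28766881144, [(37, 626818264596480), (5, 631531454332928), (3, 4677219385344), (0, 9461276082176)]), (9133957304, [(35, 301609783394304), (19, 20058184467087360), (3, 17179869184), (2, 2284922601472)]), (75014444, [(5, 18408800256), (4, 1224254423040), (3, 18548260864), (2, 18409848832)]), (0, [(5, 1), (3, 1), (2, 1), (0, 1)]), (39753700604, [(5, 9719846535168), (3, 9867678973952), (2, 9794597421056), (1, 9794035384320)]), (143826356, [(6, 2356594868224), (5, 35165044736), (3, 35701915648), (1, 35701915648)])]) (.nil)))) (.cons (.ref 55 [(0, [(42, 1)]), (0, [(41, 1)]), (0, [(40, 1)]), (0, [(39, 1)]), (0, [(38, 1)]), (0, [(37, 1)]), (0, [(17, 1)]), (0, [(16, 1)]), (0, [(15, 1)]), (0, [(14, 1)]), (0, [(13, 1)]), (0, [(12, 1)]), (0, [(11, 1)]), (0, [(10, 1)]), (0, [(9, 1)]), (432549116, [(36, 9425842601984), (4, 9496709562368),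 (3, 9461276082176), (2, 71403831296)]), (9133957304, [(34, 301609783394304), (18, 20058184467087360), (2, 17179869184), (1, 2284922601472)]), (75014444, [(4, 18408800256), (3, 1224254423040), (2, 18548260864), (1, 18409848832)]), (27033896, [(35, 589081608192), (4, 593510793216), (2, 8925478912), (0, 4496293888)]), (302270030, [(4, 74188849152), (2, 74750885888), (1, 73635201024), (0, 74197237760)]), (18045818, [(5, 292326211584), (4, 4429185024), (2, 4462739456), (0, 4462739456)])]) (.cons (.split [0, 0, 0, 1024, 0, 0, 0, 0, 0, -1024] (.split [0, 0, 0, 0, 0, 0, 0, 0, 1024, -1024] (.ref 56 [(0, [(44, 1)]), (0, [(43, 1)]), (0, [(42, 1)]), (0, [(41, 1)]), (0, [(40, 1)]), (0, [(39, 1)]), (0, [(18, 1)]), (0, [(15, 1)]), (0, [(14, 1)]), (0, [(13, 1)]), (0, [(12, 1)]), (0, [(11, 1)]), (1023, [(0, 1)]), (107863634, [(37, 2356460650496), (6, 2374043172864), (5, 1187021586432), (4, 35567697920)]), (432549116, [(38, 9425842601984),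 (6, 9496709562368), (5, 9461276082176), (4, 71403831296)]), (9133957304, [(36, 301609783394304), (20, 20058184467087360), (4, 17179869184), (3, 2284922601472)]), (75014444, [(6, 18408800256), (5, 1224254423040), (4, 18548260864), (3, 18409848832)]), (217366022, [(37, 4748623216640), (6, 4784056696832), (4, 71403831296), (2, 35970351104)]), (0, [(6, 1), (4, 1), (3, 1), (2, 1)]), (9600389534, [(7, 156704566149120), (6, 2356460650496), (4, 2356326432768), (2, 2374177390592)])]) (.split [0, 0, 0, 0, 0, 1024, 0, 0, 0, -934] (.ref 57 [(0, [(45, 1)]), (0, [(44, 1)]), (0, [(43, 1)]), (0, [(42, 1)]), (0, [(41, 1)]), (0, [(40, 1)]), (0, [(19, 1)]), (0, [(15, 1)]), (0, [(14, 1)]), (0, [(13, 1)]), (0, [(12, 1)]), (1023, [(2, 1)]), (1023, [(1, 1)]), (1, [(0, 1)]), (75014444, [(7, 18408800256), (6, 1224254423040), (5, 18548260864), (4, 18409848832)]), (0, [(7, 1), (5, 1), (4, 1), (3, 1)])]) (.split [0, 0, 0, 0, 0, 0, 1024, 0, 0, -678]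 (.ref 58 [(0, [(46, 1)]), (0, [(45, 1)]), (0, [(44, 1)]), (0, [(43, 1)]), (0, [(41, 1)]), (0, [(19, 1)]), (0, [(16, 1)]), (0, [(15, 1)]), (0, [(14, 1)]), (0, [(13, 1)]), (1023, [(3, 1)]), (1023, [(2, 1)]), (1, [(1, 1)]), (1, [(0, 1)]), (107863634, [(39, 2356460650496), (8, 2374043172864), (7, 1187021586432), (6, 35567697920)]), (75014444, [(8, 18408800256), (7, 1224254423040), (6, 18548260864), (5, 18409848832)]), (217366022, [(39, 4748623216640), (8, 4784056696832), (6, 71403831296), (4, 35970351104)]), (0, [(8, 1), (6, 1), (5, 1), (4, 1)])]) (.split [0, 0, 0, 1024, 0, 0, 0, 0, 0, -1536] (.ref 59 [(0, [(46, 1)]), (0, [(45, 1)]), (0, [(44, 1)]), (0, [(43, 1)]), (0, [(42, 1)]), (0, [(17, 1)]), (0, [(16, 1)]), (0, [(15, 1)]), (0, [(14, 1)]), (1023, [(3, 1)]), (1, [(2, 1)]), (1, [(1, 1)]), (511, [(0, 1)]), (107863634, [(40, 2356460650496), (9, 2374043172864), (8, 1187021586432), (7, 35567697920)]), (75014444, [(9, 18408800256),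 (8, 1224254423040), (7, 18548260864), (6, 18409848832)]), (217366022, [(40, 4748623216640), (9, 4784056696832), (7, 71403831296), (5, 35970351104)]), (0, [(9, 1), (7, 1), (6, 1), (5, 1)])]) (.split [0, 0, 0, 0, 0, 0, 0, 1024, 0, -512] (.node 2 (1) (0) (-1) [.red 0 0 [(17, 66), (0, 1)], .dead [(5, 1), (0, 1024)], .dead [(2, 1), (0, 1024)], .dead [(22, 1), (0, 1)], .dead [(46, 1), (21, 1), (0, 2)], .red 1 0 [(17, 66), (0, 1)], .dead [(49, 1), (46, 1320), (0, 20)], .dead [(46, 67584), (2, 1), (0, 1024)], .dead [(46, 133), (17, 1), (0, 2)], .dead [(46, 67584), (5, 67), (0, 1024)], .dead [(46, 67584), (5, 66), (2, 1), (0, 1024)], .dead [(46, 136192), (17, 1024), (5, 131), (0, 2048)], .dead [(49, 17), (46, 330), (22, 660), (21, 330), (0, 10)], .dead [(49, 33), (46, 660), (22, 1340), (21, 660), (0, 20)], .dead [(49, 13), (46, 268), (22, 528), (21, 268), (0, 8)], .dead [(17, 67584), (5, 1), (0, 1024)], .dead [(22, 1), (17, 66),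 (0, 1)], .dead [(46, 1), (21, 1), (17, 132), (0, 2)], .kid, .red 1 0 [(46, 1), (0, 1)], .kid, .dead [(47, 16896), (5, 335), (2, 330), (1, 330), (0, 5120)], .dead [(47, 16896), (5, 330), (2, 335), (1, 330), (0, 5120)], .dead [(47, 17152), (5, 330), (2, 330), (1, 335), (0, 5120)], .red 0 255 [(6, 33), (3, 33), (0, 256)], .red 0 337919 [(47, 16896), (6, 44225), (3, 44225), (1, 330), (0, 343040)], .red 0 337919 [(47, 34048), (6, 43890), (3, 43890), (1, 665), (0, 343040)], .dead [(44, 66), (20, 1), (0, 1)], .dead [(44, 66), (22, 1), (0, 1)], .dead [(47, 128), (44, 168960), (6, 165), (0, 2560)]] (.cons (.ref 60 [(0, [(48, 1)]), (0, [(47, 1)]), (0, [(46, 1)]), (0, [(45, 1)]), (0, [(44, 1)]), (0, [(19, 1)]), (0, [(18, 1)]), (0, [(17, 1)]), (0, [(16, 1)]), (1023, [(6, 1)]), (1023, [(5, 1)]), (1, [(4, 1)]), (1, [(3, 1)]), (511, [(1, 1)]), (0, [(0, 1)]), (107863634, [(42, 2356460650496), (11, 2374043172864), (10, 1187021586432), (9,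 35567697920)]), (75014444, [(11, 18408800256), (10, 1224254423040), (9, 18548260864), (8, 18409848832)]), (217366022, [(42, 4748623216640), (11, 4784056696832), (9, 71403831296), (7, 35970351104)]), (0, [(11, 1), (9, 1), (8, 1), (7, 1)])]) (.cons (.ref 61 [(0, [(48, 1)]), (0, [(47, 1)]), (0, [(46, 1)]), (0, [(45, 1)]), (0, [(44, 1)]), (0, [(19, 1)]), (0, [(18, 1)]), (0, [(17, 1)]), (0, [(16, 1)]), (1023, [(6, 1)]), (1023, [(5, 1)]), (1, [(4, 1)]), (1, [(3, 1)]), (511, [(1, 1)]), (0, [(0, 1)]), (107863634, [(42, 2356460650496), (11, 2374043172864), (10, 1187021586432), (9, 35567697920)]), (75014444, [(11, 18408800256), (10, 1224254423040), (9, 18548260864), (8, 18409848832)]), (0, [(11, 1), (9, 1), (8, 1), (7, 1)])]) (.nil)))) (.ref 62 [(0, [(48, 1)]), (0, [(47, 1)]), (0, [(46, 1)]), (0, [(45, 1)]), (0, [(44, 1)]), (0, [(43, 1)]), (0, [(18, 1)]), (0, [(17, 1)]), (0, [(16, 1)]), (0, [(15, 1)]), (1023, [(5, 1)]), (1023, [(4,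 1)]), (1, [(3, 1)]), (1, [(2, 1)]), (511, [(1, 1)]), (511, [(0, 1)]), (107863634, [(41, 2356460650496), (10, 2374043172864), (9, 1187021586432), (8, 35567697920)]), (432549116, [(42, 9425842601984), (10, 9496709562368), (9, 9461276082176), (8, 71403831296)]), (75014444, [(10, 18408800256), (9, 1224254423040), (8, 18548260864), (7, 18409848832)]), (217366022, [(41, 4748623216640), (10, 4784056696832), (8, 71403831296), (6, 35970351104)]), (0, [(10, 1), (8, 1), (7, 1), (6, 1)])])))))) (.ref 63 [(0, [(43, 1)]), (0, [(42, 1)]), (0, [(41, 1)]), (0, [(40, 1)]), (0, [(39, 1)]), (0, [(38, 1)]), (0, [(18, 1)]), (0, [(17, 1)]), (0, [(16, 1)]), (0, [(15, 1)]), (0, [(14, 1)]), (0, [(13, 1)]), (0, [(12, 1)]), (0, [(11, 1)]), (0, [(10, 1)]), (1023, [(0, 1)]), (107863634, [(36, 2356460650496), (5, 2374043172864), (4, 1187021586432), (3, 35567697920)]), (432549116, [(37, 9425842601984), (5, 9496709562368), (4, 9461276082176), (3, 71403831296)]),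 (75014444, [(5, 18408800256), (4, 1224254423040), (3, 18548260864), (2, 18409848832)]), (0, [(5, 1), (3, 1), (2, 1), (1, 1)])])) (.nil))))

/-- a subtree -/
def nB_3 : T := .node 3 (-1) (1) (1) [.dead [(43, 39110379), (40, 51625700280), (36, 382369680), (35, 7274850), (3, 395438010), (2, 389754755), (1, 380778085), (0, 782207580)], .dead [(40, 8911), (35, 66), (3, 66), (2, 67), (1, 66), (0, 133)], .dead [(40, 157038553), (36, 1176252), (15, 22045), (11, 1158696), (3, 1194074), (2, 1158696), (1, 1167540), (0, 2361482)], .kid, .kid, .kid, .red 2 2299835 [(40, 154097856), (39, 1176252), (38, 1176252), (26, 133), (5, 17689), (1, 2317524), (0, 34980)], .red 2 1176251 [(40, 78822217), (39, 583704), (38, 583704), (26, 66), (5, 8778), (1, 1185163), (0, 17755)], .red 2 17556 [(40, 1176252), (39, 8844), (38, 8844), (26, 1), (5, 133), (1, 17688), (0, 265)], .dead [(42, 116159307), (38, 782163360), (26, 11763845), (15, 770445060), (13,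 793881660), (11, 776370540), (5, 11850305), (4, 776370540), (3, 11585640), (0, 23436600)], .dead [(42, 116451159), (38, 776326320), (26, 11850965), (18, 23436600), (15, 764608020), (13, 764608020), (11, 782207580), (5, 11763185), (4, 758770980), (3, 11674080), (0, 23436600)], .dead [(42, 877767), (40, 88775), (38, 5792485), (26, 89770), (15, 5881260), (13, 5881260), (11, 5925815), (5, 87780), (4, 5837040), (3, 88440), (0, 177550)]] (.cons (.split [0, 0, 0, 1024, 0, 0, 0, 0, 0, -1024] (.split [0, 0, 0, 0, 0, 0, 0, 0, 1024, -1024] (.ref 71 [(0, [(45, 1)]), (0, [(44, 1)]), (0, [(43, 1)]), (0, [(42, 1)]), (0, [(41, 1)]), (0, [(40, 1)]), (0, [(19, 1)]), (0, [(16, 1)]), (0, [(15, 1)]), (0, [(14, 1)]), (0, [(13, 1)]), (0, [(12, 1)]), (1023, [(0, 1)]), (216814072, [(38, 4712652865536), (7, 4748354781184), (6, 2338609692672), (5, 71135395840)]), (26534, [(38, 575275008), (7, 579665920), (5, 8716288), (3, 4325376)]), (141570, [(7,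 35127296), (5, 35127296), (4, 34603008), (3, 34603008)]), (2266264538, [(37, 74831215198208), (21, 4976561426006016), (5, 4294967296), (4, 566935683072)]), (57532585970, [(38, 1253636529192960), (7, 1263062908665856), (5, 18922552164352), (2, 9354438770688)]), (39753700604, [(7, 9794597421056), (5, 9867678973952), (4, 9794035384320), (2, 9719846535168)]), (2400170354, [(8, 39176141537280), (7, 589115162624), (5, 593544347648), (2, 589081608192)])]) (.split [0, 0, 0, 0, 0, 1024, 0, 0, 0, -934] (.ref 72 [(0, [(46, 1)]), (0, [(45, 1)]), (0, [(44, 1)]), (0, [(43, 1)]), (0, [(42, 1)]), (0, [(41, 1)]), (0, [(20, 1)]), (0, [(16, 1)]), (0, [(15, 1)]), (0, [(14, 1)]), (0, [(13, 1)]), (1023, [(2, 1)]), (1023, [(1, 1)]), (1, [(0, 1)]), (141570, [(8, 35127296), (6, 35127296), (5, 34603008), (4, 34603008)]), (39753700604, [(8, 9794597421056), (6, 9867678973952), (5, 9794035384320), (3, 9719846535168)])]) (.split [0, 0, 0, 0, 0, 0, 1024,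 0, 0, -678] (.ref 73 [(0, [(47, 1)]), (0, [(46, 1)]), (0, [(45, 1)]), (0, [(44, 1)]), (0, [(42, 1)]), (0, [(20, 1)]), (0, [(17, 1)]), (0, [(16, 1)]), (0, [(15, 1)]), (0, [(14, 1)]), (1023, [(3, 1)]), (1023, [(2, 1)]), (1, [(1, 1)]), (1, [(0, 1)]), (141570, [(9, 35127296), (7, 35127296), (6, 34603008), (5, 34603008)]), (57532585970, [(40, 1253636529192960), (9, 1263062908665856), (7, 18922552164352), (4, 9354438770688)]), (39753700604, [(9, 9794597421056), (7, 9867678973952), (6, 9794035384320), (4, 9719846535168)])]) (.split [0, 0, 0, 0, 0, 0, 0, 0, 1024, -512] (.node 2 (1) (0) (-1) [.red 0 0 [(17, 66), (0, 1)], .dead [(4, 1), (0, 1024)], .red 0 1023 [(46, 67584), (4, 67), (0, 135168)], .dead [(22, 1), (0, 1)], .dead [(46, 1), (21, 1), (0, 2)], .red 1 0 [(17, 66), (0, 1)], .dead [(49, 1), (46, 1320), (0, 20)], .dead [(46, 67), (0, 1)], .dead [(46, 133), (17, 1), (0, 2)], .dead [(46, 67584), (4, 67), (0, 1024)], .dead [(46,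 34304), (4, 33), (0, 512)], .dead [(46, 136192), (17, 1024), (4, 131), (0, 2048)], .dead [(49, 17), (46, 330), (22, 660), (21, 330), (0, 10)], .dead [(49, 33), (46, 660), (22, 1340), (21, 660), (0, 20)], .dead [(49, 13), (46, 268), (22, 528), (21, 268), (0, 8)], .dead [(17, 67584), (4, 1), (0, 1024)], .dead [(22, 1), (17, 66), (0, 1)], .dead [(46, 1), (21, 1), (17, 132), (0, 2)], .kid, .red 1 0 [(46, 1), (0, 1)], .kid, .dead [(47, 16896), (46, 337920), (4, 335), (0, 5120)], .dead [(47, 8448), (46, 171520), (4, 165), (0, 2560)], .dead [(47, 8576), (46, 168960), (4, 165), (0, 2560)], .red 0 255 [(5, 33), (2, 33), (0, 256)], .red 0 337919 [(47, 16896), (5, 44225), (2, 44225), (0, 343040)], .red 0 168959 [(47, 17024), (5, 21945), (2, 21945), (0, 171520)], .dead [(44, 66), (20, 1), (0, 1)], .dead [(44, 66), (22, 1), (0, 1)], .dead [(47, 128), (44, 168960), (5, 165), (0, 2560)]] (.cons (.ref 74 [(0, [(49, 1)]), (0, [(48, 1)]),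 (0, [(47, 1)]), (0, [(46, 1)]), (0, [(45, 1)]), (0, [(44, 1)]), (0, [(19, 1)]), (0, [(18, 1)]), (0, [(17, 1)]), (0, [(16, 1)]), (1023, [(5, 1)]), (1023, [(4, 1)]), (1, [(3, 1)]), (1, [(2, 1)]), (511, [(1, 1)]), (0, [(0, 1)]), (26534, [(42, 575275008), (11, 579665920), (9, 8716288), (7, 4325376)]), (865144112, [(43, 18708877541376), (11, 18852758945792), (9, 143881404416), (7, 283467841536)]), (141570, [(11, 35127296), (9, 35127296), (8, 34603008), (7, 34603008)]), (39753700604, [(11, 9794597421056), (9, 9867678973952), (8, 9794035384320), (6, 9719846535168)])]) (.cons (.ref 75 [(0, [(49, 1)]), (0, [(48, 1)]), (0, [(47, 1)]), (0, [(46, 1)]), (0, [(44, 1)]), (0, [(19, 1)]), (0, [(18, 1)]), (0, [(17, 1)]), (0, [(16, 1)]), (1023, [(5, 1)]), (1023, [(4, 1)]), (1, [(3, 1)]), (1, [(2, 1)]), (511, [(1, 1)]), (0, [(0, 1)]), (216814072, [(42, 4712652865536), (11, 4748354781184), (10, 2338609692672), (9, 71135395840)]), (865144112,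 [(43, 18708877541376), (11, 18852758945792), (9, 143881404416), (7, 283467841536)]), (141570, [(11, 35127296), (9, 35127296), (8, 34603008), (7, 34603008)]), (39753700604, [(11, 9794597421056), (9, 9867678973952), (8, 9794035384320), (6, 9719846535168)])]) (.nil)))) (.ref 76 [(0, [(48, 1)]), (0, [(47, 1)]), (0, [(46, 1)]), (0, [(45, 1)]), (0, [(44, 1)]), (0, [(18, 1)]), (0, [(17, 1)]), (0, [(16, 1)]), (0, [(15, 1)]), (1023, [(4, 1)]), (1, [(2, 1)]), (1, [(1, 1)]), (511, [(0, 1)]), (216814072, [(41, 4712652865536), (10, 4748354781184), (9, 2338609692672), (8, 71135395840)]), (141570, [(10, 35127296), (8, 35127296), (7, 34603008), (6, 34603008)]), (57532585970, [(41, 1253636529192960), (10, 1263062908665856), (8, 18922552164352), (5, 9354438770688)]), (39753700604, [(10, 9794597421056), (8, 9867678973952), (7, 9794035384320), (5, 9719846535168)])]))))) (.ref 77 [(0, [(44, 1)]), (0, [(43, 1)]), (0, [(42, 1)]), (0, [(41, 1)]),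 (0, [(40, 1)]), (0, [(39, 1)]), (0, [(19, 1)]), (0, [(18, 1)]), (0, [(17, 1)]), (0, [(16, 1)]), (0, [(15, 1)]), (0, [(14, 1)]), (0, [(13, 1)]), (0, [(12, 1)]), (0, [(11, 1)]), (1023, [(0, 1)]), (216814072, [(37, 4712652865536), (6, 4748354781184), (5, 2338609692672), (4, 71135395840)]), (26534, [(37, 575275008), (6, 579665920), (4, 8716288), (2, 4325376)]), (865144112, [(38, 18708877541376), (6, 18852758945792), (4, 143881404416), (2, 283467841536)]), (141570, [(6, 35127296), (4, 35127296), (3, 34603008), (2, 34603008)])])) (.cons (.ref 78 [(0, [(43, 1)]), (0, [(42, 1)]), (0, [(41, 1)]), (0, [(40, 1)]), (0, [(39, 1)]), (0, [(38, 1)]), (0, [(18, 1)]), (0, [(17, 1)]), (0, [(16, 1)]), (0, [(15, 1)]), (0, [(14, 1)]), (0, [(13, 1)]), (0, [(12, 1)]), (0, [(11, 1)]), (0, [(10, 1)]), (216814072, [(36, 4712652865536), (5, 4748354781184), (4, 2338609692672), (3, 71135395840)]), (865144112, [(37, 18708877541376), (5, 18852758945792),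 (3, 143881404416), (1, 283467841536)]), (141570, [(5, 35127296), (3, 35127296), (2, 34603008), (1, 34603008)]), (2266264538, [(35, 74831215198208), (19, 4976561426006016), (3, 4294967296), (2, 566935683072)]), (26534, [(36, 575275008), (5, 579665920), (3, 8716288), (0, 4325376)]), (566082, [(5, 140509184), (3, 140509184), (2, 138412032), (0, 138412032)]), (36092726, [(6, 584652423168), (5, 8925478912), (3, 8925478912), (0, 8858370048)])]) (.cons (.ref 79 [(0, [(43, 1)]), (0, [(42, 1)]), (0, [(41, 1)]), (0, [(40, 1)]), (0, [(39, 1)]), (0, [(38, 1)]), (0, [(18, 1)]), (0, [(17, 1)]), (0, [(16, 1)]), (0, [(15, 1)]), (0, [(14, 1)]), (0, [(13, 1)]), (0, [(12, 1)]), (0, [(11, 1)]), (0, [(10, 1)]), (216814072, [(36, 4712652865536), (5, 4748354781184), (4, 2338609692672), (3, 71135395840)]), (865144112, [(37, 18708877541376), (5, 18852758945792), (3, 143881404416), (1, 283467841536)]), (18045818, [(5, 4462739456), (4, 292326211584),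 (3, 4462739456), (2, 4429185024)]), (141570, [(5, 35127296), (3, 35127296), (2, 34603008), (1, 34603008)]), (2266264538, [(35, 74831215198208), (19, 4976561426006016), (3, 4294967296), (2, 566935683072)]), (109222126, [(36, 2374043172864), (5, 2392028348416), (3, 35701915648), (0, 17716740096)]), (302270030, [(5, 74750885888), (3, 74197237760), (2, 74188849152), (0, 73635201024)]), (9124796, [(6, 148377698304), (5, 2248146944), (3, 2231369728), (0, 2231369728)])]) (.nil))))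

/-- a subtree -/
def nB_4 : T := .node 3 (0) (0) (1) [.dead [(34, 1), (0, 1)], .dead [(33, 1), (0, 1)], .dead [(32, 1), (0, 1)], .dead [(38, 6567), (34, 44225), (33, 43230), (4, 65670), (2, 88110), (0, 995)], .dead [(38, 13134), (35, 995), (34, 87115), (33, 87115), (4, 132335), (2, 175565), (0, 1990)], .dead [(38, 26467), (34, 175560), (33, 175560), (4, 262680), (2, 353780), (0, 3980)], .kid, .kid, .kid, .red 0 0 [(35, 8844), (23, 133), (2, 1), (0, 133)], .dead [(35, 1176252), (23, 17557), (4, 8844), (2, 265), (0, 17688)], .dead [(35, 66), (23, 1), (0, 1)]] (.cons (.node 3 (0) (1) (0) [.dead [(35, 1), (0, 1)], .dead [(34, 1), (0, 1)], .dead [(33, 1), (0, 1)], .red 1 9287255 [(38, 66), (36, 17490), (35, 35113), (12, 132), (8, 66), (4, 617602524), (3, 34848), (1, 264), (0, 70357)], .red 1 132 [(4, 8844), (0, 1)], .red 1 2299702 [(37, 8778), (36, 67), (4, 152938961), (3, 132), (1, 1), (0, 17423)], .dead [(39, 235277), (37,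 2352770), (28, 35112), (10, 2352770), (4, 2299702), (3, 35644), (2, 2352770), (0, 70492)], .dead [(39, 2352637), (37, 23173910), (28, 351140), (10, 23526370), (4, 23350810), (3, 351120), (2, 23526370), (0, 704920)], .dead [(39, 2335213), (37, 23704590), (28, 348460), (10, 23352130), (4, 23525050), (3, 359080), (2, 23352130), (0, 704920)], .kid, .kid, .kid] (.cons (.ref 36 [(0, [(41, 1)]), (0, [(40, 1)]), (0, [(39, 1)]), (0, [(38, 1)]), (0, [(37, 1)]), (0, [(36, 1)]), (0, [(16, 1)]), (0, [(15, 1)]), (0, [(14, 1)]), (0, [(13, 1)]), (0, [(12, 1)]), (0, [(11, 1)]), (0, [(10, 1)]), (0, [(9, 1)]), (0, [(8, 1)]), (432551808, [(34, 9353901899776), (3, 9425842601984), (2, 4784056696832), (1, 142270791680)]), (0, [(35, 131), (3, 132), (2, 132), (1, 1)]), (597830078, [(3, 148377698304), (2, 9867116937216), (1, 147278790656), (0, 146154717184)]), (0, [(33, 264), (17, 17557), (2, 1), (0, 2)])]) (.cons (nB_1) (.cons (.split [0, 0, 0,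 1024, 0, 0, 0, 0, 0, -1024] (.split [0, 0, 0, 0, 0, 0, 0, 0, 1024, -1024] (.ref 47 [(0, [(43, 1)]), (0, [(42, 1)]), (0, [(41, 1)]), (0, [(40, 1)]), (0, [(39, 1)]), (0, [(38, 1)]), (0, [(17, 1)]), (0, [(14, 1)]), (0, [(13, 1)]), (0, [(12, 1)]), (0, [(11, 1)]), (0, [(10, 1)]), (1023, [(0, 1)]), (0, [(26, 1), (2, 1)]), (432551808, [(36, 9353901899776), (5, 9425842601984), (4, 4784056696832), (3, 142270791680)]), (0, [(37, 131), (5, 132), (4, 132), (3, 1)]), (600182582, [(5, 147278790656), (4, 9867116937216), (3, 148377698304), (2, 146154717184)])]) (.node 3 (-1) (1) (1) [.dead [(44, 53), (41, 69960), (36, 532), (5, 34848), (4, 532), (3, 532), (0, 1060)], .dead [(41, 2326170), (36, 17557), (9, 17490), (5, 1149918), (4, 17292), (3, 17557), (0, 34980)], .dead [(41, 618796465), (37, 4669632), (16, 4670162), (9, 2335081), (5, 310565639), (4, 4740384), (3, 4599404), (0, 9340324)], .kid, .kid, .kid, .red 2 2334815 [(41, 155265264),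 (40, 8844), (39, 8844), (27, 1), (6, 133), (5, 155274108), (0, 17688)], .red 2 521379 [(42, 199), (41, 34676400), (37, 1320), (13, 1320), (6, 1320), (5, 34673760), (3, 20), (0, 3960)], .red 2 132 [(9, 8844), (0, 1)], .dead [(43, 150560256), (41, 741480960), (39, 764121600), (27, 22728320), (14, 1517008640), (12, 1505602560), (6, 11661440), (5, 764121600), (4, 11234560), (2, 1448205), (0, 34046720)], .dead [(43, 5006128512), (41, 24654241920), (39, 25407043200), (27, 747268480), (14, 49308483840), (12, 49499514240), (6, 387679360), (5, 24845272320), (4, 382060800), (2, 49250025), (0, 1123541760)], .dead [(43, 7499712), (41, 38208224), (39, 36788896), (27, 1144800), (14, 74714112), (12, 75848288), (6, 561824), (5, 37640064), (4, 566016), (2, 72963), (0, 1702336)]] (.cons (.ref 48 [(0, [(44, 1)]), (0, [(43, 1)]), (0, [(42, 1)]), (0, [(41, 1)]), (0, [(40, 1)]), (0, [(39, 1)]), (0, [(18, 1)]), (0, [(17, 1)]), (0, [(14, 1)]),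 (0, [(13, 1)]), (0, [(12, 1)]), (0, [(11, 1)]), (1023, [(2, 1)]), (1023, [(1, 1)]), (432551808, [(37, 9353901899776), (6, 9425842601984), (5, 4784056696832), (4, 142270791680)]), (0, [(38, 131), (6, 132), (5, 132), (4, 1)]), (600182582, [(6, 147278790656), (5, 9867116937216), (4, 148377698304), (3, 146154717184)]), (7173073874, [(37, 155517544562688), (6, 156704566149120), (4, 2365319020544), (0, 1196014174208)]), (2210, [(6, 540672), (4, 548864), (3, 540672), (0, 548864)])]) (.cons (.ref 49 [(0, [(44, 1)]), (0, [(43, 1)]), (0, [(42, 1)]), (0, [(41, 1)]), (0, [(40, 1)]), (0, [(39, 1)]), (0, [(18, 1)]), (0, [(17, 1)]), (0, [(14, 1)]), (0, [(13, 1)]), (0, [(12, 1)]), (0, [(11, 1)]), (1023, [(2, 1)]), (1023, [(1, 1)]), (432551808, [(37, 9353901899776), (6, 9425842601984), (5, 4784056696832), (4, 142270791680)]), (0, [(38, 131), (6, 132), (5, 132), (4, 1)]), (600182582, [(6, 147278790656), (5, 9867116937216), (4, 148377698304),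 (3, 146154717184)]), (72962, [(6, 17979392), (4, 18112512), (3, 17704960), (0, 18112512)])]) (.cons (.ref 50 [(0, [(44, 1)]), (0, [(43, 1)]), (0, [(42, 1)]), (0, [(41, 1)]), (0, [(40, 1)]), (0, [(39, 1)]), (0, [(18, 1)]), (0, [(17, 1)]), (0, [(14, 1)]), (0, [(13, 1)]), (0, [(12, 1)]), (0, [(11, 1)]), (1023, [(2, 1)]), (1023, [(1, 1)]), (432551808, [(37, 9353901899776), (6, 9425842601984), (5, 4784056696832), (4, 142270791680)]), (0, [(38, 131), (6, 132), (5, 132), (4, 1)]), (600182582, [(6, 147278790656), (5, 9867116937216), (4, 148377698304), (3, 146154717184)]), (2418151336, [(6, 593577902080), (4, 593510793216), (3, 589081608192), (0, 598007087104)])]) (.nil)))))) (.ref 51 [(0, [(42, 1)]), (0, [(41, 1)]), (0, [(40, 1)]), (0, [(39, 1)]), (0, [(37, 1)]), (0, [(17, 1)]), (0, [(16, 1)]), (0, [(15, 1)]), (0, [(14, 1)]), (0, [(13, 1)]), (0, [(12, 1)]), (0, [(11, 1)]), (0, [(10, 1)]), (0, [(9, 1)]), (1023, [(0, 1)]), (432551808,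 [(35, 9353901899776), (4, 9425842601984), (3, 4784056696832), (2, 142270791680)]), (0, [(36, 131), (4, 132), (3, 132), (2, 1)]), (600182582, [(4, 147278790656), (3, 9867116937216), (2, 148377698304), (1, 146154717184)])])) (.nil))))) (.cons (.node 3 (0) (1) (0) [.dead [(35, 1), (0, 1)], .dead [(34, 1), (0, 1)], .dead [(33, 1), (0, 1)], .red 1 2326235 [(36, 4356), (35, 8845), (4, 154694694), (3, 8778), (1, 66), (0, 17623)], .red 1 132 [(4, 8844), (0, 1)], .red 1 2317390 [(37, 8845), (36, 66), (4, 154115280), (3, 133), (1, 1), (0, 17557)], .dead [(39, 235277), (37, 2352770), (28, 35112), (10, 2352770), (4, 2299702), (3, 35644), (2, 2352770), (0, 70492)], .dead [(39, 2352637), (37, 23173910), (28, 351140), (10, 23526370), (4, 23350810), (3, 351120), (2, 23526370), (0, 704920)], .dead [(39, 2335213), (37, 23704590), (28, 348460), (10, 23352130), (4, 23525050), (3, 359080), (2, 23352130), (0, 704920)], .kid, .kid, .kid] (.cons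 (.ref 52 [(0, [(41, 1)]), (0, [(40, 1)]), (0, [(39, 1)]), (0, [(38, 1)]), (0, [(37, 1)]), (0, [(36, 1)]), (0, [(16, 1)]), (0, [(15, 1)]), (0, [(14, 1)]), (0, [(13, 1)]), (0, [(12, 1)]), (0, [(11, 1)]), (0, [(10, 1)]), (0, [(9, 1)]), (0, [(8, 1)]), (107863634, [(34, 2356460650496), (3, 2374043172864), (2, 1187021586432), (1, 35567697920)]), (432549116, [(35, 9425842601984), (3, 9496709562368), (2, 9461276082176), (1, 71403831296)]), (0, [(33, 264), (17, 17557), (2, 1), (0, 2)]), (0, [(3, 1), (2, 67), (1, 1), (0, 1)])]) (.cons (nB_2) (.cons (.split [0, 0, 0, 1024, 0, 0, 0, 0, 0, -1024] (.split [0, 0, 0, 0, 0, 0, 0, 0, 1024, -1024] (.ref 64 [(0, [(43, 1)]), (0, [(42, 1)]), (0, [(41, 1)]), (0, [(40, 1)]), (0, [(39, 1)]), (0, [(38, 1)]), (0, [(17, 1)]), (0, [(14, 1)]), (0, [(13, 1)]), (0, [(12, 1)]), (0, [(11, 1)]), (0, [(10, 1)]), (1023, [(0, 1)]), (0, [(26, 1), (2, 1)]), (107863634, [(36, 2356460650496), (5, 2374043172864),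 (4, 1187021586432), (3, 35567697920)]), (432549116, [(37, 9425842601984), (5, 9496709562368), (4, 9461276082176), (3, 71403831296)]), (600182582, [(5, 146154717184), (4, 9867116937216), (3, 148377698304), (2, 147278790656)])]) (.split [0, 0, 0, 0, 0, 1024, 0, 0, 0, -934] (.ref 65 [(0, [(44, 1)]), (0, [(43, 1)]), (0, [(42, 1)]), (0, [(41, 1)]), (0, [(40, 1)]), (0, [(39, 1)]), (0, [(18, 1)]), (0, [(14, 1)]), (0, [(13, 1)]), (0, [(12, 1)]), (0, [(11, 1)]), (1023, [(2, 1)]), (1023, [(1, 1)]), (1, [(0, 1)]), (600182582, [(6, 146154717184), (5, 9867116937216), (4, 148377698304), (3, 147278790656)])]) (.node 3 (-1) (1) (1) [.red 0 532 [(42, 4713852), (38, 17956), (37, 17956), (6, 2361348), (5, 35644), (4, 35644), (0, 70889)], .dead [(42, 35245), (37, 268), (10, 265), (6, 17423), (5, 262), (4, 268), (0, 530)], .dead [(42, 70225), (38, 536), (17, 530), (10, 265), (6, 35111), (5, 536), (4, 524), (0, 1060)], .kid, .kid, .kid, .red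 2 89205759 [(44, 16896), (43, 256), (42, 5932185600), (40, 337920), (15, 337920), (7, 5120), (6, 5932523520), (1, 335), (0, 675840)], .red 2 521379 [(43, 199), (42, 34676400), (38, 1320), (14, 1320), (7, 1320), (6, 34673760), (4, 20), (0, 3960)], .red 2 132 [(10, 8844), (0, 1)], .dead [(44, 59549952), (42, 294379008), (40, 298907136), (28, 8989184), (15, 602241024), (13, 595499520), (7, 4562432), (6, 301120512), (5, 4426752), (3, 574959), (0, 13483008)], .dead [(44, 609084672), (42, 3011205120), (40, 3056486400), (28, 90913280), (15, 6022410240), (13, 6022410240), (7, 46645760), (6, 3011205120), (5, 46310400), (3, 6014925), (0, 136872960)], .dead [(44, 150560256), (42, 769910400), (40, 730032000), (28, 22981760), (15, 1505602560), (13, 1522711680), (7, 11150720), (6, 752801280), (5, 11320320), (3, 1470315), (0, 34218240)]] (.cons (.ref 66 [(0, [(45, 1)]), (0, [(44, 1)]), (0, [(43, 1)]), (0, [(42, 1)]), (0, [(41, 1)]), (0,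 [(40, 1)]), (0, [(18, 1)]), (0, [(15, 1)]), (0, [(14, 1)]), (0, [(13, 1)]), (0, [(12, 1)]), (1023, [(3, 1)]), (1023, [(2, 1)]), (1, [(1, 1)]), (107863634, [(38, 2356460650496), (7, 2374043172864), (6, 1187021586432), (5, 35567697920)]), (432549116, [(39, 9425842601984), (7, 9496709562368), (6, 9461276082176), (5, 71403831296)]), (600182582, [(7, 146154717184), (6, 9867116937216), (5, 148377698304), (4, 147278790656)]), (1788785228, [(38, 39178389684224), (7, 39468467748864), (5, 591329755136), (0, 296755396608)]), (72962, [(7, 17704960), (5, 18112512), (4, 17979392), (0, 18112512)])]) (.cons (.ref 67 [(0, [(45, 1)]), (0, [(44, 1)]), (0, [(43, 1)]), (0, [(42, 1)]), (0, [(41, 1)]), (0, [(40, 1)]), (0, [(18, 1)]), (0, [(15, 1)]), (0, [(14, 1)]), (0, [(13, 1)]), (0, [(12, 1)]), (1023, [(3, 1)]), (1023, [(2, 1)]), (1, [(1, 1)]), (107863634, [(38, 2356460650496), (7, 2374043172864), (6, 1187021586432), (5, 35567697920)]), (432549116,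 [(39, 9425842601984), (7, 9496709562368), (6, 9461276082176), (5, 71403831296)]), (600182582, [(7, 146154717184), (6, 9867116937216), (5, 148377698304), (4, 147278790656)]), (27033896, [(38, 589081608192), (7, 593510793216), (5, 8925478912), (0, 4496293888)]), (566082, [(7, 138412032), (5, 140509184), (4, 138412032), (0, 140509184)])]) (.cons (.ref 68 [(0, [(45, 1)]), (0, [(44, 1)]), (0, [(43, 1)]), (0, [(42, 1)]), (0, [(41, 1)]), (0, [(40, 1)]), (0, [(18, 1)]), (0, [(15, 1)]), (0, [(14, 1)]), (0, [(13, 1)]), (0, [(12, 1)]), (1023, [(3, 1)]), (1023, [(2, 1)]), (1, [(1, 1)]), (107863634, [(38, 2356460650496), (7, 2374043172864), (6, 1187021586432), (5, 35567697920)]), (432549116, [(39, 9425842601984), (7, 9496709562368), (6, 9461276082176), (5, 71403831296)]), (600182582, [(7, 146154717184), (6, 9867116937216), (5, 148377698304), (4, 147278790656)]), (217366022, [(38, 4748623216640), (7, 4784056696832), (5, 71403831296),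 (0, 35970351104)]), (1209071212, [(7, 294540804096), (5, 296755396608), (4, 296788951040), (0, 299003543552)])]) (.nil))))))) (.ref 69 [(0, [(42, 1)]), (0, [(41, 1)]), (0, [(40, 1)]), (0, [(39, 1)]), (0, [(38, 1)]), (0, [(37, 1)]), (0, [(17, 1)]), (0, [(16, 1)]), (0, [(15, 1)]), (0, [(14, 1)]), (0, [(13, 1)]), (0, [(12, 1)]), (0, [(11, 1)]), (0, [(10, 1)]), (0, [(9, 1)]), (1023, [(0, 1)]), (107863634, [(35, 2356460650496), (4, 2374043172864), (3, 1187021586432), (2, 35567697920)]), (600182582, [(4, 146154717184), (3, 9867116937216), (2, 148377698304), (1, 147278790656)])])) (.nil))))) (.cons (.node 3 (0) (1) (0) [.dead [(35, 1), (0, 1)], .dead [(34, 1), (0, 1)], .dead [(33, 1), (0, 1)], .red 1 702239 [(39, 1), (36, 1320), (35, 2680), (4, 46698960), (3, 2660), (1, 20), (0, 5320)], .red 1 132 [(4, 8844), (0, 1)], .red 1 46345199 [(39, 1), (37, 176880), (36, 1320), (4, 3082131360), (3, 2660), (1, 20), (0, 351120)], .dead [(39,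 235277), (37, 2352770), (28, 35112), (10, 2352770), (4, 2299702), (3, 35644), (2, 2352770), (0, 70492)], .dead [(39, 2352637), (37, 23173910), (28, 351140), (10, 23526370), (4, 23350810), (3, 351120), (2, 23526370), (0, 704920)], .dead [(39, 2335213), (37, 23704590), (28, 348460), (10, 23352130), (4, 23525050), (3, 359080), (2, 23352130), (0, 704920)], .kid, .kid, .kid] (.cons (.ref 70 [(0, [(41, 1)]), (0, [(40, 1)]), (0, [(39, 1)]), (0, [(38, 1)]), (0, [(37, 1)]), (0, [(36, 1)]), (0, [(16, 1)]), (0, [(15, 1)]), (0, [(14, 1)]), (0, [(13, 1)]), (0, [(12, 1)]), (0, [(11, 1)]), (0, [(10, 1)]), (0, [(9, 1)]), (0, [(8, 1)]), (216814072, [(34, 4712652865536), (3, 4748354781184), (2, 2338609692672), (1, 71135395840)]), (0, [(35, 132), (3, 133), (2, 132), (1, 1)]), (75014444, [(3, 18548260864), (2, 1224254423040), (1, 18409848832), (0, 18408800256)]), (0, [(33, 264), (17, 17557), (2, 1), (0, 2)])]) (.cons (.node 3 (0) (1) (1) [.dead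 [(36, 1), (0, 1)], .dead [(35, 1), (0, 1)], .dead [(34, 1), (0, 1)], .red 0 155287308 [(34, 1163118), (2, 4422), (1, 1180741), (0, 155282820)], .kid, .kid, .red 1 2334815 [(38, 8844), (37, 8844), (25, 1), (4, 133), (3, 155274108), (0, 17688)], .red 1 262019 [(40, 99), (35, 660), (11, 660), (4, 660), (3, 17425320), (1, 10), (0, 1990)], .red 1 132 [(3, 8844), (0, 1)], .red 0 2334815 [(38, 8844), (37, 8844), (25, 1), (4, 133), (3, 155274108), (0, 17688)], .red 0 132 [(3, 8844), (0, 1)], .red 0 175559 [(41, 33), (3, 11675400), (2, 10), (0, 1330)]] (.cons (nB_3) (.cons (.ref 80 [(0, [(42, 1)]), (0, [(41, 1)]), (0, [(40, 1)]), (0, [(39, 1)]), (0, [(38, 1)]), (0, [(37, 1)]), (0, [(17, 1)]), (0, [(16, 1)]), (0, [(15, 1)]), (0, [(14, 1)]), (0, [(13, 1)]), (0, [(12, 1)]), (0, [(11, 1)]), (0, [(10, 1)]), (0, [(9, 1)]), (109222126, [(35, 2374043172864), (4, 2392028348416), (2, 35701915648), (0, 17716740096)]), (436897418, [(36, 9496172691456),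 (4, 9568113393664), (2, 70866960384), (0, 142807662592)]), (18900230, [(4, 4671930368), (2, 4637327360), (1, 4636803072), (0, 4602200064)]), (2266264538, [(34, 74831215198208), (18, 4976561426006016), (2, 4294967296), (1, 566935683072)])]) (.nil)))) (.cons (.node 3 (0) (1) (1) [.dead [(36, 1), (0, 1)], .dead [(35, 1), (0, 1)], .dead [(34, 1), (0, 1)], .red 0 131 [(34, 1), (1, 1), (0, 132)], .kid, .kid, .red 1 2334815 [(38, 8844), (37, 8844), (25, 1), (4, 133), (3, 155274108), (0, 17688)], .red 1 521379 [(40, 199), (35, 1320), (11, 1320), (4, 1320), (3, 34673760), (1, 20), (0, 3960)], .red 1 132 [(3, 8844), (0, 1)], .red 0 2334815 [(38, 8844), (37, 8844), (25, 1), (4, 133), (3, 155274108), (0, 17688)], .red 0 132 [(3, 8844), (0, 1)], .red 0 175559 [(41, 33), (3, 11675400), (2, 10), (0, 1330)]] (.cons (.ref 81 [(0, [(42, 1)]), (0, [(41, 1)]), (0, [(40, 1)]), (0, [(39, 1)]), (0, [(38, 1)]), (0, [(37, 1)]), (0, [(17, 1)]), (0,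 [(16, 1)]), (0, [(15, 1)]), (0, [(14, 1)]), (0, [(13, 1)]), (0, [(12, 1)]), (0, [(11, 1)]), (0, [(10, 1)]), (0, [(9, 1)]), (0, [(25, 1), (1, 1)]), (216814072, [(35, 4712652865536), (4, 4748354781184), (3, 2338609692672), (2, 71135395840)]), (26534, [(35, 575275008), (4, 579665920), (2, 8716288), (0, 4325376)]), (865144112, [(36, 18708877541376), (4, 18852758945792), (2, 143881404416), (0, 283467841536)]), (285218, [(4, 69730304), (3, 4636803072), (2, 70254592), (1, 69730304)]), (18900230, [(4, 4637327360), (2, 4671930368), (1, 4602200064), (0, 4636803072)])]) (.cons (.ref 82 [(0, [(42, 1)]), (0, [(41, 1)]), (0, [(40, 1)]), (0, [(39, 1)]), (0, [(38, 1)]), (0, [(37, 1)]), (0, [(17, 1)]), (0, [(16, 1)]), (0, [(15, 1)]), (0, [(14, 1)]), (0, [(13, 1)]), (0, [(12, 1)]), (0, [(11, 1)]), (0, [(10, 1)]), (0, [(9, 1)]), (0, [(25, 1), (1, 1)]), (109222126, [(35, 2374043172864), (4, 2392028348416), (2, 35701915648), (0, 17716740096)]),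 (436897418, [(36, 9496172691456), (4, 9568113393664), (2, 70866960384), (0, 142807662592)]), (1, [(4, 1), (2, 1), (1, 1), (0, 1)]), (285218, [(4, 69730304), (3, 4636803072), (2, 70254592), (1, 69730304)])]) (.nil)))) (.nil))))) (.nil))))

/-- a subtree -/
def nB_5 : T := .node 1 (0) (0) (1) [.dead [(30, 1), (29, 1), (28, 1), (0, 199)], .kid, .kid, .kid] (.cons (.node 1 (0) (-1) (1) [.kid, .kid, .kid, .red 0 132 [(32, 266), (20, 2), (13, 134), (0, 133)]] (.cons (.ref 15 [(0, [(37, 1)]), (0, [(36, 1)]), (0, [(35, 1)]), (0, [(34, 1)]), (0, [(33, 1)]), (0, [(32, 1)]), (0, [(12, 1)]), (0, [(11, 1)]), (0, [(10, 1)]), (0, [(9, 1)]), (0, [(8, 1)]), (0, [(7, 1)]), (0, [(6, 1)]), (0, [(5, 1)]), (0, [(4, 1)]), (0, [(31, 2), (1, 1), (0, 133)]), (0, [(31, 1), (30, 1), (29, 1), (0, 199)])]) (.cons (.ref 16 [(0, [(37, 1)]), (0, [(36, 1)]), (0, [(35, 1)]), (0, [(34, 1)]), (0, [(32, 1)]), (0, [(12, 1)]), (0, [(11, 1)]), (0, [(10, 1)]), (0,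 [(9, 1)]), (0, [(8, 1)]), (0, [(7, 1)]), (0, [(6, 1)]), (0, [(5, 1)]), (0, [(31, 2), (13, 133), (0, 1)])]) (.cons (.node 1 (1) (-1) (0) [.kid, .dead [(35, 133), (29, 2), (14, 1), (8, 133), (0, 133)], .kid, .kid] (.cons (.ref 17 [(0, [(38, 1)]), (0, [(37, 1)]), (0, [(36, 1)]), (0, [(35, 1)]), (0, [(34, 1)]), (0, [(33, 1)]), (0, [(13, 1)]), (0, [(12, 1)]), (0, [(11, 1)]), (0, [(10, 1)]), (0, [(9, 1)]), (0, [(8, 1)]), (0, [(7, 1)]), (0, [(6, 1)]), (0, [(32, 2), (2, 1), (0, 133)]), (0, [(32, 1), (31, 1), (30, 1), (0, 199)])]) (.cons (.node 1 (1) (0) (0) [.dead [(33, 1), (32, 1), (31, 1), (0, 199)], .kid, .kid, .kid] (.cons (.node 1 (1) (0) (-1) [.kid, .red 0 132 [(37, 266), (31, 2), (16, 134), (0, 133)], .kid, .kid] (.cons (.ref 18 [(0, [(39, 1)]), (0, [(38, 1)]), (0, [(37, 1)]), (0, [(36, 1)]), (0, [(35, 1)]), (0, [(14, 1)]), (0, [(10, 1)]), (0, [(9, 1)]), (0, [(8, 1)]), (0, [(7, 1)]), (0, [(31, 2), (1, 133), (0, 1)])]) (.cons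 (.ref 19 [(0, [(39, 1)]), (0, [(38, 1)]), (0, [(37, 1)]), (0, [(12, 1)]), (0, [(10, 1)]), (0, [(9, 1)]), (0, [(8, 1)]), (0, [(29, 2), (1, 133), (0, 1)])]) (.cons (.ref 20 [(0, [(39, 1)]), (0, [(38, 1)]), (0, [(37, 1)]), (0, [(14, 1)]), (0, [(12, 1)]), (0, [(10, 1)]), (0, [(8, 1)]), (0, [(34, 2), (16, 133), (1, 1)]), (0, [(16, 1), (2, 1), (1, 1), (0, 1)])]) (.nil))))) (.cons (.node 1 (1) (0) (-1) [.kid, .red 0 132 [(37, 266), (31, 2), (16, 134), (0, 133)], .kid, .kid] (.cons (.ref 21 [(0, [(40, 1)]), (0, [(39, 1)]), (0, [(38, 1)]), (0, [(37, 1)]), (0, [(36, 1)]), (0, [(35, 1)]), (0, [(15, 1)]), (0, [(14, 1)]), (0, [(13, 1)]), (0, [(12, 1)]), (0, [(11, 1)]), (0, [(10, 1)]), (0, [(9, 1)]), (0, [(8, 1)]), (0, [(7, 1)]), (0, [(34, 2), (4, 1), (0, 133)]), (0, [(33, 2), (1, 1), (0, 133)])]) (.cons (.ref 22 [(0, [(40, 1)]), (0, [(39, 1)]), (0, [(38, 1)]), (0, [(37, 1)]), (0, [(15, 1)]), (0, [(14, 1)]), (0, [(13, 1)]), (0, [(12,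 1)]), (0, [(11, 1)]), (0, [(10, 1)]), (0, [(9, 1)]), (0, [(8, 1)]), (0, [(33, 2), (16, 133), (0, 1)])]) (.cons (.ref 23 [(0, [(40, 1)]), (0, [(39, 1)]), (0, [(38, 1)]), (0, [(37, 1)]), (0, [(36, 1)]), (0, [(35, 1)]), (0, [(15, 1)]), (0, [(14, 1)]), (0, [(13, 1)]), (0, [(12, 1)]), (0, [(11, 1)]), (0, [(10, 1)]), (0, [(9, 1)]), (0, [(8, 1)]), (1, [(16, 1), (4, 1), (1, 1), (0, 1)])]) (.nil))))) (.cons (.ref 24 [(0, [(39, 1)]), (0, [(38, 1)]), (0, [(37, 1)]), (0, [(36, 1)]), (0, [(35, 1)]), (0, [(34, 1)]), (0, [(14, 1)]), (0, [(13, 1)]), (0, [(12, 1)]), (0, [(11, 1)]), (0, [(10, 1)]), (0, [(9, 1)]), (0, [(8, 1)]), (0, [(7, 1)]), (0, [(15, 1), (3, 1), (1, 1), (0, 1)])]) (.nil))))) (.cons (.ref 25 [(0, [(38, 1)]), (0, [(37, 1)]), (0, [(36, 1)]), (0, [(35, 1)]), (0, [(34, 1)]), (0, [(33, 1)]), (0, [(12, 1)]), (0, [(11, 1)]), (0, [(9, 1)]), (0, [(8, 1)]), (0, [(7, 1)]), (0, [(5, 1)]), (0, [(14, 1), (2, 1), (1, 1), (0, 1)])]) (.nil)))))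 (.nil))))) (.cons (.node 1 (0) (1) (0) [.dead [(31, 1), (30, 1), (29, 1), (0, 199)], .kid, .kid, .kid] (.cons (.node 1 (1) (0) (0) [.dead [(32, 1), (31, 1), (30, 1), (0, 199)], .kid, .kid, .kid] (.cons (.node 1 (1) (0) (-1) [.kid, .red 0 132 [(36, 266), (30, 2), (15, 134), (9, 266), (0, 133)], .kid, .kid] (.cons (.ref 26 [(0, [(38, 1)]), (0, [(37, 1)]), (0, [(36, 1)]), (0, [(35, 1)]), (0, [(34, 1)]), (0, [(13, 1)]), (0, [(9, 1)]), (0, [(8, 1)]), (0, [(7, 1)]), (0, [(6, 1)]), (0, [(30, 2), (1, 133), (0, 1)])]) (.cons (.ref 27 [(0, [(38, 1)]), (0, [(37, 1)]), (0, [(36, 1)]), (0, [(11, 1)]), (0, [(9, 1)]), (0, [(8, 1)]), (0, [(7, 1)]), (0, [(28, 2), (1, 133), (0, 1)])]) (.cons (.ref 28 [(0, [(38, 1)]), (0, [(37, 1)]), (0, [(36, 1)]), (0, [(35, 1)]), (0, [(34, 1)]), (0, [(13, 1)]), (0, [(9, 1)]), (0, [(8, 1)]), (0, [(6, 1)]), (0, [(33, 2), (15, 133), (1, 1)]), (1, [(15, 1), (3, 1), (1, 1), (0, 1)])]) (.nil))))) (.cons (.node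 1 (1) (0) (-1) [.kid, .red 0 132 [(36, 266), (30, 2), (15, 134), (0, 133)], .kid, .kid] (.cons (.ref 29 [(0, [(39, 1)]), (0, [(38, 1)]), (0, [(37, 1)]), (0, [(36, 1)]), (0, [(35, 1)]), (0, [(34, 1)]), (0, [(14, 1)]), (0, [(13, 1)]), (0, [(12, 1)]), (0, [(11, 1)]), (0, [(10, 1)]), (0, [(9, 1)]), (0, [(8, 1)]), (0, [(7, 1)]), (0, [(6, 1)]), (0, [(33, 2), (2, 1), (0, 133)]), (0, [(32, 2), (3, 1), (0, 133)]), (0, [(32, 2), (1, 1), (0, 133)])]) (.cons (.ref 30 [(0, [(39, 1)]), (0, [(38, 1)]), (0, [(37, 1)]), (0, [(36, 1)]), (0, [(14, 1)]), (0, [(13, 1)]), (0, [(12, 1)]), (0, [(11, 1)]), (0, [(10, 1)]), (0, [(9, 1)]), (0, [(8, 1)]), (0, [(7, 1)]), (0, [(32, 2), (15, 133), (0, 1)])]) (.cons (.ref 31 [(0, [(39, 1)]), (0, [(38, 1)]), (0, [(37, 1)]), (0, [(36, 1)]), (0, [(35, 1)]), (0, [(34, 1)]), (0, [(14, 1)]), (0, [(13, 1)]), (0, [(12, 1)]), (0, [(11, 1)]), (0, [(10, 1)]), (0, [(9, 1)]), (0, [(8, 1)]), (0, [(7, 1)]), (0, [(15,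 1), (2, 1), (1, 1), (0, 1)])]) (.nil))))) (.cons (.ref 32 [(0, [(38, 1)]), (0, [(37, 1)]), (0, [(36, 1)]), (0, [(35, 1)]), (0, [(34, 1)]), (0, [(33, 1)]), (0, [(13, 1)]), (0, [(12, 1)]), (0, [(11, 1)]), (0, [(10, 1)]), (0, [(9, 1)]), (0, [(8, 1)]), (0, [(7, 1)]), (0, [(6, 1)]), (0, [(5, 1)]), (0, [(14, 1), (2, 1), (1, 1), (0, 1)])]) (.nil))))) (.cons (.ref 33 [(0, [(35, 1)]), (0, [(34, 1)]), (0, [(32, 1)]), (0, [(11, 1)]), (0, [(8, 1)]), (0, [(7, 1)]), (0, [(6, 1)]), (0, [(30, 2), (13, 133), (0, 1)])]) (.cons (.node 3 (0) (0) (0) [.kid, .kid, .kid, .dead [(38, 133), (37, 133), (33, 2660), (14, 2640), (8, 2660), (2, 2660), (1, 2660), (0, 40)], .dead [(38, 33), (37, 33), (33, 665), (14, 665), (8, 660), (2, 665), (1, 660), (0, 10)], .dead [(38, 133), (37, 133), (33, 2640), (14, 2660), (8, 2660), (2, 2640), (1, 2660), (0, 40)], .red 1 17687 [(23, 1), (14, 1176252), (0, 133)], .red 1 132 [(14, 8844), (0, 1)], .dead [(38, 133),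 (37, 133), (25, 5280), (14, 5300), (8, 2660), (1, 2660), (0, 5320)], .red 1 0 [(21, 1), (14, 67), (0, 1)], .dead [(33, 133), (21, 264), (14, 265), (2, 133), (0, 266)], .red 2 132 [(14, 8844), (0, 1)]] (.cons (.ref 34 [(0, [(38, 1)]), (0, [(37, 1)]), (0, [(36, 1)]), (0, [(35, 1)]), (0, [(34, 1)]), (0, [(33, 1)]), (0, [(13, 1)]), (0, [(12, 1)]), (0, [(11, 1)]), (0, [(10, 1)]), (0, [(9, 1)]), (0, [(8, 1)]), (0, [(6, 1)]), (0, [(5, 1)]), (0, [(31, 264), (2, 265), (1, 133), (0, 266)]), (0, [(30, 264), (2, 133), (1, 265), (0, 266)])]) (.cons (.ref 35 [(0, [(38, 1)]), (0, [(37, 1)]), (0, [(36, 1)]), (0, [(35, 1)]), (0, [(34, 1)]), (0, [(33, 1)]), (0, [(13, 1)]), (0, [(12, 1)]), (0, [(11, 1)]), (0, [(10, 1)]), (0, [(9, 1)]), (0, [(8, 1)]), (0, [(7, 1)]), (0, [(6, 1)]), (0, [(5, 1)]), (0, [(30, 264), (3, 133), (1, 265), (0, 266)]), (0, [(3, 133), (2, 132), (1, 133), (0, 2)])]) (.cons (.node 1 (0) (1) (1) [.dead [(33, 1), (32, 1),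 (31, 1), (0, 199)], .kid, .kid, .kid] (.cons (nB_4) (.cons (.ref 83 [(0, [(39, 1)]), (0, [(38, 1)]), (0, [(37, 1)]), (0, [(36, 1)]), (0, [(35, 1)]), (0, [(34, 1)]), (0, [(14, 1)]), (0, [(13, 1)]), (0, [(12, 1)]), (0, [(11, 1)]), (0, [(10, 1)]), (0, [(9, 1)]), (0, [(8, 1)]), (0, [(7, 1)]), (0, [(6, 1)]), (0, [(32, 2), (15, 133), (0, 1)]), (0, [(32, 264), (4, 133), (1, 266), (0, 265)]), (0, [(4, 133), (2, 132), (1, 2), (0, 133)])]) (.cons (.ref 84 [(0, [(39, 1)]), (0, [(38, 1)]), (0, [(37, 1)]), (0, [(36, 1)]), (0, [(35, 1)]), (0, [(34, 1)]), (0, [(14, 1)]), (0, [(13, 1)]), (0, [(12, 1)]), (0, [(11, 1)]), (0, [(10, 1)]), (0, [(9, 1)]), (0, [(8, 1)]), (0, [(7, 1)]), (0, [(6, 1)]), (0, [(31, 2), (15, 133), (0, 1)]), (0, [(32, 264), (4, 133), (3, 265), (1, 266)]), (0, [(4, 133), (3, 133), (1, 2), (0, 132)])]) (.nil))))) (.nil))))) (.nil))))) (.cons (.ref 85 [(0, [(36, 1)]), (0, [(35, 1)]), (0, [(33, 1)]), (0, [(32, 1)]), (0,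 [(31, 1)]), (0, [(7, 1)]), (0, [(6, 1)]), (0, [(5, 1)]), (0, [(4, 1)]), (0, [(3, 1)]), (0, [(28, 2), (12, 133), (0, 1)])]) (.nil))))

/-- a subtree -/
def nB_6 : T := .node 0 (0) (1) (-1) [.dead [(31, 1), (1, 20), (0, 20)], .red 0 0 [(26, 1), (0, 1)], .kid, .dead [(26, 1), (0, 1)], .dead [(27, 1), (0, 1)], .kid, .dead [(27, 1), (0, 1)], .red 0 0 [(28, 1), (27, 1), (2, 1), (0, 1)], .dead [(27, 1), (26, 1), (0, 1)], .dead [(27, 1), (26, 1), (0, 1)], .kid, .kid, .dead [(31, 1), (26, 20), (1, 20), (0, 20)], .dead [(26, 1), (0, 1)]] (.cons (.node 0 (1) (-1) (-1) [.red 1 0 [(29, 1), (0, 1)], .dead [(27, 1), (2, 1), (0, 1)], .dead [(29, 1), (0, 1)], .red 1 0 [(29, 1), (3, 1), (2, 1), (0, 1)], .dead [(29, 1), (4, 1), (0, 2)], .kid, .dead [(29, 1), (0, 1)], .dead [(29, 1), (27, 1), (2, 1), (0, 1)], .dead [(32, 1), (31, 2), (4, 20), (1, 20), (0, 20)], .dead [(31, 1), (27, 20), (4, 20), (2, 20), (0, 20)], .red 0 0 [(29, 1), (0, 1)],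 .red 0 0 [(29, 1), (27, 1), (2, 2), (1, 1), (0, 1)], .kid, .red 0 9 [(31, 1), (3, 10), (2, 10), (1, 10), (0, 10)]] (.cons (.node 0 (1) (0) (-1) [.kid, .dead [(28, 1), (0, 1)], .red 1 0 [(30, 1), (0, 1)], .dead [(6, 1), (0, 1)], .dead [(30, 1), (5, 1), (0, 2)], .kid, .dead [(30, 1), (0, 1)], .dead [(30, 1), (28, 1), (0, 1)], .dead [(33, 1), (30, 20), (6, 40), (5, 20), (0, 40)], .dead [(28, 1), (5, 1), (0, 1)], .kid, .red 1 1 [(30, 1), (28, 1), (0, 1)], .red 2 0 [(6, 2), (0, 1)], .dead [(28, 1), (0, 1)]] (.cons (.ref 0 [(0, [(33, 1)]), (0, [(32, 1)]), (0, [(31, 1)]), (0, [(30, 1)]), (0, [(29, 1)]), (0, [(8, 1)]), (0, [(7, 1)]), (0, [(6, 1)]), (0, [(5, 1)]), (0, [(4, 1)]), (0, [(3, 1)]), (0, [(2, 1)]), (0, [(1, 1)]), (0, [(0, 1)])]) (.cons (.ref 1 [(0, [(33, 1)]), (0, [(32, 1)]), (0, [(31, 1)]), (0, [(30, 1)]), (0, [(29, 1)]), (0, [(28, 1)]), (0, [(8, 1)]), (0, [(7, 1)]), (0, [(6, 1)]), (0, [(5, 1)]), (0, [(4, 1)]), (0, [(3,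 1)]), (0, [(2, 1)]), (0, [(0, 1)])]) (.cons (.ref 2 [(0, [(33, 1)]), (0, [(32, 1)]), (0, [(31, 1)]), (0, [(30, 1)]), (0, [(29, 1)]), (0, [(28, 1)]), (0, [(8, 1)]), (0, [(7, 1)]), (0, [(6, 1)]), (0, [(5, 1)]), (0, [(4, 1)]), (0, [(3, 1)]), (0, [(2, 1)]), (0, [(1, 1)]), (0, [(0, 1)])]) (.nil))))) (.cons (.node 0 (1) (0) (-1) [.kid, .dead [(28, 1), (0, 1)], .red 1 0 [(30, 1), (0, 1)], .dead [(6, 1), (0, 1)], .dead [(30, 1), (5, 1), (0, 2)], .kid, .dead [(30, 1), (0, 1)], .dead [(29, 1), (1, 1), (0, 1)], .dead [(33, 1), (30, 20), (6, 40), (5, 20), (0, 40)], .dead [(28, 1), (5, 1), (0, 1)], .kid, .red 1 1 [(30, 1), (28, 1), (0, 1)], .red 2 0 [(6, 2), (0, 1)], .dead [(28, 1), (0, 1)]] (.cons (.ref 3 [(0, [(33, 1)]), (0, [(32, 1)]), (0, [(31, 1)]), (0, [(30, 1)]), (0, [(29, 1)]), (0, [(8, 1)]), (0, [(7, 1)]), (0, [(6, 1)]), (0, [(5, 1)]), (0, [(4, 1)]), (0, [(3, 1)]), (0, [(2, 1)]), (0, [(0, 1)])]) (.cons (.ref 4 [(0, [(33, 1)]),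 (0, [(32, 1)]), (0, [(31, 1)]), (0, [(30, 1)]), (0, [(29, 1)]), (0, [(28, 1)]), (0, [(8, 1)]), (0, [(7, 1)]), (0, [(6, 1)]), (0, [(5, 1)]), (0, [(4, 1)]), (0, [(3, 1)]), (0, [(2, 1)]), (0, [(1, 1)]), (0, [(0, 1)])]) (.cons (.ref 5 [(0, [(33, 1)]), (0, [(32, 1)]), (0, [(31, 1)]), (0, [(30, 1)]), (0, [(29, 1)]), (0, [(28, 1)]), (0, [(8, 1)]), (0, [(7, 1)]), (0, [(6, 1)]), (0, [(5, 1)]), (0, [(4, 1)]), (0, [(3, 1)]), (0, [(2, 1)]), (0, [(1, 1)]), (0, [(0, 1)])]) (.nil))))) (.nil)))) (.cons (.node 0 (1) (-1) (-1) [.red 1 0 [(29, 1), (0, 1)], .dead [(27, 1), (2, 1), (0, 1)], .dead [(29, 1), (0, 1)], .red 1 0 [(29, 1), (3, 1), (2, 1), (0, 1)], .dead [(29, 1), (4, 1), (0, 2)], .kid, .dead [(29, 1), (0, 1)], .dead [(29, 1), (27, 1), (2, 1), (0, 1)], .dead [(32, 1), (31, 2), (29, 20), (5, 40), (4, 20), (0, 40)], .dead [(31, 1), (27, 20), (4, 20), (2, 20), (0, 20)], .red 0 0 [(29, 1), (0, 1)], .dead [(30, 1), (29, 20), (27, 20), (2,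 20), (1, 20), (0, 20)], .kid, .red 0 14 [(31, 1), (27, 10), (5, 10), (3, 10), (2, 20), (1, 5), (0, 20)]] (.cons (.ref 6 [(0, [(32, 1)]), (0, [(31, 1)]), (0, [(30, 1)]), (0, [(29, 1)]), (0, [(27, 1)]), (0, [(7, 1)]), (0, [(6, 1)]), (0, [(5, 1)]), (0, [(4, 1)]), (0, [(3, 1)]), (0, [(2, 1)]), (0, [(1, 1)]), (0, [(0, 1)])]) (.cons (.node 0 (1) (0) (-1) [.kid, .dead [(28, 1), (0, 1)], .red 1 0 [(30, 1), (0, 1)], .dead [(6, 1), (0, 1)], .dead [(30, 1), (5, 1), (0, 2)], .kid, .dead [(30, 1), (0, 1)], .dead [(32, 1), (30, 10), (28, 10), (2, 20), (1, 20), (0, 30)], .dead [(33, 1), (30, 20), (6, 40), (5, 20), (0, 40)], .dead [(28, 1), (5, 1), (0, 1)], .kid, .red 1 59 [(32, 1), (30, 10), (28, 10), (2, 20), (1, 20), (0, 30)], .red 2 0 [(6, 2), (0, 1)], .dead [(28, 1), (0, 1)]] (.cons (.ref 7 [(0, [(33, 1)]), (0, [(32, 1)]), (0, [(31, 1)]), (0, [(30, 1)]), (0, [(28, 1)]), (0, [(8, 1)]), (0, [(7, 1)]), (0, [(6, 1)]), (0, [(5, 1)]), (0,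 [(4, 1)]), (0, [(3, 1)]), (0, [(2, 1)]), (0, [(0, 1)])]) (.cons (.ref 8 [(0, [(33, 1)]), (0, [(32, 1)]), (0, [(31, 1)]), (0, [(30, 1)]), (0, [(28, 1)]), (0, [(8, 1)]), (0, [(7, 1)]), (0, [(6, 1)]), (0, [(5, 1)]), (0, [(4, 1)]), (0, [(3, 1)]), (0, [(2, 1)]), (0, [(1, 1)]), (0, [(0, 1)])]) (.cons (.ref 9 [(0, [(33, 1)]), (0, [(32, 1)]), (0, [(31, 1)]), (0, [(30, 1)]), (0, [(28, 1)]), (0, [(8, 1)]), (0, [(7, 1)]), (0, [(6, 1)]), (0, [(5, 1)]), (0, [(4, 1)]), (0, [(3, 1)]), (0, [(2, 1)]), (0, [(1, 1)]), (0, [(0, 1)])]) (.nil))))) (.nil)))) (.cons (.ref 10 [(0, [(31, 1)]), (0, [(30, 1)]), (0, [(29, 1)]), (0, [(28, 1)]), (0, [(27, 1)]), (0, [(26, 1)]), (0, [(6, 1)]), (0, [(5, 1)]), (0, [(4, 1)]), (0, [(3, 1)]), (0, [(2, 1)]), (0, [(1, 1)]), (0, [(0, 1)])]) (.cons (.node 0 (1) (0) (-1) [.kid, .dead [(27, 1), (0, 1)], .red 1 0 [(29, 1), (0, 1)], .dead [(5, 1), (0, 1)], .dead [(29, 1), (4, 1), (0, 2)], .kid, .dead [(29, 1), (0, 1)],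 .dead [(29, 1), (27, 1), (0, 1)], .dead [(32, 1), (29, 20), (5, 40), (4, 20), (0, 40)], .dead [(27, 1), (4, 1), (0, 1)], .kid, .red 1 1 [(29, 1), (27, 1), (0, 1)], .red 2 0 [(5, 2), (0, 1)], .dead [(27, 1), (0, 1)]] (.cons (.ref 11 [(0, [(32, 1)]), (0, [(31, 1)]), (0, [(30, 1)]), (0, [(29, 1)]), (0, [(28, 1)]), (0, [(27, 1)]), (0, [(7, 1)]), (0, [(6, 1)]), (0, [(5, 1)]), (0, [(4, 1)]), (0, [(3, 1)]), (0, [(2, 1)]), (0, [(1, 1)]), (0, [(0, 1)])]) (.cons (.ref 12 [(0, [(32, 1)]), (0, [(31, 1)]), (0, [(30, 1)]), (0, [(29, 1)]), (0, [(28, 1)]), (0, [(27, 1)]), (0, [(7, 1)]), (0, [(6, 1)]), (0, [(5, 1)]), (0, [(4, 1)]), (0, [(3, 1)]), (0, [(2, 1)]), (0, [(1, 1)]), (0, [(0, 1)])]) (.cons (.node 0 (1) (-1) (-1) [.red 1 0 [(30, 1), (0, 1)], .dead [(28, 1), (3, 1), (0, 1)], .dead [(30, 1), (0, 1)], .red 1 19 [(33, 1), (32, 1), (3, 20), (1, 20), (0, 40)], .dead [(30, 1), (5, 1), (0, 2)], .kid, .dead [(30, 1), (0, 1)], .dead [(30,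 1), (28, 1), (3, 1), (0, 1)], .dead [(33, 2), (32, 1), (1, 20), (0, 20)], .dead [(29, 1), (1, 1), (0, 1)], .red 0 0 [(30, 1), (0, 1)], .red 0 1 [(30, 3), (28, 1), (3, 4), (1, 1), (0, 2)], .kid, .red 0 29 [(32, 2), (28, 15), (6, 10), (4, 20), (3, 30), (2, 5), (1, 5), (0, 35)]] (.cons (.ref 13 [(0, [(33, 1)]), (0, [(32, 1)]), (0, [(31, 1)]), (0, [(30, 1)]), (0, [(29, 1)]), (0, [(28, 1)]), (0, [(8, 1)]), (0, [(7, 1)]), (0, [(6, 1)]), (0, [(5, 1)]), (0, [(4, 1)]), (0, [(3, 1)]), (0, [(2, 1)]), (0, [(1, 1)]), (0, [(0, 1)])]) (.cons (.node 1 (-1) (2) (1) [.dead [(31, 199), (28, 1), (27, 1), (26, 1), (0, 199)], .kid, .kid, .kid] (.cons (.node 1 (-1) (1) (1) [.kid, .kid, .kid, .dead [(35, 133), (34, 133), (18, 40), (11, 20), (5, 2660), (3, 2660), (0, 2660)]] (.cons (.ref 14 [(0, [(35, 1)]), (0, [(32, 1)]), (0, [(7, 1)]), (0, [(5, 1)]), (0, [(4, 1)]), (0, [(3, 1)]), (0, [(2, 1)]), (0, [(29, 1), (28, 1), (27, 1), (0, 199)])]) (.cons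 (nB_5) (.cons (.ref 86 [(0, [(35, 1)]), (0, [(34, 1)]), (0, [(33, 1)]), (0, [(32, 1)]), (0, [(31, 1)]), (0, [(30, 1)]), (0, [(10, 1)]), (0, [(9, 1)]), (0, [(7, 1)]), (0, [(6, 1)]), (0, [(5, 1)]), (0, [(4, 1)]), (0, [(3, 1)]), (0, [(2, 1)]), (0, [(28, 2), (11, 133), (0, 1)])]) (.nil))))) (.cons (.ref 87 [(0, [(34, 1)]), (0, [(33, 1)]), (0, [(32, 1)]), (0, [(31, 1)]), (0, [(30, 1)]), (0, [(29, 1)]), (0, [(8, 1)]), (0, [(5, 1)]), (0, [(4, 1)]), (0, [(3, 1)]), (0, [(2, 1)]), (0, [(1, 1)]), (0, [(27, 2), (10, 133), (0, 1)])]) (.cons (.ref 88 [(0, [(34, 1)]), (0, [(33, 1)]), (0, [(32, 1)]), (0, [(31, 1)]), (0, [(30, 1)]), (0, [(29, 1)]), (0, [(9, 1)]), (0, [(8, 1)]), (0, [(7, 1)]), (0, [(6, 1)]), (0, [(5, 1)]), (0, [(4, 1)]), (0, [(3, 1)]), (0, [(2, 1)]), (0, [(1, 1)]), (0, [(26, 2), (10, 133), (0, 1)])]) (.nil))))) (.nil)))) (.nil))))) (.nil)))))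

/-- a subtree -/
def nB_0 : T := .node 0 (1) (-1) (0) [.kid, .dead [(26, 1), (0, 1)], .dead [(27, 1), (0, 1)], .kid, .dead [(27, 1), (2, 1), (0, 2)], .red 0 0 [(26, 1), (0, 1)], .dead [(27, 1), (0, 1)], .dead [(27, 1), (26, 1), (0, 1)], .kid, .dead [(26, 1), (2, 1), (0, 1)], .red 0 0 [(27, 2), (4, 1), (0, 1)], .dead [(27, 1), (26, 1), (0, 1)], .kid, .dead [(26, 1), (0, 1)]] (.cons (nB_6) (.cons (.ref 89 [(0, [(30, 1)]), (0, [(29, 1)]), (0, [(28, 1)]), (0, [(5, 1)]), (0, [(4, 1)]), (0, [(3, 1)]), (0, [(2, 1)]), (0, [(1, 1)]), (0, [(0, 1)])]) (.cons (.node 0 (1) (0) (-1) [.kid, .dead [(26, 1), (0, 1)], .dead [(30, 1), (28, 20), (1, 20), (0, 40)], .dead [(4, 1), (0, 1)], .dead [(28, 1), (3, 1), (0, 2)], .kid, .dead [(28, 1), (0, 1)], .dead [(28, 1), (26, 1), (0, 1)], .dead [(31, 1), (28, 20), (4, 40), (3, 20), (0, 40)], .dead [(26, 1), (3, 1), (0, 1)], .kid, .dead [(30, 1), (26, 20), (1, 20), (0, 20)], .red 2 0 [(4, 2), (0,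 1)], .dead [(26, 1), (0, 1)]] (.cons (.ref 90 [(0, [(31, 1)]), (0, [(30, 1)]), (0, [(29, 1)]), (0, [(28, 1)]), (0, [(26, 1)]), (0, [(6, 1)]), (0, [(5, 1)]), (0, [(4, 1)]), (0, [(3, 1)]), (0, [(2, 1)]), (0, [(1, 1)]), (0, [(0, 1)])]) (.cons (.ref 91 [(0, [(31, 1)]), (0, [(30, 1)]), (0, [(29, 1)]), (0, [(28, 1)]), (0, [(26, 1)]), (0, [(6, 1)]), (0, [(5, 1)]), (0, [(4, 1)]), (0, [(3, 1)]), (0, [(2, 1)]), (0, [(1, 1)]), (0, [(0, 1)])]) (.cons (.ref 92 [(0, [(31, 1)]), (0, [(30, 1)]), (0, [(29, 1)]), (0, [(28, 1)]), (0, [(26, 1)]), (0, [(6, 1)]), (0, [(5, 1)]), (0, [(4, 1)]), (0, [(3, 1)]), (0, [(2, 1)]), (0, [(1, 1)]), (0, [(0, 1)])]) (.nil))))) (.cons (.node 0 (0) (1) (-1) [.dead [(31, 1), (27, 20), (6, 20), (1, 20), (0, 60)], .red 0 0 [(26, 1), (0, 1)], .kid, .dead [(26, 1), (0, 1)], .dead [(27, 1), (0, 1)], .kid, .dead [(27, 1), (0, 1)], .red 0 0 [(28, 1), (27, 1), (2, 1), (0, 1)], .dead [(27, 1), (26, 1), (0, 1)], .dead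 [(27, 1), (26, 1), (0, 1)], .kid, .kid, .dead [(31, 1), (29, 1), (4, 20), (1, 20), (0, 20)], .dead [(26, 1), (0, 1)]] (.cons (.ref 93 [(0, [(31, 1)]), (0, [(30, 1)]), (0, [(29, 1)]), (0, [(28, 1)]), (0, [(27, 1)]), (0, [(26, 1)]), (0, [(6, 1)]), (0, [(5, 1)]), (0, [(4, 1)]), (0, [(3, 1)]), (0, [(2, 1)]), (0, [(1, 1)]), (0, [(0, 1)])]) (.cons (.ref 94 [(0, [(31, 1)]), (0, [(30, 1)]), (0, [(29, 1)]), (0, [(28, 1)]), (0, [(27, 1)]), (0, [(26, 1)]), (0, [(6, 1)]), (0, [(5, 1)]), (0, [(4, 1)]), (0, [(3, 1)]), (0, [(2, 1)]), (0, [(1, 1)]), (0, [(0, 1)])]) (.cons (.ref 95 [(0, [(31, 1)]), (0, [(30, 1)]), (0, [(29, 1)]), (0, [(28, 1)]), (0, [(27, 1)]), (0, [(26, 1)]), (0, [(6, 1)]), (0, [(5, 1)]), (0, [(4, 1)]), (0, [(3, 1)]), (0, [(2, 1)]), (0, [(1, 1)]), (0, [(0, 1)])]) (.cons (.ref 96 [(0, [(31, 1)]), (0, [(30, 1)]), (0, [(29, 1)]), (0, [(28, 1)]), (0, [(27, 1)]), (0, [(26, 1)]), (0, [(6, 1)]), (0, [(5, 1)]), (0, [(4, 1)]), (0,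 [(3, 1)]), (0, [(2, 1)]), (0, [(1, 1)]), (0, [(0, 1)])]) (.nil)))))) (.nil)))))

end Pool.Agent.Helper58.KB
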