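import Pool.Agent.Helper58.KB.TrC_0
import Pool.Agent.Helper58.KB.TrC_1
import Pool.Agent.Helper58.KB.TrC_2
import Pool.Agent.Helper58.KB.TrC_3
import Pool.Agent.Helper58.KB.TrC_4
import Pool.Agent.Helper58.KB.TrC_5
import Pool.Agent.Helper58.KB.TrC_6
import Pool.Agent.Helper58.KB.TrC_7
import Pool.Agent.Helper58.KB.TrC_8
set_option autoImplicit false
set_option maxRecDepth 100000
namespace Pool.Agent.Helper58.KB

/-- all lists of forms -/
def FsC : List (List (List ℤ)) := FC_0 ++ (FC_1 ++ (FC_2 ++ (FC_3 ++ (FC_4 ++ (FC_5 ++ (FC_6 ++ (FC_7 ++ (FC_8))))))))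

theorem hFsC : ∀ F ∈ FsC, Valid GC F :=
  List.forall_mem_append.2 ⟨hFC_0, List.forall_mem_append.2 ⟨hFC_1, List.forall_mem_append.2 ⟨hFC_2, List.forall_mem_append.2 ⟨hFC_3, List.forall_mem_append.2 ⟨hFC_4, List.forall_mem_append.2 ⟨hFC_5, List.forall_mem_append.2 ⟨hFC_6, List.forall_mem_append.2 ⟨hFC_7, hFC_8⟩⟩⟩⟩⟩⟩⟩⟩

/-- a subtree -/
def nC_1 : T := .node 1 (1) (2) (2) [.dead [(26, 199), (24, 398), (23, 1), (22, 1), (21, 1), (3, 398), (0, 199)], .kid, .kid, .kid] (.cons (.split [0, 0, 0, 1024, 0, 0, 0, 0, 0, -1024] (.ref 20 [(0, [(30, 1)]), (0, [(29, 1)]), (0, [(28, 1)]), (0, [(27, 1)]), (0, [(26, 1)]), (0, [(25, 1)]), (0, [(4, 1)]), (0, [(3, 1)]), (1023, [(0, 1)])]) (.node 1 (1) (1) (1) [.dead [(28, 132), (26, 131), (25, 2), (5, 135), (4, 4), (2, 1), (0, 133)], .kid, .kid, .kid] (.cons (.ref 21 [(0, [(31, 1)]), (0, [(30, 1)]), (0, [(29, 1)]), (0, [(28, 1)]), (0, [(27, 1)]),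 (0, [(26, 1)]), (0, [(5, 1)]), (0, [(4, 1)]), (1023, [(1, 1)]), (0, [(25, 2), (7, 133), (0, 1)])]) (.cons (.node 1 (1) (0) (0) [.kid, .dead [(23, 2), (8, 1), (0, 133)], .kid, .kid] (.cons (.ref 22 [(0, [(31, 1)]), (0, [(30, 1)]), (0, [(29, 1)]), (0, [(28, 1)]), (0, [(27, 1)]), (0, [(6, 1)]), (0, [(5, 1)]), (1023, [(2, 1)]), (0, [(25, 2), (4, 1), (0, 133)]), (1, [(26, 2), (3, 1), (0, 133)]), (0, [(25, 2), (1, 1), (0, 133)]), (0, [(26, 1), (25, 1), (24, 1), (0, 199)])]) (.cons (.node 1 (1) (2) (1) [.dead [(30, 199), (28, 199), (27, 1), (26, 1), (25, 1), (7, 398), (0, 199)], .kid, .kid, .kid] (.cons (.split [0, 0, 0, 0, 0, 0, 1024, 0, 0, -1024] (.node 0 (1) (1) (1) [.kid, .dead [(35, 1), (9, 20), (8, 20), (0, 20)], .dead [(34, 256), (1, 5), (0, 5120)], .dead [(30, 1024), (5, 1), (0, 1024)], .kid, .dead [(32, 1), (0, 1)], .kid, .dead [(33, 256), (31, 5120), (8, 5120), (1, 5), (0, 5120)],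 .kid, .dead [(31, 1024), (30, 1024), (5, 1), (0, 1024)], .dead [(34, 256), (32, 5120), (1, 5), (0, 5120)], .dead [(22, 2), (11, 1), (4, 133), (0, 133)], .dead [(32, 133), (26, 2), (11, 1), (6, 133), (0, 266)], .dead [(32, 1), (30, 1), (9, 1), (0, 1)]] (.cons (.ref 23 [(0, [(35, 1)]), (0, [(34, 1)]), (0, [(33, 1)]), (0, [(32, 1)]), (0, [(31, 1)]), (0, [(30, 1)]), (1023, [(5, 1)]), (1023, [(1, 1)]), (0, [(0, 1)])]) (.cons (.ref 24 [(0, [(35, 1)]), (0, [(34, 1)]), (0, [(33, 1)]), (0, [(32, 1)]), (0, [(31, 1)]), (0, [(30, 1)]), (0, [(9, 1)]), (0, [(8, 1)]), (1023, [(5, 1)]), (1023, [(1, 1)]), (0, [(0, 1)])]) (.cons (.ref 25 [(0, [(35, 1)]), (0, [(34, 1)]), (0, [(33, 1)]), (0, [(32, 1)]), (0, [(31, 1)]), (0, [(30, 1)]), (0, [(9, 1)]), (0, [(8, 1)]), (1023, [(5, 1)]), (1023, [(1, 1)]), (0, [(0, 1)])]) (.cons (.ref 26 [(0, [(35, 1)]), (0, [(34, 1)]), (0, [(33, 1)]), (0, [(32, 1)]), (0,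 [(31, 1)]), (0, [(30, 1)]), (0, [(9, 1)]), (0, [(8, 1)]), (1023, [(5, 1)]), (1023, [(1, 1)]), (0, [(0, 1)])]) (.nil)))))) (.ref 27 [(0, [(34, 1)]), (0, [(33, 1)]), (0, [(32, 1)]), (0, [(31, 1)]), (0, [(30, 1)]), (0, [(29, 1)]), (0, [(8, 1)]), (0, [(7, 1)]), (1023, [(4, 1)]), (1023, [(0, 1)]), (0, [(27, 2), (10, 133), (3, 1)])])) (.cons (.node 1 (0) (1) (0) [.dead [(34, 33792), (29, 5120), (27, 10240), (8, 670720), (4, 5), (1, 5120), (0, 680960)], .kid, .kid, .kid] (.cons (.node 1 (1) (1) (0) [.dead [(32, 67584), (30, 512), (28, 1024), (9, 67072), (5, 1), (2, 512), (0, 68096)], .kid, .kid, .kid] (.cons (.ref 28 [(0, [(35, 1)]), (0, [(34, 1)]), (0, [(33, 1)]), (0, [(31, 1)]), (0, [(30, 1)]), (0, [(9, 1)]), (0, [(8, 1)]), (1023, [(5, 1)]), (0, [(29, 2), (11, 133), (0, 1)]), (0, [(28, 2), (11, 133), (2, 1)])]) (.cons (.ref 29 [(0, [(35, 1)]), (0, [(34, 1)]), (0, [(33, 1)]), (0, [(32,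 1)]), (0, [(31, 1)]), (0, [(30, 1)]), (0, [(9, 1)]), (0, [(8, 1)]), (1023, [(5, 1)]), (0, [(28, 2), (11, 133), (2, 1)]), (0, [(28, 2), (11, 133), (0, 1)])]) (.cons (.ref 30 [(0, [(35, 1)]), (0, [(34, 1)]), (0, [(33, 1)]), (0, [(32, 1)]), (0, [(31, 1)]), (0, [(30, 1)]), (0, [(9, 1)]), (0, [(8, 1)]), (1023, [(5, 1)]), (0, [(28, 2), (11, 133), (2, 1)]), (0, [(11, 1), (6, 1), (2, 1), (0, 1)]), (0, [(11, 1), (6, 1), (3, 1), (0, 1)]), (0, [(11, 1), (7, 1), (1, 1), (0, 1)]), (0, [(11, 1), (2, 1), (1, 1), (0, 1)])]) (.nil))))) (.cons (.ref 31 [(0, [(34, 1)]), (0, [(32, 1)]), (0, [(31, 1)]), (0, [(30, 1)]), (0, [(29, 1)]), (0, [(7, 1)]), (1023, [(4, 1)]), (0, [(27, 2), (10, 133), (0, 1)])]) (.cons (.ref 32 [(0, [(34, 1)]), (0, [(33, 1)]), (0, [(32, 1)]), (0, [(31, 1)]), (0, [(30, 1)]), (0, [(29, 1)]), (0, [(8, 1)]), (0, [(7, 1)]), (1023, [(4, 1)]), (0, [(27, 2), (10, 133), (1, 1)]), (0,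 [(10, 1), (6, 1), (5, 1), (0, 1)]), (0, [(10, 1), (5, 1), (1, 1), (0, 1)]), (0, [(10, 1), (5, 1), (2, 1), (0, 1)]), (0, [(10, 1), (9, 1), (1, 1), (0, 1)]), (0, [(10, 1), (9, 1), (2, 1), (0, 1)])]) (.nil))))) (.cons (.ref 33 [(0, [(33, 1)]), (0, [(32, 1)]), (0, [(31, 1)]), (0, [(30, 1)]), (0, [(29, 1)]), (0, [(28, 1)]), (0, [(7, 1)]), (0, [(6, 1)]), (1023, [(3, 1)]), (0, [(25, 2), (9, 133), (0, 1)]), (0, [(26, 2), (9, 133), (2, 1)]), (1, [(9, 1), (5, 1), (4, 1), (0, 1)]), (0, [(9, 1), (4, 1), (1, 1), (0, 1)]), (0, [(9, 1), (8, 1), (5, 1), (0, 1)]), (0, [(9, 1), (8, 1), (1, 1), (0, 1)])]) (.nil))))) (.cons (.split [0, 0, 0, 0, 0, 1024, 0, 0, 0, -1024] (.ref 34 [(0, [(33, 1)]), (0, [(32, 1)]), (0, [(31, 1)]), (0, [(30, 1)]), (0, [(29, 1)]), (0, [(28, 1)]), (0, [(7, 1)]), (0, [(6, 1)]), (1023, [(3, 1)]), (1023, [(0, 1)])]) (.split [0, 0, 0, 0, 0, 0, 0, 1024, 0, -1024] (.node 1 (1)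 (2) (1) [.dead [(32, 199), (30, 199), (29, 1), (28, 1), (27, 1), (9, 398), (0, 199)], .kid, .kid, .kid] (.cons (.ref 35 [(0, [(35, 1)]), (0, [(34, 1)]), (0, [(33, 1)]), (0, [(32, 1)]), (0, [(31, 1)]), (0, [(30, 1)]), (0, [(9, 1)]), (0, [(8, 1)]), (1023, [(2, 1)]), (1023, [(1, 1)]), (0, [(28, 2), (11, 133), (4, 1)]), (1, [(11, 1), (7, 1), (3, 1), (0, 1)]), (0, [(11, 1), (4, 1), (3, 1), (0, 1)])]) (.cons (.ref 36 [(0, [(35, 1)]), (0, [(34, 1)]), (0, [(33, 1)]), (0, [(32, 1)]), (0, [(31, 1)]), (0, [(30, 1)]), (0, [(9, 1)]), (0, [(8, 1)]), (1023, [(2, 1)]), (1023, [(1, 1)]), (0, [(28, 2), (11, 133), (0, 1)]), (0, [(11, 1), (6, 1), (3, 1), (0, 1)]), (0, [(11, 1), (10, 1), (3, 1), (0, 1)])]) (.cons (.ref 37 [(0, [(35, 1)]), (0, [(34, 1)]), (0, [(33, 1)]), (0, [(32, 1)]), (0, [(31, 1)]), (0, [(30, 1)]), (0, [(9, 1)]), (0, [(8, 1)]), (1023, [(2, 1)]), (1023, [(1, 1)]), (0, [(28, 2), (11,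 133), (4, 1)]), (0, [(11, 1), (7, 1), (6, 1), (3, 1)]), (1, [(11, 1), (7, 1), (6, 1), (0, 1)]), (0, [(11, 1), (6, 1), (4, 1), (3, 1)]), (0, [(11, 1), (10, 1), (7, 1), (0, 1)]), (0, [(11, 1), (6, 1), (4, 1), (0, 1)])]) (.nil))))) (.ref 38 [(0, [(34, 1)]), (0, [(33, 1)]), (0, [(32, 1)]), (0, [(31, 1)]), (0, [(30, 1)]), (0, [(29, 1)]), (0, [(8, 1)]), (0, [(7, 1)]), (1023, [(4, 1)]), (1023, [(1, 1)]), (1023, [(0, 1)]), (0, [(27, 2), (10, 133), (3, 1)]), (0, [(10, 1), (6, 1), (5, 1), (2, 1)]), (0, [(10, 1), (5, 1), (3, 1), (2, 1)]), (0, [(10, 1), (9, 1), (6, 1), (2, 1)])]))) (.nil))))) (.cons (.ref 39 [(0, [(31, 1)]), (0, [(30, 1)]), (0, [(29, 1)]), (0, [(28, 1)]), (0, [(27, 1)]), (0, [(26, 1)]), (0, [(5, 1)]), (0, [(4, 1)]), (1023, [(1, 1)]), (0, [(23, 2), (7, 133), (0, 1)]), (0, [(7, 1), (3, 1), (2, 1), (0, 1)])]) (.nil)))))) (.cons (.node 1 (1) (1) (1) [.dead [(27, 199), (25, 199),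 (24, 1), (23, 1), (22, 1), (4, 199), (0, 199)], .kid, .kid, .kid] (.cons (.ref 40 [(0, [(30, 1)]), (0, [(29, 1)]), (0, [(28, 1)]), (0, [(27, 1)]), (0, [(26, 1)]), (0, [(25, 1)]), (0, [(4, 1)]), (0, [(3, 1)]), (0, [(24, 2), (6, 133), (0, 1)]), (0, [(23, 2), (6, 133), (1, 1)])]) (.cons (.split [0, 0, 0, 0, 0, 1024, 0, 0, 0, -1024] (.ref 41 [(0, [(31, 1)]), (0, [(30, 1)]), (0, [(29, 1)]), (0, [(28, 1)]), (0, [(27, 1)]), (0, [(26, 1)]), (0, [(5, 1)]), (0, [(4, 1)]), (1023, [(0, 1)])]) (.node 1 (0) (1) (0) [.dead [(32, 199), (26, 20), (25, 20), (24, 20), (6, 3980), (0, 3980)], .kid, .dead [(19, 2048), (8, 1024), (1, 133), (0, 136192)], .kid] (.cons (.split [0, 0, 0, 1024, 0, 0, 0, 0, 0, -1024] (.ref 42 [(0, [(33, 1)]), (0, [(32, 1)]), (0, [(31, 1)]), (0, [(30, 1)]), (0, [(29, 1)]), (0, [(28, 1)]), (0, [(7, 1)]), (0, [(6, 1)]), (1023, [(2, 1)]), (1023, [(0, 1)])]) (.node 1 (1) (2) (1)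 [.dead [(31, 199), (29, 199), (28, 1), (27, 1), (26, 1), (8, 398), (0, 199)], .kid, .kid, .kid] (.cons (.node 1 (1) (0) (0) [.kid, .dead [(26, 2), (11, 1), (0, 133)], .kid, .kid] (.cons (.ref 43 [(0, [(34, 1)]), (0, [(33, 1)]), (0, [(32, 1)]), (0, [(30, 1)]), (0, [(9, 1)]), (0, [(8, 1)]), (1023, [(4, 1)]), (1023, [(2, 1)]), (0, [(28, 2), (7, 1), (0, 133)]), (0, [(29, 2), (1, 1), (0, 133)]), (1, [(28, 2), (6, 1), (0, 133)]), (0, [(28, 2), (5, 1), (0, 133)]), (0, [(29, 1), (28, 1), (27, 1), (0, 199)])]) (.cons (.node 1 (1) (1) (0) [.dead [(33, 199), (30, 1), (29, 1), (28, 1), (10, 199), (0, 199)], .kid, .kid, .kid] (.cons (.ref 44 [(0, [(36, 1)]), (0, [(35, 1)]), (0, [(34, 1)]), (0, [(32, 1)]), (0, [(31, 1)]), (0, [(10, 1)]), (0, [(9, 1)]), (1023, [(5, 1)]), (1023, [(3, 1)]), (0, [(30, 2), (12, 133), (0, 1)]), (0, [(29, 2), (12, 133), (7, 1)])]) (.cons (.ref 45 [(0, [(36, 1)]), (0,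 [(35, 1)]), (0, [(34, 1)]), (0, [(33, 1)]), (0, [(32, 1)]), (0, [(31, 1)]), (0, [(10, 1)]), (0, [(9, 1)]), (1023, [(5, 1)]), (1023, [(3, 1)]), (0, [(29, 2), (12, 133), (7, 1)]), (0, [(29, 2), (12, 133), (0, 1)])]) (.cons (.split [0, 0, 0, 0, 0, 0, 1024, 0, 0, -1024] (.node 0 (1) (1) (1) [.kid, .dead [(34, 2), (33, 2), (14, 1), (12, 2), (11, 2), (9, 1), (6, 1), (2, 1), (0, 6)], .dead [(37, 256), (1, 5), (0, 5120)], .dead [(33, 1024), (5, 1), (0, 1024)], .kid, .dead [(35, 1), (0, 1)], .kid, .dead [(36, 256), (34, 5120), (11, 5120), (1, 5), (0, 5120)], .kid, .dead [(33, 1024), (12, 1024), (7, 1), (5, 1), (0, 1024)], .dead [(37, 256), (35, 5120), (1, 5), (0, 5120)], .dead [(35, 133), (25, 2), (14, 1), (9, 133), (0, 266)], .dead [(35, 133), (33, 133), (29, 2), (14, 1), (4, 133), (0, 266)], .dead [(35, 1), (33, 1), (12, 1), (0, 1)]] (.cons (.ref 46 [(0, [(38, 1)]), (0, [(37, 1)]), (0,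 [(36, 1)]), (0, [(35, 1)]), (0, [(34, 1)]), (0, [(33, 1)]), (1023, [(7, 1)]), (1023, [(5, 1)]), (1023, [(1, 1)]), (0, [(0, 1)]), (0, [(14, 1), (4, 1), (3, 1), (2, 1)])]) (.cons (.ref 47 [(0, [(38, 1)]), (0, [(37, 1)]), (0, [(36, 1)]), (0, [(35, 1)]), (0, [(34, 1)]), (0, [(33, 1)]), (0, [(12, 1)]), (0, [(11, 1)]), (1023, [(7, 1)]), (1023, [(5, 1)]), (1023, [(1, 1)]), (0, [(0, 1)]), (0, [(14, 1), (4, 1), (3, 1), (2, 1)])]) (.cons (.ref 48 [(0, [(38, 1)]), (0, [(37, 1)]), (0, [(36, 1)]), (0, [(35, 1)]), (0, [(34, 1)]), (0, [(33, 1)]), (0, [(12, 1)]), (0, [(11, 1)]), (1023, [(7, 1)]), (1023, [(5, 1)]), (1023, [(1, 1)]), (0, [(0, 1)]), (0, [(31, 2), (14, 133), (9, 1)])]) (.cons (.ref 49 [(0, [(38, 1)]), (0, [(37, 1)]), (0, [(36, 1)]), (0, [(35, 1)]), (0, [(34, 1)]), (0, [(33, 1)]), (0, [(12, 1)]), (0, [(11, 1)]), (1023, [(7, 1)]), (1023, [(5, 1)]), (1023, [(1, 1)]), (0, [(0, 1)]), (0,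 [(14, 1), (4, 1), (3, 1), (2, 1)])]) (.nil)))))) (.ref 50 [(0, [(37, 1)]), (0, [(36, 1)]), (0, [(35, 1)]), (0, [(34, 1)]), (0, [(32, 1)]), (0, [(11, 1)]), (0, [(10, 1)]), (1023, [(6, 1)]), (1023, [(4, 1)]), (1023, [(0, 1)]), (0, [(30, 2), (13, 133), (8, 1)]), (0, [(13, 1), (3, 1), (2, 1), (1, 1)]), (0, [(13, 1), (9, 1), (5, 1), (1, 1)]), (1, [(13, 1), (8, 1), (5, 1), (1, 1)])])) (.nil))))) (.cons (.ref 51 [(0, [(35, 1)]), (0, [(34, 1)]), (0, [(33, 1)]), (0, [(32, 1)]), (0, [(31, 1)]), (0, [(30, 1)]), (0, [(9, 1)]), (0, [(8, 1)]), (1023, [(4, 1)]), (1023, [(2, 1)]), (1, [(11, 1), (7, 1), (1, 1), (0, 1)]), (0, [(11, 1), (5, 1), (1, 1), (0, 1)]), (0, [(11, 1), (6, 1), (3, 1), (0, 1)]), (0, [(11, 1), (5, 1), (3, 1), (0, 1)]), (0, [(11, 1), (7, 1), (3, 1), (0, 1)])]) (.nil))))) (.cons (.split [0, 0, 0, 0, 0, 0, 1024, 0, 0, -1024] (.node 1 (1) (1) (0) [.dead [(33, 67584), (31, 512),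 (29, 1024), (10, 67072), (3, 1), (2, 512), (0, 68096)], .kid, .kid, .kid] (.cons (.ref 52 [(0, [(36, 1)]), (0, [(35, 1)]), (0, [(34, 1)]), (0, [(32, 1)]), (0, [(31, 1)]), (0, [(10, 1)]), (0, [(9, 1)]), (1023, [(5, 1)]), (1023, [(3, 1)]), (1023, [(1, 1)]), (0, [(30, 2), (12, 133), (0, 1)]), (0, [(29, 2), (12, 133), (2, 1)])]) (.cons (.ref 53 [(0, [(36, 1)]), (0, [(35, 1)]), (0, [(34, 1)]), (0, [(33, 1)]), (0, [(32, 1)]), (0, [(31, 1)]), (0, [(10, 1)]), (0, [(9, 1)]), (1023, [(5, 1)]), (1023, [(3, 1)]), (1023, [(1, 1)]), (0, [(29, 2), (12, 133), (2, 1)]), (0, [(29, 2), (12, 133), (0, 1)])]) (.cons (.ref 54 [(0, [(36, 1)]), (0, [(35, 1)]), (0, [(34, 1)]), (0, [(33, 1)]), (0, [(32, 1)]), (0, [(31, 1)]), (0, [(10, 1)]), (0, [(9, 1)]), (1023, [(5, 1)]), (1023, [(3, 1)]), (1023, [(1, 1)]), (0, [(29, 2), (12, 133), (2, 1)]), (0, [(12, 1), (4, 1), (2, 1), (0, 1)])]) (.nil))))) (.ref 55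 [(0, [(35, 1)]), (0, [(34, 1)]), (0, [(33, 1)]), (0, [(32, 1)]), (0, [(31, 1)]), (0, [(30, 1)]), (0, [(9, 1)]), (0, [(8, 1)]), (1023, [(4, 1)]), (1023, [(2, 1)]), (1023, [(0, 1)]), (0, [(28, 2), (11, 133), (1, 1)])])) (.cons (.ref 56 [(0, [(34, 1)]), (0, [(33, 1)]), (0, [(32, 1)]), (0, [(31, 1)]), (0, [(30, 1)]), (0, [(29, 1)]), (0, [(8, 1)]), (0, [(7, 1)]), (1023, [(3, 1)]), (1023, [(1, 1)]), (0, [(27, 2), (10, 133), (5, 1)]), (0, [(10, 1), (6, 1), (2, 1), (0, 1)]), (1, [(10, 1), (4, 1), (2, 1), (0, 1)])]) (.nil)))))) (.cons (.ref 57 [(0, [(32, 1)]), (0, [(31, 1)]), (0, [(30, 1)]), (0, [(29, 1)]), (0, [(28, 1)]), (0, [(27, 1)]), (0, [(6, 1)]), (0, [(5, 1)]), (1023, [(1, 1)]), (0, [(25, 2), (8, 133), (3, 1)]), (0, [(8, 1), (7, 1), (3, 1), (0, 1)]), (0, [(8, 1), (7, 1), (2, 1), (0, 1)])]) (.nil))))) (.cons (.ref 58 [(0, [(30, 1)]), (0, [(29, 1)]), (0, [(28, 1)]), (0, [(27, 1)]),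 (0, [(26, 1)]), (0, [(25, 1)]), (0, [(4, 1)]), (0, [(3, 1)]), (0, [(23, 2), (6, 133), (1, 1)]), (0, [(22, 2), (6, 133), (0, 1)]), (0, [(6, 1), (5, 1), (2, 1), (0, 1)]), (1, [(6, 1), (5, 1), (1, 1), (0, 1)])]) (.nil))))) (.cons (.ref 59 [(0, [(29, 1)]), (0, [(28, 1)]), (0, [(27, 1)]), (0, [(26, 1)]), (0, [(25, 1)]), (0, [(24, 1)]), (0, [(3, 1)]), (0, [(2, 1)]), (0, [(21, 2), (5, 133), (0, 1)]), (0, [(5, 1), (4, 1), (1, 1), (0, 1)])]) (.nil))))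

/-- a subtree -/
def nC_2 : T := .node 3 (1) (0) (0) [.dead [(34, 66), (31, 1), (0, 1)], .red 1 611791487 [(34, 2335081), (32, 2334817), (29, 266), (10, 133), (3, 40686468902), (2, 262), (1, 35112), (0, 4635050)], .red 1 132 [(3, 8844), (0, 1)], .dead [(28, 1), (0, 1)], .dead [(27, 1), (0, 1)], .dead [(28, 17556), (4, 265), (3, 8712), (0, 17689)], .red 0 132 [(3, 8844), (0, 1)], .red 0 616496495 [(34, 2335081), (32, 2334817), (29, 266), (10, 133), (3, 40999351934), (2, 262), (1, 35112), (0, 4670162)], .red 0 174899 [(37, 33), (30, 660), (4, 670), (3, 11631180), (0, 1330)], .kid, .red 0 132 [(32, 66), (31, 132), (4, 132), (2, 1), (0, 132)], .kid] (.cons (.ref 98 [(0, [(37, 1)]), (0, [(36, 1)]), (0, [(35, 1)]), (0, [(34, 1)]), (0, [(33, 1)]), (0, [(32, 1)]), (0, [(11, 1)]), (0, [(10, 1)]), (0, [(8, 1)]), (0, [(31, 131), (7, 132), (4, 132), (2, 1)]), (27033896, [(31, 589081608192),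 (4, 593510793216), (2, 4496293888), (1, 8925478912)]), (9133957304, [(29, 301609783394304), (13, 20058184467087360), (1, 17179869184), (0, 2284922601472)]), (18900230, [(4, 4636803072), (2, 4637327360), (1, 4671930368), (0, 4602200064)]), (600182582, [(7, 9867116937216), (4, 148377698304), (2, 147278790656), (0, 146154717184)]), (0, [(7, 133), (4, 2), (3, 131), (2, 2)])]) (.cons (.split [0, 0, 0, 0, 0, 1024, 0, 0, 0, -1024] (.node 3 (1) (1) (0) [.dead [(35, 1), (33, 2), (13, 133), (0, 2)], .dead [(36, 265), (34, 133), (32, 264), (31, 264), (13, 34980), (9, 133), (5, 265), (0, 530)], .dead [(38, 1), (36, 20), (31, 40), (13, 2660), (0, 40)], .red 1 263 [(35, 35113), (33, 35114), (13, 133), (6, 35112), (0, 266)], .red 1 1167606 [(35, 78225180), (34, 583704), (4, 8844), (2, 1176252), (0, 17623)], .red 0 0 [(35, 133), (33, 133), (6, 133), (0, 1)], .red 0 310583461 [(36, 156450427),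 (35, 20806739316), (34, 156432739), (31, 17822), (12, 8911), (4, 17554), (3, 2352504), (2, 312900854), (0, 4670164)], .red 0 17422 [(36, 8911), (35, 1167408), (34, 8911), (9, 8911), (2, 17557), (0, 265)], .red 0 17555 [(36, 8712), (35, 1176451), (34, 8712), (9, 8712), (2, 17689), (0, 265)], .kid, .kid, .kid] (.cons (.ref 99 [(0, [(39, 1)]), (0, [(38, 1)]), (0, [(37, 1)]), (0, [(36, 1)]), (0, [(35, 1)]), (0, [(34, 1)]), (0, [(13, 1)]), (0, [(12, 1)]), (0, [(10, 1)]), (1023, [(1, 1)]), (0, [(33, 131), (9, 132), (6, 132), (4, 1)]), (27033896, [(33, 589081608192), (6, 593510793216), (4, 4496293888), (3, 8925478912)]), (141570, [(6, 34603008), (4, 35127296), (3, 35127296), (2, 34603008)]), (9599686634, [(9, 157873870995456), (6, 2374043172864), (4, 2356460650496), (0, 2338475474944)]), (302270030, [(6, 74188849152), (4, 74197237760), (3, 74750885888), (0, 73635201024)]), (4584637694,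 [(31, 75402445848576), (15, 5014546116771840), (3, 4294967296), (0, 571230650368)])]) (.cons (.split [0, 0, 0, 0, 0, 0, 0, 0, 1024, -1024] (.ref 100 [(0, [(40, 1)]), (0, [(39, 1)]), (0, [(38, 1)]), (0, [(37, 1)]), (0, [(36, 1)]), (0, [(35, 1)]), (0, [(14, 1)]), (0, [(13, 1)]), (0, [(11, 1)]), (1023, [(2, 1)]), (1023, [(0, 1)]), (0, [(34, 131), (10, 132), (7, 132), (5, 1)]), (9204245980, [(32, 150813481631744), (16, 10029667759161344), (5, 8589934592), (1, 1142461300736)]), (600182582, [(10, 9867116937216), (7, 147278790656), (5, 148377698304), (3, 146154717184)]), (141570, [(7, 34603008), (5, 35127296), (4, 35127296), (3, 34603008)]), (287661492, [(10, 4713189736448), (7, 71403831296), (5, 71403831296), (1, 70330089472)]), (39753700604, [(7, 9794035384320), (5, 9867678973952), (4, 9794597421056), (1, 9719846535168)])]) (.split [0, 0, 0, 1024, 0, 0, 0, 0, 0, -1024] (.ref 101 [(0,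 [(41, 1)]), (0, [(40, 1)]), (0, [(39, 1)]), (0, [(38, 1)]), (0, [(37, 1)]), (0, [(36, 1)]), (0, [(15, 1)]), (0, [(14, 1)]), (0, [(12, 1)]), (1023, [(3, 1)]), (1023, [(1, 1)]), (1023, [(0, 1)]), (0, [(35, 131), (11, 132), (8, 132), (6, 1)]), (27033896, [(35, 589081608192), (8, 593510793216), (6, 4496293888), (5, 8925478912)]), (9204245980, [(33, 150813481631744), (17, 10029667759161344), (6, 8589934592), (2, 1142461300736)]), (600182582, [(11, 9867116937216), (8, 147278790656), (6, 148377698304), (4, 146154717184)]), (18045818, [(8, 4429185024), (7, 292326211584), (6, 4462739456), (5, 4462739456)]), (287661492, [(11, 4713189736448), (8, 71403831296), (6, 71403831296), (2, 70330089472)]), (39753700604, [(8, 9794035384320), (6, 9867678973952), (5, 9794597421056), (2, 9719846535168)])]) (.split [0, 0, 0, 0, 0, 0, 1024, 0, 0, -976] (.ref 102 [(0, [(42, 1)]), (0, [(41, 1)]), (0, [(40,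 1)]), (0, [(39, 1)]), (0, [(38, 1)]), (0, [(37, 1)]), (0, [(16, 1)]), (0, [(15, 1)]), (0, [(13, 1)]), (1023, [(4, 1)]), (1023, [(2, 1)]), (1023, [(1, 1)]), (15, [(0, 1)]), (0, [(36, 131), (12, 132), (9, 132), (7, 1)]), (27033896, [(36, 589081608192), (9, 593510793216), (7, 4496293888), (6, 8925478912)]), (600182582, [(12, 9867116937216), (9, 147278790656), (7, 148377698304), (5, 146154717184)]), (287661492, [(12, 4713189736448), (9, 71403831296), (7, 71403831296), (3, 70330089472)]), (39753700604, [(9, 9794035384320), (7, 9867678973952), (6, 9794597421056), (3, 9719846535168)])]) (.node 2 (1) (1) (0) [.red 0 0 [(17, 66), (0, 1)], .dead [(39, 1), (17, 1), (0, 2)], .red 1 0 [(17, 66), (0, 1)], .dead [(2, 1), (0, 1024)], .red 0 511 [(39, 34304), (2, 33), (0, 68096)], .dead [(42, 256), (40, 5120), (17, 5120), (5, 5), (0, 10240)], .kid, .kid, .red 0 0 [(39, 1), (0, 1)], .dead [(39,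 133), (17, 1), (0, 2)], .dead [(42, 1), (39, 1320), (0, 20)], .dead [(39, 67), (0, 1)], .dead [(43, 8576), (39, 168960), (2, 165), (0, 2560)], .dead [(43, 16896), (39, 337920), (2, 335), (0, 5120)], .dead [(43, 8448), (39, 171520), (2, 165), (0, 2560)], .dead [(39, 136192), (17, 1024), (2, 131), (0, 2048)], .dead [(39, 67584), (2, 67), (0, 1024)], .dead [(39, 34304), (2, 33), (0, 512)], .kid, .kid, .red 2 272383 [(39, 136192), (17, 203776), (5, 133), (0, 271360)], .dead [(42, 33536), (39, 5120), (17, 337920), (5, 5), (0, 5120)], .dead [(42, 133), (17, 1320), (0, 20)], .dead [(42, 13568), (40, 1024), (17, 136192), (5, 1), (0, 2048)], .dead [(43, 128), (40, 168960), (5, 165), (0, 2560)], .dead [(40, 133), (17, 1), (0, 2)], .dead [(40, 133), (17, 1), (0, 2)], .dead [(39, 1), (17, 133), (0, 2)], .dead [(17, 67584), (2, 1), (0, 1024)], .dead [(40, 1), (17, 66), (0, 1)]] (.cons (.ref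 103 [(0, [(43, 1)]), (0, [(42, 1)]), (0, [(41, 1)]), (0, [(40, 1)]), (0, [(39, 1)]), (0, [(38, 1)]), (0, [(17, 1)]), (0, [(16, 1)]), (0, [(14, 1)]), (1023, [(5, 1)]), (1023, [(3, 1)]), (1023, [(2, 1)]), (15, [(1, 1)]), (0, [(0, 1)]), (27033896, [(37, 589081608192), (10, 593510793216), (8, 4496293888), (7, 8925478912)]), (18045818, [(10, 4429185024), (9, 292326211584), (8, 4462739456), (7, 4462739456)]), (141570, [(10, 34603008), (8, 35127296), (7, 35127296), (6, 34603008)]), (39753700604, [(10, 9794035384320), (8, 9867678973952), (7, 9794597421056), (4, 9719846535168)])]) (.cons (.ref 104 [(0, [(43, 1)]), (0, [(42, 1)]), (0, [(41, 1)]), (0, [(40, 1)]), (0, [(39, 1)]), (0, [(38, 1)]), (0, [(17, 1)]), (0, [(16, 1)]), (0, [(14, 1)]), (1023, [(5, 1)]), (1023, [(3, 1)]), (1023, [(2, 1)]), (15, [(1, 1)]), (0, [(0, 1)]), (27033896, [(37, 589081608192), (10, 593510793216), (8, 4496293888),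 (7, 8925478912)]), (141570, [(10, 34603008), (8, 35127296), (7, 35127296), (6, 34603008)]), (39753700604, [(10, 9794035384320), (8, 9867678973952), (7, 9794597421056), (4, 9719846535168)])]) (.cons (.ref 105 [(0, [(43, 1)]), (0, [(42, 1)]), (0, [(41, 1)]), (0, [(40, 1)]), (0, [(39, 1)]), (0, [(38, 1)]), (0, [(17, 1)]), (0, [(16, 1)]), (1023, [(5, 1)]), (1023, [(3, 1)]), (15, [(1, 1)]), (0, [(0, 1)]), (27033896, [(37, 589081608192), (10, 593510793216), (8, 4496293888), (7, 8925478912)])]) (.cons (.ref 106 [(0, [(43, 1)]), (0, [(42, 1)]), (0, [(41, 1)]), (0, [(40, 1)]), (0, [(39, 1)]), (0, [(38, 1)]), (0, [(17, 1)]), (0, [(16, 1)]), (1023, [(5, 1)]), (1023, [(3, 1)]), (15, [(1, 1)]), (0, [(0, 1)]), (27033896, [(37, 589081608192), (10, 593510793216), (8, 4496293888), (7, 8925478912)])]) (.nil))))))))) (.cons (.ref 107 [(0, [(39, 1)]), (0, [(38, 1)]), (0, [(37, 1)]), (0, [(36, 1)]),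 (0, [(35, 1)]), (0, [(34, 1)]), (0, [(13, 1)]), (0, [(12, 1)]), (0, [(10, 1)]), (1023, [(1, 1)]), (0, [(22, 1), (0, 1)]), (0, [(33, 131), (9, 132), (6, 132), (4, 1)]), (27033896, [(33, 589081608192), (6, 593510793216), (4, 4496293888), (3, 8925478912)]), (9599686634, [(9, 157873870995456), (6, 2356460650496), (4, 2374043172864), (0, 2338475474944)]), (18045818, [(6, 4429185024), (5, 292326211584), (4, 4462739456), (3, 4462739456)]), (141570, [(6, 34603008), (4, 35127296), (3, 35127296), (2, 34603008)]), (566082, [(6, 138412032), (4, 140509184), (3, 140509184), (0, 138412032)])]) (.nil))))) (.ref 108 [(0, [(38, 1)]), (0, [(37, 1)]), (0, [(36, 1)]), (0, [(35, 1)]), (0, [(34, 1)]), (0, [(33, 1)]), (0, [(12, 1)]), (0, [(11, 1)]), (1023, [(0, 1)]), (0, [(32, 131), (8, 132), (5, 132), (3, 1)]), (27033896, [(32, 589081608192), (5, 593510793216), (3, 4496293888), (2, 8925478912)]), (600182582,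 [(8, 9867116937216), (5, 147278790656), (3, 148377698304), (1, 146154717184)]), (141570, [(5, 34603008), (3, 35127296), (2, 35127296), (1, 34603008)])])) (.nil)))

/-- a subtree -/
def nC_3 : T := .node 3 (1) (0) (1) [.dead [(32, 132), (30, 133), (5, 132), (4, 133), (1, 133), (0, 2)], .red 1 132 [(4, 8844), (0, 1)], .dead [(32, 133), (30, 132), (5, 133), (4, 133), (1, 132), (0, 2)], .dead [(35, 4356), (33, 8778), (30, 665), (4, 88445), (2, 1320), (1, 87785), (0, 1330)], .dead [(35, 132), (33, 265), (4, 2660), (2, 40), (1, 2620), (0, 40)], .dead [(35, 66), (33, 133), (4, 1320), (2, 20), (1, 1320), (0, 20)], .kid, .kid, .kid, .dead [(35, 588126), (33, 294063), (18, 665), (5, 5881260), (4, 5837040), (2, 88445), (0, 88440)], .dead [(35, 583704), (33, 289641), (18, 1325), (5, 5792820), (4, 5837040), (2, 87785), (0, 88440)], .dead [(35, 4422), (33, 2211), (32, 335), (18, 5), (5, 44555),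 (4, 44555), (2, 665), (0, 670)]] (.cons (.node 3 (0) (0) (1) [.red 0 132 [(6, 8844), (0, 1)], .red 0 696939 [(36, 133), (31, 3980), (30, 2660), (9, 1330), (6, 46350490), (3, 2640), (2, 1330), (0, 5300)], .dead [(31, 66), (28, 1), (0, 1)], .kid, .red 0 65 [(14, 67), (3, 1), (0, 66)], .kid, .dead [(34, 6567), (30, 42895), (29, 43890), (6, 65670), (3, 87450), (0, 995)], .dead [(34, 13134), (31, 995), (30, 87785), (29, 87785), (6, 132335), (3, 176885), (0, 1990)], .dead [(34, 26467), (30, 175560), (29, 175560), (6, 262680), (3, 353780), (0, 3980)], .dead [(19, 17557), (6, 8844), (3, 265), (0, 17688)], .dead [(20, 1), (0, 1)], .dead [(19, 1), (0, 1)]] (.cons (nC_2) (.cons (.node 3 (1) (0) (0) [.dead [(34, 66), (31, 1), (0, 1)], .red 1 174229 [(35, 1), (34, 665), (32, 655), (10, 5), (3, 11586960), (1, 10), (0, 1320)], .red 1 132 [(3, 8844), (0, 1)], .dead [(28, 1), (0, 1)], .dead [(27,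 1), (0, 1)], .dead [(28, 17556), (4, 265), (3, 8712), (0, 17689)], .red 0 132 [(3, 8844), (0, 1)], .red 0 175569 [(35, 1), (34, 665), (32, 655), (10, 5), (3, 11676070), (1, 10), (0, 1330)], .red 0 174899 [(37, 33), (30, 660), (4, 670), (3, 11631180), (0, 1330)], .kid, .red 0 132 [(32, 66), (31, 132), (4, 132), (2, 1), (0, 132)], .kid] (.cons (.ref 109 [(0, [(37, 1)]), (0, [(36, 1)]), (0, [(35, 1)]), (0, [(34, 1)]), (0, [(33, 1)]), (0, [(32, 1)]), (0, [(11, 1)]), (0, [(10, 1)]), (0, [(8, 1)]), (26534, [(31, 575275008), (4, 579665920), (2, 4325376), (1, 8716288)]), (141570, [(4, 35127296), (2, 34603008), (1, 35127296), (0, 34603008)]), (2266264538, [(29, 74831215198208), (13, 4976561426006016), (1, 4294967296), (0, 566935683072)])]) (.cons (.ref 110 [(0, [(37, 1)]), (0, [(36, 1)]), (0, [(35, 1)]), (0, [(34, 1)]), (0, [(33, 1)]), (0, [(32, 1)]), (0, [(11, 1)]), (0, [(10, 1)]), (0,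 [(8, 1)]), (26534, [(31, 575275008), (4, 579665920), (2, 4325376), (1, 8716288)]), (18900230, [(4, 4637327360), (2, 4636803072), (1, 4671930368), (0, 4602200064)]), (18045818, [(4, 4462739456), (3, 292326211584), (2, 4429185024), (1, 4462739456)])]) (.nil)))) (.nil)))) (.cons (.node 3 (0) (0) (1) [.red 0 132 [(6, 8844), (0, 1)], .red 0 696939 [(36, 133), (31, 3980), (30, 2660), (9, 1330), (6, 46350490), (3, 2640), (2, 1330), (0, 5300)], .dead [(31, 66), (28, 1), (0, 1)], .kid, .red 0 65 [(14, 67), (3, 1), (0, 66)], .kid, .dead [(34, 6567), (30, 42895), (29, 43890), (6, 65670), (3, 87450), (0, 995)], .dead [(34, 13134), (31, 995), (30, 87785), (29, 87785), (6, 132335), (3, 176885), (0, 1990)], .dead [(34, 26467), (30, 175560), (29, 175560), (6, 262680), (3, 353780), (0, 3980)], .dead [(19, 17557), (6, 8844), (3, 265), (0, 17688)], .dead [(20, 1), (0, 1)], .dead [(19, 1), (0, 1)]]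 (.cons (.node 3 (1) (0) (0) [.dead [(34, 66), (31, 1), (0, 1)], .red 1 34847 [(34, 265), (32, 133), (29, 2), (10, 1), (3, 2317526), (1, 2), (0, 266)], .red 1 132 [(3, 8844), (0, 1)], .dead [(28, 1), (0, 1)], .dead [(27, 1), (0, 1)], .dead [(28, 17556), (4, 265), (3, 8712), (0, 17689)], .red 0 132 [(3, 8844), (0, 1)], .red 0 263 [(34, 1), (32, 1), (7, 1), (3, 17557), (0, 2)], .red 0 174899 [(37, 33), (30, 660), (4, 670), (3, 11631180), (0, 1330)], .kid, .red 1 132 [(31, 132), (4, 133), (0, 132)], .kid] (.cons (.ref 111 [(0, [(37, 1)]), (0, [(36, 1)]), (0, [(35, 1)]), (0, [(34, 1)]), (0, [(33, 1)]), (0, [(32, 1)]), (0, [(11, 1)]), (0, [(10, 1)]), (0, [(8, 1)]), (1730214156, [(31, 37703370407936), (7, 37845104328704), (4, 37986838249472), (2, 285615325184)]), (7154846852, [(31, 156713558736896), (4, 157873870995456), (2, 1187021586432), (1, 2365319020544)]), (9133957304, [(29, 301609783394304),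 (13, 20058184467087360), (1, 17179869184), (0, 2284922601472)]), (2485562046, [(4, 607490408448), (2, 612127211520), (1, 616729935872), (0, 612162338816)])]) (.cons (.ref 112 [(0, [(37, 1)]), (0, [(36, 1)]), (0, [(35, 1)]), (0, [(34, 1)]), (0, [(33, 1)]), (0, [(32, 1)]), (0, [(11, 1)]), (0, [(10, 1)]), (0, [(8, 1)]), (1730214156, [(31, 37703370407936), (7, 37845104328704), (4, 37986838249472), (2, 285615325184)]), (7154846852, [(31, 156713558736896), (4, 157873870995456), (2, 1187021586432), (1, 2365319020544)]), (288737546, [(7, 4748354781184), (4, 70866960384), (3, 4712921300992), (2, 71403831296)]), (72962, [(4, 17704960), (2, 18112512), (1, 18112512), (0, 17979392)])]) (.nil)))) (.cons (.split [0, 0, 0, 0, 0, 1024, 0, 0, 0, -1024] (.split [0, 0, 0, 0, 0, 0, 0, 0, 1024, -1024] (.ref 113 [(0, [(38, 1)]), (0, [(37, 1)]), (0, [(36, 1)]), (0, [(35, 1)]), (0, [(34, 1)]), (0, [(33,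 1)]), (0, [(12, 1)]), (0, [(11, 1)]), (0, [(9, 1)]), (1023, [(1, 1)]), (1023, [(0, 1)]), (57532585970, [(32, 1253636529192960), (5, 1263062908665856), (3, 9354438770688), (2, 18922552164352)]), (75014444, [(5, 18409848832), (4, 1224254423040), (3, 18408800256), (2, 18548260864)])]) (.split [0, 0, 0, 1024, 0, 0, 0, 0, 0, -1024] (.ref 114 [(0, [(39, 1)]), (0, [(38, 1)]), (0, [(37, 1)]), (0, [(36, 1)]), (0, [(35, 1)]), (0, [(34, 1)]), (0, [(13, 1)]), (0, [(12, 1)]), (0, [(10, 1)]), (1023, [(2, 1)]), (1023, [(1, 1)]), (1023, [(0, 1)]), (57532585970, [(33, 1253636529192960), (6, 1263062908665856), (4, 9354438770688), (3, 18922552164352)]), (75014444, [(6, 18409848832), (5, 1224254423040), (4, 18408800256), (3, 18548260864)])]) (.split [0, 0, 0, 0, 0, 0, 1024, 0, 0, -970] (.ref 115 [(0, [(40, 1)]), (0, [(39, 1)]), (0, [(38, 1)]), (0, [(37, 1)]), (0, [(36, 1)]), (0, [(35, 1)]), (0, [(14,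 1)]), (0, [(13, 1)]), (0, [(11, 1)]), (1023, [(3, 1)]), (1023, [(2, 1)]), (1023, [(1, 1)]), (1, [(0, 1)]), (57532585970, [(34, 1253636529192960), (7, 1263062908665856), (5, 9354438770688), (4, 18922552164352)]), (75014444, [(7, 18409848832), (6, 1224254423040), (5, 18408800256), (4, 18548260864)])]) (.split [0, 0, 0, 0, 0, 0, 0, 1024, 0, -840] (.ref 116 [(0, [(41, 1)]), (0, [(40, 1)]), (0, [(39, 1)]), (0, [(38, 1)]), (0, [(37, 1)]), (0, [(36, 1)]), (0, [(15, 1)]), (0, [(14, 1)]), (0, [(12, 1)]), (1023, [(4, 1)]), (1023, [(3, 1)]), (1023, [(2, 1)]), (1, [(1, 1)]), (7, [(0, 1)]), (57532585970, [(35, 1253636529192960), (8, 1263062908665856), (6, 9354438770688), (5, 18922552164352)]), (75014444, [(8, 18409848832), (7, 1224254423040), (6, 18408800256), (5, 18548260864)])]) (.split [0, 0, 0, 0, 0, 0, 0, 0, 1024, -512] (.ref 117 [(0, [(42, 1)]), (0, [(41, 1)]), (0, [(40, 1)]), (0, [(39,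 1)]), (0, [(38, 1)]), (0, [(37, 1)]), (0, [(16, 1)]), (0, [(15, 1)]), (0, [(13, 1)]), (1023, [(5, 1)]), (1023, [(4, 1)]), (1023, [(3, 1)]), (1, [(2, 1)]), (7, [(1, 1)]), (511, [(0, 1)]), (57532585970, [(36, 1253636529192960), (9, 1263062908665856), (7, 9354438770688), (6, 18922552164352)]), (75014444, [(9, 18409848832), (8, 1224254423040), (7, 18408800256), (6, 18548260864)])]) (.node 3 (1) (0) (0) [.dead [(37, 512), (4, 33), (2, 33), (0, 512)], .dead [(41, 8576), (35, 335360), (9, 337920), (7, 2560), (4, 21780), (2, 22110), (1, 165), (0, 337920)], .dead [(35, 1024), (4, 66), (2, 67), (0, 1024)], .dead [(34, 1), (0, 1)], .dead [(33, 1), (0, 1)], .dead [(34, 17556), (10, 265), (9, 8712), (0, 17689)], .red 0 132 [(9, 8844), (0, 1)], .red 0 2373009407 [(41, 454528), (40, 8988672), (36, 67584), (10, 68096), (9, 157814114304), (7, 135680), (1, 8745), (0, 17977344)], .red 0 174899 [(43,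 33), (36, 660), (10, 670), (9, 11631180), (0, 1330)], .kid, .red 0 4562431 [(37, 9022976), (10, 8988672), (4, 2211), (0, 4460544)], .kid] (.cons (.ref 118 [(0, [(43, 1)]), (0, [(42, 1)]), (0, [(41, 1)]), (0, [(40, 1)]), (0, [(39, 1)]), (0, [(38, 1)]), (0, [(17, 1)]), (0, [(16, 1)]), (0, [(14, 1)]), (1023, [(6, 1)]), (1023, [(4, 1)]), (1, [(3, 1)]), (7, [(2, 1)]), (511, [(1, 1)]), (57532585970, [(37, 1253636529192960), (10, 1263062908665856), (8, 9354438770688), (7, 18922552164352)]), (2485562046, [(10, 612162338816), (8, 607490408448), (7, 616729935872), (0, 612127211520)])]) (.cons (.ref 119 [(0, [(43, 1)]), (0, [(42, 1)]), (0, [(41, 1)]), (0, [(40, 1)]), (0, [(39, 1)]), (0, [(38, 1)]), (0, [(17, 1)]), (0, [(16, 1)]), (0, [(14, 1)]), (1023, [(6, 1)]), (1023, [(4, 1)]), (1, [(3, 1)]), (7, [(2, 1)]), (511, [(1, 1)]), (57532585970, [(37, 1253636529192960), (10, 1263062908665856),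 (8, 9354438770688), (7, 18922552164352)]), (75574190, [(10, 18408800256), (8, 18547212288), (7, 18687721472), (0, 18549309440)])]) (.nil))))))))) (.ref 120 [(0, [(37, 1)]), (0, [(36, 1)]), (0, [(35, 1)]), (0, [(34, 1)]), (0, [(33, 1)]), (0, [(32, 1)]), (0, [(11, 1)]), (0, [(10, 1)]), (1023, [(0, 1)]), (57532585970, [(31, 1253636529192960), (4, 1263062908665856), (2, 9354438770688), (1, 18922552164352)]), (75014444, [(4, 18409848832), (3, 1224254423040), (2, 18408800256), (1, 18548260864)])])) (.nil)))) (.cons (.node 3 (0) (0) (1) [.red 0 132 [(6, 8844), (0, 1)], .red 0 696939 [(36, 133), (31, 3980), (30, 2660), (9, 1330), (6, 46350490), (3, 2640), (2, 1330), (0, 5300)], .dead [(31, 66), (28, 1), (0, 1)], .kid, .red 0 131 [(19, 1), (3, 1), (0, 132)], .kid, .dead [(34, 6567), (30, 42895), (29, 43890), (6, 65670), (3, 87450), (0, 995)], .dead [(34, 13134), (31, 995), (30, 87785),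 (29, 87785), (6, 132335), (3, 176885), (0, 1990)], .dead [(34, 26467), (30, 175560), (29, 175560), (6, 262680), (3, 353780), (0, 3980)], .dead [(19, 17557), (6, 8844), (3, 265), (0, 17688)], .dead [(20, 1), (0, 1)], .dead [(19, 1), (0, 1)]] (.cons (.node 3 (1) (0) (0) [.dead [(34, 66), (31, 1), (0, 1)], .red 1 611826071 [(34, 2335081), (32, 2335079), (29, 266), (10, 133), (3, 40688769000), (2, 262), (1, 35112), (0, 4635312)], .red 1 132 [(3, 8844), (0, 1)], .dead [(28, 1), (0, 1)], .dead [(27, 1), (0, 1)], .dead [(28, 17556), (4, 265), (3, 8712), (0, 17689)], .red 0 132 [(3, 8844), (0, 1)], .red 0 616531079 [(34, 2335081), (32, 2335079), (29, 266), (10, 133), (3, 41001652032), (2, 262), (1, 35112), (0, 4670424)], .red 0 174899 [(37, 33), (30, 660), (4, 670), (3, 11631180), (0, 1330)], .kid, .red 1 132 [(31, 132), (4, 133), (0, 132)], .kid] (.cons (.ref 121 [(0, [(37, 1)]), (0,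 [(36, 1)]), (0, [(35, 1)]), (0, [(34, 1)]), (0, [(33, 1)]), (0, [(32, 1)]), (0, [(11, 1)]), (0, [(10, 1)]), (0, [(8, 1)]), (0, [(31, 132), (7, 132), (4, 133), (2, 1)]), (217366022, [(31, 4748623216640), (4, 4784056696832), (2, 35970351104), (1, 71403831296)]), (0, [(7, 66), (4, 1), (3, 66), (2, 1)]), (75014444, [(7, 1224254423040), (4, 18548260864), (2, 18409848832), (0, 18408800256)]), (9133957304, [(29, 301609783394304), (13, 20058184467087360), (1, 17179869184), (0, 2284922601472)]), (0, [(4, 1), (2, 1), (1, 1), (0, 1)])]) (.cons (.ref 122 [(0, [(37, 1)]), (0, [(36, 1)]), (0, [(35, 1)]), (0, [(34, 1)]), (0, [(33, 1)]), (0, [(32, 1)]), (0, [(11, 1)]), (0, [(10, 1)]), (0, [(8, 1)]), (0, [(31, 132), (7, 132), (4, 133), (2, 1)]), (217366022, [(31, 4748623216640), (4, 4784056696832), (2, 35970351104), (1, 71403831296)]), (285218, [(7, 4636803072), (4, 69730304), (2, 70254592), (0,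 69730304)]), (18900230, [(4, 4602200064), (2, 4671930368), (1, 4636803072), (0, 4637327360)]), (75014444, [(4, 18409848832), (3, 1224254423040), (2, 18548260864), (1, 18408800256)])]) (.nil)))) (.cons (.split [0, 0, 0, 1024, 0, 0, 0, 0, 0, -1024] (.ref 123 [(0, [(37, 1)]), (0, [(36, 1)]), (0, [(35, 1)]), (0, [(34, 1)]), (0, [(33, 1)]), (0, [(32, 1)]), (0, [(11, 1)]), (0, [(10, 1)]), (0, [(8, 1)]), (1023, [(0, 1)]), (54615518, [(31, 1187021586432), (4, 1196014174208), (2, 8858370048), (1, 17850957824)]), (285218, [(4, 70254592), (3, 4636803072), (2, 69730304), (1, 69730304)])]) (.split [0, 0, 0, 0, 0, 1024, 0, 0, 0, -1024] (.split [0, 0, 0, 0, 0, 0, 1024, 0, 0, -969] (.ref 124 [(0, [(39, 1)]), (0, [(38, 1)]), (0, [(37, 1)]), (0, [(36, 1)]), (0, [(35, 1)]), (0, [(34, 1)]), (0, [(13, 1)]), (0, [(12, 1)]), (0, [(10, 1)]), (1023, [(2, 1)]), (1023, [(1, 1)]), (0, [(0, 1)]), (54615518,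 [(33, 1187021586432), (6, 1196014174208), (4, 8858370048), (3, 17850957824)]), (285218, [(6, 70254592), (5, 4636803072), (4, 69730304), (3, 69730304)])]) (.split [0, 0, 0, 0, 0, 0, 0, 0, 1024, -934] (.ref 125 [(0, [(40, 1)]), (0, [(39, 1)]), (0, [(38, 1)]), (0, [(37, 1)]), (0, [(36, 1)]), (0, [(35, 1)]), (0, [(14, 1)]), (0, [(13, 1)]), (0, [(11, 1)]), (1023, [(3, 1)]), (1023, [(2, 1)]), (0, [(1, 1)]), (1, [(0, 1)]), (54615518, [(34, 1187021586432), (7, 1196014174208), (5, 8858370048), (4, 17850957824)]), (285218, [(7, 70254592), (6, 4636803072), (5, 69730304), (4, 69730304)])]) (.split [0, 0, 0, 0, 0, 0, 0, 1024, 0, -838] (.ref 126 [(0, [(41, 1)]), (0, [(40, 1)]), (0, [(39, 1)]), (0, [(38, 1)]), (0, [(37, 1)]), (0, [(15, 1)]), (0, [(14, 1)]), (0, [(12, 1)]), (1023, [(4, 1)]), (1023, [(3, 1)]), (0, [(2, 1)]), (1, [(1, 1)]), (1, [(0, 1)]), (54615518, [(35, 1187021586432), (8, 1196014174208),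 (6, 8858370048), (5, 17850957824)]), (285218, [(8, 70254592), (7, 4636803072), (6, 69730304), (5, 69730304)])]) (.split [0, 0, 0, 1024, 0, 0, 0, 0, 0, -512] (.node 3 (1) (0) (0) [.dead [(37, 512), (6, 33), (2, 33), (0, 512)], .dead [(41, 17024), (35, 335360), (16, 168960), (9, 337920), (7, 2560), (6, 21945), (2, 21945), (0, 337920)], .dead [(35, 1024), (6, 66), (2, 67), (0, 1024)], .dead [(34, 1), (0, 1)], .dead [(33, 1), (0, 1)], .dead [(34, 17556), (10, 265), (9, 8712), (0, 17689)], .red 0 132 [(9, 8844), (0, 1)], .red 0 89891839 [(41, 17152), (40, 337920), (9, 5978147840), (7, 5120), (3, 330), (2, 5), (0, 680960)], .red 0 44943359 [(43, 8448), (10, 2560), (9, 2988902400), (1, 165), (0, 340480)], .kid, .red 0 4562431 [(37, 9022976), (10, 8988672), (6, 2211), (0, 4460544)], .kid] (.cons (.ref 127 [(0, [(43, 1)]), (0, [(42, 1)]), (0, [(41, 1)]), (0, [(40, 1)]), (0, [(39, 1)]),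 (0, [(38, 1)]), (0, [(17, 1)]), (0, [(16, 1)]), (0, [(14, 1)]), (1023, [(6, 1)]), (1023, [(5, 1)]), (0, [(4, 1)]), (1, [(3, 1)]), (1, [(2, 1)]), (511, [(1, 1)]), (54615518, [(37, 1187021586432), (10, 1196014174208), (8, 8858370048), (7, 17850957824)]), (18900230, [(10, 4671930368), (8, 4602200064), (7, 4637327360), (0, 4636803072)])]) (.cons (.ref 128 [(0, [(43, 1)]), (0, [(42, 1)]), (0, [(41, 1)]), (0, [(40, 1)]), (0, [(39, 1)]), (0, [(38, 1)]), (0, [(17, 1)]), (0, [(16, 1)]), (0, [(14, 1)]), (1023, [(6, 1)]), (1023, [(5, 1)]), (0, [(4, 1)]), (1, [(3, 1)]), (1, [(2, 1)]), (511, [(1, 1)]), (54615518, [(37, 1187021586432), (10, 1196014174208), (8, 8858370048), (7, 17850957824)]), (1, [(10, 1), (8, 1), (7, 1), (0, 1)])]) (.nil)))) (.ref 129 [(0, [(42, 1)]), (0, [(41, 1)]), (0, [(40, 1)]), (0, [(38, 1)]), (0, [(37, 1)]), (0, [(16, 1)]), (0, [(15, 1)]), (0, [(13, 1)]), (1023, [(4,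 1)]), (0, [(3, 1)]), (1, [(2, 1)]), (1, [(1, 1)]), (511, [(0, 1)]), (54615518, [(36, 1187021586432), (9, 1196014174208), (7, 8858370048), (6, 17850957824)]), (285218, [(9, 70254592), (8, 4636803072), (7, 69730304), (6, 69730304)])]))))) (.ref 130 [(0, [(38, 1)]), (0, [(37, 1)]), (0, [(36, 1)]), (0, [(35, 1)]), (0, [(34, 1)]), (0, [(33, 1)]), (0, [(12, 1)]), (0, [(11, 1)]), (1023, [(1, 1)]), (1023, [(0, 1)]), (54615518, [(32, 1187021586432), (5, 1196014174208), (3, 8858370048), (2, 17850957824)]), (285218, [(5, 70254592), (4, 4636803072), (3, 69730304), (2, 69730304)])]))) (.nil)))) (.nil))))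

/-- a subtree -/
def nC_4 : T := .node 1 (0) (0) (1) [.kid, .kid, .kid, .dead [(13, 2), (6, 1), (0, 133)]] (.cons (.ref 81 [(0, [(30, 1)]), (0, [(29, 1)]), (0, [(27, 1)]), (0, [(26, 1)]), (0, [(25, 1)]), (0, [(4, 1)]), (0, [(3, 1)]), (0, [(1, 1)]), (0, [(24, 2), (5, 1), (0, 133)]), (0, [(24, 2), (2, 1), (0, 133)]), (0, [(24, 1), (23, 1), (22, 1), (0, 199)])]) (.cons (.node 1 (1) (0) (1) [.kid, .kid, .kid, .kid] (.cons (.ref 82 [(0, [(30, 1)]), (0, [(28, 1)]), (0, [(27, 1)]), (0, [(26, 1)]), (0, [(5, 1)]), (0, [(4, 1)]), (0, [(2, 1)]), (0, [(25, 2), (1, 1), (0, 133)]), (0, [(25, 1), (24, 1), (23, 1), (0, 199)])]) (.cons (.ref 83 [(0, [(31, 1)]), (0, [(30, 1)]), (0, [(29, 1)]), (0, [(27, 1)]), (0, [(26, 1)]), (0, [(5, 1)]), (0, [(4, 1)]), (0, [(25, 2), (7, 133), (0, 1)])]) (.cons (.node 1 (1) (1) (0) [.dead [(26, 1), (25, 1), (24, 1), (6, 199), (0, 199)], .kid, .kid, .kid] (.cons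 (.node 1 (1) (0) (0) [.kid, .dead [(24, 2), (9, 1), (0, 133)], .kid, .kid] (.cons (.ref 84 [(0, [(32, 1)]), (0, [(31, 1)]), (0, [(29, 1)]), (0, [(28, 1)]), (0, [(7, 1)]), (0, [(6, 1)]), (0, [(4, 1)]), (0, [(27, 2), (1, 1), (0, 133)])]) (.cons (.node 1 (1) (1) (-1) [.dead [(32, 133), (30, 10), (28, 20), (27, 20), (8, 2660), (2, 10), (1, 10), (0, 2660)], .kid, .kid, .kid] (.cons (.ref 85 [(0, [(34, 1)]), (0, [(33, 1)]), (0, [(32, 1)]), (0, [(30, 1)]), (0, [(29, 1)]), (0, [(8, 1)]), (0, [(28, 2), (10, 133), (0, 1)])]) (.cons (.ref 86 [(0, [(34, 1)]), (0, [(33, 1)]), (0, [(32, 1)]), (0, [(30, 1)]), (0, [(29, 1)]), (0, [(8, 1)]), (0, [(7, 1)]), (0, [(5, 1)]), (0, [(28, 2), (10, 133), (2, 1)]), (0, [(27, 2), (10, 133), (0, 1)])]) (.cons (.ref 87 [(0, [(34, 1)]), (0, [(33, 1)]), (0, [(32, 1)]), (0, [(30, 1)]), (0, [(29, 1)]), (0, [(8, 1)]), (0, [(7, 1)]), (0, [(28, 2), (10, 133), (2,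 1)]), (0, [(10, 1), (2, 1), (1, 1), (0, 1)])]) (.nil))))) (.cons (.ref 88 [(0, [(33, 1)]), (0, [(32, 1)]), (0, [(31, 1)]), (0, [(29, 1)]), (0, [(28, 1)]), (0, [(7, 1)]), (0, [(27, 2), (9, 133), (1, 1)]), (0, [(9, 1), (2, 1), (1, 1), (0, 1)])]) (.nil))))) (.cons (.node 1 (1) (1) (-1) [.dead [(31, 199), (27, 20), (26, 20), (25, 20), (7, 3980), (0, 3980)], .kid, .kid, .kid] (.cons (.ref 89 [(0, [(33, 1)]), (0, [(32, 1)]), (0, [(31, 1)]), (0, [(29, 1)]), (0, [(28, 1)]), (0, [(7, 1)]), (0, [(27, 2), (9, 133), (0, 1)]), (0, [(26, 2), (9, 133), (1, 1)])]) (.cons (.ref 90 [(0, [(33, 1)]), (0, [(32, 1)]), (0, [(31, 1)]), (0, [(30, 1)]), (0, [(29, 1)]), (0, [(28, 1)]), (0, [(7, 1)]), (0, [(6, 1)]), (0, [(4, 1)]), (0, [(26, 2), (9, 133), (0, 1)])]) (.cons (.ref 91 [(0, [(33, 1)]), (0, [(32, 1)]), (0, [(31, 1)]), (0, [(30, 1)]), (0, [(29, 1)]), (0, [(28, 1)]), (0, [(7, 1)]), (0, [(6, 1)]),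 (0, [(4, 1)]), (0, [(26, 2), (9, 133), (1, 1)]), (1, [(9, 1), (3, 1), (1, 1), (0, 1)])]) (.nil))))) (.cons (.node 3 (0) (0) (0) [.kid, .kid, .kid, .red 0 132 [(9, 8844), (0, 1)], .red 0 17687 [(17, 1), (9, 1176252), (0, 133)], .dead [(33, 133), (32, 133), (24, 2640), (9, 2650), (7, 1330), (1, 1330), (0, 2660)], .dead [(28, 133), (20, 264), (9, 265), (3, 133), (0, 266)], .red 1 132 [(9, 8844), (0, 1)], .dead [(33, 133), (32, 133), (20, 2640), (9, 2650), (7, 1330), (1, 1330), (0, 2660)], .dead [(28, 133), (16, 264), (9, 265), (3, 133), (0, 266)], .red 0 0 [(16, 1), (9, 67), (0, 1)], .red 2 132 [(9, 8844), (0, 1)]] (.cons (.node 1 (1) (0) (0) [.kid, .dead [(25, 133), (1, 1), (0, 8844)], .kid, .kid] (.cons (.ref 92 [(0, [(33, 1)]), (0, [(32, 1)]), (0, [(31, 1)]), (0, [(30, 1)]), (0, [(29, 1)]), (0, [(8, 1)]), (0, [(7, 1)]), (0, [(5, 1)]), (0, [(28, 2), (4, 1), (0, 133)]), (0, [(26,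 2), (2, 1), (0, 133)]), (0, [(28, 1), (27, 1), (26, 1), (0, 199)]), (0, [(4, 132), (3, 133), (2, 133), (1, 2)]), (0, [(26, 264), (3, 133), (2, 265), (1, 266)])]) (.cons (.ref 93 [(0, [(34, 1)]), (0, [(33, 1)]), (0, [(32, 1)]), (0, [(31, 1)]), (0, [(30, 1)]), (0, [(29, 1)]), (0, [(8, 1)]), (0, [(7, 1)]), (0, [(27, 264), (2, 133), (1, 266), (0, 265)]), (0, [(4, 132), (2, 133), (1, 2), (0, 133)]), (0, [(26, 264), (2, 265), (1, 266), (0, 133)])]) (.cons (.ref 94 [(0, [(34, 1)]), (0, [(33, 1)]), (0, [(32, 1)]), (0, [(31, 1)]), (0, [(30, 1)]), (0, [(29, 1)]), (0, [(8, 1)]), (0, [(7, 1)]), (0, [(5, 1)]), (0, [(26, 264), (3, 133), (1, 266), (0, 265)]), (0, [(4, 132), (3, 133), (1, 2), (0, 133)])]) (.nil))))) (.cons (.ref 95 [(0, [(33, 1)]), (0, [(32, 1)]), (0, [(31, 1)]), (0, [(30, 1)]), (0, [(29, 1)]), (0, [(28, 1)]), (0, [(7, 1)]), (0, [(6, 1)]), (0, [(27, 264), (3, 265), (1, 133), (0,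 266)]), (0, [(25, 264), (3, 133), (1, 265), (0, 266)])]) (.cons (.node 1 (1) (0) (0) [.kid, .dead [(25, 133), (24, 1), (1, 1), (0, 8911)], .kid, .kid] (.cons (.ref 96 [(0, [(33, 1)]), (0, [(32, 1)]), (0, [(31, 1)]), (0, [(30, 1)]), (0, [(29, 1)]), (0, [(8, 1)]), (0, [(7, 1)]), (0, [(5, 1)]), (0, [(28, 2), (4, 1), (0, 133)]), (0, [(26, 2), (2, 1), (0, 133)]), (0, [(28, 1), (27, 1), (26, 1), (0, 199)]), (0, [(28, 264), (4, 265), (3, 133), (1, 266)]), (0, [(4, 133), (3, 133), (2, 132), (1, 2)])]) (.cons (.ref 97 [(0, [(34, 1)]), (0, [(33, 1)]), (0, [(32, 1)]), (0, [(31, 1)]), (0, [(30, 1)]), (0, [(29, 1)]), (0, [(8, 1)]), (0, [(7, 1)]), (0, [(28, 264), (4, 265), (1, 266), (0, 133)]), (0, [(27, 264), (4, 133), (1, 266), (0, 265)]), (0, [(4, 133), (2, 132), (1, 2), (0, 133)])]) (.cons (nC_3) (.nil))))) (.nil))))) (.nil))))) (.cons (.ref 131 [(0, [(31, 1)]), (0, [(30, 1)]), (0, [(29,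 1)]), (0, [(28, 1)]), (0, [(27, 1)]), (0, [(5, 1)]), (0, [(4, 1)]), (0, [(23, 2), (7, 133), (0, 1)])]) (.nil)))))) (.cons (.node 1 (0) (1) (0) [.dead [(31, 199), (25, 20), (24, 20), (23, 20), (5, 3980), (0, 3980)], .kid, .kid, .kid] (.cons (.node 1 (1) (1) (0) [.dead [(26, 1), (25, 1), (24, 1), (6, 199), (0, 199)], .kid, .kid, .kid] (.cons (.node 1 (1) (1) (-1) [.dead [(31, 133), (29, 20), (27, 40), (7, 2660), (1, 20), (0, 2660)], .kid, .kid, .kid] (.cons (.ref 132 [(0, [(33, 1)]), (0, [(32, 1)]), (0, [(31, 1)]), (0, [(29, 1)]), (0, [(28, 1)]), (0, [(7, 1)]), (0, [(27, 2), (9, 133), (0, 1)])]) (.cons (.ref 133 [(0, [(33, 1)]), (0, [(32, 1)]), (0, [(31, 1)]), (0, [(29, 1)]), (0, [(28, 1)]), (0, [(7, 1)]), (0, [(6, 1)]), (0, [(4, 1)]), (0, [(27, 2), (9, 133), (1, 1)]), (0, [(26, 2), (9, 133), (0, 1)])]) (.cons (.ref 134 [(0, [(33, 1)]), (0, [(32, 1)]), (0, [(31, 1)]), (0, [(29, 1)]),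 (0, [(28, 1)]), (0, [(7, 1)]), (0, [(6, 1)]), (0, [(27, 2), (9, 133), (1, 1)]), (1, [(9, 1), (3, 1), (1, 1), (0, 1)])]) (.nil))))) (.cons (.node 1 (0) (1) (-1) [.kid, .kid, .kid, .kid] (.cons (.ref 135 [(0, [(33, 1)]), (0, [(32, 1)]), (0, [(31, 1)]), (0, [(29, 1)]), (0, [(7, 1)]), (0, [(4, 1)]), (0, [(26, 2), (1, 1), (0, 133)]), (0, [(26, 2), (9, 133), (1, 1)])]) (.cons (.node 1 (1) (1) (-1) [.dead [(32, 33), (30, 5), (28, 10), (8, 665), (1, 5), (0, 665)], .kid, .kid, .kid] (.cons (.ref 136 [(0, [(34, 1)]), (0, [(33, 1)]), (0, [(32, 1)]), (0, [(30, 1)]), (0, [(29, 1)]), (0, [(8, 1)]), (0, [(28, 2), (10, 133), (0, 1)]), (0, [(27, 2), (10, 133), (2, 1)])]) (.cons (.ref 137 [(0, [(34, 1)]), (0, [(33, 1)]), (0, [(32, 1)]), (0, [(31, 1)]), (0, [(30, 1)]), (0, [(29, 1)]), (0, [(8, 1)]), (0, [(7, 1)]), (0, [(5, 1)]), (0, [(28, 2), (10, 133), (1, 1)]), (0, [(27, 2), (10, 133), (0, 1)])])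 (.cons (.ref 138 [(0, [(34, 1)]), (0, [(33, 1)]), (0, [(32, 1)]), (0, [(31, 1)]), (0, [(30, 1)]), (0, [(29, 1)]), (0, [(8, 1)]), (0, [(7, 1)]), (0, [(5, 1)]), (0, [(28, 2), (10, 133), (1, 1)]), (0, [(27, 2), (10, 133), (2, 1)]), (0, [(10, 1), (4, 1), (1, 1), (0, 1)]), (0, [(10, 1), (2, 1), (1, 1), (0, 1)])]) (.nil))))) (.cons (.ref 139 [(0, [(33, 1)]), (0, [(30, 1)]), (0, [(29, 1)]), (0, [(28, 1)]), (0, [(6, 1)]), (0, [(26, 2), (9, 133), (0, 1)])]) (.cons (.ref 140 [(0, [(33, 1)]), (0, [(32, 1)]), (0, [(31, 1)]), (0, [(30, 1)]), (0, [(29, 1)]), (0, [(28, 1)]), (0, [(7, 1)]), (0, [(6, 1)]), (0, [(4, 1)]), (0, [(26, 2), (9, 133), (1, 1)]), (1, [(9, 1), (5, 1), (1, 1), (0, 1)]), (0, [(9, 1), (2, 1), (1, 1), (0, 1)])]) (.nil)))))) (.cons (.ref 141 [(0, [(32, 1)]), (0, [(31, 1)]), (0, [(30, 1)]), (0, [(29, 1)]), (0, [(28, 1)]), (0, [(27, 1)]), (0, [(6, 1)]), (0, [(5, 1)]), (0, [(8,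 1), (2, 1), (1, 1), (0, 1)])]) (.nil))))) (.cons (.ref 142 [(0, [(31, 1)]), (0, [(29, 1)]), (0, [(28, 1)]), (0, [(27, 1)]), (0, [(26, 1)]), (0, [(4, 1)]), (0, [(2, 1)]), (0, [(24, 2), (7, 133), (0, 1)])]) (.cons (.ref 143 [(0, [(31, 1)]), (0, [(30, 1)]), (0, [(29, 1)]), (0, [(28, 1)]), (0, [(27, 1)]), (0, [(26, 1)]), (0, [(5, 1)]), (0, [(4, 1)]), (0, [(2, 1)]), (0, [(7, 1), (3, 1), (1, 1), (0, 1)])]) (.nil))))) (.nil))))

/-- a subtree -/
def nC_5 : T := .node 2 (1) (0) (1) [.red 0 0 [(12, 66), (0, 1)], .dead [(34, 1), (0, 1)], .dead [(0, 1)], .red 1 0 [(36, 66), (34, 66), (0, 133)], .red 2 0 [(12, 66), (0, 1)], .dead [(36, 1), (0, 1)], .red 0 0 [(0, 1)], .red 0 659 [(37, 33), (0, 670)], .red 2 0 [(0, 1)], .dead [(34, 133), (12, 1), (0, 2)], .dead [(34, 66), (0, 1)], .dead [(37, 1), (34, 1320), (0, 20)], .kid, .kid, .kid, .dead [(38, 133), (34, 2660), (13, 2660), (12, 20), (0,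 40)], .dead [(38, 133), (36, 20), (34, 2660), (13, 2640), (11, 20), (0, 40)], .dead [(38, 66), (37, 1), (34, 1320), (13, 1320), (0, 20)], .dead [(39, 1), (36, 1320), (0, 20)], .dead [(36, 66), (0, 1)], .dead [(36, 133), (12, 1), (0, 2)], .dead [(34, 1), (12, 66), (0, 1)], .dead [(12, 66), (0, 1)], .dead [(36, 1), (12, 66), (0, 1)], .red 0 133 [(36, 8844), (26, 133), (8, 8844), (6, 1), (0, 134)], .red 0 17687 [(36, 1176252), (34, 17688), (26, 17423), (8, 1158564), (6, 131), (0, 17688)], .dead [(36, 133), (35, 1), (34, 131), (11, 1), (0, 2)], .dead [(38, 1), (36, 1310), (34, 1320), (13, 10), (12, 10), (11, 10), (0, 20)], .dead [(38, 1), (36, 10), (35, 1310), (34, 20), (13, 10), (11, 1320), (0, 20)], .dead [(36, 1), (35, 66), (11, 66), (0, 1)]] (.cons (.node 2 (1) (1) (1) [.red 0 0 [(12, 66), (0, 1)], .dead [(36, 134), (35, 133), (14, 133), (12, 1), (1, 2), (0, 268)], .red 1 132669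 [(40, 2211), (39, 2178), (38, 2178), (36, 2918520), (20, 11676070), (7, 88450), (4, 660), (2, 87780), (1, 44220), (0, 17600890)], .dead [(40, 1), (35, 10), (14, 10), (12, 10), (0, 20)], .red 2 0 [(12, 66), (0, 1)], .dead [(39, 1), (37, 40), (13, 20), (12, 20), (0, 80)], .kid, .kid, .kid, .red 0 46523389 [(40, 2370259), (38, 8844), (36, 3140592840), (35, 3116890920), (7, 46873200), (6, 3093631200), (5, 47228300), (4, 47228300), (1, 353760), (0, 46524730)], .red 1 23437264 [(40, 1176252), (38, 4389), (36, 1558533900), (35, 1546771380), (7, 23261040), (6, 1535228640), (5, 23437260), (4, 23437260), (1, 175560), (0, 23437925)], .red 1 348479 [(40, 17423), (36, 22998360), (35, 23173920), (14, 175560), (7, 345840), (6, 22825440), (5, 348460), (4, 348460), (0, 348480)], .red 0 132 [(35, 66), (14, 66), (12, 8778), (0, 1)], .red 0 265 [(35, 133), (14, 133), (12, 17557), (0, 2)], .red 0 263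 [(35, 133), (14, 133), (12, 17423), (0, 2)], .dead [(36, 134), (35, 17821), (14, 17821), (12, 1), (1, 2), (0, 268)], .dead [(37, 2), (35, 267), (14, 265), (12, 1), (0, 4)], .dead [(40, 1), (38, 2), (36, 20), (35, 2640), (14, 2660), (0, 40)], .dead [(40, 133), (39, 66), (13, 1320), (0, 20)], .dead [(40, 132), (39, 67), (13, 1320), (0, 20)], .dead [(40, 131), (39, 66), (37, 20), (13, 1320), (0, 20)], .dead [(36, 17822), (35, 1), (14, 1), (12, 133), (1, 266), (0, 268)], .dead [(39, 67), (27, 1330), (7, 10), (6, 88440), (0, 1340)], .dead [(26, 1), (2, 1), (0, 1)], .dead [(40, 133), (12, 1320), (0, 20)], .dead [(40, 131), (37, 20), (35, 20), (12, 1320), (0, 20)], .dead [(40, 131), (37, 20), (12, 1320), (0, 20)], .dead [(36, 1), (35, 1), (12, 133), (0, 2)], .dead [(37, 2), (35, 3), (14, 1), (12, 265), (0, 4)], .dead [(37, 1), (12, 66), (0, 1)]] (.cons (.ref 168 [(0, [(40, 1)]), (0, [(39,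 1)]), (0, [(38, 1)]), (0, [(37, 1)]), (0, [(36, 1)]), (0, [(35, 1)]), (0, [(14, 1)]), (0, [(13, 1)]), (0, [(12, 1)]), (0, [(1, 1)]), (0, [(0, 1)]), (577457404, [(11, 9425842601984), (8, 9496709562368), (7, 141733920768), (5, 142807662592)]), (73635135454, [(33, 2413015706107904), (16, 160474684146581504), (4, 137438953472), (2, 18279380811776)]), (39753700604, [(7, 9794035384320), (5, 9794597421056), (4, 9867678973952), (2, 9719846535168)]), (141570, [(7, 34603008), (5, 35127296), (4, 35127296), (3, 34603008)])]) (.cons (.ref 169 [(0, [(40, 1)]), (0, [(39, 1)]), (0, [(38, 1)]), (0, [(37, 1)]), (0, [(36, 1)]), (0, [(35, 1)]), (0, [(14, 1)]), (0, [(13, 1)]), (0, [(1, 1)]), (0, [(0, 1)]), (27033896, [(34, 589081608192), (7, 593510793216), (5, 8925478912), (4, 4496293888)]), (600182582, [(8, 9867116937216), (7, 146154717184), (5, 148377698304), (3, 147278790656)]), (39753700604, [(7,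 9794035384320), (5, 9794597421056), (4, 9867678973952), (2, 9719846535168)]), (18045818, [(9, 292326211584), (7, 4429185024), (5, 4462739456), (4, 4462739456)]), (141570, [(7, 34603008), (5, 35127296), (4, 35127296), (3, 34603008)])]) (.cons (.ref 170 [(0, [(40, 1)]), (0, [(39, 1)]), (0, [(38, 1)]), (0, [(37, 1)]), (0, [(36, 1)]), (0, [(35, 1)]), (0, [(14, 1)]), (0, [(13, 1)]), (0, [(1, 1)]), (0, [(0, 1)]), (27033896, [(34, 589081608192), (7, 593510793216), (5, 8925478912), (4, 4496293888)]), (577457404, [(11, 9425842601984), (8, 9496709562368), (7, 141733920768), (5, 142807662592)]), (39753700604, [(7, 9794035384320), (5, 9794597421056), (4, 9867678973952), (2, 9719846535168)]), (18045818, [(9, 292326211584), (7, 4429185024), (5, 4462739456), (4, 4462739456)]), (141570, [(7, 34603008), (5, 35127296), (4, 35127296), (3, 34603008)])]) (.nil))))) (.cons (.ref 171 [(0, [(39, 1)]),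 (0, [(38, 1)]), (0, [(37, 1)]), (0, [(36, 1)]), (0, [(35, 1)]), (0, [(34, 1)]), (0, [(13, 1)]), (0, [(11, 1)]), (0, [(0, 1)]), (27033896, [(33, 589081608192), (6, 593510793216), (4, 8925478912), (3, 4496293888)]), (577457404, [(10, 9425842601984), (7, 9496709562368), (6, 141733920768), (4, 142807662592)]), (4494302, [(10, 73081552896), (6, 1107296256), (4, 1115684864), (3, 1115684864)]), (600182582, [(7, 9867116937216), (6, 146154717184), (4, 148377698304), (2, 147278790656)]), (36092726, [(6, 8858370048), (5, 584652423168), (4, 8925478912), (3, 8925478912)]), (39753700604, [(6, 9794035384320), (4, 9794597421056), (3, 9867678973952), (1, 9719846535168)]), (141570, [(6, 34603008), (4, 35127296), (3, 35127296), (2, 34603008)])]) (.cons (.split [0, 0, 0, 0, 0, 1024, 0, 0, 0, -1024] (.ref 172 [(0, [(40, 1)]), (0, [(39, 1)]), (0, [(38, 1)]), (0, [(37, 1)]), (0, [(36, 1)]), (0, [(35,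 1)]), (0, [(14, 1)]), (0, [(13, 1)]), (0, [(12, 1)]), (0, [(1, 1)]), (1023, [(0, 1)]), (600182582, [(8, 9867116937216), (7, 146154717184), (5, 148377698304), (3, 147278790656)]), (18045818, [(9, 292326211584), (7, 4429185024), (5, 4462739456), (4, 4462739456)]), (141570, [(7, 34603008), (5, 35127296), (4, 35127296), (3, 34603008)])]) (.split [0, 0, 0, 0, 0, 0, 1024, 0, 0, -1024] (.ref 173 [(0, [(41, 1)]), (0, [(40, 1)]), (0, [(39, 1)]), (0, [(38, 1)]), (0, [(37, 1)]), (0, [(36, 1)]), (0, [(15, 1)]), (0, [(13, 1)]), (0, [(2, 1)]), (1023, [(1, 1)]), (1023, [(0, 1)]), (27033896, [(35, 589081608192), (8, 593510793216), (6, 8925478912), (5, 4496293888)]), (4494302, [(12, 73081552896), (8, 1107296256), (6, 1115684864), (5, 1115684864)]), (36092726, [(8, 8858370048), (7, 584652423168), (6, 8925478912), (5, 8925478912)]), (39753700604, [(8, 9794035384320), (6, 9794597421056), (5, 9867678973952),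 (3, 9719846535168)]), (141570, [(8, 34603008), (6, 35127296), (5, 35127296), (4, 34603008)])]) (.split [0, 0, 0, 0, 1024, 0, 0, 0, 0, -1013] (.ref 174 [(0, [(42, 1)]), (0, [(41, 1)]), (0, [(40, 1)]), (0, [(39, 1)]), (0, [(38, 1)]), (0, [(37, 1)]), (0, [(16, 1)]), (0, [(15, 1)]), (0, [(14, 1)]), (0, [(3, 1)]), (1023, [(2, 1)]), (1023, [(1, 1)]), (0, [(0, 1)]), (36092726, [(9, 8858370048), (8, 584652423168), (7, 8925478912), (6, 8925478912)]), (39753700604, [(9, 9794035384320), (7, 9794597421056), (6, 9867678973952), (4, 9719846535168)]), (141570, [(9, 34603008), (7, 35127296), (6, 35127296), (5, 34603008)])]) (.split [0, 0, 0, 0, 0, 0, 0, 1024, 0, -930] (.ref 175 [(0, [(43, 1)]), (0, [(42, 1)]), (0, [(41, 1)]), (0, [(40, 1)]), (0, [(39, 1)]), (0, [(38, 1)]), (0, [(17, 1)]), (0, [(15, 1)]), (0, [(4, 1)]), (1023, [(3, 1)]), (1023, [(2, 1)]), (0, [(1, 1)]), (1, [(0, 1)]), (27033896,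 [(37, 589081608192), (10, 593510793216), (8, 8925478912), (7, 4496293888)]), (4494302, [(14, 73081552896), (10, 1107296256), (8, 1115684864), (7, 1115684864)]), (39753700604, [(10, 9794035384320), (8, 9794597421056), (7, 9867678973952), (5, 9719846535168)]), (18045818, [(12, 292326211584), (10, 4429185024), (8, 4462739456), (7, 4462739456)]), (141570, [(10, 34603008), (8, 35127296), (7, 35127296), (6, 34603008)])]) (.node 2 (1) (1) (1) [.red 0 0 [(16, 66), (0, 1)], .dead [(39, 8844), (31, 133), (18, 8844), (11, 1), (10, 8844), (0, 17688)], .red 0 22471679 [(44, 8512), (43, 74722560), (39, 11235840), (17, 1483215360), (11, 168960), (10, 11151360), (9, 170240), (8, 170240), (2, 1459425), (0, 2966261760)], .dead [(41, 512), (18, 512), (3, 1), (0, 1024)], .red 2 0 [(16, 66), (0, 1)], .dead [(1, 1), (0, 1024)], .kid, .kid, .kid, .red 0 22387199 [(44, 570304), (43, 75280128), (39, 1499942400),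 (18, 747141120), (17, 752801280), (11, 11320320), (10, 747141120), (9, 11406080), (8, 11406080), (2, 1470315), (0, 22387200)], .red 0 5954995199 [(44, 150568768), (43, 19875077376), (39, 393052070400), (18, 194301296640), (17, 198750773760), (11, 2988733440), (10, 197256407040), (9, 3011375360), (8, 3011375360), (2, 388185105), (0, 5910220800)], .red 0 5954995199 [(44, 149445184), (43, 19726764288), (39, 396007180800), (18, 198739537920), (17, 197267642880), (11, 2966430720), (10, 195784427520), (9, 2988903680), (8, 2988903680), (2, 385288365), (0, 5910220800)], .red 0 85759 [(44, 2144), (41, 5660160), (38, 5617920), (18, 2830080), (11, 5660160), (9, 85120), (8, 42880), (3, 11055), (0, 85760)], .red 0 1494282239 [(44, 37642208), (41, 99375429120), (39, 747141120), (38, 98633821440), (18, 50434855680), (11, 99375429120), (9, 1494451840), (8, 752844160), (3, 194092635), (0, 1505602560)],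 .red 0 11320319 [(44, 280864), (41, 741480960), (39, 11320320), (38, 735947520), (18, 382060800), (11, 741480960), (9, 11150720), (8, 5617280), (3, 1448205), (0, 11320320)], .dead [(39, 1176252), (31, 133), (18, 1176252), (11, 1), (10, 8844), (0, 17688)], .dead [(41, 512), (39, 67584), (18, 68096), (3, 1), (0, 1024)], .dead [(42, 256), (39, 337920), (18, 337920), (4, 5), (0, 5120)], .dead [(44, 8845), (43, 4422), (5, 1320), (0, 1340)], .dead [(44, 8778), (43, 4489), (5, 1320), (0, 1340)], .dead [(44, 66), (43, 33), (5, 10), (0, 10)], .dead [(39, 8844), (31, 17689), (18, 8844), (11, 133), (10, 1176252), (0, 17688)], .dead [(43, 67), (31, 1330), (11, 10), (10, 88440), (0, 1340)], .dead [(40, 66), (5, 1), (0, 1)], .dead [(44, 128), (41, 168960), (3, 165), (0, 2560)], .dead [(41, 136192), (16, 1024), (3, 133), (0, 2048)], .dead [(41, 67584), (3, 66), (1, 1), (0, 1024)], .dead [(40,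 1), (39, 1), (16, 133), (0, 2)], .dead [(41, 1024), (39, 512), (18, 512), (16, 135680), (3, 1), (0, 2048)], .dead [(16, 67584), (1, 1), (0, 1024)]] (.cons (.ref 176 [(0, [(44, 1)]), (0, [(43, 1)]), (0, [(42, 1)]), (0, [(41, 1)]), (0, [(40, 1)]), (0, [(39, 1)]), (0, [(18, 1)]), (0, [(17, 1)]), (0, [(16, 1)]), (0, [(5, 1)]), (1023, [(4, 1)]), (1023, [(3, 1)]), (0, [(2, 1)]), (1, [(1, 1)]), (0, [(0, 1)]), (27033896, [(38, 589081608192), (11, 593510793216), (9, 8925478912), (8, 4496293888)]), (577457404, [(15, 9425842601984), (12, 9496709562368), (11, 141733920768), (9, 142807662592)]), (39753700604, [(11, 9794035384320), (9, 9794597421056), (8, 9867678973952), (6, 9719846535168)]), (141570, [(11, 34603008), (9, 35127296), (8, 35127296), (7, 34603008)])]) (.cons (.ref 177 [(0, [(44, 1)]), (0, [(43, 1)]), (0, [(42, 1)]), (0, [(41, 1)]), (0, [(40, 1)]), (0, [(39, 1)]), (0, [(18, 1)]),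 (0, [(17, 1)]), (0, [(5, 1)]), (1023, [(4, 1)]), (1023, [(3, 1)]), (0, [(2, 1)]), (1, [(1, 1)]), (0, [(0, 1)]), (27033896, [(38, 589081608192), (11, 593510793216), (9, 8925478912), (8, 4496293888)]), (577457404, [(15, 9425842601984), (12, 9496709562368), (11, 141733920768), (9, 142807662592)]), (4494302, [(15, 73081552896), (11, 1107296256), (9, 1115684864), (8, 1115684864)]), (39753700604, [(11, 9794035384320), (9, 9794597421056), (8, 9867678973952), (6, 9719846535168)]), (141570, [(11, 34603008), (9, 35127296), (8, 35127296), (7, 34603008)])]) (.cons (.ref 178 [(0, [(44, 1)]), (0, [(43, 1)]), (0, [(42, 1)]), (0, [(41, 1)]), (0, [(40, 1)]), (0, [(39, 1)]), (0, [(18, 1)]), (0, [(17, 1)]), (0, [(5, 1)]), (1023, [(4, 1)]), (1023, [(3, 1)]), (0, [(2, 1)]), (1, [(1, 1)]), (0, [(0, 1)]), (27033896, [(38, 589081608192), (11, 593510793216), (9, 8925478912), (8, 4496293888)]), (577457404,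 [(15, 9425842601984), (12, 9496709562368), (11, 141733920768), (9, 142807662592)]), (4494302, [(15, 73081552896), (11, 1107296256), (9, 1115684864), (8, 1115684864)]), (39753700604, [(11, 9794035384320), (9, 9794597421056), (8, 9867678973952), (6, 9719846535168)]), (141570, [(11, 34603008), (9, 35127296), (8, 35127296), (7, 34603008)])]) (.nil))))))))) (.nil))))

/-- a subtree -/
def nC_6 : T := .node 3 (0) (1) (0) [.dead [(35, 34846), (33, 17423), (28, 5320), (9, 176890), (7, 174230), (5, 167620), (3, 171570), (1, 174230), (0, 7900)], .dead [(35, 66), (33, 33), (28, 20), (9, 660), (7, 660), (0, 20)], .dead [(35, 35378), (33, 17689), (28, 10560), (9, 353780), (7, 343180), (5, 5320), (1, 10600), (0, 10640)], .kid, .kid, .kid, .dead [(31, 1176252), (22, 17557), (5, 8844), (2, 265), (0, 17688)], .dead [(31, 66), (22, 1), (0, 1)], .red 2 0 [(31, 8844), (22, 133), (2, 1), (0, 133)],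 .dead [(34, 26401), (27, 348460), (5, 178220), (2, 351140), (0, 5300)], .dead [(34, 26467), (27, 351120), (5, 174240), (2, 353780), (0, 5300)], .dead [(34, 13167), (27, 175570), (5, 88440), (2, 176880), (0, 2650)]] (.cons (.node 3 (1) (1) (0) [.dead [(34, 17557), (33, 2640), (29, 5280), (10, 2640), (8, 348480), (5, 2640), (4, 2660), (2, 2660), (0, 5320)], .dead [(34, 131), (33, 40), (29, 40), (10, 20), (8, 2620), (0, 40)], .dead [(34, 2335213), (33, 704920), (29, 702280), (10, 351140), (8, 46347820), (5, 348480), (2, 356440), (1, 5320), (0, 707560)], .dead [(36, 17557), (35, 35378), (10, 2660), (5, 351140), (4, 353780), (3, 5280), (0, 5320)], .dead [(36, 66), (35, 133), (5, 1320), (4, 1320), (3, 20), (0, 20)], .dead [(36, 133), (35, 266), (10, 20), (5, 2620), (4, 2660), (3, 40), (0, 40)], .red 0 132 [(4, 8844), (0, 1)], .red 0 348459 [(36, 1), (33, 1320), (4, 23173920), (1, 20),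 (0, 2640)], .red 0 351139 [(36, 132), (35, 133), (10, 1320), (4, 23352140), (3, 20), (0, 2660)], .kid, .kid, .kid] (.cons (.node 3 (1) (0) (0) [.dead [(34, 66), (31, 1), (0, 1)], .red 1 132 [(6, 8844), (0, 1)], .red 1 23348149 [(35, 44), (34, 88670), (33, 88220), (30, 20), (11, 225), (10, 215), (9, 440), (6, 1552740205), (3, 225), (2, 1330), (0, 176890)], .dead [(28, 1), (0, 1)], .dead [(28, 17556), (6, 8712), (4, 265), (0, 17689)], .dead [(36, 2211), (28, 86450), (4, 1320), (1, 670), (0, 87120)], .kid, .kid, .red 0 1329 [(36, 33), (31, 1320), (4, 1320), (1, 10), (0, 1320)], .red 0 132 [(6, 8844), (0, 1)], .red 0 174899 [(37, 33), (29, 660), (6, 11631180), (4, 670), (0, 1330)], .red 0 23526369 [(35, 44), (34, 88670), (33, 88220), (30, 20), (11, 225), (10, 215), (9, 440), (6, 1564591835), (3, 225), (2, 1330), (0, 178220)]] (.cons (.ref 166 [(0, [(37, 1)]), (0, [(36, 1)]), (0, [(35,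 1)]), (0, [(34, 1)]), (0, [(33, 1)]), (0, [(32, 1)]), (0, [(11, 1)]), (0, [(10, 1)]), (0, [(9, 1)]), (577457404, [(8, 9425842601984), (5, 9496709562368), (4, 141733920768), (2, 142807662592)]), (4494302, [(8, 73081552896), (4, 1107296256), (2, 1115684864), (1, 1115684864)]), (9133957304, [(30, 301609783394304), (13, 20058184467087360), (2, 17179869184), (0, 2284922601472)]), (36092726, [(4, 8858370048), (3, 584652423168), (2, 8925478912), (1, 8925478912)]), (18900230, [(4, 4636803072), (2, 4671930368), (1, 4637327360), (0, 4602200064)]), (18045818, [(6, 292326211584), (4, 4429185024), (2, 4462739456), (1, 4462739456)])]) (.cons (.node 3 (1) (1) (1) [.dead [(33, 264), (32, 262), (31, 264), (12, 131), (10, 34848), (9, 1), (4, 263), (2, 2), (0, 528)], .dead [(35, 530), (33, 529), (32, 524), (31, 528), (13, 528), (12, 263), (10, 69695), (2, 4), (0, 1056)], .dead [(35, 265), (31, 264),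 (30, 264), (13, 133), (10, 34980), (7, 132), (4, 133), (0, 530)], .red 1 12282177599 [(38, 17689), (37, 17556), (33, 46523400), (11, 175560), (9, 174240), (5, 2640), (4, 816810984000), (3, 2660), (2, 702260), (0, 93046800)], .red 1 176879 [(38, 33), (37, 67), (5, 10), (4, 11762520), (1, 10), (0, 1340)], .red 1 132 [(4, 8844), (0, 1)], .kid, .red 1 46877179 [(38, 1167473), (37, 1158696), (35, 11763860), (31, 178220), (30, 178220), (10, 35113320), (3, 351120), (1, 175580), (0, 46701600)], .kid, .red 0 132 [(4, 8844), (0, 1)], .red 0 353739 [(38, 133), (37, 267), (9, 1320), (5, 40), (4, 23523720), (3, 20), (1, 20), (0, 2700)], .red 0 15329579 [(38, 5941), (37, 5896), (35, 58960), (11, 440), (5, 880), (4, 1019476480), (3, 1780), (1, 880), (0, 117040)]] (.cons (.ref 167 [(0, [(38, 1)]), (0, [(37, 1)]), (0, [(36, 1)]), (0, [(35, 1)]), (0, [(34, 1)]), (0, [(33, 1)]), (0, [(12, 1)]), (0,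 [(11, 1)]), (0, [(10, 1)]), (577457404, [(9, 9425842601984), (6, 9496709562368), (5, 141733920768), (3, 142807662592)]), (4494302, [(9, 73081552896), (5, 1107296256), (3, 1115684864), (2, 1115684864)]), (600182582, [(6, 9867116937216), (5, 146154717184), (3, 148377698304), (1, 147278790656)]), (9133957304, [(31, 301609783394304), (14, 20058184467087360), (3, 17179869184), (0, 2284922601472)]), (151139470, [(5, 37094424576), (3, 37375442944), (2, 37098618880), (0, 36817600512)]), (141570, [(5, 34603008), (3, 35127296), (2, 35127296), (1, 34603008)])]) (.cons (nC_5) (.nil)))) (.nil)))) (.cons (.node 3 (1) (0) (0) [.dead [(34, 66), (31, 1), (0, 1)], .red 1 132 [(6, 8844), (0, 1)], .red 1 23348149 [(35, 44), (34, 88670), (33, 88220), (30, 20), (11, 225), (10, 215), (9, 440), (6, 1552740205), (3, 225), (2, 1330), (0, 176890)], .dead [(28, 1), (0, 1)], .dead [(28, 17556), (6, 8712),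 (4, 265), (0, 17689)], .dead [(36, 8911), (28, 348460), (5, 178220), (4, 5300), (0, 351140)], .kid, .kid, .red 0 2659 [(36, 67), (31, 2660), (4, 2660), (1, 20), (0, 2640)], .red 0 132 [(6, 8844), (0, 1)], .red 0 174899 [(37, 33), (29, 660), (6, 11631180), (4, 670), (0, 1330)], .red 0 23526369 [(35, 44), (34, 88670), (33, 88220), (30, 20), (11, 225), (10, 215), (9, 440), (6, 1564591835), (3, 225), (2, 1330), (0, 178220)]] (.cons (.ref 179 [(0, [(37, 1)]), (0, [(36, 1)]), (0, [(35, 1)]), (0, [(34, 1)]), (0, [(33, 1)]), (0, [(32, 1)]), (0, [(11, 1)]), (0, [(10, 1)]), (0, [(9, 1)]), (9600389534, [(8, 156704566149120), (4, 2356460650496), (2, 2356326432768), (1, 2374177390592)]), (9133957304, [(30, 301609783394304), (13, 20058184467087360), (2, 17179869184), (0, 2284922601472)]), (9564195794, [(4, 2356460650496), (3, 156704566149120), (2, 2356326432768), (1, 2374177390592)]), (0, [(4,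 1), (2, 1), (1, 1), (0, 1)])]) (.cons (.ref 180 [(0, [(37, 1)]), (0, [(36, 1)]), (0, [(35, 1)]), (0, [(34, 1)]), (0, [(33, 1)]), (0, [(32, 1)]), (0, [(11, 1)]), (0, [(10, 1)]), (0, [(9, 1)]), (9600389534, [(8, 156704566149120), (4, 2356460650496), (2, 2356326432768), (1, 2374177390592)]), (18900230, [(4, 4602200064), (2, 4636803072), (1, 4671930368), (0, 4637327360)]), (75014444, [(6, 1224254423040), (4, 18409848832), (2, 18408800256), (1, 18548260864)]), (9564195794, [(4, 2356460650496), (3, 156704566149120), (2, 2356326432768), (1, 2374177390592)])]) (.nil)))) (.cons (.node 3 (1) (0) (0) [.dead [(34, 66), (31, 1), (0, 1)], .red 1 132 [(6, 8844), (0, 1)], .red 1 23348149 [(35, 44), (34, 88670), (33, 88220), (30, 20), (11, 225), (10, 215), (9, 440), (6, 1552740205), (3, 225), (2, 1330), (0, 176890)], .dead [(28, 1), (0, 1)], .dead [(28, 17556), (6, 8712), (4, 265), (0, 17689)],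 .dead [(36, 2211), (28, 87120), (4, 1320), (1, 670), (0, 87790)], .kid, .kid, .red 0 88439 [(36, 2211), (31, 87120), (4, 87120), (1, 670), (0, 87790)], .red 0 132 [(6, 8844), (0, 1)], .red 0 174899 [(37, 33), (29, 660), (6, 11631180), (4, 670), (0, 1330)], .red 0 23526369 [(35, 44), (34, 88670), (33, 88220), (30, 20), (11, 225), (10, 215), (9, 440), (6, 1564591835), (3, 225), (2, 1330), (0, 178220)]] (.cons (.ref 181 [(0, [(37, 1)]), (0, [(36, 1)]), (0, [(35, 1)]), (0, [(34, 1)]), (0, [(33, 1)]), (0, [(32, 1)]), (0, [(11, 1)]), (0, [(10, 1)]), (0, [(9, 1)]), (143826356, [(8, 2356594868224), (4, 35165044736), (2, 35701915648), (1, 35701915648)]), (9133957304, [(30, 301609783394304), (13, 20058184467087360), (2, 17179869184), (0, 2284922601472)]), (287661492, [(4, 70330089472), (3, 4713189736448), (2, 71403831296), (1, 71403831296)]), (2485562046, [(4, 607490408448), (2, 616729935872),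 (1, 612127211520), (0, 612162338816)])]) (.cons (.ref 182 [(0, [(37, 1)]), (0, [(36, 1)]), (0, [(35, 1)]), (0, [(34, 1)]), (0, [(33, 1)]), (0, [(32, 1)]), (0, [(11, 1)]), (0, [(10, 1)]), (0, [(9, 1)]), (143826356, [(8, 2356594868224), (4, 35165044736), (2, 35701915648), (1, 35701915648)]), (72962, [(4, 17704960), (2, 18112512), (1, 18112512), (0, 17979392)]), (287661492, [(4, 70330089472), (3, 4713189736448), (2, 71403831296), (1, 71403831296)])]) (.nil)))) (.nil))))) (.cons (.node 3 (1) (1) (0) [.dead [(34, 17557), (33, 2640), (29, 5280), (10, 2640), (8, 348480), (5, 2640), (4, 2660), (2, 2660), (0, 5320)], .dead [(34, 131), (33, 40), (29, 40), (10, 20), (8, 2620), (0, 40)], .dead [(34, 4356), (33, 1325), (29, 1310), (10, 660), (8, 86455), (5, 655), (2, 665), (1, 10), (0, 1320)], .dead [(36, 17557), (35, 35378), (10, 2660), (5, 351140), (4, 353780), (3, 5280), (0, 5320)], .dead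 [(36, 66), (35, 133), (5, 1320), (4, 1320), (3, 20), (0, 20)], .dead [(36, 133), (35, 266), (10, 20), (5, 2620), (4, 2660), (3, 40), (0, 40)], .red 0 132 [(4, 8844), (0, 1)], .red 0 46345199 [(36, 132), (35, 133), (33, 175560), (10, 1320), (4, 3082131360), (3, 20), (1, 2660), (0, 351120)], .red 0 351139 [(36, 132), (35, 133), (10, 1320), (4, 23352140), (3, 20), (0, 2660)], .kid, .kid, .kid] (.cons (.node 3 (1) (0) (0) [.dead [(34, 66), (31, 1), (0, 1)], .red 1 132 [(6, 8844), (0, 1)], .red 1 174229 [(36, 1), (34, 665), (33, 655), (11, 5), (6, 11586960), (2, 10), (0, 1320)], .dead [(28, 1), (0, 1)], .dead [(28, 17556), (6, 8712), (4, 265), (0, 17689)], .dead [(36, 2211), (28, 86450), (4, 1320), (1, 670), (0, 87120)], .kid, .kid, .red 0 1329 [(36, 33), (31, 1320), (4, 1320), (1, 10), (0, 1320)], .red 0 132 [(6, 8844), (0, 1)], .red 0 174899 [(37, 33), (29, 660), (6, 11631180), (4,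 670), (0, 1330)], .red 0 175569 [(36, 1), (34, 665), (33, 655), (11, 5), (6, 11676070), (2, 10), (0, 1330)]] (.cons (.ref 183 [(0, [(37, 1)]), (0, [(36, 1)]), (0, [(35, 1)]), (0, [(34, 1)]), (0, [(33, 1)]), (0, [(32, 1)]), (0, [(11, 1)]), (0, [(10, 1)]), (0, [(9, 1)]), (0, [(8, 66), (5, 66), (4, 1), (2, 1)]), (18045818, [(6, 292326211584), (4, 4462739456), (2, 4462739456), (1, 4429185024)]), (141570, [(4, 35127296), (2, 35127296), (1, 34603008), (0, 34603008)]), (2266264538, [(30, 74831215198208), (13, 4976561426006016), (2, 4294967296), (0, 566935683072)]), (4494302, [(4, 1115684864), (3, 73081552896), (2, 1115684864), (1, 1107296256)])]) (.cons (.ref 184 [(0, [(37, 1)]), (0, [(36, 1)]), (0, [(35, 1)]), (0, [(34, 1)]), (0, [(33, 1)]), (0, [(32, 1)]), (0, [(11, 1)]), (0, [(10, 1)]), (0, [(9, 1)]), (0, [(8, 66), (5, 66), (4, 1), (2, 1)]), (285218, [(5, 4636803072), (4, 69730304),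 (2, 70254592), (0, 69730304)]), (18900230, [(4, 4637327360), (2, 4671930368), (1, 4636803072), (0, 4602200064)]), (4494302, [(4, 1115684864), (3, 73081552896), (2, 1115684864), (1, 1107296256)])]) (.nil)))) (.cons (.split [0, 0, 0, 0, 0, 0, 0, 1024, 0, -1024] (.ref 185 [(0, [(37, 1)]), (0, [(36, 1)]), (0, [(35, 1)]), (0, [(34, 1)]), (0, [(33, 1)]), (0, [(32, 1)]), (0, [(11, 1)]), (0, [(10, 1)]), (0, [(9, 1)]), (1023, [(0, 1)]), (54615518, [(31, 1187021586432), (4, 1196014174208), (2, 17850957824), (1, 8858370048)]), (285218, [(6, 4636803072), (4, 70254592), (2, 69730304), (1, 69730304)]), (36090152, [(4, 8992587776), (3, 593510793216), (2, 8925478912), (1, 8925478912)])]) (.node 3 (1) (0) (0) [.dead [(35, 66), (32, 1), (0, 1)], .red 1 132 [(7, 8844), (0, 1)], .red 1 2943790079 [(37, 1132096), (35, 11404800), (31, 167680), (12, 11235840), (7, 195773445120), (3, 170240), (1, 21615),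 (0, 22471680)], .dead [(29, 1), (0, 1)], .dead [(29, 17556), (7, 8712), (5, 265), (0, 17689)], .dead [(37, 8911), (29, 348460), (6, 178220), (5, 5300), (0, 351140)], .kid, .kid, .red 0 2659 [(37, 67), (32, 2660), (5, 2660), (2, 20), (0, 2640)], .red 0 132 [(7, 8844), (0, 1)], .red 0 174899 [(38, 33), (30, 660), (7, 11631180), (5, 670), (0, 1330)], .red 0 5954995199 [(37, 1132096), (35, 11404800), (31, 167680), (12, 11235840), (7, 396018585600), (3, 170240), (1, 21615), (0, 44943360)]] (.cons (.ref 186 [(0, [(38, 1)]), (0, [(37, 1)]), (0, [(36, 1)]), (0, [(35, 1)]), (0, [(34, 1)]), (0, [(33, 1)]), (0, [(12, 1)]), (0, [(11, 1)]), (0, [(10, 1)]), (1023, [(1, 1)]), (9124796, [(9, 148377698304), (5, 2248146944), (3, 2231369728), (2, 2231369728)]), (18900230, [(5, 4671930368), (3, 4637327360), (2, 4602200064), (0, 4636803072)]), (36090152, [(5, 8992587776), (4, 593510793216), (3, 8925478912),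 (2, 8925478912)])]) (.cons (.ref 187 [(0, [(38, 1)]), (0, [(37, 1)]), (0, [(36, 1)]), (0, [(35, 1)]), (0, [(34, 1)]), (0, [(33, 1)]), (0, [(12, 1)]), (0, [(11, 1)]), (0, [(10, 1)]), (1023, [(1, 1)]), (54615518, [(32, 1187021586432), (5, 1196014174208), (3, 17850957824), (2, 8858370048)]), (9124796, [(9, 148377698304), (5, 2248146944), (3, 2231369728), (2, 2231369728)]), (1, [(5, 1), (3, 1), (2, 1), (0, 1)]), (285218, [(7, 4636803072), (5, 70254592), (3, 69730304), (2, 69730304)]), (36090152, [(5, 8992587776), (4, 593510793216), (3, 8925478912), (2, 8925478912)])]) (.nil))))) (.cons (.split [0, 0, 0, 0, 0, 0, 0, 1024, 0, -1024] (.ref 188 [(0, [(37, 1)]), (0, [(36, 1)]), (0, [(35, 1)]), (0, [(34, 1)]), (0, [(33, 1)]), (0, [(32, 1)]), (0, [(11, 1)]), (0, [(10, 1)]), (0, [(9, 1)]), (1023, [(0, 1)]), (57532585970, [(31, 1253636529192960), (4, 1263062908665856), (2, 18922552164352),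 (1, 9354438770688)]), (75014444, [(6, 1224254423040), (4, 18409848832), (2, 18548260864), (1, 18408800256)]), (2382073484, [(4, 589115162624), (3, 39176141537280), (2, 593544347648), (1, 589081608192)])]) (.node 3 (1) (0) (0) [.dead [(35, 66), (32, 1), (0, 1)], .red 1 132 [(7, 8844), (0, 1)], .red 1 2943790079 [(37, 1132096), (35, 11404800), (31, 167680), (12, 11235840), (7, 195773445120), (3, 170240), (1, 21615), (0, 22471680)], .dead [(29, 1), (0, 1)], .dead [(29, 17556), (7, 8712), (5, 265), (0, 17689)], .dead [(37, 2211), (29, 87120), (5, 1320), (2, 670), (0, 87790)], .kid, .kid, .red 0 88439 [(37, 2211), (32, 87120), (5, 87120), (2, 670), (0, 87790)], .red 0 132 [(7, 8844), (0, 1)], .red 0 174899 [(38, 33), (30, 660), (7, 11631180), (5, 670), (0, 1330)], .red 0 5954995199 [(37, 1132096), (35, 11404800), (31, 167680), (12, 11235840), (7, 396018585600), (3, 170240), (1, 21615),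 (0, 44943360)]] (.cons (.ref 189 [(0, [(38, 1)]), (0, [(37, 1)]), (0, [(36, 1)]), (0, [(35, 1)]), (0, [(34, 1)]), (0, [(33, 1)]), (0, [(12, 1)]), (0, [(11, 1)]), (0, [(10, 1)]), (1023, [(1, 1)]), (57532585970, [(32, 1253636529192960), (5, 1263062908665856), (3, 18922552164352), (2, 9354438770688)]), (2400170354, [(9, 39176141537280), (5, 589115162624), (3, 593544347648), (2, 589081608192)]), (2485562046, [(5, 612162338816), (3, 616729935872), (2, 607490408448), (0, 612127211520)]), (2382073484, [(5, 589115162624), (4, 39176141537280), (3, 593544347648), (2, 589081608192)])]) (.cons (.ref 190 [(0, [(38, 1)]), (0, [(37, 1)]), (0, [(36, 1)]), (0, [(35, 1)]), (0, [(34, 1)]), (0, [(33, 1)]), (0, [(12, 1)]), (0, [(11, 1)]), (0, [(10, 1)]), (1023, [(1, 1)]), (57532585970, [(32, 1253636529192960), (5, 1263062908665856), (3, 18922552164352), (2, 9354438770688)]), (2400170354, [(9, 39176141537280),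 (5, 589115162624), (3, 593544347648), (2, 589081608192)]), (75574190, [(5, 18408800256), (3, 18687721472), (2, 18547212288), (0, 18549309440)]), (2382073484, [(5, 589115162624), (4, 39176141537280), (3, 593544347648), (2, 589081608192)])]) (.nil))))) (.nil))))) (.cons (.node 3 (1) (1) (0) [.dead [(34, 17557), (33, 5280), (29, 5280), (10, 2640), (8, 345840), (4, 2660), (2, 5300), (0, 5320)], .dead [(34, 131), (33, 40), (29, 40), (10, 20), (8, 2620), (0, 40)], .dead [(34, 17557), (33, 7920), (29, 5280), (10, 2620), (8, 345860), (2, 5280), (1, 40), (0, 5320)], .dead [(36, 17557), (35, 35378), (10, 2660), (5, 351140), (4, 353780), (3, 5280), (0, 5320)], .dead [(36, 66), (35, 133), (5, 1320), (4, 1320), (3, 20), (0, 20)], .dead [(36, 133), (35, 266), (10, 20), (5, 2620), (4, 2660), (3, 40), (0, 40)], .red 0 132 [(4, 8844), (0, 1)], .red 0 308195711 [(33, 1176252), (32, 8844), (23, 1),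 (4, 20496191100), (3, 133), (1, 17688), (0, 2334816)], .red 0 351139 [(36, 132), (35, 133), (10, 1320), (4, 23352140), (3, 20), (0, 2660)], .kid, .kid, .kid] (.cons (.ref 191 [(0, [(36, 1)]), (0, [(35, 1)]), (0, [(34, 1)]), (0, [(33, 1)]), (0, [(32, 1)]), (0, [(31, 1)]), (0, [(10, 1)]), (0, [(9, 1)]), (0, [(8, 1)]), (26899388, [(30, 580156129280), (3, 584652423168), (1, 8858370048), (0, 4496293888)]), (0, [(7, 65), (3, 1), (1, 1), (0, 1)]), (0, [(3, 1), (2, 65), (1, 1), (0, 1)]), (0, [(5, 65), (3, 1), (1, 1), (0, 1)])]) (.cons (.ref 192 [(0, [(36, 1)]), (0, [(35, 1)]), (0, [(34, 1)]), (0, [(33, 1)]), (0, [(32, 1)]), (0, [(31, 1)]), (0, [(10, 1)]), (0, [(9, 1)]), (0, [(8, 1)]), (108148500, [(30, 2338609692672), (3, 2356594868224), (1, 35433480192), (0, 17985175552)]), (144367640, [(7, 2338609692672), (3, 35701915648), (1, 35433480192), (0, 35701915648)]), (18045818, [(5, 292326211584),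 (3, 4462739456), (1, 4429185024), (0, 4462739456)]), (8954846, [(3, 2231369728), (2, 146163105792), (1, 2214592512), (0, 2231369728)])]) (.cons (.ref 193 [(0, [(36, 1)]), (0, [(35, 1)]), (0, [(34, 1)]), (0, [(33, 1)]), (0, [(32, 1)]), (0, [(31, 1)]), (0, [(10, 1)]), (0, [(9, 1)]), (0, [(8, 1)]), (875654, [(30, 18984075264), (3, 19128975360), (1, 288735232), (0, 145997824)]), (4494302, [(7, 73081552896), (3, 1107296256), (1, 1115684864), (0, 1115684864)]), (140480, [(5, 2283798528), (3, 34603008), (1, 34865152), (0, 34865152)]), (8954846, [(3, 2214592512), (2, 146163105792), (1, 2231369728), (0, 2231369728)])]) (.nil))))) (.nil))))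

/-- a subtree -/
def nC_7 : T := .node 0 (1) (0) (1) [.kid, .dead [(22, 1), (0, 1)], .dead [(0, 1)], .red 2 0 [(24, 1), (22, 1), (0, 2)], .kid, .dead [(24, 1), (0, 1)], .red 2 0 [(0, 1)], .dead [(22, 1), (0, 1)], .kid, .dead [(26, 1), (22, 20), (1, 20), (0, 20)], .dead [(24, 1), (0, 1)], .dead [(24, 1), (22, 1), (0, 1)], .red 0 1 [(24, 1), (22, 1), (0, 1)], .dead [(24, 1), (22, 1), (0, 1)]] (.cons (.node 0 (1) (1) (1) [.kid, .dead [(24, 1), (1, 1), (0, 1)], .kid, .dead [(25, 1), (23, 2), (2, 1), (0, 2)], .red 2 0 [(23, 1), (2, 1), (0, 2)], .dead [(25, 1), (0, 1)], .kid, .red 1 19 [(28, 1), (27, 1), (26, 1), (2, 20), (1, 20), (0, 20)], .red 0 1 [(23, 1), (2, 1), (0, 1)], .dead [(23, 1), (2, 1), (0, 1)], .red 1 0 [(25, 1), (0, 1)], .dead [(25, 1), (24, 1), (1, 1), (0, 1)], .dead [(25, 1), (23, 1), (0, 1)], .dead [(25, 1), (24, 1), (23, 1), (0, 1)]] (.cons (.ref 145 [(0, [(28, 1)]),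 (0, [(27, 1)]), (0, [(26, 1)]), (0, [(25, 1)]), (0, [(24, 1)]), (0, [(23, 1)]), (0, [(2, 1)]), (0, [(0, 1)])]) (.cons (.ref 146 [(0, [(28, 1)]), (0, [(27, 1)]), (0, [(26, 1)]), (0, [(25, 1)]), (0, [(24, 1)]), (0, [(2, 1)]), (0, [(1, 1)]), (0, [(0, 1)])]) (.cons (.ref 147 [(0, [(28, 1)]), (0, [(27, 1)]), (0, [(26, 1)]), (0, [(25, 1)]), (0, [(24, 1)]), (0, [(23, 1)]), (0, [(2, 1)]), (0, [(1, 1)]), (0, [(0, 1)])]) (.nil))))) (.cons (.ref 148 [(0, [(27, 1)]), (0, [(26, 1)]), (0, [(25, 1)]), (0, [(24, 1)]), (0, [(23, 1)]), (0, [(22, 1)]), (0, [(1, 1)]), (0, [(0, 1)])]) (.cons (.node 0 (1) (1) (1) [.kid, .dead [(24, 1), (23, 1), (2, 1), (1, 1), (0, 2)], .red 1 0 [(24, 1), (1, 1), (0, 2)], .dead [(25, 1), (23, 2), (2, 1), (0, 2)], .red 1 0 [(23, 1), (2, 1), (0, 2)], .dead [(25, 1), (0, 1)], .kid, .red 1 0 [(24, 1), (23, 1), (2, 1), (1, 1), (0, 1)], .red 0 1 [(23, 1), (2, 1), (0, 1)],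 .dead [(23, 1), (2, 1), (0, 1)], .dead [(28, 2), (27, 1), (1, 20), (0, 20)], .dead [(24, 1), (1, 1), (0, 1)], .dead [(25, 1), (23, 1), (0, 1)], .dead [(25, 1), (24, 1), (23, 1), (0, 1)]] (.cons (.ref 149 [(0, [(28, 1)]), (0, [(27, 1)]), (0, [(26, 1)]), (0, [(25, 1)]), (0, [(24, 1)]), (0, [(23, 1)]), (0, [(2, 1)]), (0, [(1, 1)]), (0, [(0, 1)])]) (.cons (.node 1 (0) (0) (1) [.kid, .kid, .kid, .dead [(12, 2), (5, 1), (0, 133)]] (.cons (.ref 150 [(0, [(29, 1)]), (0, [(28, 1)]), (0, [(26, 1)]), (0, [(25, 1)]), (0, [(24, 1)]), (0, [(3, 1)]), (0, [(2, 1)]), (0, [(1, 1)]), (0, [(23, 1), (22, 1), (21, 1), (0, 199)])]) (.cons (.node 1 (1) (0) (1) [.kid, .kid, .kid, .kid] (.cons (.ref 151 [(0, [(29, 1)]), (0, [(27, 1)]), (0, [(26, 1)]), (0, [(25, 1)]), (0, [(4, 1)]), (0, [(3, 1)]), (0, [(2, 1)]), (0, [(24, 2), (1, 1), (0, 133)])]) (.cons (.ref 152 [(0, [(30, 1)]), (0, [(29, 1)]), (0, [(28,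 1)]), (0, [(26, 1)]), (0, [(25, 1)]), (0, [(4, 1)]), (0, [(3, 1)]), (0, [(24, 2), (6, 133), (0, 1)])]) (.cons (.node 1 (1) (0) (0) [.kid, .dead [(22, 2), (7, 1), (0, 133)], .kid, .kid] (.cons (.ref 153 [(0, [(30, 1)]), (0, [(29, 1)]), (0, [(28, 1)]), (0, [(27, 1)]), (0, [(26, 1)]), (0, [(5, 1)]), (0, [(4, 1)]), (0, [(3, 1)]), (0, [(25, 2), (2, 1), (0, 133)]), (0, [(25, 1), (24, 1), (23, 1), (0, 199)])]) (.cons (.node 1 (1) (1) (0) [.dead [(30, 33), (29, 5), (25, 10), (6, 5), (4, 660), (1, 5), (0, 665)], .kid, .kid, .kid] (.cons (.ref 154 [(0, [(32, 1)]), (0, [(31, 1)]), (0, [(30, 1)]), (0, [(28, 1)]), (0, [(27, 1)]), (0, [(6, 1)]), (0, [(5, 1)]), (0, [(4, 1)]), (0, [(26, 2), (8, 133), (0, 1)])]) (.cons (.ref 155 [(0, [(32, 1)]), (0, [(31, 1)]), (0, [(30, 1)]), (0, [(29, 1)]), (0, [(28, 1)]), (0, [(27, 1)]), (0, [(6, 1)]), (0, [(5, 1)]), (0, [(4, 1)]), (0, [(25, 2), (8, 133), (0,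 1)])]) (.cons (.ref 156 [(0, [(32, 1)]), (0, [(31, 1)]), (0, [(30, 1)]), (0, [(29, 1)]), (0, [(28, 1)]), (0, [(27, 1)]), (0, [(6, 1)]), (0, [(5, 1)]), (0, [(4, 1)]), (0, [(8, 1), (3, 1), (1, 1), (0, 1)])]) (.nil))))) (.cons (.node 1 (1) (1) (1) [.dead [(26, 1), (25, 1), (24, 1), (4, 199), (0, 199)], .kid, .kid, .kid] (.cons (.ref 157 [(0, [(32, 1)]), (0, [(31, 1)]), (0, [(30, 1)]), (0, [(29, 1)]), (0, [(28, 1)]), (0, [(27, 1)]), (0, [(6, 1)]), (0, [(5, 1)]), (0, [(4, 1)]), (0, [(26, 2), (8, 133), (0, 1)]), (0, [(8, 1), (2, 1), (1, 1), (0, 1)])]) (.cons (.ref 158 [(0, [(32, 1)]), (0, [(31, 1)]), (0, [(30, 1)]), (0, [(29, 1)]), (0, [(28, 1)]), (0, [(27, 1)]), (0, [(6, 1)]), (0, [(5, 1)]), (0, [(8, 1), (3, 1), (1, 1), (0, 1)])]) (.cons (.ref 159 [(0, [(32, 1)]), (0, [(31, 1)]), (0, [(30, 1)]), (0, [(29, 1)]), (0, [(28, 1)]), (0, [(27, 1)]), (0, [(6, 1)]), (0, [(5, 1)]), (0, [(8, 1),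 (3, 1), (2, 1), (0, 1)])]) (.nil))))) (.nil))))) (.cons (.ref 160 [(0, [(30, 1)]), (0, [(29, 1)]), (0, [(28, 1)]), (0, [(27, 1)]), (0, [(26, 1)]), (0, [(4, 1)]), (0, [(3, 1)]), (0, [(2, 1)]), (0, [(22, 2), (6, 133), (0, 1)])]) (.nil)))))) (.cons (.node 1 (0) (1) (0) [.dead [(30, 265), (28, 134), (23, 60), (4, 2650), (3, 1310), (2, 1340), (1, 30), (0, 3990)], .kid, .kid, .kid] (.cons (.node 1 (1) (0) (0) [.kid, .dead [(22, 2), (7, 1), (0, 133)], .kid, .kid] (.cons (.ref 161 [(0, [(30, 1)]), (0, [(29, 1)]), (0, [(28, 1)]), (0, [(27, 1)]), (0, [(26, 1)]), (0, [(5, 1)]), (0, [(4, 1)]), (0, [(3, 1)]), (0, [(24, 2), (2, 1), (0, 133)]), (0, [(25, 2), (1, 1), (0, 133)]), (0, [(25, 1), (24, 1), (23, 1), (0, 199)])]) (.cons (.node 1 (1) (1) (0) [.dead [(30, 33), (29, 5), (25, 10), (6, 5), (4, 660), (1, 5), (0, 665)], .kid, .kid, .kid] (.cons (.ref 162 [(0, [(32, 1)]), (0, [(31, 1)]), (0,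 [(30, 1)]), (0, [(28, 1)]), (0, [(27, 1)]), (0, [(6, 1)]), (0, [(5, 1)]), (0, [(4, 1)]), (0, [(26, 2), (8, 133), (0, 1)])]) (.cons (.ref 163 [(0, [(32, 1)]), (0, [(31, 1)]), (0, [(30, 1)]), (0, [(29, 1)]), (0, [(28, 1)]), (0, [(27, 1)]), (0, [(6, 1)]), (0, [(5, 1)]), (0, [(4, 1)]), (0, [(25, 2), (8, 133), (0, 1)])]) (.cons (.node 3 (0) (0) (0) [.kid, .kid, .kid, .dead [(33, 266), (32, 133), (9, 2640), (2, 2660), (1, 2660), (0, 40)], .dead [(33, 266), (32, 133), (24, 5280), (9, 5300), (7, 2660), (2, 2660), (0, 5320)], .dead [(33, 264), (32, 133), (30, 20), (9, 2660), (2, 2640), (1, 2660), (0, 40)], .dead [(29, 133), (20, 264), (9, 265), (3, 133), (0, 266)], .red 1 132 [(9, 8844), (0, 1)], .dead [(32, 133), (30, 2660), (20, 5280), (9, 5300), (1, 2660), (0, 5320)], .dead [(33, 66), (32, 66), (29, 5), (9, 665), (7, 660), (3, 665), (2, 660), (0, 10)], .dead [(33, 66), (32, 66), (30,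 5), (9, 665), (7, 660), (3, 660), (2, 665), (0, 10)], .dead [(33, 133), (32, 133), (9, 1320), (7, 1330), (3, 1330), (2, 1330), (0, 20)]] (.cons (.ref 164 [(0, [(33, 1)]), (0, [(32, 1)]), (0, [(31, 1)]), (0, [(30, 1)]), (0, [(29, 1)]), (0, [(28, 1)]), (0, [(7, 1)]), (0, [(6, 1)]), (0, [(5, 1)]), (0, [(26, 264), (4, 265), (1, 133), (0, 266)]), (0, [(4, 133), (3, 132), (1, 133), (0, 2)]), (0, [(26, 264), (2, 265), (1, 133), (0, 266)]), (0, [(3, 132), (2, 133), (1, 133), (0, 2)])]) (.cons (.node 1 (1) (1) (1) [.dead [(28, 1), (27, 1), (26, 1), (6, 199), (0, 199)], .kid, .kid, .kid] (.cons (.ref 165 [(0, [(34, 1)]), (0, [(33, 1)]), (0, [(32, 1)]), (0, [(31, 1)]), (0, [(30, 1)]), (0, [(29, 1)]), (0, [(8, 1)]), (0, [(7, 1)]), (0, [(6, 1)]), (0, [(28, 264), (2, 133), (1, 266), (0, 265)]), (0, [(5, 132), (2, 133), (1, 2), (0, 133)]), (0, [(28, 264), (4, 265), (2, 133), (1, 266)]), (0, [(3,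 132), (2, 133), (1, 2), (0, 133)]), (0, [(4, 133), (3, 132), (2, 133), (1, 2)])]) (.cons (nC_6) (.cons (.ref 194 [(0, [(34, 1)]), (0, [(33, 1)]), (0, [(31, 1)]), (0, [(30, 1)]), (0, [(7, 1)]), (0, [(5, 132), (4, 133), (1, 2), (0, 133)]), (0, [(26, 264), (4, 133), (1, 266), (0, 265)]), (0, [(4, 133), (3, 132), (1, 2), (0, 133)])]) (.nil))))) (.cons (.ref 195 [(0, [(33, 1)]), (0, [(32, 1)]), (0, [(31, 1)]), (0, [(30, 1)]), (0, [(29, 1)]), (0, [(28, 1)]), (0, [(7, 1)]), (0, [(5, 1)]), (0, [(26, 264), (4, 265), (3, 133), (0, 266)]), (0, [(27, 264), (4, 133), (3, 265), (0, 266)]), (0, [(27, 264), (3, 265), (2, 133), (0, 266)]), (0, [(26, 264), (3, 133), (2, 265), (0, 266)])]) (.nil))))) (.nil))))) (.cons (.ref 196 [(0, [(31, 1)]), (0, [(30, 1)]), (0, [(29, 1)]), (0, [(28, 1)]), (0, [(27, 1)]), (0, [(26, 1)]), (0, [(5, 1)]), (0, [(4, 1)]), (0, [(3, 1)]), (0, [(7, 1), (2, 1), (1, 1),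 (0, 1)])]) (.nil))))) (.cons (.ref 197 [(0, [(30, 1)]), (0, [(28, 1)]), (0, [(27, 1)]), (0, [(26, 1)]), (0, [(25, 1)]), (0, [(4, 1)]), (0, [(3, 1)]), (0, [(23, 2), (6, 133), (0, 1)])]) (.cons (.node 1 (1) (1) (1) [.dead [(25, 1), (24, 1), (23, 1), (3, 199), (0, 199)], .kid, .kid, .kid] (.cons (.ref 198 [(0, [(30, 1)]), (0, [(29, 1)]), (0, [(26, 1)]), (0, [(5, 1)]), (0, [(4, 1)]), (0, [(7, 1), (2, 1), (1, 1), (0, 1)])]) (.cons (.ref 199 [(0, [(31, 1)]), (0, [(30, 1)]), (0, [(29, 1)]), (0, [(28, 1)]), (0, [(27, 1)]), (0, [(26, 1)]), (0, [(5, 1)]), (0, [(4, 1)]), (0, [(3, 1)]), (0, [(7, 1), (6, 1), (1, 1), (0, 1)])]) (.cons (.ref 200 [(0, [(31, 1)]), (0, [(30, 1)]), (0, [(29, 1)]), (0, [(28, 1)]), (0, [(27, 1)]), (0, [(26, 1)]), (0, [(5, 1)]), (0, [(4, 1)]), (0, [(3, 1)]), (0, [(7, 1), (6, 1), (2, 1), (0, 1)])]) (.nil))))) (.nil))))) (.nil))))) (.nil)))) (.nil))))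

/-- a subtree -/
def nC_8 : T := .node 0 (1) (1) (0) [.kid, .dead [(22, 1), (0, 1)], .kid, .dead [(23, 1), (0, 1)], .red 0 0 [(22, 1), (0, 1)], .red 1 0 [(23, 1), (0, 1)], .kid, .dead [(22, 1), (0, 1)], .red 0 1 [(23, 1), (22, 1), (0, 1)], .dead [(23, 1), (22, 1), (0, 1)], .kid, .red 1 1 [(23, 1), (22, 1), (0, 1)], .dead [(23, 1), (0, 1)], .dead [(23, 1), (22, 1), (0, 1)]] (.cons (.node 0 (1) (0) (1) [.kid, .dead [(22, 1), (0, 1)], .dead [(0, 1)], .red 2 0 [(24, 1), (22, 1), (0, 2)], .kid, .dead [(24, 1), (0, 1)], .red 2 0 [(0, 1)], .dead [(22, 1), (0, 1)], .kid, .red 1 1 [(24, 1), (22, 1), (0, 1)], .dead [(24, 1), (0, 1)], .dead [(24, 1), (22, 1), (0, 1)], .red 0 1 [(24, 1), (22, 1), (0, 1)], .dead [(24, 1), (22, 1), (0, 1)]] (.cons (.node 1 (0) (0) (1) [.kid, .kid, .kid, .dead [(11, 2), (4, 1), (0, 133)]] (.cons (.node 0 (1) (1) (1) [.kid, .dead [(29, 1), (3, 20), (2, 20), (0,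 20)], .dead [(29, 199), (28, 199), (23, 20), (22, 20), (21, 20), (2, 3980), (1, 3980), (0, 3980)], .red 0 0 [(26, 1), (24, 1), (3, 1), (0, 1)], .kid, .dead [(26, 1), (0, 1)], .kid, .dead [(29, 199), (25, 3980), (23, 20), (22, 20), (21, 20), (2, 7960), (1, 3980), (0, 3980)], .kid, .red 0 1 [(26, 1), (25, 1), (24, 1), (3, 2), (2, 2), (0, 1)], .dead [(28, 199), (26, 3980), (23, 20), (22, 20), (21, 20), (1, 3980), (0, 3980)], .dead [(28, 1), (26, 20), (3, 20), (2, 20), (0, 20)], .dead [(26, 1), (24, 1), (0, 1)], .dead [(26, 1), (24, 1), (3, 1), (0, 1)]] (.cons (.ref 3 [(0, [(29, 1)]), (0, [(28, 1)]), (0, [(26, 1)]), (0, [(25, 1)]), (0, [(24, 1)]), (0, [(0, 1)]), (0, [(23, 2), (4, 1), (1, 133)]), (0, [(23, 1), (22, 1), (21, 1), (1, 199)])]) (.cons (.ref 4 [(0, [(29, 1)]), (0, [(28, 1)]), (0, [(26, 1)]), (0, [(25, 1)]), (0, [(24, 1)]), (0, [(3, 1)]), (0, [(2, 1)]), (0, [(0, 1)]), (0,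 [(23, 2), (4, 1), (1, 133)]), (0, [(23, 1), (22, 1), (21, 1), (1, 199)])]) (.cons (.ref 5 [(0, [(29, 1)]), (0, [(28, 1)]), (0, [(26, 1)]), (0, [(25, 1)]), (0, [(24, 1)]), (0, [(3, 1)]), (0, [(2, 1)]), (0, [(0, 1)]), (0, [(23, 2), (4, 1), (1, 133)]), (0, [(23, 1), (22, 1), (21, 1), (1, 199)])]) (.cons (.ref 6 [(0, [(29, 1)]), (0, [(28, 1)]), (0, [(26, 1)]), (0, [(25, 1)]), (0, [(24, 1)]), (0, [(3, 1)]), (0, [(2, 1)]), (0, [(0, 1)]), (0, [(23, 2), (4, 1), (1, 133)]), (0, [(23, 1), (22, 1), (21, 1), (1, 199)])]) (.nil)))))) (.cons (.node 1 (1) (1) (2) [.dead [(26, 133), (24, 265), (23, 2), (3, 133), (2, 2), (1, 1), (0, 133)], .kid, .kid, .kid] (.cons (.node 0 (1) (1) (1) [.kid, .dead [(30, 1), (4, 20), (3, 20), (0, 20)], .red 2 0 [(27, 1), (4, 1), (3, 1), (0, 1)], .red 0 265 [(27, 266), (25, 133), (21, 2), (6, 1), (4, 266), (3, 266), (2, 133), (0, 266)], .kid, .dead [(27, 1), (0,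 1)], .kid, .red 1 19 [(30, 1), (29, 1), (4, 20), (3, 20), (0, 20)], .kid, .red 0 1 [(27, 1), (26, 1), (25, 1), (4, 2), (3, 2), (0, 1)], .red 2 0 [(27, 2), (0, 1)], .dead [(29, 1), (27, 20), (4, 20), (3, 20), (0, 20)], .dead [(27, 133), (21, 2), (6, 1), (1, 133), (0, 266)], .dead [(27, 1), (25, 1), (4, 1), (0, 1)]] (.cons (.ref 7 [(0, [(30, 1)]), (0, [(29, 1)]), (0, [(28, 1)]), (0, [(27, 1)]), (0, [(26, 1)]), (0, [(25, 1)]), (0, [(0, 1)]), (0, [(24, 2), (6, 133), (1, 1)])]) (.cons (.ref 8 [(0, [(30, 1)]), (0, [(29, 1)]), (0, [(28, 1)]), (0, [(27, 1)]), (0, [(26, 1)]), (0, [(25, 1)]), (0, [(4, 1)]), (0, [(3, 1)]), (0, [(0, 1)]), (0, [(24, 2), (6, 133), (1, 1)])]) (.cons (.ref 9 [(0, [(30, 1)]), (0, [(29, 1)]), (0, [(28, 1)]), (0, [(27, 1)]), (0, [(26, 1)]), (0, [(25, 1)]), (0, [(4, 1)]), (0, [(3, 1)]), (0, [(0, 1)]), (0, [(24, 2), (6, 133), (1, 1)])]) (.cons (.ref 10 [(0, [(30, 1)]),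 (0, [(29, 1)]), (0, [(28, 1)]), (0, [(27, 1)]), (0, [(26, 1)]), (0, [(25, 1)]), (0, [(4, 1)]), (0, [(3, 1)]), (0, [(0, 1)]), (0, [(24, 2), (6, 133), (1, 1)])]) (.nil)))))) (.cons (.node 1 (1) (1) (1) [.dead [(27, 133), (25, 132), (24, 2), (4, 133), (3, 2), (2, 1), (0, 133)], .kid, .kid, .kid] (.cons (.ref 11 [(0, [(30, 1)]), (0, [(29, 1)]), (0, [(28, 1)]), (0, [(27, 1)]), (0, [(26, 1)]), (0, [(25, 1)]), (0, [(4, 1)]), (0, [(3, 1)]), (0, [(24, 2), (6, 133), (0, 1)])]) (.cons (.split [0, 0, 0, 1024, 0, 0, 0, 0, 0, -1024] (.ref 12 [(0, [(31, 1)]), (0, [(30, 1)]), (0, [(29, 1)]), (0, [(28, 1)]), (0, [(27, 1)]), (0, [(26, 1)]), (0, [(5, 1)]), (0, [(4, 1)]), (1023, [(0, 1)])]) (.node 1 (1) (0) (0) [.kid, .dead [(23, 2), (8, 1), (0, 133)], .kid, .kid] (.cons (.ref 13 [(0, [(31, 1)]), (0, [(30, 1)]), (0, [(29, 1)]), (0, [(28, 1)]), (0, [(27, 1)]), (0, [(6, 1)]), (0, [(5, 1)]), (1023, [(1,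 1)]), (0, [(26, 2), (4, 1), (0, 133)]), (0, [(25, 2), (2, 1), (0, 133)])]) (.cons (.node 1 (1) (1) (0) [.dead [(30, 199), (27, 1), (26, 1), (25, 1), (7, 199), (0, 199)], .kid, .kid, .kid] (.cons (.ref 14 [(0, [(33, 1)]), (0, [(32, 1)]), (0, [(31, 1)]), (0, [(29, 1)]), (0, [(28, 1)]), (0, [(7, 1)]), (0, [(6, 1)]), (1023, [(2, 1)]), (0, [(27, 2), (9, 133), (0, 1)])]) (.cons (.ref 15 [(0, [(33, 1)]), (0, [(32, 1)]), (0, [(31, 1)]), (0, [(30, 1)]), (0, [(29, 1)]), (0, [(28, 1)]), (0, [(7, 1)]), (0, [(6, 1)]), (1023, [(2, 1)]), (0, [(26, 2), (9, 133), (0, 1)])]) (.cons (.ref 16 [(0, [(33, 1)]), (0, [(32, 1)]), (0, [(31, 1)]), (0, [(30, 1)]), (0, [(29, 1)]), (0, [(28, 1)]), (0, [(7, 1)]), (0, [(6, 1)]), (1023, [(2, 1)]), (0, [(26, 2), (9, 133), (3, 1)]), (0, [(9, 1), (5, 1), (1, 1), (0, 1)])]) (.nil))))) (.cons (.ref 17 [(0, [(32, 1)]), (0, [(31, 1)]), (0, [(30, 1)]), (0, [(29, 1)]),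 (0, [(28, 1)]), (0, [(27, 1)]), (0, [(6, 1)]), (0, [(5, 1)]), (1023, [(1, 1)]), (0, [(8, 1), (4, 1), (2, 1), (0, 1)])]) (.nil)))))) (.cons (.ref 18 [(0, [(30, 1)]), (0, [(29, 1)]), (0, [(28, 1)]), (0, [(27, 1)]), (0, [(26, 1)]), (0, [(25, 1)]), (0, [(4, 1)]), (0, [(3, 1)]), (0, [(22, 2), (6, 133), (0, 1)]), (1, [(6, 1), (2, 1), (1, 1), (0, 1)])]) (.nil))))) (.cons (.ref 19 [(0, [(29, 1)]), (0, [(28, 1)]), (0, [(27, 1)]), (0, [(26, 1)]), (0, [(25, 1)]), (0, [(3, 1)]), (0, [(2, 1)]), (0, [(21, 2), (5, 133), (0, 1)])]) (.nil))))) (.cons (nC_1) (.nil))))) (.cons (.ref 60 [(0, [(27, 1)]), (0, [(26, 1)]), (0, [(25, 1)]), (0, [(24, 1)]), (0, [(23, 1)]), (0, [(22, 1)]), (0, [(1, 1)]), (0, [(0, 1)])]) (.cons (.node 0 (1) (1) (1) [.kid, .dead [(23, 1), (2, 1), (0, 1)], .red 2 19 [(28, 1), (27, 1), (2, 20), (1, 20), (0, 40)], .red 0 0 [(25, 1), (23, 1), (2, 1), (0, 1)], .kid, .dead [(25,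 1), (0, 1)], .kid, .red 1 39 [(28, 1), (27, 1), (2, 20), (1, 20), (0, 20)], .kid, .red 1 0 [(25, 1), (23, 1), (2, 2), (0, 1)], .dead [(28, 2), (27, 1), (1, 20), (0, 20)], .dead [(24, 1), (1, 1), (0, 1)], .dead [(25, 1), (23, 1), (0, 1)], .dead [(25, 1), (23, 1), (2, 1), (0, 1)]] (.cons (.ref 61 [(0, [(28, 1)]), (0, [(27, 1)]), (0, [(26, 1)]), (0, [(25, 1)]), (0, [(24, 1)]), (0, [(23, 1)]), (0, [(1, 1)]), (0, [(0, 1)])]) (.cons (.ref 62 [(0, [(28, 1)]), (0, [(27, 1)]), (0, [(26, 1)]), (0, [(25, 1)]), (0, [(24, 1)]), (0, [(23, 1)]), (0, [(2, 1)]), (0, [(1, 1)]), (0, [(0, 1)])]) (.cons (.ref 63 [(0, [(28, 1)]), (0, [(27, 1)]), (0, [(26, 1)]), (0, [(25, 1)]), (0, [(24, 1)]), (0, [(23, 1)]), (0, [(2, 1)]), (0, [(1, 1)]), (0, [(0, 1)])]) (.cons (.ref 64 [(0, [(28, 1)]), (0, [(27, 1)]), (0, [(26, 1)]), (0, [(25, 1)]), (0, [(24, 1)]), (0, [(23, 1)]), (0, [(2, 1)]), (0, [(0, 1)])]) (.nil))))))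 (.nil))))) (.cons (.node 0 (1) (0) (1) [.kid, .dead [(22, 1), (0, 1)], .dead [(0, 1)], .red 2 0 [(24, 1), (22, 1), (0, 2)], .kid, .dead [(24, 1), (0, 1)], .red 2 0 [(0, 1)], .dead [(22, 1), (0, 1)], .kid, .dead [(26, 1), (22, 20), (1, 20), (0, 20)], .dead [(24, 1), (0, 1)], .dead [(24, 1), (22, 1), (0, 1)], .red 0 1 [(24, 1), (22, 1), (0, 1)], .dead [(24, 1), (22, 1), (0, 1)]] (.cons (.node 0 (1) (1) (1) [.kid, .dead [(24, 1), (1, 1), (0, 1)], .kid, .dead [(23, 1), (2, 1), (0, 1)], .kid, .dead [(25, 1), (0, 1)], .kid, .red 2 0 [(24, 1), (1, 1), (0, 1)], .red 3 0 [(23, 2), (2, 2), (0, 1)], .dead [(24, 1), (23, 1), (2, 1), (0, 1)], .red 1 0 [(25, 1), (0, 1)], .dead [(25, 1), (24, 1), (1, 1), (0, 1)], .dead [(25, 1), (23, 1), (0, 1)], .dead [(25, 1), (24, 1), (23, 1), (0, 1)]] (.cons (.ref 65 [(0, [(28, 1)]), (0, [(27, 1)]), (0, [(26, 1)]), (0, [(25, 1)]), (0, [(24, 1)]), (0, [(23,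 1)]), (0, [(2, 1)]), (0, [(0, 1)])]) (.cons (.ref 66 [(0, [(28, 1)]), (0, [(27, 1)]), (0, [(26, 1)]), (0, [(25, 1)]), (0, [(24, 1)]), (0, [(1, 1)]), (0, [(0, 1)])]) (.cons (.ref 67 [(0, [(28, 1)]), (0, [(27, 1)]), (0, [(26, 1)]), (0, [(25, 1)]), (0, [(24, 1)]), (0, [(23, 1)]), (0, [(2, 1)]), (0, [(1, 1)]), (0, [(0, 1)])]) (.cons (.ref 68 [(0, [(28, 1)]), (0, [(27, 1)]), (0, [(26, 1)]), (0, [(25, 1)]), (0, [(24, 1)]), (0, [(23, 1)]), (0, [(2, 1)]), (0, [(1, 1)]), (0, [(0, 1)])]) (.nil)))))) (.cons (.ref 69 [(0, [(27, 1)]), (0, [(26, 1)]), (0, [(25, 1)]), (0, [(23, 1)]), (0, [(22, 1)]), (0, [(1, 1)]), (0, [(0, 1)])]) (.cons (.node 0 (1) (1) (1) [.kid, .dead [(24, 2), (23, 1), (2, 1), (1, 1), (0, 2)], .red 2 0 [(24, 1), (1, 1), (0, 2)], .dead [(23, 1), (2, 1), (0, 1)], .kid, .dead [(25, 1), (0, 1)], .kid, .red 1 1 [(24, 1), (1, 1), (0, 1)], .red 2 0 [(23, 2), (2, 2), (0, 1)], .dead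 [(24, 1), (23, 1), (2, 1), (0, 1)], .dead [(28, 2), (27, 1), (1, 20), (0, 20)], .dead [(24, 1), (1, 1), (0, 1)], .dead [(25, 1), (23, 1), (0, 1)], .dead [(25, 1), (24, 1), (23, 1), (0, 1)]] (.cons (.ref 70 [(0, [(28, 1)]), (0, [(27, 1)]), (0, [(26, 1)]), (0, [(25, 1)]), (0, [(24, 1)]), (0, [(23, 1)]), (0, [(2, 1)]), (0, [(1, 1)]), (0, [(0, 1)])]) (.cons (.ref 71 [(0, [(28, 1)]), (0, [(27, 1)]), (0, [(26, 1)]), (0, [(25, 1)]), (0, [(24, 1)]), (0, [(23, 1)]), (0, [(2, 1)]), (0, [(1, 1)]), (0, [(0, 1)])]) (.cons (.ref 72 [(0, [(28, 1)]), (0, [(27, 1)]), (0, [(26, 1)]), (0, [(25, 1)]), (0, [(24, 1)]), (0, [(23, 1)]), (0, [(2, 1)]), (0, [(1, 1)]), (0, [(0, 1)])]) (.nil))))) (.nil))))) (.cons (.node 0 (1) (0) (1) [.kid, .dead [(22, 1), (0, 1)], .dead [(0, 1)], .red 2 0 [(23, 1), (22, 1), (1, 1), (0, 2)], .kid, .dead [(24, 1), (0, 1)], .red 2 0 [(0, 1)], .dead [(22, 1), (0, 1)], .kid,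 .red 1 1 [(23, 1), (22, 1), (1, 1), (0, 1)], .dead [(24, 1), (0, 1)], .dead [(24, 1), (22, 1), (0, 1)], .red 0 1 [(23, 1), (22, 1), (1, 1), (0, 1)], .dead [(24, 1), (22, 1), (0, 1)]] (.cons (.node 0 (1) (1) (-1) [.kid, .dead [(24, 1), (2, 1), (0, 2)], .red 1 0 [(24, 1), (0, 1)], .dead [(25, 1), (0, 1)], .dead [(24, 1), (0, 1)], .red 1 19 [(26, 1), (2, 20), (0, 40)], .red 1 0 [(24, 2), (0, 1)], .dead [(24, 1), (23, 1), (0, 1)], .dead [(28, 1), (25, 20), (24, 20), (1, 20), (0, 20)], .dead [(25, 1), (24, 1), (0, 1)], .kid, .red 1 0 [(24, 1), (2, 1), (0, 1)], .red 0 19 [(28, 1), (26, 1), (2, 20), (0, 20)], .dead [(26, 1), (2, 20), (0, 20)]] (.cons (.ref 73 [(0, [(28, 1)]), (0, [(27, 1)]), (0, [(26, 1)]), (0, [(25, 1)]), (0, [(24, 1)]), (0, [(23, 1)]), (0, [(2, 1)]), (0, [(1, 1)]), (0, [(0, 1)])]) (.cons (.ref 74 [(0, [(28, 1)]), (0, [(27, 1)]), (0, [(26, 1)]), (0, [(25, 1)]), (0, [(24,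 1)]), (0, [(23, 1)]), (0, [(2, 1)]), (0, [(1, 1)]), (0, [(0, 1)])]) (.nil)))) (.cons (.node 1 (-1) (0) (1) [.kid, .kid, .kid, .dead [(25, 133), (11, 2), (4, 1), (0, 133)]] (.cons (.ref 75 [(0, [(28, 1)]), (0, [(27, 1)]), (0, [(26, 1)]), (0, [(25, 1)]), (0, [(24, 1)]), (0, [(23, 1)]), (0, [(2, 1)]), (0, [(1, 1)]), (0, [(22, 1), (21, 1), (20, 1), (0, 199)])]) (.cons (.node 0 (1) (1) (-1) [.kid, .dead [(25, 1), (3, 1), (0, 2)], .red 1 0 [(25, 1), (0, 1)], .dead [(26, 1), (0, 1)], .dead [(25, 1), (0, 1)], .red 1 19 [(27, 1), (3, 20), (0, 40)], .red 1 0 [(25, 2), (0, 1)], .dead [(25, 1), (24, 1), (0, 1)], .red 0 0 [(26, 1), (25, 1), (0, 1)], .dead [(26, 1), (25, 1), (0, 1)], .kid, .red 1 0 [(25, 1), (3, 1), (0, 1)], .red 0 19 [(29, 1), (27, 1), (3, 20), (0, 20)], .dead [(27, 1), (3, 20), (0, 20)]] (.cons (.ref 76 [(0, [(29, 1)]), (0, [(28, 1)]), (0, [(27, 1)]), (0, [(26, 1)]), (0, [(25,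 1)]), (0, [(24, 1)]), (0, [(3, 1)]), (0, [(2, 1)]), (0, [(0, 1)])]) (.cons (.ref 77 [(0, [(29, 1)]), (0, [(28, 1)]), (0, [(27, 1)]), (0, [(26, 1)]), (0, [(25, 1)]), (0, [(24, 1)]), (0, [(3, 1)]), (0, [(2, 1)]), (0, [(0, 1)])]) (.nil)))) (.cons (.ref 78 [(0, [(28, 1)]), (0, [(27, 1)]), (0, [(26, 1)]), (0, [(25, 1)]), (0, [(24, 1)]), (0, [(23, 1)]), (0, [(2, 1)]), (0, [(1, 1)]), (0, [(21, 2), (4, 133), (0, 1)])]) (.nil))))) (.cons (.node 1 (-1) (0) (1) [.kid, .kid, .kid, .dead [(25, 133), (11, 2), (4, 1), (0, 133)]] (.cons (.ref 79 [(0, [(28, 1)]), (0, [(27, 1)]), (0, [(26, 1)]), (0, [(25, 1)]), (0, [(24, 1)]), (0, [(23, 1)]), (0, [(2, 1)]), (0, [(1, 1)]), (0, [(22, 1), (21, 1), (20, 1), (0, 199)])]) (.cons (.node 0 (1) (1) (-1) [.kid, .dead [(25, 1), (3, 1), (0, 2)], .red 1 0 [(25, 1), (0, 1)], .dead [(26, 1), (0, 1)], .dead [(25, 1), (0, 1)], .red 1 19 [(27, 1), (3, 20), (0, 40)],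 .red 1 0 [(25, 2), (0, 1)], .dead [(25, 1), (24, 1), (0, 1)], .red 0 0 [(26, 1), (25, 1), (0, 1)], .dead [(26, 1), (25, 1), (0, 1)], .kid, .red 1 0 [(25, 1), (3, 1), (0, 1)], .red 0 19 [(29, 1), (27, 1), (3, 20), (0, 20)], .dead [(27, 1), (3, 20), (0, 20)]] (.cons (.ref 80 [(0, [(29, 1)]), (0, [(28, 1)]), (0, [(26, 1)]), (0, [(25, 1)]), (0, [(24, 1)]), (0, [(3, 1)]), (0, [(2, 1)]), (0, [(0, 1)])]) (.cons (nC_4) (.nil)))) (.cons (.ref 144 [(0, [(28, 1)]), (0, [(27, 1)]), (0, [(26, 1)]), (0, [(25, 1)]), (0, [(24, 1)]), (0, [(23, 1)]), (0, [(2, 1)]), (0, [(1, 1)]), (0, [(21, 2), (4, 133), (0, 1)])]) (.nil))))) (.nil))))) (.cons (nC_7) (.nil)))))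

/-- a subtree -/
def nC_9 : T := .node 1 (-1) (1) (0) [.kid, .kid, .red 1 132 [(26, 17290), (25, 17290), (16, 264), (12, 2), (0, 17423)], .kid] (.cons (.node 0 (1) (1) (0) [.kid, .dead [(26, 1), (0, 1)], .kid, .dead [(27, 597), (24, 2), (23, 2), (22, 2), (4, 199), (3, 199), (1, 199), (0, 1194)], .dead [(30, 199), (26, 3980), (24, 20), (23, 20), (22, 20), (1, 3980), (0, 7960)], .dead [(27, 199), (25, 1), (23, 2), (5, 1), (4, 66), (3, 66), (1, 67), (0, 398)], .kid, .dead [(26, 1), (0, 1)], .dead [(30, 199), (24, 10), (23, 10), (22, 10), (1, 1990), (0, 1990)], .dead [(26, 597), (24, 2), (23, 2), (22, 2), (4, 199), (3, 199), (1, 199), (0, 597)], .kid, .dead [(26, 397), (25, 2), (23, 4), (5, 2), (4, 133), (3, 133), (1, 133), (0, 399)], .dead [(27, 1), (0, 1)], .dead [(28, 1), (26, 1320), (23, 20), (5, 10), (4, 1330), (3, 1340), (0, 2670)]] (.cons (.ref 215 [(0, [(30, 1)]), (0, [(29,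 1)]), (0, [(28, 1)]), (0, [(25, 1)]), (0, [(3, 1)]), (0, [(0, 1)]), (0, [(23, 2), (6, 133), (5, 1)]), (0, [(23, 2), (5, 1), (1, 133)]), (0, [(23, 2), (5, 1), (4, 133)])]) (.cons (.ref 216 [(0, [(30, 1)]), (0, [(29, 1)]), (0, [(28, 1)]), (0, [(26, 1)]), (0, [(25, 1)]), (0, [(3, 1)]), (0, [(0, 1)]), (0, [(23, 2), (6, 133), (5, 1)]), (0, [(23, 2), (5, 1), (1, 133)]), (0, [(23, 2), (5, 1), (4, 133)])]) (.cons (.ref 217 [(0, [(30, 1)]), (0, [(29, 1)]), (0, [(28, 1)]), (0, [(26, 1)]), (0, [(25, 1)]), (0, [(0, 1)]), (0, [(23, 2), (6, 133), (5, 1)]), (0, [(23, 2), (5, 1), (1, 133)]), (0, [(23, 2), (5, 1), (4, 133)])]) (.cons (.ref 218 [(0, [(30, 1)]), (0, [(29, 1)]), (0, [(28, 1)]), (0, [(26, 1)]), (0, [(25, 1)]), (0, [(3, 1)]), (0, [(0, 1)]), (0, [(23, 2), (6, 133), (5, 1)]), (0, [(23, 2), (5, 1), (1, 133)]), (0, [(23, 2), (5, 1), (4, 133)])]) (.nil)))))) (.cons (.node 0 (1) (0) (1) [.kid,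 .dead [(25, 1), (0, 1)], .dead [(0, 1)], .red 2 0 [(26, 1), (3, 1), (0, 2)], .kid, .dead [(27, 1), (0, 1)], .red 2 0 [(0, 1)], .dead [(25, 1), (0, 1)], .kid, .red 1 1 [(26, 1), (3, 1), (0, 1)], .dead [(27, 1), (0, 1)], .dead [(26, 1), (3, 1), (0, 1)], .red 0 1 [(26, 1), (3, 1), (0, 1)], .dead [(26, 1), (3, 1), (0, 1)]] (.cons (.node 0 (1) (1) (0) [.kid, .dead [(27, 1), (0, 1)], .kid, .dead [(28, 1), (0, 1)], .red 0 0 [(27, 1), (0, 1)], .dead [(30, 33), (28, 1330), (26, 5), (24, 10), (6, 5), (5, 665), (4, 665), (0, 2660)], .kid, .dead [(27, 1), (0, 1)], .red 0 1 [(28, 1), (27, 1), (0, 1)], .dead [(28, 1), (27, 1), (0, 1)], .kid, .dead [(30, 133), (27, 1320), (26, 10), (24, 20), (6, 10), (5, 1330), (4, 1330), (0, 2660)], .dead [(28, 1), (0, 1)], .dead [(29, 1), (27, 1320), (24, 20), (6, 10), (5, 1330), (4, 1340), (0, 2670)]] (.cons (.ref 219 [(0, [(31, 1)]), (0, [(30, 1)]), (0, [(29,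 1)]), (0, [(28, 1)]), (0, [(27, 1)]), (0, [(26, 1)]), (0, [(4, 1)]), (0, [(1, 1)]), (0, [(0, 1)]), (0, [(24, 2), (7, 133), (6, 1)]), (0, [(24, 2), (6, 1), (5, 133)]), (0, [(25, 1), (24, 1), (23, 1), (5, 199)])]) (.cons (.ref 220 [(0, [(31, 1)]), (0, [(30, 1)]), (0, [(29, 1)]), (0, [(28, 1)]), (0, [(27, 1)]), (0, [(26, 1)]), (0, [(4, 1)]), (0, [(1, 1)]), (0, [(0, 1)]), (0, [(24, 2), (7, 133), (6, 1)]), (0, [(24, 2), (6, 1), (5, 133)])]) (.cons (.ref 221 [(0, [(31, 1)]), (0, [(30, 1)]), (0, [(29, 1)]), (0, [(28, 1)]), (0, [(27, 1)]), (0, [(26, 1)]), (0, [(1, 1)]), (0, [(0, 1)]), (0, [(24, 2), (7, 133), (6, 1)]), (0, [(24, 2), (6, 1), (5, 133)]), (0, [(25, 1), (24, 1), (23, 1), (5, 199)])]) (.cons (.ref 222 [(0, [(31, 1)]), (0, [(30, 1)]), (0, [(29, 1)]), (0, [(28, 1)]), (0, [(27, 1)]), (0, [(26, 1)]), (0, [(4, 1)]), (0, [(1, 1)]), (0, [(0, 1)]), (0, [(24, 2), (7, 133), (6, 1)]),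 (0, [(24, 2), (6, 1), (5, 133)]), (0, [(25, 1), (24, 1), (23, 1), (5, 199)])]) (.nil)))))) (.cons (.node 0 (1) (1) (0) [.kid, .dead [(27, 1), (0, 1)], .kid, .dead [(28, 1), (0, 1)], .red 0 0 [(27, 1), (0, 1)], .dead [(29, 1), (1, 20), (0, 20)], .kid, .dead [(27, 1), (0, 1)], .red 0 1 [(28, 1), (27, 1), (0, 1)], .dead [(28, 1), (27, 1), (0, 1)], .kid, .dead [(27, 398), (26, 134), (24, 2), (6, 1), (5, 133), (1, 266), (0, 399)], .dead [(28, 1), (0, 1)], .dead [(29, 1), (27, 1320), (24, 20), (6, 10), (5, 1330), (4, 1340), (0, 2670)]] (.cons (.ref 223 [(0, [(31, 1)]), (0, [(30, 1)]), (0, [(29, 1)]), (0, [(28, 1)]), (0, [(27, 1)]), (0, [(26, 1)]), (0, [(4, 1)]), (0, [(1, 1)]), (0, [(0, 1)]), (0, [(24, 2), (7, 133), (6, 1)]), (0, [(24, 2), (6, 1), (5, 133)]), (0, [(25, 1), (24, 1), (23, 1), (5, 199)])]) (.cons (.ref 224 [(0, [(31, 1)]), (0, [(30, 1)]), (0, [(29, 1)]), (0, [(27, 1)]),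 (0, [(26, 1)]), (0, [(4, 1)]), (0, [(1, 1)]), (0, [(0, 1)]), (0, [(24, 2), (7, 133), (6, 1)]), (0, [(24, 2), (6, 1), (5, 133)]), (0, [(25, 1), (24, 1), (23, 1), (5, 199)])]) (.cons (.ref 225 [(0, [(31, 1)]), (0, [(30, 1)]), (0, [(29, 1)]), (0, [(28, 1)]), (0, [(27, 1)]), (0, [(26, 1)]), (0, [(1, 1)]), (0, [(0, 1)]), (0, [(24, 2), (7, 133), (6, 1)]), (0, [(24, 2), (6, 1), (5, 133)]), (0, [(25, 1), (24, 1), (23, 1), (5, 199)])]) (.cons (.ref 226 [(0, [(31, 1)]), (0, [(30, 1)]), (0, [(29, 1)]), (0, [(28, 1)]), (0, [(27, 1)]), (0, [(26, 1)]), (0, [(1, 1)]), (0, [(0, 1)]), (0, [(24, 2), (7, 133), (6, 1)]), (0, [(24, 2), (6, 1), (5, 133)])]) (.nil)))))) (.cons (.node 0 (1) (1) (0) [.kid, .dead [(27, 1), (0, 1)], .kid, .dead [(28, 1), (0, 1)], .red 0 0 [(27, 1), (0, 1)], .dead [(30, 33), (28, 1330), (26, 5), (24, 10), (6, 5), (5, 665), (4, 665), (0, 2660)], .kid, .dead [(27, 1), (0, 1)],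 .red 0 1 [(28, 1), (27, 1), (0, 1)], .dead [(28, 1), (27, 1), (0, 1)], .kid, .dead [(30, 133), (27, 1320), (26, 10), (24, 20), (6, 10), (5, 1330), (4, 1330), (0, 2660)], .dead [(28, 1), (0, 1)], .dead [(29, 1), (27, 1320), (24, 20), (6, 10), (5, 1330), (4, 1340), (0, 2670)]] (.cons (.ref 227 [(0, [(31, 1)]), (0, [(30, 1)]), (0, [(29, 1)]), (0, [(28, 1)]), (0, [(27, 1)]), (0, [(26, 1)]), (0, [(4, 1)]), (0, [(1, 1)]), (0, [(0, 1)]), (0, [(24, 2), (7, 133), (6, 1)]), (0, [(24, 2), (6, 1), (5, 133)]), (0, [(25, 1), (24, 1), (23, 1), (5, 199)])]) (.cons (.ref 228 [(0, [(31, 1)]), (0, [(30, 1)]), (0, [(29, 1)]), (0, [(28, 1)]), (0, [(27, 1)]), (0, [(26, 1)]), (0, [(4, 1)]), (0, [(1, 1)]), (0, [(0, 1)]), (0, [(24, 2), (7, 133), (6, 1)]), (0, [(24, 2), (6, 1), (5, 133)]), (0, [(25, 1), (24, 1), (23, 1), (5, 199)])]) (.cons (.ref 229 [(0, [(31, 1)]), (0, [(30, 1)]), (0, [(29, 1)]), (0,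 [(28, 1)]), (0, [(27, 1)]), (0, [(26, 1)]), (0, [(1, 1)]), (0, [(0, 1)]), (0, [(24, 2), (7, 133), (6, 1)]), (0, [(24, 2), (6, 1), (5, 133)]), (0, [(25, 1), (24, 1), (23, 1), (5, 199)])]) (.cons (.node 1 (0) (1) (0) [.dead [(32, 2211), (30, 2211), (25, 995), (19, 325), (7, 22110), (5, 22110), (1, 22110), (0, 66330)], .kid, .kid, .kid] (.cons (.node 1 (1) (1) (0) [.dead [(31, 1), (29, 430), (26, 20), (8, 10), (7, 440), (6, 450), (0, 890)], .kid, .kid, .kid] (.cons (.ref 230 [(0, [(33, 1)]), (0, [(32, 1)]), (0, [(31, 1)]), (0, [(29, 1)]), (0, [(28, 1)]), (0, [(6, 1)]), (0, [(3, 1)]), (0, [(2, 1)]), (0, [(27, 2), (9, 133), (0, 1)]), (0, [(26, 2), (9, 133), (8, 1)]), (0, [(27, 2), (7, 133), (0, 1)]), (0, [(26, 2), (8, 1), (7, 133)])]) (.cons (.ref 231 [(0, [(33, 1)]), (0, [(32, 1)]), (0, [(31, 1)]), (0, [(30, 1)]), (0, [(29, 1)]), (0, [(28, 1)]), (0, [(6, 1)]), (0, [(3, 1)]), (0, [(2,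 1)]), (0, [(26, 2), (9, 133), (8, 1)]), (0, [(26, 2), (8, 1), (7, 133)]), (0, [(26, 2), (9, 133), (0, 1)]), (0, [(26, 2), (7, 133), (0, 1)])]) (.cons (.ref 232 [(0, [(33, 1)]), (0, [(32, 1)]), (0, [(31, 1)]), (0, [(30, 1)]), (0, [(29, 1)]), (0, [(28, 1)]), (0, [(6, 1)]), (0, [(3, 1)]), (0, [(2, 1)]), (0, [(26, 2), (9, 133), (8, 1)]), (0, [(26, 2), (8, 1), (7, 133)]), (0, [(27, 1), (26, 1), (25, 1), (7, 199)]), (0, [(8, 1), (7, 1), (1, 1), (0, 1)]), (0, [(9, 1), (8, 1), (1, 1), (0, 1)])]) (.nil))))) (.cons (.ref 233 [(0, [(32, 1)]), (0, [(29, 1)]), (0, [(28, 1)]), (0, [(27, 1)]), (0, [(2, 1)]), (0, [(1, 1)]), (0, [(25, 2), (8, 133), (0, 1)]), (0, [(19, 2), (6, 1), (0, 133)])]) (.cons (.ref 234 [(0, [(32, 1)]), (0, [(31, 1)]), (0, [(30, 1)]), (0, [(29, 1)]), (0, [(28, 1)]), (0, [(27, 1)]), (0, [(5, 1)]), (0, [(2, 1)]), (0, [(1, 1)]), (0, [(25, 2), (8, 133), (7, 1)]), (0, [(25, 2),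 (7, 1), (6, 133)]), (0, [(24, 2), (6, 133), (0, 1)]), (0, [(7, 1), (6, 1), (3, 1), (0, 1)]), (0, [(8, 1), (7, 1), (3, 1), (0, 1)])]) (.nil))))) (.nil)))))) (.nil))))) (.cons (.ref 235 [(0, [(29, 1)]), (0, [(28, 1)]), (0, [(27, 1)]), (0, [(26, 1)]), (0, [(25, 1)]), (0, [(24, 1)]), (0, [(2, 1)]), (0, [(21, 2), (5, 133), (0, 1)]), (0, [(22, 2), (5, 133), (4, 1)]), (0, [(21, 2), (3, 133), (0, 1)]), (0, [(22, 2), (4, 1), (3, 133)]), (0, [(5, 1), (4, 1), (1, 1), (0, 1)]), (0, [(4, 1), (3, 1), (1, 1), (0, 1)])]) (.nil))))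

/-- a subtree -/
def nC_10 : T := .node 0 (1) (1) (1) [.kid, .dead [(23, 133), (22, 133), (14, 2), (3, 1), (2, 133), (0, 266)], .red 2 131 [(24, 131), (23, 1), (14, 2), (2, 133), (1, 1), (0, 266)], .red 1 0 [(24, 1), (22, 1), (0, 1)], .kid, .dead [(24, 1), (0, 1)], .kid, .red 1 131 [(23, 66), (22, 33), (14, 1), (7, 65), (2, 99), (1, 33), (0, 99)], .kid, .red 1 265 [(24, 132), (22, 267), (14, 2), (2, 133), (1, 1), (0, 133)], .dead [(27, 266), (26, 133), (24, 20), (20, 40), (2, 20), (1, 2660), (0, 2680)], .dead [(24, 132), (22, 1), (14, 2), (2, 133), (1, 1), (0, 133)], .dead [(24, 1), (22, 1), (0, 1)], .dead [(24, 1), (23, 1), (22, 1), (0, 1)]] (.cons (.ref 201 [(0, [(27, 1)]), (0, [(26, 1)]), (0, [(25, 1)]), (0, [(24, 1)]), (0, [(23, 1)]), (0, [(22, 1)]), (0, [(0, 1)]), (0, [(20, 2), (3, 133), (2, 1)]), (0, [(20, 2), (2, 1), (1, 133)]), (0, [(21, 1), (20, 1), (19, 1), (1, 199)])])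 (.cons (.node 0 (1) (1) (0) [.kid, .dead [(24, 1), (0, 1)], .kid, .dead [(25, 1), (0, 1)], .red 0 0 [(24, 1), (0, 1)], .dead [(26, 1), (1, 20), (0, 20)], .kid, .dead [(24, 1), (0, 1)], .red 0 1 [(25, 1), (24, 1), (0, 1)], .dead [(25, 1), (24, 1), (0, 1)], .kid, .dead [(24, 398), (23, 134), (21, 2), (3, 1), (2, 133), (1, 266), (0, 399)], .dead [(25, 1), (0, 1)], .dead [(25, 1), (24, 1), (0, 1)]] (.cons (.node 0 (1) (0) (1) [.kid, .dead [(24, 1), (0, 1)], .dead [(0, 1)], .red 2 0 [(26, 1), (24, 1), (0, 2)], .kid, .dead [(26, 1), (0, 1)], .red 2 0 [(0, 1)], .dead [(24, 1), (0, 1)], .kid, .red 1 1 [(26, 1), (24, 1), (0, 1)], .dead [(26, 1), (0, 1)], .dead [(26, 1), (24, 1), (0, 1)], .red 0 1 [(26, 1), (24, 1), (0, 1)], .dead [(26, 1), (24, 1), (0, 1)]] (.cons (.ref 202 [(0, [(29, 1)]), (0, [(28, 1)]), (0, [(27, 1)]), (0, [(26, 1)]), (0, [(25, 1)]), (0, [(24, 1)]), (0, [(2, 1)]), (0,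 [(1, 1)]), (0, [(0, 1)]), (0, [(22, 2), (5, 133), (4, 1)]), (0, [(22, 2), (4, 1), (3, 133)]), (0, [(23, 1), (22, 1), (21, 1), (3, 199)])]) (.cons (.ref 203 [(0, [(29, 1)]), (0, [(28, 1)]), (0, [(27, 1)]), (0, [(26, 1)]), (0, [(25, 1)]), (0, [(24, 1)]), (0, [(1, 1)]), (0, [(0, 1)]), (0, [(22, 2), (5, 133), (4, 1)]), (0, [(22, 2), (4, 1), (3, 133)]), (0, [(23, 1), (22, 1), (21, 1), (3, 199)])]) (.cons (.ref 204 [(0, [(29, 1)]), (0, [(28, 1)]), (0, [(27, 1)]), (0, [(26, 1)]), (0, [(25, 1)]), (0, [(24, 1)]), (0, [(2, 1)]), (0, [(1, 1)]), (0, [(0, 1)]), (0, [(22, 2), (5, 133), (4, 1)]), (0, [(22, 2), (4, 1), (3, 133)]), (0, [(23, 1), (22, 1), (21, 1), (3, 199)])]) (.nil))))) (.cons (.node 0 (1) (0) (1) [.kid, .dead [(24, 1), (0, 1)], .dead [(0, 1)], .red 2 0 [(26, 1), (24, 1), (0, 2)], .kid, .dead [(26, 1), (0, 1)], .red 2 0 [(0, 1)], .dead [(24, 1), (0, 1)], .kid, .dead [(28, 1), (24,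 20), (1, 20), (0, 20)], .dead [(26, 1), (0, 1)], .dead [(26, 1), (24, 1), (0, 1)], .red 0 0 [(25, 1), (24, 1), (2, 1), (1, 1), (0, 1)], .dead [(26, 1), (24, 1), (0, 1)]] (.cons (.ref 205 [(0, [(29, 1)]), (0, [(28, 1)]), (0, [(27, 1)]), (0, [(26, 1)]), (0, [(25, 1)]), (0, [(24, 1)]), (0, [(2, 1)]), (0, [(1, 1)]), (0, [(0, 1)]), (0, [(22, 2), (5, 133), (4, 1)]), (0, [(22, 2), (4, 1), (3, 133)]), (0, [(23, 1), (22, 1), (21, 1), (3, 199)])]) (.cons (.ref 206 [(0, [(29, 1)]), (0, [(28, 1)]), (0, [(27, 1)]), (0, [(25, 1)]), (0, [(24, 1)]), (0, [(1, 1)]), (0, [(0, 1)]), (0, [(22, 2), (5, 133), (4, 1)]), (0, [(22, 2), (4, 1), (3, 133)]), (0, [(23, 1), (22, 1), (21, 1), (3, 199)])]) (.cons (.ref 207 [(0, [(29, 1)]), (0, [(28, 1)]), (0, [(27, 1)]), (0, [(26, 1)]), (0, [(25, 1)]), (0, [(24, 1)]), (0, [(2, 1)]), (0, [(1, 1)]), (0, [(0, 1)]), (0, [(22, 2), (5, 133), (4, 1)]), (0, [(22, 2),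 (4, 1), (3, 133)]), (0, [(23, 1), (22, 1), (21, 1), (3, 199)])]) (.nil))))) (.cons (.node 0 (1) (0) (1) [.kid, .dead [(24, 1), (0, 1)], .dead [(0, 1)], .red 2 0 [(25, 1), (24, 1), (1, 1), (0, 2)], .kid, .dead [(26, 1), (0, 1)], .red 2 0 [(0, 1)], .dead [(24, 1), (0, 1)], .kid, .red 1 1 [(26, 1), (24, 1), (0, 1)], .dead [(26, 1), (0, 1)], .dead [(26, 1), (24, 1), (0, 1)], .red 0 1 [(25, 1), (24, 1), (1, 1), (0, 1)], .dead [(26, 1), (24, 1), (0, 1)]] (.cons (.ref 208 [(0, [(29, 1)]), (0, [(28, 1)]), (0, [(27, 1)]), (0, [(26, 1)]), (0, [(25, 1)]), (0, [(24, 1)]), (0, [(2, 1)]), (0, [(1, 1)]), (0, [(0, 1)]), (0, [(22, 2), (5, 133), (4, 1)]), (0, [(22, 2), (4, 1), (3, 133)]), (0, [(23, 1), (22, 1), (21, 1), (3, 199)])]) (.cons (.ref 209 [(0, [(29, 1)]), (0, [(28, 1)]), (0, [(27, 1)]), (0, [(26, 1)]), (0, [(25, 1)]), (0, [(24, 1)]), (0, [(1, 1)]), (0, [(0, 1)]), (0, [(22, 2), (5, 133),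 (4, 1)]), (0, [(22, 2), (4, 1), (3, 133)]), (0, [(23, 1), (22, 1), (21, 1), (3, 199)])]) (.cons (.ref 210 [(0, [(29, 1)]), (0, [(28, 1)]), (0, [(27, 1)]), (0, [(26, 1)]), (0, [(25, 1)]), (0, [(24, 1)]), (0, [(2, 1)]), (0, [(1, 1)]), (0, [(0, 1)]), (0, [(22, 2), (5, 133), (4, 1)]), (0, [(22, 2), (4, 1), (3, 133)]), (0, [(23, 1), (22, 1), (21, 1), (3, 199)])]) (.nil))))) (.cons (.node 0 (1) (0) (1) [.kid, .dead [(24, 1), (0, 1)], .dead [(0, 1)], .red 2 0 [(25, 1), (24, 1), (2, 2), (1, 1), (0, 2)], .kid, .dead [(26, 1), (0, 1)], .red 2 0 [(0, 1)], .dead [(24, 1), (0, 1)], .kid, .dead [(28, 1), (24, 20), (1, 20), (0, 20)], .dead [(26, 1), (0, 1)], .dead [(26, 1), (24, 1), (0, 1)], .red 0 1 [(25, 1), (24, 1), (2, 2), (1, 1), (0, 1)], .dead [(26, 1), (24, 1), (0, 1)]] (.cons (.ref 211 [(0, [(29, 1)]), (0, [(28, 1)]), (0, [(27, 1)]), (0, [(26, 1)]), (0, [(25, 1)]), (0, [(24, 1)]), (0,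 [(2, 1)]), (0, [(1, 1)]), (0, [(0, 1)]), (0, [(22, 2), (5, 133), (4, 1)]), (0, [(22, 2), (4, 1), (3, 133)]), (0, [(23, 1), (22, 1), (21, 1), (3, 199)])]) (.cons (.ref 212 [(0, [(29, 1)]), (0, [(28, 1)]), (0, [(27, 1)]), (0, [(26, 1)]), (0, [(25, 1)]), (0, [(24, 1)]), (0, [(1, 1)]), (0, [(0, 1)]), (0, [(22, 2), (5, 133), (4, 1)]), (0, [(22, 2), (4, 1), (3, 133)])]) (.cons (.ref 213 [(0, [(29, 1)]), (0, [(28, 1)]), (0, [(27, 1)]), (0, [(26, 1)]), (0, [(25, 1)]), (0, [(24, 1)]), (0, [(2, 1)]), (0, [(1, 1)]), (0, [(0, 1)]), (0, [(22, 2), (5, 133), (4, 1)]), (0, [(22, 2), (4, 1), (3, 133)]), (0, [(23, 1), (22, 1), (21, 1), (3, 199)])]) (.nil))))) (.nil)))))) (.cons (.node 1 (-1) (1) (1) [.kid, .kid, .kid, .dead [(27, 67), (20, 20), (11, 20), (2, 1340), (0, 1340)]] (.cons (.ref 214 [(0, [(28, 1)]), (0, [(27, 1)]), (0, [(26, 1)]), (0, [(24, 1)]), (0, [(23, 1)]), (0, [(1, 1)]), (0, [(21,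 2), (4, 133), (3, 1)]), (0, [(21, 2), (3, 1), (0, 133)])]) (.cons (nC_9) (.cons (.node 0 (1) (0) (1) [.kid, .dead [(24, 1), (0, 1)], .dead [(0, 1)], .red 2 0 [(26, 1), (24, 1), (0, 2)], .kid, .dead [(26, 1), (0, 1)], .red 2 0 [(0, 1)], .dead [(24, 1), (0, 1)], .kid, .red 0 265 [(25, 133), (24, 266), (16, 2), (5, 1), (1, 133), (0, 133)], .dead [(26, 1), (0, 1)], .dead [(25, 1), (2, 1), (0, 1)], .red 0 1 [(25, 1), (2, 1), (0, 1)], .dead [(25, 1), (2, 1), (0, 1)]] (.cons (.ref 236 [(0, [(29, 1)]), (0, [(28, 1)]), (0, [(27, 1)]), (0, [(26, 1)]), (0, [(25, 1)]), (0, [(24, 1)]), (0, [(2, 1)]), (0, [(0, 1)]), (0, [(22, 2), (5, 133), (1, 1)]), (0, [(22, 2), (3, 133), (1, 1)]), (0, [(23, 1), (22, 1), (21, 1), (3, 199)])]) (.cons (.ref 237 [(0, [(29, 1)]), (0, [(28, 1)]), (0, [(27, 1)]), (0, [(26, 1)]), (0, [(25, 1)]), (0, [(24, 1)]), (0, [(0, 1)]), (0, [(22, 2), (5, 133), (1, 1)]), (0,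 [(22, 2), (3, 133), (1, 1)])]) (.cons (.ref 238 [(0, [(29, 1)]), (0, [(28, 1)]), (0, [(27, 1)]), (0, [(26, 1)]), (0, [(25, 1)]), (0, [(24, 1)]), (0, [(2, 1)]), (0, [(0, 1)]), (0, [(22, 2), (5, 133), (1, 1)]), (0, [(22, 2), (3, 133), (1, 1)]), (0, [(23, 1), (22, 1), (21, 1), (3, 199)])]) (.nil))))) (.nil))))) (.cons (.node 0 (1) (1) (0) [.kid, .dead [(24, 1), (0, 1)], .red 1 0 [(23, 1), (1, 1), (0, 2)], .dead [(25, 1), (0, 1)], .red 0 0 [(24, 1), (0, 1)], .dead [(25, 1), (23, 1), (1, 1), (0, 2)], .kid, .dead [(24, 1), (0, 1)], .red 0 1 [(25, 1), (24, 1), (0, 1)], .dead [(25, 1), (24, 1), (0, 1)], .red 0 1 [(23, 1), (1, 1), (0, 1)], .dead [(23, 1), (1, 1), (0, 1)], .dead [(25, 1), (0, 1)], .dead [(25, 1), (24, 1), (0, 1)]] (.cons (.ref 239 [(0, [(28, 1)]), (0, [(27, 1)]), (0, [(26, 1)]), (0, [(25, 1)]), (0, [(24, 1)]), (0, [(23, 1)]), (0, [(1, 1)]), (0, [(0, 1)]), (0, [(21, 2), (3,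 1), (2, 133)]), (0, [(22, 1), (21, 1), (20, 1), (2, 199)])]) (.cons (.ref 240 [(0, [(28, 1)]), (0, [(27, 1)]), (0, [(26, 1)]), (0, [(25, 1)]), (0, [(24, 1)]), (0, [(23, 1)]), (0, [(1, 1)]), (0, [(0, 1)]), (0, [(21, 2), (3, 1), (2, 133)]), (0, [(22, 1), (21, 1), (20, 1), (2, 199)])]) (.nil)))) (.nil)))))

/-- a subtree -/
def nC_11 : T := .node 0 (1) (0) (1) [.kid, .dead [(23, 1), (0, 1)], .dead [(0, 1)], .red 2 0 [(24, 1), (1, 1), (0, 2)], .kid, .dead [(25, 1), (0, 1)], .red 2 0 [(0, 1)], .dead [(23, 1), (0, 1)], .kid, .red 1 1 [(24, 1), (1, 1), (0, 1)], .dead [(25, 1), (0, 1)], .dead [(24, 1), (1, 1), (0, 1)], .red 0 1 [(24, 1), (1, 1), (0, 1)], .dead [(24, 1), (1, 1), (0, 1)]] (.cons (.node 0 (1) (1) (0) [.kid, .dead [(25, 1), (0, 1)], .kid, .dead [(26, 1), (0, 1)], .red 0 0 [(25, 1), (0, 1)], .red 1 0 [(26, 1), (0, 1)], .kid, .dead [(25, 1), (0, 1)], .red 0 1 [(26, 1), (25,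 1), (0, 1)], .dead [(26, 1), (25, 1), (0, 1)], .kid, .dead [(28, 133), (27, 133), (26, 1330), (16, 20), (5, 10), (4, 1330), (2, 1330), (0, 2660)], .dead [(26, 1), (0, 1)], .dead [(27, 1), (2, 20), (0, 20)]] (.cons (.ref 264 [(0, [(29, 1)]), (0, [(28, 1)]), (0, [(27, 1)]), (0, [(26, 1)]), (0, [(25, 1)]), (0, [(24, 1)]), (0, [(2, 1)]), (0, [(1, 1)]), (0, [(0, 1)]), (0, [(22, 2), (5, 133), (4, 1)])]) (.cons (.ref 265 [(0, [(29, 1)]), (0, [(28, 1)]), (0, [(27, 1)]), (0, [(26, 1)]), (0, [(25, 1)]), (0, [(24, 1)]), (0, [(2, 1)]), (0, [(1, 1)]), (0, [(0, 1)]), (0, [(22, 2), (5, 133), (4, 1)])]) (.cons (.node 0 (1) (1) (-1) [.kid, .dead [(26, 1), (1, 1), (0, 2)], .red 1 0 [(26, 1), (0, 1)], .dead [(27, 1), (0, 1)], .dead [(26, 1), (0, 1)], .red 1 19 [(28, 1), (1, 20), (0, 40)], .red 1 0 [(26, 2), (0, 1)], .dead [(26, 1), (25, 1), (0, 1)], .dead [(30, 1), (27, 20), (26, 20), (2, 20), (0,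 20)], .dead [(27, 1), (26, 1), (0, 1)], .kid, .red 1 0 [(26, 1), (1, 1), (0, 1)], .red 0 19 [(30, 1), (28, 1), (1, 20), (0, 20)], .dead [(28, 1), (1, 20), (0, 20)]] (.cons (.ref 266 [(0, [(30, 1)]), (0, [(29, 1)]), (0, [(28, 1)]), (0, [(27, 1)]), (0, [(26, 1)]), (0, [(25, 1)]), (0, [(2, 1)]), (0, [(1, 1)]), (0, [(0, 1)]), (0, [(23, 2), (6, 133), (5, 1)])]) (.cons (.ref 267 [(0, [(30, 1)]), (0, [(29, 1)]), (0, [(28, 1)]), (0, [(27, 1)]), (0, [(26, 1)]), (0, [(25, 1)]), (0, [(2, 1)]), (0, [(1, 1)]), (0, [(0, 1)]), (0, [(23, 2), (6, 133), (5, 1)])]) (.nil)))) (.cons (.ref 268 [(0, [(29, 1)]), (0, [(28, 1)]), (0, [(27, 1)]), (0, [(26, 1)]), (0, [(25, 1)]), (0, [(24, 1)]), (0, [(2, 1)]), (0, [(1, 1)]), (0, [(0, 1)]), (0, [(22, 2), (5, 133), (4, 1)])]) (.nil)))))) (.cons (.node 0 (1) (1) (0) [.kid, .dead [(25, 1), (0, 1)], .kid, .dead [(26, 1), (0, 1)], .red 0 0 [(25, 1), (0, 1)], .dead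 [(27, 1), (1, 20), (0, 20)], .kid, .dead [(25, 1), (0, 1)], .red 0 1 [(26, 1), (25, 1), (0, 1)], .dead [(26, 1), (25, 1), (0, 1)], .kid, .dead [(27, 1), (25, 20), (1, 20), (0, 20)], .dead [(26, 1), (0, 1)], .dead [(27, 1), (2, 20), (0, 20)]] (.cons (.ref 269 [(0, [(29, 1)]), (0, [(28, 1)]), (0, [(27, 1)]), (0, [(26, 1)]), (0, [(25, 1)]), (0, [(24, 1)]), (0, [(2, 1)]), (0, [(1, 1)]), (0, [(0, 1)]), (0, [(22, 2), (5, 133), (4, 1)])]) (.cons (.ref 270 [(0, [(29, 1)]), (0, [(28, 1)]), (0, [(27, 1)]), (0, [(25, 1)]), (0, [(24, 1)]), (0, [(2, 1)]), (0, [(1, 1)]), (0, [(0, 1)]), (0, [(22, 2), (5, 133), (4, 1)])]) (.cons (.node 0 (1) (1) (-1) [.kid, .dead [(26, 1), (1, 1), (0, 2)], .red 1 0 [(26, 1), (0, 1)], .dead [(27, 1), (0, 1)], .dead [(26, 1), (0, 1)], .red 1 19 [(28, 1), (1, 20), (0, 40)], .red 1 0 [(26, 2), (0, 1)], .dead [(26, 1), (25, 1), (0, 1)], .red 0 0 [(27, 1), (26, 1),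 (0, 1)], .dead [(27, 1), (26, 1), (0, 1)], .kid, .red 1 0 [(26, 1), (1, 1), (0, 1)], .red 0 19 [(30, 1), (28, 1), (1, 20), (0, 20)], .dead [(28, 1), (1, 20), (0, 20)]] (.cons (.ref 271 [(0, [(30, 1)]), (0, [(29, 1)]), (0, [(28, 1)]), (0, [(27, 1)]), (0, [(26, 1)]), (0, [(25, 1)]), (0, [(2, 1)]), (0, [(1, 1)]), (0, [(0, 1)]), (0, [(23, 2), (6, 133), (5, 1)])]) (.cons (.ref 272 [(0, [(30, 1)]), (0, [(29, 1)]), (0, [(28, 1)]), (0, [(27, 1)]), (0, [(26, 1)]), (0, [(25, 1)]), (0, [(2, 1)]), (0, [(1, 1)]), (0, [(0, 1)]), (0, [(23, 2), (6, 133), (5, 1)])]) (.nil)))) (.cons (.ref 273 [(0, [(29, 1)]), (0, [(28, 1)]), (0, [(27, 1)]), (0, [(26, 1)]), (0, [(25, 1)]), (0, [(24, 1)]), (0, [(1, 1)]), (0, [(0, 1)]), (0, [(22, 2), (5, 133), (4, 1)])]) (.nil)))))) (.cons (.node 1 (0) (1) (0) [.dead [(29, 2211), (27, 4422), (22, 1325), (16, 655), (4, 44220), (2, 44220), (0, 88440)], .kid, .kid, .kid]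 (.cons (.node 0 (1) (1) (0) [.kid, .dead [(26, 1), (0, 1)], .kid, .dead [(27, 1), (0, 1)], .red 0 0 [(26, 1), (0, 1)], .dead [(29, 1), (28, 2), (27, 40), (3, 20), (2, 20), (0, 80)], .kid, .dead [(26, 1), (0, 1)], .red 0 1 [(27, 1), (26, 1), (0, 1)], .dead [(27, 1), (26, 1), (0, 1)], .kid, .dead [(29, 133), (28, 133), (17, 10), (6, 5), (5, 665), (3, 1330), (2, 665), (0, 1995)], .dead [(27, 1), (0, 1)], .dead [(28, 1), (3, 20), (0, 20)]] (.cons (.ref 274 [(0, [(30, 1)]), (0, [(29, 1)]), (0, [(28, 1)]), (0, [(27, 1)]), (0, [(26, 1)]), (0, [(25, 1)]), (0, [(3, 1)]), (0, [(2, 1)]), (0, [(0, 1)]), (0, [(23, 2), (6, 133), (5, 1)])]) (.cons (.ref 275 [(0, [(30, 1)]), (0, [(29, 1)]), (0, [(28, 1)]), (0, [(27, 1)]), (0, [(26, 1)]), (0, [(25, 1)]), (0, [(3, 1)]), (0, [(2, 1)]), (0, [(0, 1)]), (0, [(23, 2), (6, 133), (5, 1)])]) (.cons (.node 1 (0) (1) (-1) [.kid, .kid, .kid, .kid] (.cons (.ref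 276 [(0, [(31, 1)]), (0, [(29, 1)]), (0, [(27, 1)]), (0, [(3, 1)]), (0, [(1, 1)]), (0, [(24, 2), (7, 133), (6, 1)]), (1, [(24, 2), (6, 1), (0, 133)])]) (.cons (.node 0 (1) (1) (-1) [.kid, .dead [(28, 1), (2, 1), (0, 2)], .red 1 0 [(28, 1), (0, 1)], .dead [(29, 1), (0, 1)], .dead [(28, 1), (0, 1)], .red 1 19 [(30, 1), (2, 20), (0, 40)], .red 1 0 [(28, 2), (0, 1)], .dead [(28, 1), (27, 1), (0, 1)], .red 0 0 [(29, 1), (28, 1), (0, 1)], .dead [(29, 1), (28, 1), (0, 1)], .kid, .red 1 0 [(28, 1), (2, 1), (0, 1)], .red 0 19 [(32, 1), (30, 1), (2, 20), (0, 20)], .dead [(30, 1), (2, 20), (0, 20)]] (.cons (.ref 277 [(0, [(32, 1)]), (0, [(31, 1)]), (0, [(30, 1)]), (0, [(29, 1)]), (0, [(28, 1)]), (0, [(27, 1)]), (0, [(4, 1)]), (0, [(2, 1)]), (0, [(0, 1)]), (0, [(25, 2), (8, 133), (7, 1)]), (0, [(26, 2), (8, 133), (1, 1)])]) (.cons (.node 1 (1) (1) (-1) [.dead [(31, 33), (29, 5), (27, 10),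 (3, 665), (2, 5), (0, 665)], .kid, .kid, .kid] (.cons (.ref 278 [(0, [(33, 1)]), (0, [(32, 1)]), (0, [(31, 1)]), (0, [(29, 1)]), (0, [(28, 1)]), (0, [(3, 1)]), (0, [(27, 2), (9, 133), (0, 1)]), (0, [(26, 2), (9, 133), (8, 1)])]) (.cons (.ref 279 [(0, [(33, 1)]), (0, [(32, 1)]), (0, [(31, 1)]), (0, [(30, 1)]), (0, [(29, 1)]), (0, [(28, 1)]), (0, [(5, 1)]), (0, [(3, 1)]), (0, [(1, 1)]), (0, [(26, 2), (9, 133), (8, 1)]), (0, [(27, 2), (9, 133), (2, 1)]), (0, [(26, 2), (9, 133), (0, 1)])]) (.cons (.ref 280 [(0, [(33, 1)]), (0, [(32, 1)]), (0, [(31, 1)]), (0, [(30, 1)]), (0, [(29, 1)]), (0, [(28, 1)]), (0, [(5, 1)]), (0, [(3, 1)]), (0, [(1, 1)]), (0, [(26, 2), (9, 133), (8, 1)]), (0, [(27, 2), (9, 133), (2, 1)]), (0, [(9, 1), (8, 1), (2, 1), (0, 1)])]) (.nil))))) (.nil)))) (.cons (.ref 281 [(0, [(31, 1)]), (0, [(28, 1)]), (0, [(27, 1)]), (0, [(26, 1)]), (0, [(3, 1)]), (0, [(24, 2),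 (7, 133), (0, 1)])]) (.cons (.ref 282 [(0, [(31, 1)]), (0, [(30, 1)]), (0, [(29, 1)]), (0, [(28, 1)]), (0, [(27, 1)]), (0, [(26, 1)]), (0, [(3, 1)]), (0, [(1, 1)]), (0, [(24, 2), (7, 133), (6, 1)]), (0, [(7, 1), (6, 1), (2, 1), (0, 1)])]) (.nil)))))) (.cons (.node 1 (1) (1) (0) [.dead [(29, 133), (28, 20), (24, 40), (6, 20), (4, 2640), (0, 2660)], .kid, .kid, .kid] (.cons (.ref 283 [(0, [(31, 1)]), (0, [(30, 1)]), (0, [(29, 1)]), (0, [(27, 1)]), (0, [(26, 1)]), (0, [(4, 1)]), (0, [(3, 1)]), (0, [(1, 1)]), (0, [(25, 2), (7, 133), (0, 1)]), (0, [(24, 2), (7, 133), (6, 1)])]) (.cons (.ref 284 [(0, [(31, 1)]), (0, [(30, 1)]), (0, [(29, 1)]), (0, [(28, 1)]), (0, [(27, 1)]), (0, [(26, 1)]), (0, [(4, 1)]), (0, [(3, 1)]), (0, [(1, 1)]), (0, [(24, 2), (7, 133), (6, 1)]), (0, [(24, 2), (7, 133), (0, 1)])]) (.cons (.ref 285 [(0, [(31, 1)]), (0, [(30, 1)]), (0, [(29, 1)]), (0, [(28, 1)]),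 (0, [(27, 1)]), (0, [(26, 1)]), (0, [(4, 1)]), (0, [(3, 1)]), (0, [(1, 1)]), (0, [(24, 2), (7, 133), (6, 1)]), (1, [(7, 1), (6, 1), (5, 1), (0, 1)]), (0, [(7, 1), (6, 1), (2, 1), (0, 1)])]) (.nil))))) (.nil)))))) (.cons (.ref 286 [(0, [(29, 1)]), (0, [(27, 1)]), (0, [(26, 1)]), (0, [(25, 1)]), (0, [(24, 1)]), (0, [(1, 1)]), (0, [(22, 2), (5, 133), (0, 1)])]) (.cons (.node 0 (1) (1) (0) [.kid, .dead [(26, 1), (0, 1)], .kid, .dead [(27, 1), (0, 1)], .red 0 265 [(26, 133), (13, 2), (6, 1), (1, 133), (0, 266)], .dead [(29, 1), (28, 2), (27, 40), (3, 20), (2, 20), (0, 80)], .kid, .dead [(26, 1), (0, 1)], .red 0 265 [(27, 133), (13, 2), (6, 1), (1, 133), (0, 133)], .dead [(27, 1), (26, 1), (0, 1)], .kid, .dead [(29, 133), (28, 133), (17, 10), (6, 5), (5, 665), (3, 1330), (2, 665), (0, 1995)], .dead [(27, 1), (0, 1)], .dead [(28, 1), (3, 20), (0, 20)]] (.cons (.ref 287 [(0, [(30, 1)]),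 (0, [(29, 1)]), (0, [(28, 1)]), (0, [(27, 1)]), (0, [(26, 1)]), (0, [(25, 1)]), (0, [(3, 1)]), (0, [(2, 1)]), (0, [(0, 1)]), (0, [(23, 2), (6, 133), (5, 1)]), (0, [(6, 1), (5, 1), (4, 1), (1, 1)])]) (.cons (.ref 288 [(0, [(30, 1)]), (0, [(29, 1)]), (0, [(28, 1)]), (0, [(27, 1)]), (0, [(26, 1)]), (0, [(25, 1)]), (0, [(3, 1)]), (0, [(2, 1)]), (0, [(0, 1)]), (0, [(23, 2), (6, 133), (5, 1)]), (0, [(6, 1), (5, 1), (4, 1), (1, 1)])]) (.cons (.ref 289 [(0, [(30, 1)]), (0, [(29, 1)]), (0, [(28, 1)]), (0, [(27, 1)]), (0, [(26, 1)]), (0, [(25, 1)]), (0, [(2, 1)]), (0, [(0, 1)]), (0, [(23, 2), (6, 133), (5, 1)]), (0, [(6, 1), (5, 1), (4, 1), (1, 1)])]) (.cons (.ref 290 [(0, [(30, 1)]), (0, [(29, 1)]), (0, [(28, 1)]), (0, [(27, 1)]), (0, [(26, 1)]), (0, [(25, 1)]), (0, [(3, 1)]), (0, [(2, 1)]), (0, [(0, 1)]), (0, [(23, 2), (6, 133), (5, 1)]), (0, [(6, 1), (5, 1), (4, 1), (1, 1)])]) (.nil))))))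 (.nil))))) (.nil))))

/-- a subtree -/
def nC_12 : T := .node 0 (1) (1) (1) [.kid, .dead [(23, 133), (22, 133), (14, 2), (3, 1), (2, 133), (0, 266)], .red 2 132 [(24, 133), (14, 2), (3, 1), (2, 133), (0, 266)], .red 1 0 [(24, 1), (22, 1), (0, 1)], .kid, .dead [(24, 1), (0, 1)], .kid, .red 1 265 [(23, 133), (22, 133), (14, 2), (3, 1), (2, 133), (0, 266)], .kid, .red 1 265 [(24, 133), (22, 266), (14, 2), (3, 1), (2, 133), (0, 133)], .red 0 265 [(24, 133), (14, 2), (3, 1), (2, 133), (0, 133)], .dead [(24, 133), (14, 2), (3, 1), (2, 133), (0, 133)], .dead [(24, 1), (22, 1), (0, 1)], .dead [(24, 1), (23, 1), (22, 1), (0, 1)]] (.cons (.ref 241 [(0, [(27, 1)]), (0, [(26, 1)]), (0, [(25, 1)]), (0, [(24, 1)]), (0, [(23, 1)]), (0, [(22, 1)]), (0, [(0, 1)]), (0, [(20, 2), (3, 133), (2, 1)])]) (.cons (.node 0 (1) (0) (1) [.kid, .dead [(23, 1), (0, 1)], .dead [(0, 1)], .red 2 0 [(25, 1), (23,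 1), (0, 2)], .kid, .dead [(25, 1), (0, 1)], .red 2 0 [(0, 1)], .dead [(23, 1), (0, 1)], .kid, .red 1 1 [(25, 1), (23, 1), (0, 1)], .dead [(25, 1), (0, 1)], .dead [(25, 1), (23, 1), (0, 1)], .red 0 1 [(25, 1), (23, 1), (0, 1)], .dead [(25, 1), (23, 1), (0, 1)]] (.cons (.node 0 (1) (1) (0) [.kid, .dead [(25, 1), (0, 1)], .kid, .dead [(26, 1), (0, 1)], .red 0 0 [(25, 1), (0, 1)], .dead [(27, 1), (2, 20), (0, 20)], .kid, .dead [(25, 1), (0, 1)], .red 0 1 [(26, 1), (25, 1), (0, 1)], .dead [(26, 1), (25, 1), (0, 1)], .kid, .dead [(27, 1), (25, 20), (2, 20), (0, 20)], .dead [(26, 1), (0, 1)], .dead [(26, 1), (25, 1), (0, 1)]] (.cons (.ref 242 [(0, [(29, 1)]), (0, [(28, 1)]), (0, [(27, 1)]), (0, [(26, 1)]), (0, [(25, 1)]), (0, [(24, 1)]), (0, [(2, 1)]), (0, [(1, 1)]), (0, [(0, 1)]), (0, [(22, 2), (5, 133), (4, 1)])]) (.cons (.ref 243 [(0, [(29, 1)]), (0, [(28, 1)]), (0, [(27, 1)]), (0,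 [(26, 1)]), (0, [(25, 1)]), (0, [(24, 1)]), (0, [(2, 1)]), (0, [(1, 1)]), (0, [(0, 1)]), (0, [(22, 2), (5, 133), (4, 1)])]) (.cons (.node 0 (1) (1) (-1) [.kid, .dead [(26, 1), (1, 1), (0, 2)], .red 1 0 [(26, 1), (0, 1)], .dead [(27, 1), (0, 1)], .dead [(26, 1), (0, 1)], .red 1 19 [(28, 1), (1, 20), (0, 40)], .red 1 0 [(26, 2), (0, 1)], .dead [(26, 1), (25, 1), (0, 1)], .dead [(30, 1), (27, 20), (26, 20), (2, 20), (0, 20)], .dead [(27, 1), (26, 1), (0, 1)], .kid, .red 1 0 [(26, 1), (1, 1), (0, 1)], .red 0 19 [(30, 1), (28, 1), (1, 20), (0, 20)], .dead [(28, 1), (1, 20), (0, 20)]] (.cons (.ref 244 [(0, [(30, 1)]), (0, [(29, 1)]), (0, [(28, 1)]), (0, [(27, 1)]), (0, [(26, 1)]), (0, [(25, 1)]), (0, [(3, 1)]), (0, [(2, 1)]), (0, [(1, 1)]), (0, [(0, 1)]), (0, [(23, 2), (6, 133), (5, 1)])]) (.cons (.ref 245 [(0, [(30, 1)]), (0, [(29, 1)]), (0, [(28, 1)]), (0, [(27, 1)]), (0, [(26, 1)]),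 (0, [(25, 1)]), (0, [(3, 1)]), (0, [(2, 1)]), (0, [(1, 1)]), (0, [(0, 1)]), (0, [(23, 2), (6, 133), (5, 1)])]) (.nil)))) (.cons (.ref 246 [(0, [(29, 1)]), (0, [(28, 1)]), (0, [(27, 1)]), (0, [(26, 1)]), (0, [(25, 1)]), (0, [(24, 1)]), (0, [(2, 1)]), (0, [(1, 1)]), (0, [(0, 1)]), (0, [(22, 2), (5, 133), (4, 1)])]) (.nil)))))) (.cons (.node 0 (1) (1) (0) [.kid, .dead [(25, 1), (0, 1)], .kid, .dead [(26, 1), (0, 1)], .red 0 0 [(25, 1), (0, 1)], .dead [(27, 1), (2, 20), (0, 20)], .kid, .dead [(25, 1), (0, 1)], .red 0 1 [(26, 1), (25, 1), (0, 1)], .dead [(26, 1), (25, 1), (0, 1)], .kid, .dead [(27, 1), (25, 20), (1, 20), (0, 20)], .dead [(26, 1), (0, 1)], .dead [(26, 1), (25, 1), (0, 1)]] (.cons (.ref 247 [(0, [(29, 1)]), (0, [(28, 1)]), (0, [(27, 1)]), (0, [(26, 1)]), (0, [(25, 1)]), (0, [(24, 1)]), (0, [(1, 1)]), (0, [(0, 1)]), (0, [(22, 2), (5, 133), (4, 1)])]) (.cons (.ref 248 [(0,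 [(29, 1)]), (0, [(28, 1)]), (0, [(27, 1)]), (0, [(25, 1)]), (0, [(24, 1)]), (0, [(1, 1)]), (0, [(0, 1)]), (0, [(22, 2), (5, 133), (4, 1)])]) (.cons (.node 0 (1) (1) (-1) [.kid, .dead [(26, 1), (1, 1), (0, 2)], .red 1 0 [(26, 1), (0, 1)], .dead [(27, 1), (0, 1)], .dead [(26, 1), (0, 1)], .red 1 19 [(28, 1), (1, 20), (0, 40)], .red 1 0 [(26, 2), (0, 1)], .dead [(26, 1), (25, 1), (0, 1)], .red 0 0 [(27, 1), (26, 1), (0, 1)], .dead [(27, 1), (26, 1), (0, 1)], .kid, .red 1 0 [(26, 1), (1, 1), (0, 1)], .red 0 19 [(30, 1), (28, 1), (1, 20), (0, 20)], .dead [(28, 1), (1, 20), (0, 20)]] (.cons (.ref 249 [(0, [(30, 1)]), (0, [(29, 1)]), (0, [(28, 1)]), (0, [(27, 1)]), (0, [(26, 1)]), (0, [(25, 1)]), (0, [(2, 1)]), (0, [(1, 1)]), (0, [(0, 1)]), (0, [(23, 2), (6, 133), (5, 1)])]) (.cons (.ref 250 [(0, [(30, 1)]), (0, [(29, 1)]), (0, [(28, 1)]), (0, [(27, 1)]), (0, [(26, 1)]), (0, [(25, 1)]),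 (0, [(2, 1)]), (0, [(1, 1)]), (0, [(0, 1)]), (0, [(23, 2), (6, 133), (5, 1)])]) (.nil)))) (.cons (.ref 251 [(0, [(29, 1)]), (0, [(28, 1)]), (0, [(27, 1)]), (0, [(26, 1)]), (0, [(25, 1)]), (0, [(24, 1)]), (0, [(1, 1)]), (0, [(0, 1)]), (0, [(22, 2), (5, 133), (4, 1)])]) (.nil)))))) (.cons (.node 0 (1) (1) (0) [.kid, .dead [(25, 1), (0, 1)], .kid, .dead [(26, 1), (0, 1)], .red 0 0 [(25, 1), (0, 1)], .dead [(27, 1), (2, 20), (0, 20)], .kid, .dead [(25, 1), (0, 1)], .red 0 1 [(26, 1), (25, 1), (0, 1)], .dead [(26, 1), (25, 1), (0, 1)], .kid, .dead [(27, 1), (25, 20), (2, 20), (0, 20)], .dead [(26, 1), (0, 1)], .dead [(26, 1), (25, 1), (0, 1)]] (.cons (.ref 252 [(0, [(29, 1)]), (0, [(28, 1)]), (0, [(27, 1)]), (0, [(26, 1)]), (0, [(25, 1)]), (0, [(24, 1)]), (0, [(2, 1)]), (0, [(1, 1)]), (0, [(0, 1)]), (0, [(22, 2), (5, 133), (4, 1)])]) (.cons (.ref 253 [(0, [(29, 1)]), (0, [(28, 1)]),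 (0, [(27, 1)]), (0, [(26, 1)]), (0, [(25, 1)]), (0, [(24, 1)]), (0, [(2, 1)]), (0, [(1, 1)]), (0, [(0, 1)]), (0, [(22, 2), (5, 133), (4, 1)])]) (.cons (.node 1 (0) (1) (0) [.dead [(30, 33), (25, 5), (23, 10), (5, 5), (1, 660), (0, 665)], .kid, .kid, .kid] (.cons (.node 0 (1) (1) (-1) [.kid, .dead [(27, 1), (2, 1), (0, 2)], .red 1 0 [(27, 1), (0, 1)], .dead [(28, 1), (0, 1)], .dead [(27, 1), (0, 1)], .red 1 19 [(29, 1), (2, 20), (0, 40)], .red 1 0 [(27, 2), (0, 1)], .dead [(27, 1), (26, 1), (0, 1)], .red 0 0 [(28, 1), (27, 1), (0, 1)], .dead [(28, 1), (27, 1), (0, 1)], .kid, .red 1 0 [(27, 1), (2, 1), (0, 1)], .red 0 19 [(31, 1), (29, 1), (2, 20), (0, 20)], .dead [(29, 1), (2, 20), (0, 20)]] (.cons (.ref 254 [(0, [(31, 1)]), (0, [(30, 1)]), (0, [(29, 1)]), (0, [(28, 1)]), (0, [(27, 1)]), (0, [(26, 1)]), (0, [(4, 1)]), (0, [(3, 1)]), (0, [(2, 1)]), (0, [(0, 1)]), (0, [(24, 2), (7,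 133), (6, 1)])]) (.cons (.node 1 (0) (1) (-1) [.kid, .kid, .kid, .kid] (.cons (.ref 255 [(0, [(32, 1)]), (0, [(30, 1)]), (0, [(28, 1)]), (0, [(5, 1)]), (0, [(4, 1)]), (0, [(3, 1)]), (0, [(1, 1)]), (0, [(25, 2), (8, 133), (7, 1)]), (1, [(25, 2), (7, 1), (0, 133)])]) (.cons (.node 1 (1) (1) (-1) [.dead [(31, 33), (29, 5), (27, 10), (4, 665), (1, 5), (0, 665)], .kid, .kid, .kid] (.cons (.ref 256 [(0, [(33, 1)]), (0, [(32, 1)]), (0, [(31, 1)]), (0, [(29, 1)]), (0, [(28, 1)]), (0, [(6, 1)]), (0, [(4, 1)]), (0, [(27, 2), (9, 133), (0, 1)]), (0, [(26, 2), (9, 133), (8, 1)])]) (.cons (.ref 257 [(0, [(33, 1)]), (0, [(32, 1)]), (0, [(31, 1)]), (0, [(30, 1)]), (0, [(29, 1)]), (0, [(28, 1)]), (0, [(5, 1)]), (0, [(4, 1)]), (0, [(2, 1)]), (0, [(26, 2), (9, 133), (8, 1)]), (0, [(27, 2), (9, 133), (1, 1)]), (0, [(26, 2), (9, 133), (0, 1)])]) (.cons (.ref 258 [(0, [(33, 1)]), (0, [(32, 1)]), (0,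 [(31, 1)]), (0, [(30, 1)]), (0, [(29, 1)]), (0, [(28, 1)]), (0, [(6, 1)]), (0, [(5, 1)]), (0, [(4, 1)]), (0, [(2, 1)]), (0, [(26, 2), (9, 133), (8, 1)]), (0, [(27, 2), (9, 133), (1, 1)]), (0, [(9, 1), (8, 1), (1, 1), (0, 1)])]) (.nil))))) (.cons (.ref 259 [(0, [(32, 1)]), (0, [(29, 1)]), (0, [(28, 1)]), (0, [(27, 1)]), (0, [(4, 1)]), (0, [(25, 2), (8, 133), (0, 1)])]) (.cons (.ref 260 [(0, [(32, 1)]), (0, [(31, 1)]), (0, [(30, 1)]), (0, [(29, 1)]), (0, [(28, 1)]), (0, [(27, 1)]), (0, [(5, 1)]), (0, [(4, 1)]), (0, [(3, 1)]), (0, [(1, 1)]), (0, [(25, 2), (8, 133), (7, 1)]), (0, [(8, 1), (7, 1), (2, 1), (0, 1)])]) (.nil)))))) (.nil)))) (.cons (.ref 261 [(0, [(30, 1)]), (0, [(28, 1)]), (0, [(27, 1)]), (0, [(26, 1)]), (0, [(25, 1)]), (0, [(2, 1)]), (0, [(23, 2), (6, 133), (0, 1)])]) (.cons (.ref 262 [(0, [(30, 1)]), (0, [(29, 1)]), (0, [(28, 1)]), (0, [(27, 1)]), (0, [(26, 1)]), (0,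 [(25, 1)]), (0, [(3, 1)]), (0, [(2, 1)]), (0, [(1, 1)]), (0, [(23, 2), (6, 133), (5, 1)]), (0, [(6, 1), (5, 1), (4, 1), (0, 1)])]) (.nil))))) (.cons (.ref 263 [(0, [(29, 1)]), (0, [(28, 1)]), (0, [(27, 1)]), (0, [(26, 1)]), (0, [(25, 1)]), (0, [(24, 1)]), (0, [(2, 1)]), (0, [(1, 1)]), (0, [(0, 1)]), (0, [(22, 2), (5, 133), (4, 1)])]) (.nil)))))) (.nil))))) (.cons (nC_11) (.cons (.node 0 (1) (1) (0) [.kid, .dead [(24, 1), (0, 1)], .red 1 0 [(23, 1), (1, 1), (0, 2)], .dead [(25, 1), (0, 1)], .red 0 0 [(24, 1), (0, 1)], .dead [(25, 1), (23, 1), (1, 1), (0, 2)], .kid, .dead [(24, 1), (0, 1)], .red 0 1 [(25, 1), (24, 1), (0, 1)], .dead [(25, 1), (24, 1), (0, 1)], .red 0 1 [(23, 1), (1, 1), (0, 1)], .dead [(23, 1), (1, 1), (0, 1)], .dead [(25, 1), (0, 1)], .dead [(25, 1), (24, 1), (0, 1)]] (.cons (.ref 291 [(0, [(28, 1)]), (0, [(27, 1)]), (0, [(26, 1)]), (0, [(25, 1)]), (0, [(24, 1)]),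 (0, [(23, 1)]), (0, [(1, 1)]), (0, [(0, 1)])]) (.cons (.node 0 (1) (1) (-1) [.kid, .dead [(25, 1), (1, 1), (0, 2)], .red 1 0 [(25, 1), (0, 1)], .dead [(26, 1), (0, 1)], .dead [(25, 1), (0, 1)], .red 1 19 [(27, 1), (1, 20), (0, 40)], .red 1 0 [(25, 2), (0, 1)], .dead [(25, 1), (24, 1), (0, 1)], .red 0 0 [(26, 1), (25, 1), (0, 1)], .dead [(26, 1), (25, 1), (0, 1)], .kid, .red 1 3 [(25, 4), (2, 1), (1, 2), (0, 3)], .red 0 19 [(29, 1), (27, 1), (1, 20), (0, 20)], .dead [(27, 1), (1, 20), (0, 20)]] (.cons (.ref 292 [(0, [(29, 1)]), (0, [(28, 1)]), (0, [(27, 1)]), (0, [(26, 1)]), (0, [(25, 1)]), (0, [(24, 1)]), (0, [(2, 1)]), (0, [(1, 1)]), (0, [(0, 1)])]) (.cons (.ref 293 [(0, [(29, 1)]), (0, [(28, 1)]), (0, [(27, 1)]), (0, [(26, 1)]), (0, [(25, 1)]), (0, [(24, 1)]), (0, [(2, 1)]), (0, [(1, 1)]), (0, [(0, 1)])]) (.nil)))) (.nil)))) (.nil)))))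

/-- a subtree -/
def nC_13 : T := .node 0 (1) (0) (1) [.kid, .dead [(22, 1), (0, 1)], .dead [(0, 1)], .red 2 0 [(24, 1), (22, 1), (0, 2)], .kid, .dead [(24, 1), (0, 1)], .red 2 0 [(0, 1)], .dead [(22, 1), (0, 1)], .kid, .red 0 265 [(22, 266), (14, 2), (3, 1), (1, 133), (0, 133)], .dead [(24, 1), (0, 1)], .dead [(24, 1), (22, 1), (0, 1)], .red 0 1 [(24, 1), (22, 1), (0, 1)], .dead [(24, 1), (22, 1), (0, 1)]] (.cons (.node 0 (1) (1) (0) [.kid, .dead [(24, 1), (0, 1)], .kid, .dead [(25, 1), (0, 1)], .red 0 0 [(24, 1), (0, 1)], .red 1 0 [(25, 1), (0, 1)], .kid, .dead [(24, 1), (0, 1)], .red 0 265 [(24, 133), (23, 133), (15, 2), (4, 1), (2, 133), (0, 133)], .dead [(25, 1), (24, 1), (0, 1)], .kid, .red 1 265 [(25, 133), (23, 133), (15, 2), (4, 1), (3, 133), (1, 266), (0, 133)], .dead [(25, 1), (0, 1)], .dead [(25, 1), (24, 1), (0, 1)]] (.cons (.node 1 (0) (2) (1) [.dead [(29, 53), (24,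 536), (22, 8), (4, 4), (1, 1060), (0, 532)], .kid, .kid, .kid] (.cons (.node 1 (0) (1) (0) [.dead [(30, 33), (25, 5), (23, 10), (5, 5), (2, 660), (0, 665)], .kid, .kid, .kid] (.cons (.split [0, 0, 0, 0, 0, 0, 1024, 0, 0, -1024] (.node 0 (1) (1) (1) [.kid, .dead [(28, 133), (27, 133), (19, 2), (8, 1), (7, 133), (5, 266), (4, 266), (0, 532)], .dead [(31, 256), (1, 5), (0, 5120)], .red 0 531 [(29, 133), (27, 399), (19, 2), (8, 1), (6, 133), (4, 532), (0, 266)], .kid, .dead [(29, 1), (0, 1)], .kid, .dead [(30, 256), (28, 5120), (5, 5120), (1, 5), (0, 5120)], .kid, .red 0 265 [(28, 133), (27, 266), (19, 2), (8, 1), (6, 133), (4, 266), (0, 133)], .dead [(31, 256), (29, 5120), (1, 5), (0, 5120)], .dead [(29, 133), (19, 2), (8, 1), (7, 133), (0, 133)], .dead [(29, 1), (27, 1), (0, 1)], .dead [(29, 1), (27, 1), (4, 1), (0, 1)]] (.cons (.ref 294 [(0, [(32, 1)]), (0, [(31, 1)]), (0, [(30,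 1)]), (0, [(29, 1)]), (0, [(28, 1)]), (0, [(27, 1)]), (1023, [(1, 1)]), (0, [(0, 1)]), (0, [(25, 2), (8, 133), (6, 1)]), (0, [(25, 2), (8, 133), (7, 1)])]) (.cons (.ref 295 [(0, [(32, 1)]), (0, [(31, 1)]), (0, [(30, 1)]), (0, [(29, 1)]), (0, [(28, 1)]), (0, [(27, 1)]), (0, [(5, 1)]), (0, [(4, 1)]), (1023, [(1, 1)]), (0, [(0, 1)]), (0, [(25, 2), (8, 133), (6, 1)]), (0, [(25, 2), (8, 133), (7, 1)])]) (.cons (.ref 296 [(0, [(32, 1)]), (0, [(31, 1)]), (0, [(30, 1)]), (0, [(29, 1)]), (0, [(28, 1)]), (0, [(27, 1)]), (0, [(5, 1)]), (0, [(4, 1)]), (1023, [(1, 1)]), (0, [(0, 1)]), (0, [(25, 2), (8, 133), (6, 1)]), (0, [(25, 2), (8, 133), (7, 1)])]) (.cons (.ref 297 [(0, [(32, 1)]), (0, [(31, 1)]), (0, [(30, 1)]), (0, [(29, 1)]), (0, [(28, 1)]), (0, [(27, 1)]), (0, [(5, 1)]), (0, [(4, 1)]), (1023, [(1, 1)]), (0, [(0, 1)]), (0, [(25, 2), (8, 133), (6, 1)])]) (.nil)))))) (.ref 298 [(0, [(31,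 1)]), (0, [(30, 1)]), (0, [(29, 1)]), (0, [(28, 1)]), (0, [(27, 1)]), (0, [(26, 1)]), (0, [(4, 1)]), (0, [(3, 1)]), (1023, [(0, 1)]), (0, [(24, 2), (7, 133), (5, 1)]), (0, [(24, 2), (7, 133), (6, 1)])])) (.cons (.ref 299 [(0, [(30, 1)]), (0, [(28, 1)]), (0, [(27, 1)]), (0, [(26, 1)]), (0, [(25, 1)]), (0, [(3, 1)]), (0, [(23, 2), (6, 133), (4, 1)]), (0, [(23, 2), (6, 133), (0, 1)])]) (.cons (.node 0 (1) (1) (1) [.kid, .dead [(27, 132), (26, 133), (19, 2), (6, 133), (4, 266), (3, 266), (1, 1), (0, 532)], .red 2 132 [(28, 133), (18, 2), (7, 1), (6, 133), (0, 266)], .red 0 531 [(28, 133), (26, 399), (18, 2), (7, 1), (5, 133), (3, 532), (0, 266)], .kid, .dead [(28, 1), (0, 1)], .kid, .red 1 7979 [(30, 133), (29, 133), (27, 2660), (18, 40), (7, 20), (6, 2660), (4, 5320), (3, 2660), (0, 7980)], .kid, .red 0 265 [(26, 266), (18, 2), (14, 2), (7, 2), (5, 133), (3, 532), (1, 133), (0, 133)],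 .red 0 265 [(28, 133), (18, 2), (7, 1), (6, 133), (0, 133)], .dead [(28, 133), (18, 2), (7, 1), (6, 133), (0, 133)], .dead [(28, 1), (26, 1), (0, 1)], .dead [(28, 1), (26, 1), (3, 1), (0, 1)]] (.cons (.ref 300 [(0, [(31, 1)]), (0, [(30, 1)]), (0, [(29, 1)]), (0, [(28, 1)]), (0, [(27, 1)]), (0, [(26, 1)]), (0, [(0, 1)]), (0, [(24, 2), (7, 133), (5, 1)]), (0, [(24, 2), (7, 133), (6, 1)]), (0, [(7, 1), (5, 1), (2, 1), (1, 1)])]) (.cons (.ref 301 [(0, [(31, 1)]), (0, [(30, 1)]), (0, [(29, 1)]), (0, [(28, 1)]), (0, [(27, 1)]), (0, [(26, 1)]), (0, [(4, 1)]), (0, [(3, 1)]), (0, [(0, 1)]), (0, [(24, 2), (7, 133), (5, 1)]), (0, [(24, 2), (7, 133), (6, 1)]), (0, [(7, 1), (5, 1), (2, 1), (1, 1)])]) (.cons (.ref 302 [(0, [(31, 1)]), (0, [(30, 1)]), (0, [(29, 1)]), (0, [(28, 1)]), (0, [(27, 1)]), (0, [(26, 1)]), (0, [(4, 1)]), (0, [(3, 1)]), (0, [(0, 1)]), (0, [(24, 2), (7, 133), (5, 1)]),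 (0, [(24, 2), (7, 133), (6, 1)]), (0, [(7, 1), (5, 1), (2, 1), (1, 1)])]) (.cons (.ref 303 [(0, [(31, 1)]), (0, [(30, 1)]), (0, [(29, 1)]), (0, [(28, 1)]), (0, [(27, 1)]), (0, [(26, 1)]), (0, [(4, 1)]), (0, [(3, 1)]), (0, [(0, 1)]), (0, [(24, 2), (7, 133), (5, 1)]), (0, [(7, 1), (5, 1), (2, 1), (1, 1)])]) (.nil)))))) (.nil))))) (.cons (.ref 304 [(0, [(29, 1)]), (0, [(28, 1)]), (0, [(27, 1)]), (0, [(26, 1)]), (0, [(25, 1)]), (0, [(24, 1)]), (0, [(2, 1)]), (0, [(1, 1)]), (0, [(22, 2), (5, 133), (3, 1)]), (0, [(22, 2), (5, 133), (0, 1)])]) (.cons (.ref 305 [(0, [(29, 1)]), (0, [(28, 1)]), (0, [(27, 1)]), (0, [(26, 1)]), (0, [(25, 1)]), (0, [(24, 1)]), (0, [(2, 1)]), (0, [(1, 1)]), (0, [(22, 2), (5, 133), (3, 1)]), (0, [(22, 2), (5, 133), (4, 1)]), (0, [(21, 2), (5, 133), (0, 1)])]) (.nil))))) (.cons (.node 0 (1) (1) (1) [.kid, .dead [(25, 133), (24, 133), (16, 2), (5, 1), (4, 133),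 (0, 266)], .red 2 132 [(26, 133), (16, 2), (5, 1), (4, 133), (0, 266)], .dead [(24, 1), (1, 1), (0, 1)], .kid, .dead [(26, 1), (0, 1)], .kid, .red 1 5319 [(27, 133), (25, 2660), (16, 40), (5, 20), (4, 2660), (2, 2660), (0, 5320)], .red 2 0 [(24, 2), (1, 2), (0, 1)], .dead [(25, 1), (24, 1), (1, 1), (0, 1)], .red 0 265 [(26, 133), (16, 2), (5, 1), (4, 133), (0, 133)], .dead [(26, 133), (16, 2), (5, 1), (4, 133), (0, 133)], .dead [(26, 1), (24, 1), (0, 1)], .dead [(26, 1), (25, 1), (24, 1), (0, 1)]] (.cons (.ref 306 [(0, [(29, 1)]), (0, [(28, 1)]), (0, [(27, 1)]), (0, [(26, 1)]), (0, [(25, 1)]), (0, [(24, 1)]), (0, [(1, 1)]), (0, [(0, 1)]), (0, [(22, 2), (5, 133), (4, 1)])]) (.cons (.ref 307 [(0, [(29, 1)]), (0, [(28, 1)]), (0, [(27, 1)]), (0, [(26, 1)]), (0, [(25, 1)]), (0, [(24, 1)]), (0, [(2, 1)]), (0, [(1, 1)]), (0, [(0, 1)]), (0, [(22, 2), (5, 133), (3, 1)]), (0, [(22, 2), (5,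 133), (4, 1)])]) (.cons (.ref 308 [(0, [(29, 1)]), (0, [(28, 1)]), (0, [(27, 1)]), (0, [(26, 1)]), (0, [(25, 1)]), (0, [(24, 1)]), (0, [(2, 1)]), (0, [(1, 1)]), (0, [(0, 1)]), (0, [(22, 2), (5, 133), (3, 1)]), (0, [(22, 2), (5, 133), (4, 1)])]) (.nil))))) (.cons (.ref 309 [(0, [(28, 1)]), (0, [(27, 1)]), (0, [(26, 1)]), (0, [(25, 1)]), (0, [(24, 1)]), (0, [(23, 1)]), (0, [(1, 1)]), (0, [(0, 1)]), (0, [(21, 2), (4, 133), (2, 1)]), (0, [(21, 2), (4, 133), (3, 1)])]) (.cons (.node 0 (1) (1) (1) [.kid, .dead [(25, 133), (24, 133), (16, 2), (5, 1), (4, 133), (0, 266)], .red 1 132 [(26, 133), (16, 2), (5, 1), (4, 133), (0, 266)], .dead [(26, 1), (24, 2), (1, 1), (0, 2)], .red 1 0 [(24, 1), (1, 1), (0, 2)], .dead [(26, 1), (0, 1)], .kid, .red 1 1329 [(27, 133), (25, 1330), (16, 20), (5, 10), (4, 1330), (2, 2660), (1, 1330), (0, 2660)], .red 0 1 [(24, 1), (1, 1), (0, 1)], .dead [(24, 1),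 (1, 1), (0, 1)], .red 0 265 [(26, 133), (16, 2), (5, 1), (4, 133), (0, 133)], .dead [(26, 133), (16, 2), (5, 1), (4, 133), (0, 133)], .dead [(26, 1), (24, 1), (0, 1)], .dead [(26, 1), (25, 1), (24, 1), (0, 1)]] (.cons (.ref 310 [(0, [(29, 1)]), (0, [(28, 1)]), (0, [(27, 1)]), (0, [(26, 1)]), (0, [(25, 1)]), (0, [(24, 1)]), (0, [(1, 1)]), (0, [(0, 1)]), (0, [(22, 2), (5, 133), (3, 1)]), (0, [(22, 2), (5, 133), (4, 1)])]) (.cons (.ref 311 [(0, [(29, 1)]), (0, [(28, 1)]), (0, [(27, 1)]), (0, [(26, 1)]), (0, [(25, 1)]), (0, [(24, 1)]), (0, [(2, 1)]), (0, [(1, 1)]), (0, [(0, 1)]), (0, [(22, 2), (5, 133), (3, 1)]), (0, [(22, 2), (5, 133), (4, 1)])]) (.nil)))) (.nil)))))) (.cons (.node 0 (1) (1) (0) [.kid, .dead [(24, 1), (0, 1)], .kid, .dead [(25, 1), (0, 1)], .red 0 0 [(24, 1), (0, 1)], .dead [(26, 1), (1, 20), (0, 20)], .kid, .dead [(24, 1), (0, 1)], .red 0 265 [(24, 133), (23, 133),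 (15, 2), (4, 1), (2, 133), (0, 133)], .dead [(25, 1), (24, 1), (0, 1)], .kid, .dead [(26, 1), (24, 20), (1, 20), (0, 20)], .dead [(25, 1), (0, 1)], .dead [(25, 1), (24, 1), (0, 1)]] (.cons (.ref 312 [(0, [(28, 1)]), (0, [(27, 1)]), (0, [(26, 1)]), (0, [(25, 1)]), (0, [(24, 1)]), (0, [(23, 1)]), (0, [(1, 1)]), (0, [(0, 1)]), (0, [(21, 2), (4, 133), (2, 1)]), (0, [(21, 2), (4, 133), (3, 1)])]) (.cons (.ref 313 [(0, [(28, 1)]), (0, [(27, 1)]), (0, [(26, 1)]), (0, [(24, 1)]), (0, [(23, 1)]), (0, [(1, 1)]), (0, [(0, 1)]), (0, [(21, 2), (4, 133), (2, 1)]), (0, [(21, 2), (4, 133), (3, 1)])]) (.cons (.ref 314 [(0, [(28, 1)]), (0, [(27, 1)]), (0, [(26, 1)]), (0, [(25, 1)]), (0, [(24, 1)]), (0, [(23, 1)]), (0, [(1, 1)]), (0, [(0, 1)]), (0, [(21, 2), (4, 133), (2, 1)]), (0, [(21, 2), (4, 133), (3, 1)])]) (.cons (.ref 315 [(0, [(28, 1)]), (0, [(27, 1)]), (0, [(26, 1)]), (0, [(25, 1)]), (0,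 [(24, 1)]), (0, [(23, 1)]), (0, [(1, 1)]), (0, [(0, 1)]), (0, [(21, 2), (4, 133), (2, 1)]), (0, [(21, 2), (4, 133), (3, 1)])]) (.nil)))))) (.cons (.node 0 (1) (1) (1) [.kid, .dead [(24, 133), (23, 133), (15, 2), (4, 1), (3, 133), (0, 266)], .red 2 2659 [(27, 133), (26, 133), (15, 40), (4, 20), (3, 2660), (1, 2660), (0, 7980)], .red 1 0 [(25, 1), (23, 1), (0, 1)], .kid, .dead [(25, 1), (0, 1)], .kid, .red 1 5319 [(26, 133), (24, 1330), (15, 40), (4, 20), (3, 2660), (1, 1330), (0, 3990)], .kid, .red 1 265 [(25, 133), (23, 266), (15, 2), (4, 1), (3, 133), (0, 133)], .dead [(28, 2), (27, 1), (1, 20), (0, 20)], .dead [(24, 1), (1, 1), (0, 1)], .dead [(25, 1), (23, 1), (0, 1)], .dead [(25, 1), (24, 1), (23, 1), (0, 1)]] (.cons (.ref 316 [(0, [(28, 1)]), (0, [(27, 1)]), (0, [(26, 1)]), (0, [(25, 1)]), (0, [(24, 1)]), (0, [(23, 1)]), (0, [(1, 1)]), (0, [(0, 1)]), (0, [(21, 2), (4, 133),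 (2, 1)]), (0, [(21, 2), (4, 133), (3, 1)])]) (.cons (.node 0 (1) (1) (0) [.kid, .dead [(25, 1), (0, 1)], .kid, .dead [(26, 1), (0, 1)], .red 0 0 [(25, 1), (0, 1)], .dead [(27, 1), (1, 20), (0, 20)], .kid, .dead [(25, 1), (0, 1)], .red 0 265 [(25, 133), (24, 133), (16, 2), (5, 1), (3, 133), (0, 133)], .dead [(26, 1), (25, 1), (0, 1)], .kid, .dead [(27, 1), (25, 20), (1, 20), (0, 20)], .dead [(26, 1), (0, 1)], .dead [(26, 1), (25, 1), (0, 1)]] (.cons (.ref 317 [(0, [(29, 1)]), (0, [(28, 1)]), (0, [(27, 1)]), (0, [(26, 1)]), (0, [(25, 1)]), (0, [(24, 1)]), (0, [(2, 1)]), (0, [(1, 1)]), (0, [(0, 1)]), (0, [(22, 2), (5, 133), (3, 1)]), (0, [(22, 2), (5, 133), (4, 1)])]) (.cons (.ref 318 [(0, [(29, 1)]), (0, [(28, 1)]), (0, [(27, 1)]), (0, [(26, 1)]), (0, [(25, 1)]), (0, [(24, 1)]), (0, [(2, 1)]), (0, [(1, 1)]), (0, [(0, 1)]), (0, [(22, 2), (5, 133), (3, 1)]), (0, [(22, 2), (5, 133),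 (4, 1)])]) (.cons (.ref 319 [(0, [(29, 1)]), (0, [(28, 1)]), (0, [(27, 1)]), (0, [(26, 1)]), (0, [(25, 1)]), (0, [(24, 1)]), (0, [(2, 1)]), (0, [(1, 1)]), (0, [(0, 1)]), (0, [(22, 2), (5, 133), (3, 1)]), (0, [(22, 2), (5, 133), (4, 1)])]) (.cons (.ref 320 [(0, [(29, 1)]), (0, [(28, 1)]), (0, [(27, 1)]), (0, [(26, 1)]), (0, [(25, 1)]), (0, [(24, 1)]), (0, [(2, 1)]), (0, [(1, 1)]), (0, [(0, 1)]), (0, [(22, 2), (5, 133), (3, 1)]), (0, [(22, 2), (5, 133), (4, 1)])]) (.nil)))))) (.cons (.node 0 (1) (1) (0) [.kid, .dead [(25, 1), (0, 1)], .kid, .dead [(26, 1), (0, 1)], .red 0 0 [(25, 1), (0, 1)], .dead [(28, 1), (27, 2), (26, 40), (2, 20), (1, 20), (0, 80)], .kid, .dead [(25, 1), (0, 1)], .red 0 265 [(25, 133), (24, 133), (16, 2), (5, 1), (3, 133), (0, 133)], .dead [(26, 1), (25, 1), (0, 1)], .kid, .dead [(28, 133), (27, 133), (16, 10), (5, 5), (4, 665), (2, 665), (1, 1330), (0, 1995)],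 .dead [(26, 1), (0, 1)], .dead [(27, 1), (1, 20), (0, 20)]] (.cons (.ref 321 [(0, [(29, 1)]), (0, [(28, 1)]), (0, [(27, 1)]), (0, [(26, 1)]), (0, [(25, 1)]), (0, [(24, 1)]), (0, [(2, 1)]), (0, [(1, 1)]), (0, [(0, 1)]), (0, [(22, 2), (5, 133), (3, 1)])]) (.cons (.ref 322 [(0, [(29, 1)]), (0, [(28, 1)]), (0, [(27, 1)]), (0, [(26, 1)]), (0, [(25, 1)]), (0, [(24, 1)]), (0, [(2, 1)]), (0, [(1, 1)]), (0, [(0, 1)]), (0, [(22, 2), (5, 133), (3, 1)]), (0, [(22, 2), (5, 133), (4, 1)])]) (.cons (.ref 323 [(0, [(29, 1)]), (0, [(28, 1)]), (0, [(27, 1)]), (0, [(26, 1)]), (0, [(25, 1)]), (0, [(24, 1)]), (0, [(2, 1)]), (0, [(0, 1)]), (0, [(22, 2), (5, 133), (3, 1)]), (0, [(22, 2), (5, 133), (4, 1)])]) (.cons (.node 1 (-1) (1) (1) [.kid, .kid, .kid, .dead [(29, 67), (18, 20), (15, 20), (4, 1340), (0, 1340)]] (.cons (.ref 324 [(0, [(30, 1)]), (0, [(29, 1)]), (0, [(28, 1)]), (0, [(26, 1)]), (0, [(25,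 1)]), (0, [(2, 1)]), (0, [(1, 1)]), (0, [(23, 2), (6, 133), (4, 1)]), (0, [(23, 2), (6, 133), (5, 1)]), (0, [(23, 2), (4, 1), (0, 133)]), (0, [(23, 2), (5, 1), (0, 133)])]) (.cons (.node 1 (-1) (1) (0) [.kid, .kid, .red 1 132 [(28, 17290), (27, 17290), (18, 264), (14, 2), (0, 17423)], .kid] (.cons (.ref 325 [(0, [(31, 1)]), (0, [(30, 1)]), (0, [(29, 1)]), (0, [(28, 1)]), (0, [(27, 1)]), (0, [(26, 1)]), (0, [(3, 1)]), (0, [(2, 1)]), (0, [(24, 2), (7, 133), (5, 1)]), (0, [(24, 2), (7, 133), (6, 1)]), (0, [(24, 2), (5, 1), (0, 133)]), (0, [(24, 2), (6, 1), (0, 133)])]) (.cons (.node 1 (0) (1) (0) [.dead [(32, 2211), (30, 2211), (25, 995), (19, 325), (7, 22110), (4, 22110), (3, 22110), (0, 66330)], .kid, .kid, .kid] (.cons (.node 1 (1) (1) (0) [.dead [(31, 133), (30, 20), (26, 40), (8, 20), (5, 2640), (0, 2660)], .kid, .kid, .kid] (.cons (.ref 326 [(0, [(33, 1)]), (0, [(32, 1)]), (0,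 [(31, 1)]), (0, [(29, 1)]), (0, [(28, 1)]), (0, [(6, 1)]), (0, [(5, 1)]), (0, [(4, 1)]), (0, [(26, 2), (9, 133), (7, 1)]), (0, [(27, 2), (9, 133), (0, 1)]), (0, [(26, 2), (9, 133), (8, 1)])]) (.cons (.ref 327 [(0, [(33, 1)]), (0, [(32, 1)]), (0, [(31, 1)]), (0, [(30, 1)]), (0, [(29, 1)]), (0, [(28, 1)]), (0, [(6, 1)]), (0, [(5, 1)]), (0, [(4, 1)]), (0, [(26, 2), (9, 133), (7, 1)]), (0, [(26, 2), (9, 133), (0, 1)])]) (.cons (.ref 328 [(0, [(33, 1)]), (0, [(32, 1)]), (0, [(31, 1)]), (0, [(30, 1)]), (0, [(29, 1)]), (0, [(28, 1)]), (0, [(6, 1)]), (0, [(5, 1)]), (0, [(4, 1)]), (0, [(26, 2), (9, 133), (7, 1)]), (0, [(26, 2), (9, 133), (8, 1)]), (0, [(9, 1), (7, 1), (1, 1), (0, 1)]), (0, [(9, 1), (8, 1), (1, 1), (0, 1)])]) (.nil))))) (.cons (.ref 329 [(0, [(32, 1)]), (0, [(30, 1)]), (0, [(29, 1)]), (0, [(28, 1)]), (0, [(27, 1)]), (0, [(5, 1)]), (0, [(3, 1)]), (0, [(25, 2), (8, 133), (0,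 1)])]) (.cons (.ref 330 [(0, [(32, 1)]), (0, [(31, 1)]), (0, [(30, 1)]), (0, [(29, 1)]), (0, [(28, 1)]), (0, [(27, 1)]), (0, [(5, 1)]), (0, [(4, 1)]), (0, [(3, 1)]), (0, [(25, 2), (8, 133), (6, 1)]), (0, [(25, 2), (8, 133), (7, 1)]), (0, [(8, 1), (6, 1), (1, 1), (0, 1)]), (0, [(8, 1), (7, 1), (1, 1), (0, 1)])]) (.nil))))) (.cons (.ref 331 [(0, [(31, 1)]), (0, [(30, 1)]), (0, [(29, 1)]), (0, [(28, 1)]), (0, [(26, 1)]), (0, [(3, 1)]), (0, [(2, 1)]), (0, [(24, 2), (7, 133), (5, 1)]), (0, [(23, 2), (7, 133), (0, 1)]), (0, [(24, 2), (7, 133), (6, 1)]), (0, [(7, 1), (5, 1), (1, 1), (0, 1)]), (0, [(7, 1), (6, 1), (1, 1), (0, 1)])]) (.nil))))) (.cons (.ref 332 [(0, [(30, 1)]), (0, [(29, 1)]), (0, [(28, 1)]), (0, [(27, 1)]), (0, [(26, 1)]), (0, [(25, 1)]), (0, [(3, 1)]), (0, [(2, 1)]), (0, [(1, 1)]), (0, [(23, 2), (6, 133), (0, 1)])]) (.nil))))) (.nil)))))) (.cons (.node 0 (1) (1) (0) [.kid,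 .dead [(25, 1), (0, 1)], .red 1 0 [(24, 1), (1, 1), (0, 2)], .dead [(26, 1), (0, 1)], .red 0 0 [(25, 1), (0, 1)], .dead [(26, 1), (24, 1), (1, 1), (0, 2)], .kid, .dead [(25, 1), (0, 1)], .red 0 265 [(25, 133), (24, 133), (16, 2), (5, 1), (3, 133), (0, 133)], .dead [(26, 1), (25, 1), (0, 1)], .red 0 1 [(24, 1), (1, 1), (0, 1)], .dead [(24, 1), (1, 1), (0, 1)], .dead [(26, 1), (0, 1)], .dead [(26, 1), (25, 1), (0, 1)]] (.cons (.ref 333 [(0, [(29, 1)]), (0, [(28, 1)]), (0, [(27, 1)]), (0, [(26, 1)]), (0, [(25, 1)]), (0, [(24, 1)]), (0, [(1, 1)]), (0, [(0, 1)]), (0, [(22, 2), (5, 133), (3, 1)])]) (.cons (.ref 334 [(0, [(29, 1)]), (0, [(28, 1)]), (0, [(27, 1)]), (0, [(26, 1)]), (0, [(25, 1)]), (0, [(24, 1)]), (0, [(1, 1)]), (0, [(0, 1)]), (0, [(22, 2), (5, 133), (3, 1)])]) (.nil)))) (.nil)))))) (.nil))))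

/-- a subtree -/
def nC_0 : T := .node 1 (0) (1) (1) [.kid, .kid, .kid, .kid] (.cons (.node 0 (1) (1) (0) [.dead [(26, 199), (21, 3980), (20, 20), (19, 20), (18, 20), (1, 3980), (0, 3980)], .dead [(22, 1), (0, 1)], .kid, .dead [(23, 1), (0, 1)], .dead [(22, 199), (21, 199), (20, 1), (19, 1), (18, 1), (1, 199), (0, 398)], .red 0 0 [(23, 1), (0, 1)], .dead [(26, 199), (21, 3980), (20, 20), (19, 20), (18, 20), (1, 3980), (0, 3980)], .dead [(22, 1), (0, 1)], .dead [(23, 199), (21, 199), (20, 1), (19, 1), (18, 1), (1, 199), (0, 199)], .dead [(23, 1), (22, 1), (0, 1)], .kid, .red 0 1 [(23, 1), (22, 1), (0, 1)], .dead [(23, 1), (0, 1)], .dead [(23, 1), (22, 1), (0, 1)]] (.cons (.node 0 (1) (1) (1) [.dead [(27, 199), (22, 3980), (21, 20), (20, 20), (19, 20), (2, 3980), (0, 3980)], .red 0 0 [(23, 1), (22, 1), (1, 1), (0, 1)], .kid, .dead [(22, 1), (1, 1), (0, 1)], .kid, .dead [(24, 1),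 (0, 1)], .dead [(27, 199), (21, 20), (20, 20), (19, 20), (2, 3980), (0, 3980)], .kid, .dead [(27, 199), (22, 7960), (21, 20), (20, 20), (19, 20), (2, 3980), (1, 3980), (0, 3980)], .dead [(23, 1), (22, 1), (1, 1), (0, 1)], .dead [(24, 199), (21, 1), (20, 1), (19, 1), (2, 199), (0, 199)], .red 0 1 [(24, 1), (23, 1), (22, 1), (1, 2), (0, 1)], .dead [(24, 1), (22, 1), (0, 1)], .dead [(24, 1), (23, 1), (22, 1), (0, 1)]] (.cons (.node 0 (1) (0) (1) [.dead [(28, 199), (24, 3980), (22, 20), (21, 20), (20, 20), (3, 3980), (1, 3980), (0, 3980)], .dead [(23, 1), (0, 1)], .dead [(0, 1)], .dead [(24, 199), (23, 199), (22, 1), (21, 1), (20, 1), (3, 199), (1, 398), (0, 398)], .kid, .dead [(25, 1), (0, 1)], .dead [(28, 199), (24, 3980), (22, 20), (21, 20), (20, 20), (3, 3980), (0, 3980)], .dead [(23, 1), (0, 1)], .dead [(28, 199), (24, 3980), (22, 20), (21, 20), (20, 20), (3, 3980), (1, 7960),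 (0, 3980)], .dead [(24, 199), (23, 597), (22, 1), (21, 1), (20, 1), (3, 199), (1, 398), (0, 398)], .dead [(25, 1), (0, 1)], .dead [(25, 1), (23, 1), (0, 1)], .dead [(25, 199), (24, 199), (22, 1), (21, 1), (20, 1), (3, 199), (1, 398), (0, 199)], .dead [(25, 1), (23, 1), (0, 1)]] (.cons (.ref 0 [(0, [(28, 1)]), (0, [(24, 1)]), (0, [(23, 1)]), (0, [(1, 1)]), (0, [(0, 1)]), (0, [(22, 1), (21, 1), (20, 1), (3, 199)])]) (.nil))) (.cons (.ref 1 [(0, [(27, 1)]), (0, [(23, 1)]), (0, [(22, 1)]), (0, [(1, 1)]), (0, [(0, 1)]), (0, [(21, 1), (20, 1), (19, 1), (2, 199)])]) (.cons (.node 0 (1) (0) (1) [.dead [(28, 199), (24, 7960), (22, 20), (21, 20), (20, 20), (3, 3980), (1, 3980), (0, 7960)], .dead [(23, 1), (0, 1)], .dead [(0, 1)], .dead [(24, 597), (23, 597), (22, 1), (21, 1), (20, 1), (3, 199), (2, 398), (1, 398), (0, 796)], .kid, .dead [(25, 1), (0, 1)], .dead [(28, 199), (24, 3980), (22,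 20), (21, 20), (20, 20), (3, 3980), (0, 3980)], .dead [(23, 1), (0, 1)], .red 0 1 [(24, 1), (1, 1), (0, 1)], .dead [(24, 199), (23, 597), (22, 1), (21, 1), (20, 1), (3, 199), (2, 398), (0, 398)], .dead [(24, 1), (1, 1), (0, 1)], .dead [(25, 1), (23, 1), (0, 1)], .dead [(24, 1), (1, 1), (0, 1)], .dead [(25, 1), (23, 1), (0, 1)]] (.cons (.ref 2 [(0, [(28, 1)]), (0, [(24, 1)]), (0, [(23, 1)]), (0, [(2, 1)]), (0, [(1, 1)]), (0, [(0, 1)]), (0, [(22, 1), (21, 1), (20, 1), (3, 199)])]) (.nil))) (.nil))))) (.cons (.node 0 (1) (1) (1) [.dead [(27, 199), (22, 3980), (21, 20), (20, 20), (19, 20), (2, 3980), (0, 3980)], .red 0 1 [(24, 1), (23, 1), (22, 2), (1, 1), (0, 2)], .kid, .dead [(24, 199), (22, 597), (21, 1), (20, 1), (19, 1), (2, 199), (1, 199), (0, 398)], .dead [(27, 199), (22, 3980), (21, 20), (20, 20), (19, 20), (2, 3980), (1, 3980), (0, 3980)], .dead [(24, 1), (0, 1)], .dead [(27,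 199), (21, 20), (20, 20), (19, 20), (2, 3980), (0, 3980)], .red 0 1 [(22, 1), (1, 1), (0, 1)], .dead [(27, 199), (22, 5970), (21, 20), (20, 20), (19, 20), (2, 3980), (1, 1990), (0, 1990)], .dead [(22, 1), (1, 1), (0, 1)], .dead [(24, 199), (21, 1), (20, 1), (19, 1), (2, 199), (0, 199)], .red 0 1 [(24, 2), (22, 1), (1, 1), (0, 1)], .dead [(24, 1), (22, 1), (0, 1)], .dead [(24, 1), (23, 1), (22, 1), (0, 1)]] (.cons (.node 0 (1) (0) (1) [.dead [(28, 199), (24, 3980), (22, 20), (21, 20), (20, 20), (3, 3980), (1, 3980), (0, 3980)], .dead [(23, 1), (0, 1)], .dead [(0, 1)], .dead [(24, 199), (23, 199), (22, 1), (21, 1), (20, 1), (3, 199), (1, 398), (0, 398)], .dead [(28, 199), (23, 3980), (22, 20), (21, 20), (20, 20), (3, 3980), (2, 3980), (0, 3980)], .dead [(25, 1), (0, 1)], .dead [(28, 199), (22, 10), (21, 10), (20, 10), (3, 1990), (2, 1990), (0, 1990)], .dead [(23, 1), (0, 1)], .dead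 [(28, 199), (24, 1990), (23, 1990), (22, 20), (21, 20), (20, 20), (3, 3980), (2, 1990), (1, 3980), (0, 1990)], .dead [(23, 398), (22, 1), (21, 1), (20, 1), (3, 199), (2, 199), (0, 199)], .dead [(25, 1), (0, 1)], .dead [(25, 1), (23, 1), (0, 1)], .dead [(25, 199), (24, 199), (22, 1), (21, 1), (20, 1), (3, 199), (1, 398), (0, 199)], .dead [(25, 1), (23, 1), (0, 1)]] (.nil)) (.nil))) (.nil)))) (.cons (nC_8) (.cons (.node 1 (-1) (0) (1) [.kid, .kid, .kid, .dead [(23, 133), (9, 2), (2, 1), (0, 133)]] (.cons (nC_10) (.cons (nC_12) (.cons (nC_13) (.nil))))) (.cons (.node 1 (-1) (1) (0) [.kid, .kid, .dead [(23, 67), (14, 1), (11, 1), (1, 67), (0, 67)], .kid] (.cons (.ref 335 [(0, [(26, 1)]), (0, [(25, 1)]), (0, [(18, 2), (2, 133), (1, 1)]), (0, [(18, 2), (1, 1), (0, 133)])]) (.cons (.node 1 (1) (-1) (2) [.dead [(26, 6633), (24, 44220), (19, 655), (10, 1325), (2, 88440), (0, 44220)], .kid,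 .kid, .dead [(24, 133), (10, 4), (3, 2), (2, 133), (0, 133)]] (.cons (.ref 336 [(0, [(26, 1)]), (0, [(21, 2), (3, 133), (0, 1)]), (0, [(19, 2), (3, 133), (2, 1)])]) (.cons (.node 1 (0) (0) (1) [.dead [(27, 67), (20, 20), (11, 20), (3, 1340), (0, 1340)], .kid, .kid, .dead [(11, 2), (4, 1), (0, 133)]] (.cons (.node 1 (1) (0) (2) [.dead [(28, 4422), (26, 44220), (21, 655), (12, 1325), (4, 88440), (0, 44220)], .kid, .kid, .kid] (.cons (.ref 337 [(0, [(29, 1)]), (0, [(28, 1)]), (0, [(26, 1)]), (0, [(23, 2), (5, 133), (0, 1)]), (0, [(21, 2), (5, 133), (4, 1)]), (0, [(5, 1), (4, 1), (2, 1), (0, 1)])]) (.cons (.ref 338 [(0, [(29, 1)]), (0, [(28, 1)]), (0, [(26, 1)]), (0, [(21, 2), (5, 133), (4, 1)]), (0, [(5, 1), (4, 1), (1, 1), (0, 1)])]) (.cons (.ref 339 [(0, [(29, 1)]), (0, [(28, 1)]), (0, [(26, 1)]), (0, [(21, 2), (5, 133), (4, 1)]), (0, [(21, 2), (5, 133), (0, 1)])]) (.nil))))) (.cons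 (.split [0, 0, 0, 1024, 0, 0, 0, 0, 0, -1024] (.ref 340 [(0, [(29, 1)]), (0, [(28, 1)]), (0, [(26, 1)]), (1023, [(0, 1)]), (0, [(21, 2), (5, 133), (4, 1)]), (0, [(5, 1), (4, 1), (3, 1), (1, 1)])]) (.split [0, 0, 0, 0, 0, 0, 0, 1024, 0, -1024] (.node 0 (1) (0) (1) [.kid, .dead [(26, 1), (0, 1)], .dead [(0, 1)], .dead [(30, 34048), (14, 10240), (7, 5120), (6, 680960), (2, 665), (0, 680960)], .dead [(29, 256), (1, 5), (0, 5120)], .dead [(28, 1), (0, 1)], .red 0 680959 [(30, 34048), (14, 10240), (7, 5120), (6, 680960), (1, 665), (0, 680960)], .dead [(26, 1), (0, 1)], .kid, .dead [(30, 34048), (14, 10240), (7, 5120), (6, 680960), (2, 665), (1, 665), (0, 680960)], .dead [(28, 1), (0, 1)], .dead [(28, 1), (26, 1), (0, 1)], .dead [(30, 133), (28, 2660), (14, 40), (7, 20), (6, 2660), (0, 2660)], .dead [(28, 1), (26, 1), (0, 1)]] (.cons (.ref 341 [(0, [(31, 1)]), (0, [(30, 1)]), (0, [(28,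 1)]), (1023, [(1, 1)]), (0, [(0, 1)]), (0, [(23, 2), (7, 133), (6, 1)]), (0, [(7, 1), (6, 1), (5, 1), (3, 1)])]) (.cons (.ref 342 [(0, [(31, 1)]), (0, [(30, 1)]), (0, [(28, 1)]), (1023, [(1, 1)]), (0, [(0, 1)]), (0, [(23, 2), (7, 133), (6, 1)])]) (.nil)))) (.ref 343 [(0, [(30, 1)]), (0, [(29, 1)]), (0, [(27, 1)]), (1023, [(1, 1)]), (1023, [(0, 1)]), (0, [(22, 2), (6, 133), (5, 1)]), (0, [(6, 1), (5, 1), (4, 1), (2, 1)])]))) (.nil)))) (.nil)))) (.cons (.ref 344 [(0, [(26, 1)]), (0, [(25, 1)]), (0, [(23, 1)]), (0, [(18, 2), (2, 133), (0, 1)]), (0, [(18, 2), (2, 133), (1, 1)])]) (.nil))))) (.nil)))))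

end Pool.Agent.Helper58.KB
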