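import Pool.Agent.Helper58.KB.TrD1_0
set_option autoImplicit false
set_option maxRecDepth 100000
namespace Pool.Agent.Helper58.KB

/-- all lists of forms -/
def FsD1 : List (List (List ℤ)) := FD1_0

theorem hFsD1 : ∀ F ∈ FsD1, Valid GD1 F :=
  hFD1_0

/-- a subtree -/
def nD1_0 : T := .node 0 (1) (1) (0) [.kid, .dead [(21, 1), (0, 1)], .kid, .dead [(22, 1), (0, 1)], .dead [(0, 1)], .red 2 0 [(22, 1), (21, 1), (0, 2)], .red 2 0 [(0, 1)], .dead [(21, 1), (0, 1)], .dead [(22, 1), (0, 1)], .dead [(22, 1), (21, 1), (0, 1)], .kid, .red 1 1 [(22, 1), (21, 1), (0, 1)], .red 0 1 [(22, 1), (21, 1), (0, 1)], .dead [(22, 1), (21, 1), (0, 1)]] (.cons (.ref 0 [(0, [(25, 1)]), (0, [(24, 1)]), (0, [(23, 1)]), (0, [(22, 1)]), (0, [(21, 1)]), (0, [(20, 1)]), (0, [(0, 1)])]) (.cons (.ref 1 [(0, [(25, 1)]), (0, [(24, 1)]), (0, [(23, 1)]), (0, [(22, 1)]), (0,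 [(21, 1)]), (0, [(20, 1)]), (0, [(0, 1)])]) (.cons (.node 0 (1) (1) (1) [.kid, .dead [(22, 1), (0, 1)], .kid, .dead [(23, 1), (0, 1)], .red 2 19 [(24, 1), (1, 20), (0, 40)], .red 0 0 [(23, 1), (22, 1), (0, 1)], .kid, .red 1 19 [(25, 1), (24, 1), (1, 20), (0, 20)], .red 0 19 [(26, 1), (24, 1), (1, 20), (0, 20)], .dead [(24, 1), (1, 20), (0, 20)], .kid, .red 1 0 [(23, 1), (22, 1), (0, 1)], .red 0 0 [(23, 1), (22, 1), (0, 1)], .dead [(23, 1), (22, 1), (0, 1)]] (.cons (.ref 2 [(0, [(26, 1)]), (0, [(25, 1)]), (0, [(24, 1)]), (0, [(23, 1)]), (0, [(22, 1)]), (0, [(21, 1)]), (0, [(1, 1)]), (0, [(0, 1)])]) (.cons (.ref 3 [(0, [(26, 1)]), (0, [(25, 1)]), (0, [(24, 1)]), (0, [(23, 1)]), (0, [(22, 1)]), (0, [(21, 1)]), (0, [(1, 1)]), (0, [(0, 1)])]) (.cons (.ref 4 [(0, [(26, 1)]), (0, [(25, 1)]), (0, [(24, 1)]), (0, [(23, 1)]), (0, [(22, 1)]), (0, [(21,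 1)]), (0, [(1, 1)]), (0, [(0, 1)])]) (.cons (.ref 5 [(0, [(26, 1)]), (0, [(25, 1)]), (0, [(24, 1)]), (0, [(23, 1)]), (0, [(22, 1)]), (0, [(21, 1)]), (0, [(0, 1)])]) (.nil)))))) (.nil))))

end Pool.Agent.Helper58.KB
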