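import Pool.Agent.Helper58.KB.TrD2_0
import Pool.Agent.Helper58.KB.TrD2_1
set_option autoImplicit false
set_option maxRecDepth 100000
namespace Pool.Agent.Helper58.KB

/-- all lists of forms -/
def FsD2 : List (List (List ℤ)) := FD2_0 ++ (FD2_1)

theorem hFsD2 : ∀ F ∈ FsD2, Valid GD2 F :=
  List.forall_mem_append.2 ⟨hFD2_0, hFD2_1⟩

/-- a subtree -/
def nD2_1 : T := .node 1 (0) (0) (1) [.kid, .kid, .kid, .kid] (.cons (.node 0 (1) (1) (0) [.kid, .dead [(23, 1), (0, 1)], .kid, .dead [(24, 1), (0, 1)], .red 0 0 [(23, 1), (0, 1)], .red 1 0 [(24, 1), (0, 1)], .kid, .dead [(23, 1), (0, 1)], .red 0 1 [(24, 1), (23, 1), (0, 1)], .dead [(24, 1), (23, 1), (0, 1)], .kid, .red 1 1 [(24, 1), (23, 1), (0, 1)], .dead [(24, 1), (0, 1)], .dead [(24, 1), (23, 1), (0, 1)]] (.cons (.ref 1 [(0, [(27, 1)]), (0, [(26, 1)]), (0, [(24, 1)]), (0, [(23, 1)]), (0, [(22,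 1)]), (0, [(0, 1)]), (0, [(21, 2), (2, 1), (1, 133)]), (0, [(21, 1), (20, 1), (19, 1), (1, 199)])]) (.cons (.node 0 (1) (1) (1) [.kid, .dead [(24, 1), (0, 1)], .dead [(27, 199), (22, 20), (21, 20), (20, 20), (2, 3980), (0, 3980)], .dead [(23, 1), (1, 1), (0, 1)], .kid, .dead [(25, 1), (0, 1)], .kid, .dead [(24, 199), (22, 1), (21, 1), (20, 1), (2, 199), (0, 199)], .red 2 0 [(23, 2), (1, 2), (0, 1)], .dead [(24, 1), (23, 1), (1, 1), (0, 1)], .dead [(27, 199), (25, 3980), (22, 20), (21, 20), (20, 20), (2, 3980), (0, 3980)], .dead [(25, 199), (24, 199), (22, 1), (21, 1), (20, 1), (2, 199), (0, 199)], .dead [(25, 1), (23, 1), (0, 1)], .dead [(25, 1), (24, 1), (23, 1), (0, 1)]] (.cons (.ref 2 [(0, [(28, 1)]), (0, [(27, 1)]), (0, [(25, 1)]), (0, [(24, 1)]), (0, [(23, 1)]), (0, [(1, 1)]), (0, [(0, 1)]), (0, [(22, 2), (3, 1), (2, 133)]), (0, [(22, 1),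 (21, 1), (20, 1), (2, 199)])]) (.cons (.ref 3 [(0, [(28, 1)]), (0, [(27, 1)]), (0, [(25, 1)]), (0, [(24, 1)]), (0, [(23, 1)]), (0, [(1, 1)]), (0, [(0, 1)]), (0, [(22, 2), (3, 1), (2, 133)]), (0, [(22, 1), (21, 1), (20, 1), (2, 199)])]) (.cons (.ref 4 [(0, [(28, 1)]), (0, [(27, 1)]), (0, [(25, 1)]), (0, [(24, 1)]), (0, [(23, 1)]), (0, [(1, 1)]), (0, [(0, 1)]), (0, [(22, 2), (3, 1), (2, 133)]), (0, [(22, 1), (21, 1), (20, 1), (2, 199)])]) (.nil))))) (.cons (.ref 5 [(0, [(27, 1)]), (0, [(26, 1)]), (0, [(24, 1)]), (0, [(23, 1)]), (0, [(22, 1)]), (0, [(0, 1)]), (0, [(21, 2), (2, 1), (1, 133)]), (0, [(21, 1), (20, 1), (19, 1), (1, 199)])]) (.cons (.node 0 (1) (1) (1) [.kid, .dead [(24, 1), (0, 1)], .dead [(27, 199), (22, 20), (21, 20), (20, 20), (2, 3980), (0, 3980)], .dead [(25, 1), (23, 2), (1, 1), (0, 2)], .red 1 0 [(23, 1), (1, 1), (0, 2)], .dead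 [(25, 1), (0, 1)], .kid, .dead [(24, 199), (22, 1), (21, 1), (20, 1), (2, 199), (0, 199)], .red 0 1 [(23, 1), (1, 1), (0, 1)], .dead [(23, 1), (1, 1), (0, 1)], .dead [(27, 199), (25, 3980), (22, 20), (21, 20), (20, 20), (2, 3980), (0, 3980)], .dead [(25, 199), (24, 199), (22, 1), (21, 1), (20, 1), (2, 199), (0, 199)], .dead [(25, 1), (23, 1), (0, 1)], .dead [(25, 1), (24, 1), (23, 1), (0, 1)]] (.cons (.ref 6 [(0, [(28, 1)]), (0, [(27, 1)]), (0, [(25, 1)]), (0, [(24, 1)]), (0, [(23, 1)]), (0, [(1, 1)]), (0, [(0, 1)]), (0, [(22, 2), (3, 1), (2, 133)]), (0, [(22, 1), (21, 1), (20, 1), (2, 199)])]) (.cons (.ref 7 [(0, [(28, 1)]), (0, [(27, 1)]), (0, [(25, 1)]), (0, [(24, 1)]), (0, [(23, 1)]), (0, [(1, 1)]), (0, [(0, 1)]), (0, [(22, 2), (3, 1), (2, 133)]), (0, [(22, 1), (21, 1), (20, 1), (2, 199)])]) (.nil)))) (.nil)))))) (.cons (.node 0 (1) (1)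 (0) [.kid, .dead [(23, 1), (0, 1)], .kid, .dead [(24, 1), (0, 1)], .red 0 0 [(23, 1), (0, 1)], .red 1 0 [(24, 1), (0, 1)], .kid, .dead [(23, 1), (0, 1)], .red 0 1 [(24, 1), (23, 1), (0, 1)], .dead [(24, 1), (23, 1), (0, 1)], .kid, .red 1 1 [(24, 1), (23, 1), (0, 1)], .dead [(24, 1), (0, 1)], .dead [(24, 1), (23, 1), (0, 1)]] (.cons (.node 0 (1) (1) (-1) [.kid, .dead [(23, 1), (1, 1), (0, 1)], .kid, .dead [(25, 1), (0, 1)], .dead [(24, 1), (0, 1)], .kid, .red 3 0 [(24, 2), (0, 1)], .dead [(24, 1), (23, 1), (0, 1)], .dead [(25, 1), (24, 1), (0, 1)], .dead [(25, 1), (24, 1), (23, 1), (0, 1)], .kid, .red 3 132 [(23, 133), (19, 2), (4, 1), (2, 133), (1, 266), (0, 133)], .red 2 0 [(25, 1), (0, 1)], .dead [(25, 1), (23, 1), (1, 1), (0, 1)]] (.cons (.ref 8 [(0, [(28, 1)]), (0, [(27, 1)]), (0, [(26, 1)]), (0, [(25, 1)]), (0, [(24, 1)]), (0, [(23, 1)]),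 (0, [(0, 1)])]) (.cons (.ref 9 [(0, [(28, 1)]), (0, [(27, 1)]), (0, [(26, 1)]), (0, [(25, 1)]), (0, [(24, 1)]), (0, [(23, 1)]), (0, [(1, 1)]), (0, [(0, 1)])]) (.cons (.ref 10 [(0, [(28, 1)]), (0, [(27, 1)]), (0, [(26, 1)]), (0, [(25, 1)]), (0, [(24, 1)]), (0, [(23, 1)]), (0, [(1, 1)]), (0, [(0, 1)])]) (.cons (.ref 11 [(0, [(28, 1)]), (0, [(27, 1)]), (0, [(26, 1)]), (0, [(25, 1)]), (0, [(24, 1)]), (0, [(23, 1)]), (0, [(1, 1)]), (0, [(0, 1)])]) (.nil)))))) (.cons (.node 0 (1) (1) (1) [.kid, .dead [(24, 1), (0, 1)], .kid, .dead [(23, 1), (1, 1), (0, 1)], .kid, .dead [(25, 1), (0, 1)], .kid, .red 2 0 [(24, 1), (0, 1)], .red 3 132 [(23, 133), (19, 2), (4, 1), (2, 133), (1, 266), (0, 133)], .dead [(24, 1), (23, 1), (1, 1), (0, 1)], .red 3 0 [(25, 2), (0, 1)], .dead [(25, 1), (24, 1), (0, 1)], .dead [(25, 1), (23, 1), (0, 1)], .dead [(25, 1), (24,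 1), (23, 1), (0, 1)]] (.cons (.ref 12 [(0, [(28, 1)]), (0, [(27, 1)]), (0, [(26, 1)]), (0, [(25, 1)]), (0, [(24, 1)]), (0, [(23, 1)]), (0, [(1, 1)]), (0, [(0, 1)])]) (.cons (.ref 13 [(0, [(28, 1)]), (0, [(27, 1)]), (0, [(26, 1)]), (0, [(25, 1)]), (0, [(24, 1)]), (0, [(23, 1)]), (0, [(0, 1)])]) (.cons (.ref 14 [(0, [(28, 1)]), (0, [(27, 1)]), (0, [(26, 1)]), (0, [(25, 1)]), (0, [(24, 1)]), (0, [(23, 1)]), (0, [(1, 1)]), (0, [(0, 1)])]) (.cons (.ref 15 [(0, [(28, 1)]), (0, [(27, 1)]), (0, [(26, 1)]), (0, [(25, 1)]), (0, [(24, 1)]), (0, [(23, 1)]), (0, [(1, 1)]), (0, [(0, 1)])]) (.nil)))))) (.cons (.node 0 (1) (1) (-1) [.kid, .dead [(24, 1), (23, 2), (1, 1), (0, 2)], .kid, .dead [(25, 1), (0, 1)], .dead [(24, 1), (0, 1)], .red 2 0 [(23, 1), (1, 1), (0, 2)], .red 2 0 [(24, 2), (0, 1)], .dead [(24, 1), (23, 1), (0, 1)], .dead [(25, 1), (24, 1), (0,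 1)], .dead [(25, 1), (24, 1), (23, 1), (0, 1)], .kid, .red 1 1 [(23, 1), (1, 1), (0, 1)], .dead [(28, 2), (26, 1), (1, 20), (0, 20)], .dead [(23, 1), (1, 1), (0, 1)]] (.cons (.ref 16 [(0, [(28, 1)]), (0, [(27, 1)]), (0, [(26, 1)]), (0, [(25, 1)]), (0, [(24, 1)]), (0, [(23, 1)]), (0, [(1, 1)]), (0, [(0, 1)])]) (.cons (.ref 17 [(0, [(28, 1)]), (0, [(27, 1)]), (0, [(26, 1)]), (0, [(25, 1)]), (0, [(24, 1)]), (0, [(23, 1)]), (0, [(1, 1)]), (0, [(0, 1)])]) (.cons (.ref 18 [(0, [(28, 1)]), (0, [(27, 1)]), (0, [(26, 1)]), (0, [(25, 1)]), (0, [(24, 1)]), (0, [(23, 1)]), (0, [(1, 1)]), (0, [(0, 1)])]) (.nil))))) (.cons (.node 0 (1) (1) (1) [.kid, .dead [(24, 1), (0, 1)], .kid, .dead [(25, 1), (23, 2), (1, 1), (0, 2)], .red 2 0 [(23, 1), (1, 1), (0, 2)], .dead [(25, 1), (0, 1)], .kid, .dead [(27, 2), (26, 1), (1, 20), (0, 20)], .red 0 1 [(23, 1), (1, 1),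 (0, 1)], .dead [(23, 1), (1, 1), (0, 1)], .red 2 0 [(25, 2), (0, 1)], .dead [(25, 1), (24, 1), (0, 1)], .dead [(25, 1), (23, 1), (0, 1)], .dead [(25, 1), (24, 1), (23, 1), (0, 1)]] (.cons (.ref 19 [(0, [(28, 1)]), (0, [(27, 1)]), (0, [(26, 1)]), (0, [(25, 1)]), (0, [(24, 1)]), (0, [(23, 1)]), (0, [(1, 1)]), (0, [(0, 1)])]) (.cons (.ref 20 [(0, [(28, 1)]), (0, [(27, 1)]), (0, [(26, 1)]), (0, [(25, 1)]), (0, [(24, 1)]), (0, [(23, 1)]), (0, [(1, 1)]), (0, [(0, 1)])]) (.cons (.ref 21 [(0, [(28, 1)]), (0, [(27, 1)]), (0, [(26, 1)]), (0, [(25, 1)]), (0, [(24, 1)]), (0, [(23, 1)]), (0, [(1, 1)]), (0, [(0, 1)])]) (.nil))))) (.nil)))))) (.cons (.node 0 (1) (1) (0) [.kid, .dead [(23, 1), (0, 1)], .kid, .dead [(24, 1), (0, 1)], .red 0 0 [(23, 1), (0, 1)], .red 1 0 [(24, 1), (0, 1)], .kid, .dead [(23, 1), (0, 1)], .red 0 1 [(24, 1), (23, 1), (0, 1)], .dead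 [(24, 1), (23, 1), (0, 1)], .kid, .red 1 1 [(24, 1), (23, 1), (0, 1)], .dead [(24, 1), (0, 1)], .dead [(24, 1), (23, 1), (0, 1)]] (.cons (.node 0 (1) (1) (-1) [.kid, .dead [(23, 1), (1, 1), (0, 1)], .kid, .dead [(25, 1), (0, 1)], .dead [(24, 1), (0, 1)], .kid, .red 3 0 [(24, 2), (0, 1)], .dead [(24, 1), (23, 1), (0, 1)], .dead [(25, 1), (24, 1), (0, 1)], .dead [(25, 1), (24, 1), (23, 1), (0, 1)], .kid, .red 3 0 [(23, 2), (1, 2), (0, 1)], .red 2 0 [(25, 1), (0, 1)], .dead [(25, 1), (23, 1), (1, 1), (0, 1)]] (.cons (.ref 22 [(0, [(28, 1)]), (0, [(27, 1)]), (0, [(26, 1)]), (0, [(25, 1)]), (0, [(24, 1)]), (0, [(23, 1)]), (0, [(0, 1)])]) (.cons (.ref 23 [(0, [(28, 1)]), (0, [(27, 1)]), (0, [(26, 1)]), (0, [(25, 1)]), (0, [(24, 1)]), (0, [(23, 1)]), (0, [(1, 1)]), (0, [(0, 1)])]) (.cons (.ref 24 [(0, [(28, 1)]), (0, [(27, 1)]), (0, [(26, 1)]), (0,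 [(25, 1)]), (0, [(24, 1)]), (0, [(23, 1)]), (0, [(1, 1)]), (0, [(0, 1)])]) (.cons (.ref 25 [(0, [(28, 1)]), (0, [(27, 1)]), (0, [(26, 1)]), (0, [(25, 1)]), (0, [(24, 1)]), (0, [(23, 1)]), (0, [(1, 1)]), (0, [(0, 1)])]) (.nil)))))) (.cons (.node 0 (1) (1) (1) [.kid, .dead [(24, 1), (0, 1)], .kid, .dead [(23, 1), (1, 1), (0, 1)], .kid, .dead [(25, 1), (0, 1)], .kid, .red 2 0 [(24, 1), (0, 1)], .red 3 0 [(23, 2), (1, 2), (0, 1)], .dead [(24, 1), (23, 1), (1, 1), (0, 1)], .red 3 0 [(25, 2), (0, 1)], .dead [(25, 1), (24, 1), (0, 1)], .dead [(25, 1), (23, 1), (0, 1)], .dead [(25, 1), (24, 1), (23, 1), (0, 1)]] (.cons (.ref 26 [(0, [(28, 1)]), (0, [(27, 1)]), (0, [(26, 1)]), (0, [(25, 1)]), (0, [(24, 1)]), (0, [(23, 1)]), (0, [(1, 1)]), (0, [(0, 1)])]) (.cons (.ref 27 [(0, [(28, 1)]), (0, [(27, 1)]), (0, [(26, 1)]), (0, [(25, 1)]), (0, [(24, 1)]),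 (0, [(23, 1)]), (0, [(0, 1)])]) (.cons (.ref 28 [(0, [(28, 1)]), (0, [(27, 1)]), (0, [(26, 1)]), (0, [(25, 1)]), (0, [(24, 1)]), (0, [(23, 1)]), (0, [(1, 1)]), (0, [(0, 1)])]) (.cons (.ref 29 [(0, [(28, 1)]), (0, [(27, 1)]), (0, [(26, 1)]), (0, [(25, 1)]), (0, [(24, 1)]), (0, [(23, 1)]), (0, [(1, 1)]), (0, [(0, 1)])]) (.nil)))))) (.cons (.node 0 (1) (1) (-1) [.kid, .dead [(24, 1), (23, 2), (1, 1), (0, 2)], .kid, .dead [(25, 1), (0, 1)], .dead [(24, 1), (0, 1)], .red 2 0 [(23, 1), (1, 1), (0, 2)], .red 2 0 [(24, 2), (0, 1)], .dead [(24, 1), (23, 1), (0, 1)], .dead [(25, 1), (24, 1), (0, 1)], .dead [(25, 1), (24, 1), (23, 1), (0, 1)], .kid, .red 1 1 [(23, 1), (1, 1), (0, 1)], .dead [(28, 2), (26, 1), (1, 20), (0, 20)], .dead [(23, 1), (1, 1), (0, 1)]] (.cons (.ref 30 [(0, [(28, 1)]), (0, [(27, 1)]), (0, [(26, 1)]), (0, [(25, 1)]), (0, [(24, 1)]),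 (0, [(23, 1)]), (0, [(1, 1)]), (0, [(0, 1)])]) (.cons (.ref 31 [(0, [(28, 1)]), (0, [(27, 1)]), (0, [(26, 1)]), (0, [(25, 1)]), (0, [(24, 1)]), (0, [(23, 1)]), (0, [(1, 1)]), (0, [(0, 1)])]) (.cons (.ref 32 [(0, [(28, 1)]), (0, [(27, 1)]), (0, [(26, 1)]), (0, [(25, 1)]), (0, [(24, 1)]), (0, [(23, 1)]), (0, [(1, 1)]), (0, [(0, 1)])]) (.nil))))) (.cons (.node 0 (1) (1) (1) [.kid, .dead [(24, 1), (0, 1)], .kid, .dead [(25, 1), (23, 2), (1, 1), (0, 2)], .red 2 0 [(23, 1), (1, 1), (0, 2)], .dead [(25, 1), (0, 1)], .kid, .dead [(27, 2), (26, 1), (1, 20), (0, 20)], .red 0 1 [(23, 1), (1, 1), (0, 1)], .dead [(23, 1), (1, 1), (0, 1)], .red 2 0 [(25, 2), (0, 1)], .dead [(25, 1), (24, 1), (0, 1)], .dead [(25, 1), (23, 1), (0, 1)], .dead [(25, 1), (24, 1), (23, 1), (0, 1)]] (.cons (.ref 33 [(0, [(28, 1)]), (0, [(27, 1)]), (0, [(26, 1)]), (0, [(25, 1)]),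 (0, [(24, 1)]), (0, [(23, 1)]), (0, [(1, 1)]), (0, [(0, 1)])]) (.cons (.ref 34 [(0, [(28, 1)]), (0, [(27, 1)]), (0, [(26, 1)]), (0, [(25, 1)]), (0, [(24, 1)]), (0, [(23, 1)]), (0, [(1, 1)]), (0, [(0, 1)])]) (.cons (.ref 35 [(0, [(28, 1)]), (0, [(27, 1)]), (0, [(26, 1)]), (0, [(25, 1)]), (0, [(24, 1)]), (0, [(23, 1)]), (0, [(1, 1)]), (0, [(0, 1)])]) (.nil))))) (.nil)))))) (.cons (.node 0 (1) (1) (-1) [.dead [(27, 133), (10, 40), (3, 20), (1, 2660), (0, 2660)], .red 1 0 [(23, 1), (22, 1), (0, 1)], .kid, .dead [(24, 1), (0, 1)], .dead [(23, 1), (0, 1)], .kid, .dead [(27, 133), (23, 2660), (10, 40), (3, 20), (1, 2660), (0, 2660)], .dead [(23, 1), (22, 1), (0, 1)], .dead [(24, 133), (23, 133), (10, 2), (3, 1), (1, 133), (0, 133)], .dead [(24, 1), (23, 1), (22, 1), (0, 1)], .kid, .kid, .dead [(24, 133), (10, 2), (3, 1), (1, 133), (0, 133)], .red 1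 1 [(24, 1), (23, 1), (22, 1), (0, 1)]] (.cons (.ref 36 [(0, [(27, 1)]), (0, [(26, 1)]), (0, [(24, 1)]), (0, [(23, 1)]), (0, [(22, 1)]), (0, [(0, 1)]), (0, [(19, 2), (3, 133), (1, 1)])]) (.cons (.node 0 (1) (1) (0) [.kid, .dead [(24, 1), (0, 1)], .kid, .dead [(25, 1), (0, 1)], .dead [(23, 133), (11, 2), (4, 1), (2, 133), (1, 266), (0, 266)], .red 1 0 [(25, 1), (0, 1)], .red 2 132 [(23, 133), (11, 2), (4, 1), (2, 133), (1, 266), (0, 133)], .dead [(24, 1), (0, 1)], .dead [(25, 266), (23, 133), (11, 2), (4, 1), (2, 133), (1, 266), (0, 266)], .dead [(25, 1), (24, 1), (0, 1)], .kid, .red 1 1 [(25, 1), (24, 1), (0, 1)], .dead [(25, 1), (0, 1)], .dead [(25, 1), (24, 1), (0, 1)]] (.cons (.ref 37 [(0, [(28, 1)]), (0, [(27, 1)]), (0, [(25, 1)]), (0, [(24, 1)]), (0, [(23, 1)]), (0, [(1, 1)]), (0, [(0, 1)]), (0, [(20, 2), (4, 133), (2, 1)])]) (.cons (.ref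 38 [(0, [(28, 1)]), (0, [(27, 1)]), (0, [(25, 1)]), (0, [(24, 1)]), (0, [(23, 1)]), (0, [(1, 1)]), (0, [(0, 1)]), (0, [(20, 2), (4, 133), (2, 1)])]) (.cons (.ref 39 [(0, [(28, 1)]), (0, [(27, 1)]), (0, [(25, 1)]), (0, [(24, 1)]), (0, [(23, 1)]), (0, [(1, 1)]), (0, [(0, 1)]), (0, [(20, 2), (4, 133), (2, 1)])]) (.nil))))) (.cons (.ref 40 [(0, [(27, 1)]), (0, [(26, 1)]), (0, [(24, 1)]), (0, [(23, 1)]), (0, [(22, 1)]), (0, [(0, 1)]), (0, [(19, 2), (3, 133), (1, 1)])]) (.cons (.node 0 (1) (1) (0) [.red 1 0 [(23, 1), (1, 1), (0, 2)], .dead [(24, 1), (0, 1)], .kid, .dead [(25, 1), (0, 1)], .dead [(24, 1), (23, 1), (1, 1), (0, 2)], .red 0 0 [(25, 1), (0, 1)], .red 0 1 [(23, 1), (1, 1), (0, 1)], .dead [(24, 1), (0, 1)], .dead [(23, 1), (1, 1), (0, 1)], .dead [(25, 1), (24, 1), (0, 1)], .kid, .red 0 1 [(25, 1), (24, 1), (0, 1)], .dead [(25, 1), (0, 1)],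 .dead [(25, 1), (24, 1), (0, 1)]] (.cons (.ref 41 [(0, [(28, 1)]), (0, [(27, 1)]), (0, [(25, 1)]), (0, [(24, 1)]), (0, [(23, 1)]), (0, [(1, 1)]), (0, [(0, 1)]), (0, [(20, 2), (4, 133), (2, 1)])]) (.cons (.ref 42 [(0, [(28, 1)]), (0, [(27, 1)]), (0, [(25, 1)]), (0, [(24, 1)]), (0, [(23, 1)]), (0, [(1, 1)]), (0, [(0, 1)]), (0, [(20, 2), (4, 133), (2, 1)])]) (.nil)))) (.nil)))))) (.nil)))))

/-- a subtree -/
def nD2_2 : T := .node 1 (0) (1) (1) [.kid, .kid, .kid, .kid] (.cons (.node 0 (1) (1) (1) [.dead [(26, 199), (21, 3980), (20, 20), (19, 20), (18, 20), (1, 3980), (0, 3980)], .dead [(22, 1), (0, 1)], .dead [(22, 199), (20, 1), (19, 1), (18, 1), (1, 199), (0, 199)], .red 0 0 [(23, 1), (21, 1), (0, 1)], .kid, .dead [(23, 1), (0, 1)], .dead [(26, 199), (20, 20), (19, 20), (18, 20), (1, 3980), (0, 3980)], .dead [(22, 398), (20, 1), (19, 1), (18,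 1), (1, 199), (0, 199)], .kid, .red 0 1 [(23, 1), (22, 1), (21, 1), (0, 1)], .dead [(23, 199), (20, 1), (19, 1), (18, 1), (1, 199), (0, 199)], .dead [(23, 1), (22, 1), (0, 1)], .dead [(23, 1), (21, 1), (0, 1)], .dead [(23, 1), (22, 1), (21, 1), (0, 1)]] (.cons (.node 0 (1) (1) (0) [.dead [(27, 199), (22, 3980), (21, 20), (20, 20), (19, 20), (2, 3980), (0, 3980)], .dead [(23, 1), (0, 1)], .kid, .dead [(24, 1), (0, 1)], .dead [(23, 199), (22, 199), (21, 1), (20, 1), (19, 1), (2, 199), (0, 398)], .dead [(23, 199), (22, 199), (21, 1), (20, 1), (19, 1), (2, 199), (1, 398), (0, 398)], .dead [(27, 199), (22, 3980), (21, 20), (20, 20), (19, 20), (2, 3980), (0, 3980)], .dead [(23, 1), (0, 1)], .dead [(24, 199), (22, 199), (21, 1), (20, 1), (19, 1), (2, 199), (0, 199)], .dead [(24, 1), (23, 1), (0, 1)], .dead [(27, 199), (22, 3980), (21, 20), (20, 20),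 (19, 20), (2, 3980), (1, 3980), (0, 3980)], .dead [(23, 597), (22, 199), (21, 1), (20, 1), (19, 1), (2, 199), (1, 398), (0, 398)], .dead [(24, 1), (0, 1)], .dead [(24, 1), (23, 1), (0, 1)]] (.cons (.ref 0 [(0, [(27, 1)]), (0, [(23, 1)]), (0, [(22, 1)]), (0, [(1, 1)]), (0, [(0, 1)]), (0, [(21, 1), (20, 1), (19, 1), (2, 199)])]) (.nil))) (.cons (.node 0 (1) (1) (0) [.dead [(27, 199), (22, 3980), (21, 20), (20, 20), (19, 20), (2, 3980), (0, 3980)], .dead [(23, 1), (0, 1)], .dead [(27, 199), (22, 7960), (21, 20), (20, 20), (19, 20), (2, 3980), (1, 3980), (0, 3980)], .dead [(24, 1), (0, 1)], .dead [(23, 199), (22, 199), (21, 1), (20, 1), (19, 1), (2, 199), (0, 398)], .dead [(24, 199), (22, 398), (21, 1), (20, 1), (19, 1), (2, 199), (1, 199), (0, 398)], .dead [(27, 199), (22, 3980), (21, 20), (20, 20), (19, 20), (2, 3980), (0, 3980)], .dead [(23,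 1), (0, 1)], .dead [(24, 199), (22, 199), (21, 1), (20, 1), (19, 1), (2, 199), (0, 199)], .dead [(24, 1), (23, 1), (0, 1)], .dead [(27, 199), (22, 5970), (21, 20), (20, 20), (19, 20), (2, 3980), (1, 1990), (0, 1990)], .dead [(22, 1), (1, 1), (0, 1)], .dead [(24, 1), (0, 1)], .dead [(24, 1), (23, 1), (0, 1)]] (.nil)) (.nil)))) (.cons (nD2_1) (.cons (.node 0 (1) (1) (0) [.kid, .dead [(22, 1), (0, 1)], .kid, .dead [(23, 1), (0, 1)], .red 0 0 [(22, 1), (0, 1)], .red 1 0 [(23, 1), (0, 1)], .kid, .dead [(22, 1), (0, 1)], .red 0 1 [(23, 1), (22, 1), (0, 1)], .dead [(23, 1), (22, 1), (0, 1)], .kid, .red 1 265 [(23, 133), (21, 133), (13, 2), (2, 1), (1, 133), (0, 133)], .dead [(23, 1), (0, 1)], .dead [(23, 1), (22, 1), (0, 1)]] (.cons (.node 0 (1) (1) (-1) [.kid, .dead [(22, 1), (1, 1), (0, 1)], .kid, .dead [(24, 1), (0, 1)], .dead [(23, 1), (0, 1)],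 .kid, .red 3 0 [(23, 2), (0, 1)], .dead [(23, 1), (22, 1), (0, 1)], .dead [(24, 1), (23, 1), (0, 1)], .dead [(24, 1), (23, 1), (22, 1), (0, 1)], .kid, .red 3 0 [(22, 2), (1, 2), (0, 1)], .red 2 0 [(24, 1), (0, 1)], .dead [(24, 1), (22, 1), (1, 1), (0, 1)]] (.cons (.ref 43 [(0, [(27, 1)]), (0, [(26, 1)]), (0, [(25, 1)]), (0, [(24, 1)]), (0, [(23, 1)]), (0, [(22, 1)]), (0, [(0, 1)]), (0, [(20, 2), (3, 133), (2, 1)])]) (.cons (.ref 44 [(0, [(27, 1)]), (0, [(26, 1)]), (0, [(25, 1)]), (0, [(24, 1)]), (0, [(23, 1)]), (0, [(22, 1)]), (0, [(1, 1)]), (0, [(0, 1)]), (0, [(20, 2), (3, 133), (2, 1)])]) (.cons (.ref 45 [(0, [(27, 1)]), (0, [(26, 1)]), (0, [(25, 1)]), (0, [(24, 1)]), (0, [(23, 1)]), (0, [(22, 1)]), (0, [(1, 1)]), (0, [(0, 1)]), (0, [(20, 2), (3, 133), (2, 1)])]) (.cons (.ref 46 [(0, [(27, 1)]), (0, [(26, 1)]), (0, [(25, 1)]), (0, [(24, 1)]),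 (0, [(23, 1)]), (0, [(22, 1)]), (0, [(1, 1)]), (0, [(0, 1)]), (0, [(20, 2), (3, 133), (2, 1)])]) (.nil)))))) (.cons (.node 0 (1) (1) (1) [.kid, .dead [(23, 1), (0, 1)], .red 2 132 [(24, 133), (14, 2), (3, 1), (2, 133), (0, 266)], .dead [(22, 1), (1, 1), (0, 1)], .kid, .dead [(24, 1), (0, 1)], .kid, .red 1 5319 [(25, 133), (23, 2660), (14, 40), (3, 20), (2, 2660), (0, 5320)], .red 2 0 [(22, 2), (1, 2), (0, 1)], .dead [(23, 1), (22, 1), (1, 1), (0, 1)], .red 0 265 [(24, 133), (14, 2), (3, 1), (2, 133), (0, 133)], .dead [(24, 133), (14, 2), (3, 1), (2, 133), (0, 133)], .dead [(24, 1), (22, 1), (0, 1)], .dead [(24, 1), (23, 1), (22, 1), (0, 1)]] (.cons (.ref 47 [(0, [(27, 1)]), (0, [(26, 1)]), (0, [(25, 1)]), (0, [(24, 1)]), (0, [(23, 1)]), (0, [(22, 1)]), (0, [(1, 1)]), (0, [(0, 1)]), (0, [(20, 2), (3, 133), (2, 1)])]) (.cons (.ref 48 [(0, [(27,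 1)]), (0, [(26, 1)]), (0, [(25, 1)]), (0, [(24, 1)]), (0, [(23, 1)]), (0, [(22, 1)]), (0, [(1, 1)]), (0, [(0, 1)]), (0, [(20, 2), (3, 133), (2, 1)])]) (.cons (.ref 49 [(0, [(27, 1)]), (0, [(26, 1)]), (0, [(25, 1)]), (0, [(24, 1)]), (0, [(23, 1)]), (0, [(22, 1)]), (0, [(1, 1)]), (0, [(0, 1)]), (0, [(20, 2), (3, 133), (2, 1)])]) (.nil))))) (.cons (.node 0 (1) (1) (-1) [.kid, .dead [(23, 1), (22, 2), (1, 1), (0, 2)], .kid, .dead [(24, 1), (0, 1)], .dead [(23, 1), (0, 1)], .red 2 0 [(22, 1), (1, 1), (0, 2)], .red 2 0 [(23, 2), (0, 1)], .dead [(23, 1), (22, 1), (0, 1)], .dead [(24, 1), (23, 1), (0, 1)], .dead [(24, 1), (23, 1), (22, 1), (0, 1)], .kid, .red 1 1 [(22, 1), (1, 1), (0, 1)], .dead [(27, 2), (25, 1), (1, 20), (0, 20)], .dead [(22, 1), (1, 1), (0, 1)]] (.cons (.ref 50 [(0, [(27, 1)]), (0, [(26, 1)]), (0, [(25, 1)]), (0, [(24, 1)]), (0,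 [(23, 1)]), (0, [(22, 1)]), (0, [(1, 1)]), (0, [(0, 1)]), (0, [(20, 2), (3, 133), (2, 1)])]) (.cons (.ref 51 [(0, [(27, 1)]), (0, [(26, 1)]), (0, [(25, 1)]), (0, [(24, 1)]), (0, [(23, 1)]), (0, [(22, 1)]), (0, [(1, 1)]), (0, [(0, 1)]), (0, [(20, 2), (3, 133), (2, 1)])]) (.cons (.ref 52 [(0, [(27, 1)]), (0, [(26, 1)]), (0, [(25, 1)]), (0, [(24, 1)]), (0, [(23, 1)]), (0, [(22, 1)]), (0, [(1, 1)]), (0, [(0, 1)]), (0, [(20, 2), (3, 133), (2, 1)])]) (.nil))))) (.cons (.node 0 (1) (1) (1) [.kid, .dead [(23, 1), (0, 1)], .red 1 132 [(24, 133), (14, 2), (3, 1), (2, 133), (0, 266)], .dead [(24, 1), (22, 2), (1, 1), (0, 2)], .red 1 0 [(22, 1), (1, 1), (0, 2)], .dead [(24, 1), (0, 1)], .kid, .dead [(26, 2), (25, 1), (1, 20), (0, 20)], .red 0 1 [(22, 1), (1, 1), (0, 1)], .dead [(22, 1), (1, 1), (0, 1)], .red 0 265 [(24, 133), (14, 2), (3, 1), (2, 133),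 (0, 133)], .dead [(24, 133), (14, 2), (3, 1), (2, 133), (0, 133)], .dead [(24, 1), (22, 1), (0, 1)], .dead [(24, 1), (23, 1), (22, 1), (0, 1)]] (.cons (.ref 53 [(0, [(27, 1)]), (0, [(26, 1)]), (0, [(25, 1)]), (0, [(24, 1)]), (0, [(23, 1)]), (0, [(22, 1)]), (0, [(1, 1)]), (0, [(0, 1)]), (0, [(20, 2), (3, 133), (2, 1)])]) (.cons (.ref 54 [(0, [(27, 1)]), (0, [(26, 1)]), (0, [(25, 1)]), (0, [(24, 1)]), (0, [(23, 1)]), (0, [(22, 1)]), (0, [(1, 1)]), (0, [(0, 1)]), (0, [(20, 2), (3, 133), (2, 1)])]) (.nil)))) (.nil)))))) (.cons (.node 0 (1) (1) (0) [.kid, .dead [(22, 1), (0, 1)], .kid, .dead [(23, 1), (0, 1)], .red 0 265 [(22, 133), (21, 133), (9, 2), (2, 1), (1, 133), (0, 266)], .red 1 0 [(23, 1), (0, 1)], .kid, .dead [(22, 1), (0, 1)], .red 0 265 [(23, 133), (21, 133), (9, 2), (2, 1), (1, 133), (0, 133)], .dead [(23, 1), (22, 1), (0, 1)], .kid,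 .red 1 265 [(23, 133), (21, 133), (9, 2), (2, 1), (1, 133), (0, 133)], .dead [(23, 1), (0, 1)], .dead [(23, 1), (22, 1), (0, 1)]] (.cons (.node 0 (1) (1) (-1) [.red 2 132 [(24, 133), (10, 2), (3, 1), (2, 133), (0, 266)], .dead [(22, 1), (1, 1), (0, 1)], .kid, .dead [(24, 1), (0, 1)], .dead [(23, 1), (0, 1)], .kid, .dead [(27, 133), (26, 266), (10, 40), (3, 20), (2, 2660), (0, 2660)], .dead [(23, 1), (22, 1), (0, 1)], .dead [(24, 133), (10, 2), (3, 1), (2, 133), (0, 133)], .dead [(24, 1), (23, 1), (22, 1), (0, 1)], .kid, .red 2 0 [(22, 2), (1, 2), (0, 1)], .red 1 265 [(24, 133), (10, 2), (3, 1), (2, 133), (0, 133)], .dead [(24, 1), (22, 1), (1, 1), (0, 1)]] (.cons (.ref 55 [(0, [(27, 1)]), (0, [(26, 1)]), (0, [(25, 1)]), (0, [(24, 1)]), (0, [(23, 1)]), (0, [(22, 1)]), (0, [(1, 1)]), (0, [(0, 1)]), (0, [(19, 2), (3, 133), (2, 1)])]) (.cons (.ref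 56 [(0, [(27, 1)]), (0, [(26, 1)]), (0, [(25, 1)]), (0, [(24, 1)]), (0, [(23, 1)]), (0, [(22, 1)]), (0, [(1, 1)]), (0, [(0, 1)]), (0, [(19, 2), (3, 133), (2, 1)])]) (.cons (.ref 57 [(0, [(27, 1)]), (0, [(26, 1)]), (0, [(25, 1)]), (0, [(24, 1)]), (0, [(23, 1)]), (0, [(22, 1)]), (0, [(1, 1)]), (0, [(0, 1)]), (0, [(19, 2), (3, 133), (2, 1)])]) (.nil))))) (.cons (.ref 58 [(0, [(26, 1)]), (0, [(25, 1)]), (0, [(24, 1)]), (0, [(23, 1)]), (0, [(22, 1)]), (0, [(21, 1)]), (0, [(0, 1)]), (0, [(18, 2), (2, 133), (1, 1)])]) (.cons (.node 0 (1) (1) (-1) [.red 1 132 [(24, 133), (10, 2), (3, 1), (2, 133), (0, 266)], .dead [(23, 1), (22, 2), (1, 1), (0, 2)], .kid, .dead [(24, 1), (0, 1)], .dead [(23, 1), (0, 1)], .red 1 0 [(22, 1), (1, 1), (0, 2)], .dead [(27, 133), (26, 266), (10, 40), (3, 20), (2, 2660), (0, 2660)], .dead [(23, 1), (22, 1), (0, 1)], .dead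 [(24, 133), (10, 2), (3, 1), (2, 133), (0, 133)], .dead [(24, 1), (23, 1), (22, 1), (0, 1)], .kid, .red 0 1 [(22, 1), (1, 1), (0, 1)], .dead [(27, 2), (25, 1), (1, 20), (0, 20)], .dead [(22, 1), (1, 1), (0, 1)]] (.cons (.ref 59 [(0, [(27, 1)]), (0, [(26, 1)]), (0, [(25, 1)]), (0, [(24, 1)]), (0, [(23, 1)]), (0, [(22, 1)]), (0, [(1, 1)]), (0, [(0, 1)]), (0, [(19, 2), (3, 133), (2, 1)])]) (.cons (.ref 60 [(0, [(27, 1)]), (0, [(26, 1)]), (0, [(25, 1)]), (0, [(24, 1)]), (0, [(23, 1)]), (0, [(22, 1)]), (0, [(1, 1)]), (0, [(0, 1)]), (0, [(19, 2), (3, 133), (2, 1)])]) (.nil)))) (.cons (.ref 61 [(0, [(26, 1)]), (0, [(25, 1)]), (0, [(24, 1)]), (0, [(23, 1)]), (0, [(22, 1)]), (0, [(21, 1)]), (0, [(0, 1)]), (0, [(18, 2), (2, 133), (1, 1)])]) (.nil)))))) (.nil)))))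

end Pool.Agent.Helper58.KB
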