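import Pool.Agent.Helper58.KB.TrE_0
set_option autoImplicit false
set_option maxRecDepth 100000
namespace Pool.Agent.Helper58.KB

/-- all lists of forms -/
def FsE : List (List (List ℤ)) := FE_0

theorem hFsE : ∀ F ∈ FsE, Valid GE F :=
  hFE_0

/-- a subtree -/
def nE_0 : T := .node 0 (1) (1) (1) [.kid, .dead [(20, 1), (0, 1)], .kid, .dead [(22, 1), (0, 1)], .kid, .dead [(21, 1), (0, 1)], .kid, .red 3 0 [(20, 2), (0, 1)], .red 3 0 [(22, 2), (0, 1)], .dead [(22, 1), (20, 1), (0, 1)], .red 3 0 [(21, 2), (0, 1)], .dead [(21, 1), (20, 1), (0, 1)], .dead [(22, 1), (21, 1), (0, 1)], .dead [(22, 1), (21, 1), (20, 1), (0, 1)]] (.cons (.ref 0 [(0, [(25, 1)]), (0, [(24, 1)]), (0, [(23, 1)]), (0, [(22, 1)]), (0, [(21, 1)]), (0, [(20, 1)]), (0, [(0, 1)])]) (.cons (.ref 1 [(0, [(25, 1)]), (0, [(24, 1)]), (0, [(23, 1)]), (0, [(22, 1)]), (0, [(21, 1)]), (0, [(20, 1)]), (0,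 [(0, 1)])]) (.cons (.ref 2 [(0, [(25, 1)]), (0, [(24, 1)]), (0, [(23, 1)]), (0, [(22, 1)]), (0, [(21, 1)]), (0, [(20, 1)]), (0, [(0, 1)])]) (.cons (.ref 3 [(0, [(25, 1)]), (0, [(24, 1)]), (0, [(23, 1)]), (0, [(22, 1)]), (0, [(21, 1)]), (0, [(20, 1)]), (0, [(0, 1)])]) (.nil)))))

end Pool.Agent.Helper58.KB
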